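import Pool.Agent.SIG.Defs

namespace Pool.Agent.SIG

variable {A B L : Type*} {e : A} {T : A → A → A → Prop} {d : B → B → A} {lev : B → L}

theorem Sys.T13 (S : Sys e T d lev) {a b c : A} (h : T a b c) : T c b a :=
  S.T23 _ _ _ (S.T12 _ _ _ (S.T23 _ _ _ h))

theorem Sys.T231 (S : Sys e T d lev) {a b c : A} (h : T a b c) : T b c a :=
  S.T23 _ _ _ (S.T12 _ _ _ h)

theorem Sys.T312 (S : Sys e T d lev) {a b c : A} (h : T a b c) : T c a b :=
  S.T12 _ _ _ (S.T23 _ _ _ h)

theorem Sys.aae (S : Sys e T d lev) (a : A) : T a a e :=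
  S.T231 ((S.Te a a).2 rfl)

theorem Sys.aae_iff (S : Sys e T d lev) (a b : A) : T a b e ↔ a = b :=
  ⟨fun h => (S.Te a b).1 (S.T312 h), fun h => h ▸ S.aae a⟩

theorem Sys.dself (S : Sys e T d lev) (x : B) : d x x = e := (S.deq x x).2 rfl

theorem exists_label_at (S : Sys e T d lev) (x : B) (a : A) (ha : a ≠ e) (k : L) :
    ∃ y, lev y = k ∧ d x y = a := by
  obtain ⟨z, hz, hz'⟩ := S.ep {x} (fun _ => a) k (fun _ _ => ha) (by
    intro y hy z hz
    rw [Finset.mem_singleton.1 hy, Finset.mem_singleton.1 hz, S.dself]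
    exact S.aae a)
  exact ⟨z, hz, by rw [S.dsymm]; exact hz' x (Finset.mem_singleton_self x)⟩

theorem exists_label [Nonempty L] (S : Sys e T d lev) (a : A) : ∃ x y, d x y = a := by
  obtain ⟨k⟩ := ‹Nonempty L›
  obtain ⟨x, _, _⟩ := S.ep ∅ (fun _ => e) k (by simp) (by simp)
  by_cases ha : a = e
  · exact ⟨x, x, by rw [ha]; exact S.dself x⟩
  · obtain ⟨y, _, hy⟩ := exists_label_at S x a ha k
    exact ⟨x, y, hy⟩

theorem exists_third (S : Sys e T d lev) (x y : B) (a b : A) (ha : a ≠ e) (hb : b ≠ e)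
    (h : T a b (d x y)) (k : L) : ∃ z, lev z = k ∧ d x z = a ∧ d y z = b := by
  classical
  by_cases hxy : x = y
  · subst hxy
    rw [S.dself, S.aae_iff] at h
    subst h
    obtain ⟨z, hz, hz'⟩ := exists_label_at S x a ha k
    exact ⟨z, hz, hz', hz'⟩
  · obtain ⟨z, hz, hz'⟩ := S.ep {x, y} (fun w => if w = x then a else b) k (by
      intro w _
      split_ifs
      · exact ha
      · exact hb) (by
      intro u hu v hv
      simp only [Finset.mem_insert, Finset.mem_singleton] at hu hv
      have hyx : y ≠ x := fun h => hxy h.symm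
      rcases hu with rfl | rfl <;> rcases hv with rfl | rfl
      · simp only [if_true]
        rw [S.dself]; exact S.aae a
      · simp only [if_true, hyx, if_false]
        exact h
      · simp only [if_true, hyx, if_false]
        rw [S.dsymm]; exact S.T12 _ _ _ h
      · simp only [hyx, if_false]
        rw [S.dself]; exact S.aae b)
    refine ⟨z, hz, ?_, ?_⟩
    · rw [S.dsymm]
      have := hz' x (by simp)
      simpa using this
    · rw [S.dsymm]
      have := hz' y (by simp)
      have hyx : y ≠ x := fun h => hxy h.symm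
      simpa [hyx] using this

theorem exists_tri [Nonempty L] (S : Sys e T d lev) (a b c : A) (h : T a b c) :
    ∃ x y z, d x y = a ∧ d y z = b ∧ d x z = c := by
  obtain ⟨x, y, hxy⟩ := exists_label S a
  by_cases hc : c = e
  · subst hc
    have hab : a = b := (S.aae_iff a b).1 h
    exact ⟨x, y, x, hxy, by rw [S.dsymm, hxy, hab], S.dself x⟩
  · by_cases hb : b = e
    · subst hb
      have hac : a = c := (S.Te a c).1 (S.T12 _ _ _ h)
      exact ⟨x, y, y, hxy, S.dself y, by rw [hxy, hac]⟩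
    · obtain ⟨k⟩ := ‹Nonempty L›
      obtain ⟨z, _, h1, h2⟩ := exists_third S x y c b hc hb (by rw [hxy]; exact S.T13 h) k
      exact ⟨x, y, z, hxy, h2, h1⟩

theorem conn_label (S : USys e T d) (b : A) (hb : b ≠ e) (x y : B) :
    Relation.ReflTransGen (fun u v => d u v = b) x y := by
  have key := S.prim {y | y ≠ e ∧ ∀ u v, d u v = y →
    Relation.ReflTransGen (fun u v => d u v = b) u v} (fun h => h.1 rfl)
    ⟨b, hb, fun u v h => Relation.ReflTransGen.single h⟩ (by
      rintro p ⟨hp, hp'⟩ q ⟨hq, hq'⟩ r hr hT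
      refine ⟨hr, fun u w huw => ?_⟩
      obtain ⟨v, _, h1, h2⟩ := exists_third S u w p q hp hq (by rw [huw]; exact hT) ()
      exact (hp' u v h1).trans (hq' v w (by rw [S.dsymm]; exact h2)))
  by_cases hxy : d x y = e
  · rw [(S.deq x y).1 hxy]
  · exact (key (d x y) hxy).2 x y rfl

theorem AutL.symm {γ : B ≃ B} (h : AutL d lev γ) : AutL d lev γ.symm := by
  refine ⟨fun x y => ?_, fun x => ?_⟩
  · have := h.1 (γ.symm x) (γ.symm y)
    simpa using this.symm
  · have := h.2 (γ.symm x)
    simpa using this.symm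

theorem AutL.trans {γ γ' : B ≃ B} (h : AutL d lev γ) (h' : AutL d lev γ') :
    AutL d lev (γ.trans γ') := by
  refine ⟨fun x y => ?_, fun x => ?_⟩
  · simp only [Equiv.trans_apply]
    rw [h'.1, h.1]
  · simp only [Equiv.trans_apply]
    rw [h'.2, h.2]

theorem AutL.refl : AutL d lev (Equiv.refl B) := ⟨fun _ _ => rfl, fun _ => rfl⟩

end Pool.Agent.SIG
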