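import Pool.Agent.SIG.RADefs
import Pool.Agent.SIG.BAS

namespace Pool.Agent.SIG

universe u v

theorem sys_of_normal {A : Type u} [BooleanAlgebra A] [Finite A] (R : RelAlg A)
    (hsym : R.Symmetric) {B : Type v} [Nonempty B] (ρ : A → B → B → Prop)
    (hn : IsNormalRep R ρ) (hp : AutPrimitive ρ) :
    ∃ (e : Atoms A) (d : B → B → Atoms A), USys e R.Allowed d ∧
      ∀ a x y, ρ a x y ↔ (d x y).1 ≤ a := by
  classical
  have sq := hn.square
  have hmono : ∀ a b x y, a ≤ b → ρ a x y → ρ b x y := by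
    intro a b x y hab h
    rw [← sup_eq_right.2 hab, sq.sup]
    exact Or.inl h
  have hinf : ∀ a b x y, ρ a x y → ρ b x y → ρ (a ⊓ b) x y := by
    intro a b x y ha hb
    have h1 : a ⊓ b = (aᶜ ⊔ bᶜ)ᶜ := by rw [compl_sup, compl_compl, compl_compl]
    rw [h1, sq.compl, sq.sup, sq.compl, sq.compl]
    tauto
  have hex : ∀ a, a ≠ ⊥ → ∃ x y, ρ a x y := by
    intro a ha
    by_contra hcon
    push Not at hcon
    apply ha
    apply sq.inj
    funext x y
    exact propext ⟨fun h => absurd h (hcon x y), fun h => absurd h (sq.bot x y)⟩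
  -- the label
  have hlab : ∀ x y, ∃ a : Atoms A, ρ a.1 x y ∧ ∀ c, ρ c x y ↔ a.1 ≤ c := by
    intro x y
    obtain ⟨a, ha⟩ := Set.Finite.exists_minimal (s := {a | ρ a x y}) (Set.toFinite _)
      ⟨⊤, sq.top x y⟩
    have haρ : ρ a x y := ha.1
    have hat : IsAtom a := by
      refine ⟨?_, fun b hb => ?_⟩
      · intro h0
        rw [h0] at haρ
        exact sq.bot x y haρ
      · by_cases hbρ : ρ b x y
        · exact absurd (ha.2 hbρ hb.le) (not_le_of_gt hb)
        · have h1 : ρ (a ⊓ bᶜ) x y := hinf _ _ _ _ haρ ((sq.compl b x y).2 hbρ)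
          have h2 : a ≤ a ⊓ bᶜ := ha.2 h1 inf_le_left
          have h3 : b ≤ bᶜ := hb.le.trans (h2.trans inf_le_right)
          exact le_compl_self.1 h3
    refine ⟨⟨a, hat⟩, haρ, fun c => ⟨fun hc => ?_, fun hc => hmono _ _ _ _ hc haρ⟩⟩
    have h1 : ρ (a ⊓ c) x y := hinf _ _ _ _ haρ hc
    rcases hat.le_iff.1 (inf_le_left : a ⊓ c ≤ a) with h2 | h2
    · rw [h2] at h1
      exact absurd h1 (sq.bot x y)
    · exact inf_eq_left.1 h2
  choose d hd0 hd using hlab
  have hdeq : ∀ x y (c : Atoms A), ρ c.1 x y → d x y = c := by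
    intro x y c hc
    have h1 := (hd x y c.1).1 hc
    rcases c.2.le_iff.1 h1 with h2 | h2
    · exact absurd h2 (d x y).2.1
    · exact Subtype.ext h2
  have hreal : ∀ c : Atoms A, ∃ x y, d x y = c := by
    intro c
    obtain ⟨x, y, h⟩ := hex c.1 c.2.1
    exact ⟨x, y, hdeq x y c h⟩
  have hsy : ∀ a x y, ρ a x y ↔ ρ a y x := by
    intro a x y
    have h1 := sq.conv a x y
    rwa [hsym a] at h1
  have hds : ∀ x y, d x y = d y x := fun x y => hdeq x y (d y x) ((hsy _ _ _).1 (hd0 y x))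
  -- the identity is an atom
  have hone : IsAtom R.one' := by
    obtain ⟨x₀⟩ := ‹Nonempty B›
    refine ⟨fun h0 => ?_, fun b hb => ?_⟩
    · have h1 := (sq.one' x₀ x₀).2 rfl
      rw [h0] at h1
      exact sq.bot _ _ h1
    · by_contra hb0
      have hb'0 : R.one' ⊓ bᶜ ≠ ⊥ := by
        intro h
        exact absurd (disjoint_compl_right_iff.1 (disjoint_iff.2 h)) (not_le_of_gt hb)
      obtain ⟨x, x', hx⟩ := hex b hb0
      obtain rfl := (sq.one' x x').1 (hmono _ _ _ _ hb.le hx)
      obtain ⟨y, y', hy⟩ := hex _ hb'0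
      obtain rfl := (sq.one' y y').1 (hmono _ _ _ _ inf_le_left hy)
      have h1 : ρ (R.comp (R.comp b ⊤) (R.one' ⊓ bᶜ)) x y :=
        (sq.comp _ _ _ _).2 ⟨y, (sq.comp _ _ _ _).2 ⟨x, hx, sq.top _ _⟩, hy⟩
      obtain ⟨w, hw, -⟩ := (sq.comp _ _ _ _).1 ((hsy _ _ _).1 h1)
      obtain ⟨z, hz, -⟩ := (sq.comp _ _ _ _).1 hw
      obtain rfl := (sq.one' y z).1 (hmono _ _ _ _ hb.le hz)
      exact (sq.compl b y y).1 (hmono _ _ _ _ inf_le_right hy) hz
  set e : Atoms A := ⟨R.one', hone⟩ with he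
  have hde : ∀ x y, d x y = e ↔ x = y := by
    intro x y
    constructor
    · intro h
      have h1 := hd0 x y
      rw [h] at h1
      exact (sq.one' x y).1 h1
    · intro h
      exact hdeq x y e ((sq.one' x y).2 h)
  have hself : ∀ x, d x x = e := fun x => (hde x x).2 rfl
  -- allowed triples
  have hT : ∀ a b c : Atoms A, R.Allowed a b c ↔ ∃ x z y, d x z = a ∧ d z y = b ∧ d x y = c := by
    intro a b c
    constructor
    · intro h
      obtain ⟨x, y, hxy⟩ := hreal c
      have h1 : ρ (R.comp a.1 b.1) x y := by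
        rw [hd, hxy]
        exact h
      obtain ⟨z, hz1, hz2⟩ := (sq.comp _ _ _ _).1 h1
      exact ⟨x, z, y, hdeq _ _ _ hz1, hdeq _ _ _ hz2, hxy⟩
    · rintro ⟨x, z, y, rfl, rfl, rfl⟩
      exact (hd x y _).1 ((sq.comp _ _ _ _).2 ⟨z, hd0 _ _, hd0 _ _⟩)
  have hT12 : ∀ a b c : Atoms A, R.Allowed a b c → R.Allowed b a c := by
    intro a b c h
    obtain ⟨x, z, y, h1, h2, h3⟩ := (hT _ _ _).1 h
    exact (hT _ _ _).2 ⟨y, z, x, by rw [hds, h2], by rw [hds, h1], by rw [hds, h3]⟩
  have hT23 : ∀ a b c : Atoms A, R.Allowed a b c → R.Allowed a c b := by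
    intro a b c h
    obtain ⟨x, z, y, h1, h2, h3⟩ := (hT _ _ _).1 h
    exact (hT _ _ _).2 ⟨z, x, y, by rw [hds, h1], h3, h2⟩
  have hTe : ∀ a b : Atoms A, R.Allowed e a b ↔ a = b := by
    intro a b
    constructor
    · intro h
      obtain ⟨x, z, y, h1, h2, h3⟩ := (hT _ _ _).1 h
      obtain rfl := (hde _ _).1 h1
      exact h2.symm.trans h3
    · rintro rfl
      obtain ⟨x, y, h⟩ := hreal a
      exact (hT _ _ _).2 ⟨x, x, y, hself x, h, h⟩
  have htri : ∀ x y z, R.Allowed (d x y) (d y z) (d x z) := fun x y z =>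
    (hT _ _ _).2 ⟨x, y, z, rfl, rfl, rfl⟩
  have haut : ∀ γ : B ≃ B, IsAut ρ γ → ∀ x y, d (γ x) (γ y) = d x y := fun γ hγ x y =>
    hdeq _ _ _ ((hγ _ _ _).2 (hd0 x y))
  have hρd : ∀ (a : A) (x y x' y' : B), d x y = d x' y' → (ρ a x y ↔ ρ a x' y') := by
    intro a x y x' y' h
    rw [hd, hd, h]
  refine ⟨e, d, ⟨hT12, hT23, hTe, hds, hde, htri, ?_, ?_⟩, fun a x y => hd x y a⟩
  · intro F t k ht0 htt
    set n := F.card with hnF
    set p : Fin n → B := fun i => (F.equivFin.symm i : B) with hp'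
    have hpF : ∀ i, p i ∈ F := fun i => (F.equivFin.symm i).2
    have hpinj : Function.Injective p := fun i j h =>
      F.equivFin.symm.injective (Subtype.ext h)
    set g : Fin (n + 1) → Fin (n + 1) → Atoms A := fun i j =>
      Fin.cases (motive := fun _ => Atoms A) (Fin.cases (motive := fun _ => Atoms A) e
        (fun j => t (p j)) j) (fun i => Fin.cases (motive := fun _ => Atoms A) (t (p i))
        (fun j => d (p i) (p j)) j) i with hg
    have hg00 : g 0 0 = e := rfl
    have hg0s : ∀ j : Fin n, g 0 j.succ = t (p j) := fun j => rfl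
    have hgs0 : ∀ i : Fin n, g i.succ 0 = t (p i) := fun i => rfl
    have hgss : ∀ i j : Fin n, g i.succ j.succ = d (p i) (p j) := fun i j => rfl
    have haae : ∀ a : Atoms A, R.Allowed a a e := fun a =>
      hT23 _ _ _ (hT12 _ _ _ ((hTe a a).2 rfl))
    obtain ⟨s, hs⟩ := hn.univ (n + 1) (fun i j => (g i j).1) (fun i j => (g i j).2) (by
      intro i
      refine Fin.cases ?_ (fun i => ?_) i
      · exact le_refl _
      · change (g i.succ i.succ).1 ≤ _
        rw [hgss, hself]) (by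
      intro i j
      rw [hsym]
      refine congrArg Subtype.val ?_
      refine Fin.cases ?_ (fun i => ?_) i <;> refine Fin.cases ?_ (fun j => ?_) j
      · rfl
      · rfl
      · rfl
      · exact hds _ _) (by
      intro i j k
      change R.Allowed (g i j) (g j k) (g i k)
      refine Fin.cases ?_ (fun i => ?_) i <;> refine Fin.cases ?_ (fun j => ?_) j <;>
        refine Fin.cases ?_ (fun k => ?_) k
      · rw [hg00]; exact (hTe _ _).2 rfl
      · rw [hg00, hg0s]; exact (hTe _ _).2 rfl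
      · rw [hg0s, hgs0, hg00]; exact haae _
      · rw [hg0s, hgss, hg0s]
        exact hT23 _ _ _ (htt _ (hpF _) _ (hpF _))
      · rw [hgs0, hg00]
        exact hT23 _ _ _ (haae _)
      · rw [hgs0, hg0s, hgss]
        exact htt _ (hpF _) _ (hpF _)
      · rw [hgss, hgs0, hgs0]
        exact hT12 _ _ _ (hT23 _ _ _ (hT12 _ _ _ (htt _ (hpF _) _ (hpF _))))
      · rw [hgss, hgss, hgss]
        exact htri _ _ _)
    have hs' : ∀ i j, d (s i) (s j) = g i j := fun i j => hdeq _ _ _ (hs i j)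
    have hsinj : Function.Injective (fun i : Fin n => s i.succ) := by
      intro i j h
      have h1 := hs' i.succ j.succ
      simp only at h
      rw [h, hself, hgss] at h1
      exact hpinj ((hde _ _).1 h1.symm)
    obtain ⟨γ, hγ, hγ'⟩ := hn.homog (Set.range fun i : Fin n => s i.succ) (Set.range p)
      ((Equiv.ofInjective _ hsinj).symm.trans (Equiv.ofInjective p hpinj)) (Set.toFinite _) (by
        rintro a ⟨_, i, rfl⟩ ⟨_, j, rfl⟩
        have h1 : ∀ i : Fin n, (((Equiv.ofInjective _ hsinj).symm.trans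
            (Equiv.ofInjective p hpinj)) ⟨s i.succ, i, rfl⟩ : Set.range p) = ⟨p i, i, rfl⟩ := by
          intro i
          have h2 : (⟨s i.succ, i, rfl⟩ : Set.range fun i : Fin n => s i.succ) =
              Equiv.ofInjective _ hsinj i := rfl
          rw [h2, Equiv.trans_apply, Equiv.symm_apply_apply]
          rfl
        rw [h1 i, h1 j]
        refine hρd _ _ _ _ _ ?_
        rw [hs', hgss])
    have hγs : ∀ i : Fin n, γ (s i.succ) = p i := by
      intro i
      have h1 := hγ' ⟨s i.succ, i, rfl⟩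
      rw [h1]
      have h2 : (⟨s i.succ, i, rfl⟩ : Set.range fun i : Fin n => s i.succ) =
          Equiv.ofInjective _ hsinj i := rfl
      rw [h2, Equiv.trans_apply, Equiv.symm_apply_apply]
      rfl
    refine ⟨γ (s 0), rfl, fun x hx => ?_⟩
    have hxi : p (F.equivFin ⟨x, hx⟩) = x := by
      simp only [hp']
      rw [Equiv.symm_apply_apply]
    rw [← hxi, ← hγs, haut γ hγ, hs', hg0s, hγs]
  · intro E heE hE hcl z hz
    have hr := hp (fun x y => x = y ∨ d x y ∈ E) ⟨fun x => Or.inl rfl, by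
        rintro x y (rfl | h)
        · exact Or.inl rfl
        · exact Or.inr (by rw [hds]; exact h), by
        rintro x y z (rfl | h) (rfl | h')
        · exact Or.inl rfl
        · exact Or.inr h'
        · exact Or.inr h
        · by_cases hxz : x = z
          · exact Or.inl hxz
          · exact Or.inr (hcl _ h _ h' _ (fun h' => hxz ((hde _ _).1 h')) (htri _ _ _))⟩ (by
        rintro γ hγ x y (rfl | h)
        · exact Or.inl rfl
        · exact Or.inr (by rw [haut γ hγ]; exact h))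
    rcases hr with hr | hr
    · obtain ⟨c, hc⟩ := hE
      obtain ⟨x, y, hxy⟩ := hreal c
      have h1 := hr x y (Or.inr (by rw [hxy]; exact hc))
      rw [h1, hself] at hxy
      rw [← hxy] at hc
      exact absurd hc heE
    · obtain ⟨x, y, hxy⟩ := hreal z
      rcases hr x y with h1 | h1
      · rw [h1, hself] at hxy
        exact absurd hxy.symm hz
      · rwa [hxy] at h1

end Pool.Agent.SIG
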