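import Pool.Agent.SIG.RADefs
import Pool.Agent.SIG.BAS

namespace Pool.Agent.SIG

universe u v

private theorem slv_stage {A : Type u} [BooleanAlgebra A] {B : Type v}
    (ρ : A → B → B → Prop) (d : B → B → Atoms A) (hd : ∀ a x y, ρ a x y ↔ (d x y).1 ≤ a)
    (k l : ℕ) {n : ℕ} (N : Fin n → Fin n → Set (Atoms A))
    (H : Finset (Fin n) → (Fin n → B) → Prop) (hH : Strat d k l N H) :
    ∀ (m : ℕ) (S : Finset (Fin n)) (h : Fin n → B), H S h →
      Stage ρ k l (fun a i j => ∀ c ∈ N i j, c.1 ≤ a) m S (fun x => h x) := by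
  intro m
  induction m with
  | zero =>
    intro S h hS
    refine ⟨hH.card S h hS, ?_⟩
    intro a i j hI
    rw [hd]
    exact hI _ (hH.hom S h hS i i.2 j j.2)
  | succ m ih =>
    intro S h hS
    refine ⟨ih S h hS, ?_, ?_⟩
    · intro S' hS'
      exact ih S' h (hH.restr S S' h hS hS')
    · intro hk W hW hWl
      obtain ⟨h', h1, h2⟩ := hH.ext S W h hS hk hW hWl
      exact ⟨fun x => h' x, fun x => h1 x x.2, ih W h' h2⟩

theorem solves_of_solvedBy {A : Type u} [BooleanAlgebra A] [Finite A] {B : Type v} [Nonempty B]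
    (ρ : A → B → B → Prop) (d : B → B → Atoms A) (hd : ∀ a x y, ρ a x y ↔ (d x y).1 ≤ a)
    (k l : ℕ) (h : SolvedBy ρ k l) : Solves d k l := by
  intro n N H hH
  have hsat : Satisfiable ρ (fun a i j => ∀ c ∈ N i j, c.1 ≤ a) := by
    by_contra hns
    obtain ⟨m, hm⟩ := (h n (fun a i j => ∀ c ∈ N i j, c.1 ≤ a)).2 hns
    obtain ⟨h0, hh0⟩ := hH.ne
    exact hm ∅ _ (slv_stage ρ d hd k l N H hH m ∅ h0 hh0)
  obtain ⟨g, hg⟩ := hsat
  refine ⟨g, ?_⟩
  intro x y
  by_contra hxy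
  have h1 : ρ ((d (g x) (g y)).1)ᶜ (g x) (g y) := by
    apply hg
    intro c hc
    have hne : c ≠ d (g x) (g y) := fun hcd => hxy (hcd ▸ hc)
    have hne' : c.1 ≠ (d (g x) (g y)).1 := fun h' => hne (Subtype.ext h')
    exact (c.2.disjoint_of_ne (d (g x) (g y)).2 hne').le_compl_right
  rw [hd] at h1
  have h2 : (d (g x) (g y)).1 = ⊥ := by
    have h3 := le_inf h1 (le_refl (d (g x) (g y)).1)
    rw [compl_inf_eq_bot] at h3
    exact le_bot_iff.1 h3
  exact (d (g x) (g y)).2.1 h2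

end Pool.Agent.SIG
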