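import Pool.Agent.SIG.REA

namespace Pool.Agent.SIG

private theorem sub_closed {B C : Type*} [Countable C] (b₀ : B) (sk : Finset (B × C) → B) :
    ∃ B₀ : Set B, B₀.Countable ∧ b₀ ∈ B₀ ∧
      ∀ Γ : Finset (B × C), (∀ p ∈ Γ, p.1 ∈ B₀) → sk Γ ∈ B₀ := by
  classical
  let step : Set B → Set B := fun s => s ∪ sk '' {Γ | ∀ p ∈ Γ, p.1 ∈ s}
  let Cn : ℕ → Set B := fun n => step^[n] {b₀}
  have hsucc : ∀ n, Cn (n + 1) = step (Cn n) := by
    intro n
    exact Function.iterate_succ_apply' step n {b₀}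
  have hcount : ∀ s : Set B, s.Countable → (step s).Countable := by
    intro s hs
    refine hs.union (Set.Countable.image ?_ sk)
    have h1 : (s ×ˢ (Set.univ : Set C)).Countable := hs.prod Set.countable_univ
    have h2 := Set.countable_ofPred_finite_subset h1
    refine Set.MapsTo.countable_of_injOn (f := fun Γ : Finset (B × C) => (Γ : Set (B × C)))
      ?_ ?_ h2
    · intro Γ hΓ
      refine ⟨Γ.finite_toSet, ?_⟩
      intro p hp
      exact ⟨hΓ p (Finset.mem_coe.1 hp), Set.mem_univ _⟩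
    · intro Γ _ Γ' _ h
      exact Finset.coe_injective h
  have hCc : ∀ n, (Cn n).Countable := by
    intro n
    induction n with
    | zero => exact Set.countable_singleton b₀
    | succ n ih => rw [hsucc]; exact hcount _ ih
  have hmono : Monotone Cn := by
    apply monotone_nat_of_le_succ
    intro n
    rw [hsucc]
    exact Set.subset_union_left
  refine ⟨⋃ n, Cn n, Set.countable_iUnion hCc, Set.mem_iUnion.2 ⟨0, rfl⟩, ?_⟩
  intro Γ hΓ
  have : ∃ n, ∀ p ∈ Γ, p.1 ∈ Cn n := by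
    induction Γ using Finset.induction_on with
    | empty => exact ⟨0, by simp⟩
    | insert p Γ hp ih =>
      obtain ⟨n, hn⟩ := ih (fun q hq => hΓ q (Finset.mem_insert_of_mem hq))
      obtain ⟨m, hm⟩ := Set.mem_iUnion.1 (hΓ p (Finset.mem_insert_self p Γ))
      refine ⟨max n m, ?_⟩
      intro q hq
      rcases Finset.mem_insert.1 hq with rfl | hq
      · exact hmono (le_max_right n m) hm
      · exact hmono (le_max_left n m) (hn q hq)
  obtain ⟨n, hn⟩ := this
  refine Set.mem_iUnion.2 ⟨n + 1, ?_⟩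
  rw [hsucc]
  exact Or.inr ⟨Γ, hn, rfl⟩

theorem exists_countable {A B : Type*} [Finite A] {e : A} {T : A → A → A → Prop}
    {d : B → B → A} (S : USys e T d) :
    ∃ B₀ : Set B, B₀.Countable ∧ USys e T (fun x y : B₀ => d x y) ∧
      ∀ k l, Solves d k l → Solves (fun x y : B₀ => d x y) k l := by
  classical
  obtain ⟨b₀, -, -⟩ := S.ep ∅ (fun _ => e) () (by simp) (by simp)
  let sk : Finset (B × A) → B := fun Γ =>
    if h : ∃ z, ∀ p ∈ Γ, d z p.1 = p.2 then h.choose else b₀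
  have hsk : ∀ Γ : Finset (B × A), (∃ z, ∀ p ∈ Γ, d z p.1 = p.2) →
      ∀ p ∈ Γ, d (sk Γ) p.1 = p.2 := by
    intro Γ h
    have : sk Γ = h.choose := dif_pos h
    rw [this]
    exact h.choose_spec
  obtain ⟨B₀, hc, hb, hcl⟩ := sub_closed b₀ sk
  have S₀ : USys e T (fun x y : B₀ => d x y) := by
    refine ⟨S.T12, S.T23, S.Te, fun x y => S.dsymm x y, fun x y => ?_,
      fun x y z => S.tri x y z, ?_, S.prim⟩
    · rw [S.deq]
      exact Subtype.ext_iff.symm
    · intro F t k hF hT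
      let t' : B → A := fun x => if h : x ∈ B₀ then t ⟨x, h⟩ else e
      have ht' : ∀ x : B₀, t' x = t x := by
        intro x
        exact dif_pos x.2
      obtain ⟨z, -, hz⟩ := S.ep (F.image (fun x : B₀ => (x : B))) t' () (by
        intro x hx
        obtain ⟨y, hy, rfl⟩ := Finset.mem_image.1 hx
        rw [ht']
        exact hF y hy) (by
        intro x hx y hy
        obtain ⟨x', hx', rfl⟩ := Finset.mem_image.1 hx
        obtain ⟨y', hy', rfl⟩ := Finset.mem_image.1 hy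
        rw [ht', ht']
        exact hT x' hx' y' hy')
      let Γ : Finset (B × A) := F.image (fun x : B₀ => ((x : B), t x))
      have h1 : ∃ z, ∀ p ∈ Γ, d z p.1 = p.2 := by
        refine ⟨z, ?_⟩
        intro p hp
        obtain ⟨x, hx, rfl⟩ := Finset.mem_image.1 hp
        have h2 := hz x (Finset.mem_image_of_mem (fun x : B₀ => (x : B)) hx)
        rw [ht'] at h2
        exact h2
      refine ⟨⟨sk Γ, hcl Γ ?_⟩, rfl, ?_⟩
      · intro p hp
        obtain ⟨x, hx, rfl⟩ := Finset.mem_image.1 hp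
        exact x.2
      · intro x hx
        exact hsk Γ h1 ((x : B), t x)
          (Finset.mem_image_of_mem (fun x : B₀ => ((x : B), t x)) hx)
  refine ⟨B₀, hc, S₀, ?_⟩
  intro k l hsol n N H hH
  have hH' : Strat d k l N (fun S h => ∃ h₀ : Fin n → B₀, H S h₀ ∧ ∀ x, h x = h₀ x) := by
    refine ⟨?_, ?_, ?_, ?_, ?_⟩
    · obtain ⟨h₀, h⟩ := hH.ne
      exact ⟨fun x => h₀ x, h₀, h, fun x => rfl⟩
    · rintro S h ⟨h₀, h1, h2⟩
      exact hH.card S h₀ h1
    · rintro S h ⟨h₀, h1, h2⟩ x hx y hy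
      rw [h2, h2]
      exact hH.hom S h₀ h1 x hx y hy
    · rintro S S' h ⟨h₀, h1, h2⟩ hS
      exact ⟨h₀, hH.restr S S' h₀ h1 hS, h2⟩
    · rintro S W h ⟨h₀, h1, h2⟩ hS hSW hW
      obtain ⟨h', h3, h4⟩ := hH.ext S W h₀ h1 hS hSW hW
      refine ⟨fun x => h' x, ?_, h', h4, fun x => rfl⟩
      intro x hx
      show (h' x : B) = h x
      rw [h2, h3 x hx]
  obtain ⟨g, hg⟩ := hsol n N _ hH'
  obtain ⟨φ, hφ, -⟩ := realize S₀ (fun x y => d (g x) (g y)) (fun _ : Fin n => ())
    (fun x => S.dself (g x)) (fun x y => S.dsymm _ _) (fun x y z => S.tri _ _ _)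
    (fun _ _ _ => rfl)
  refine ⟨φ, ?_⟩
  intro x y
  have h1 : d (φ x : B) (φ y : B) = d (g x) (g y) := hφ x y
  show d (φ x : B) (φ y : B) ∈ N x y
  rw [h1]
  exact hg x y

end Pool.Agent.SIG
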