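import Pool.Agent.SIG.CORE
import Pool.Agent.SIG.SUB
import Pool.Agent.SIG.NRM
import Pool.Agent.SIG.SLV

namespace Pool.Agent.SIG

universe u v

theorem final {A : Type u} [BooleanAlgebra A] [Finite A] (R : RelAlg A)
    (hsym : R.Symmetric) {B : Type v} (ρ : A → B → B → Prop)
    (hn : IsNormalRep R ρ) (hp : AutPrimitive ρ) (hk : ∃ k l, k ≤ l ∧ SolvedBy ρ k l) :
    R.HasSiggers := by
  obtain ⟨k, l, hkl, hkl'⟩ := hk
  rcases isEmpty_or_nonempty B with hB | hB
  · have hA : Subsingleton A := by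
      refine ⟨fun a b => hn.square.inj ?_⟩
      funext x
      exact hB.elim x
    have hE : IsEmpty (Atoms A) := ⟨fun a => a.2.1 (Subsingleton.elim _ _)⟩
    refine ⟨fun x => x 0, fun x => hE.elim (x 0), fun x => hE.elim (x 0), fun x => hE.elim x⟩
  · obtain ⟨e, d, S, hd⟩ := sys_of_normal R hsym ρ hn hp
    have hs := solves_of_solvedBy ρ d hd k l hkl'
    obtain ⟨B₀, hc, S₀, h₀⟩ := exists_countable S
    have : Countable B₀ := hc
    exact core S₀ k l hkl (h₀ k l hs)

end Pool.Agent.SIG
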