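import Pool.Agent.SIG.UPC

namespace Pool.Agent.SIG

/-- the label coded by a Boolean -/
def sel {A : Type*} (a b : A) (p : Bool) : A := bif p then b else a

open Classical in
/-- every polymorphism acts on a unavoidable pair as a self dual idempotent Boolean operation -/
theorem exists_bool {ι A B : Type*} [Finite ι] [Finite A] [Countable B] {e : A}
    {T : A → A → A → Prop} {d : B → B → A} (S : USys e T d) (hG : Good e T)
    (a b : A) (ha : a ≠ e) (hb : b ≠ e) (hab : a ≠ b) (hu : Unif d a b)
    (φ : (ι → B) → B) (hφ : Pol d φ) :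
    ∃ h : (ι → Bool) → Bool, (∀ t, h (fun i => !(t i)) = !(h t)) ∧
      h (fun _ => false) = false ∧
      ∀ (t : ι → Bool) (P Q : ι → B), (∀ c, d (P c) (Q c) = sel a b (t c)) →
        d (φ P) (φ Q) = sel a b (h t) := by
  have hsel : ∀ p : Bool, sel a b p = a ∨ sel a b p = b := by
    intro p
    cases p
    · exact Or.inl rfl
    · exact Or.inr rfl
  -- places of every type
  have hpl : ∀ t : ι → Bool, ∃ P Q : ι → B, ∀ c, d (P c) (Q c) = sel a b (t c) := by
    intro t
    have h1 : ∀ c, ∃ x y, d x y = sel a b (t c) := fun c => exists_label S _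
    choose P Q hPQ using h1
    exact ⟨P, Q, hPQ⟩
  -- the label at a place
  have hab' : ∀ (t : ι → Bool) (P Q : ι → B), (∀ c, d (P c) (Q c) = sel a b (t c)) →
      d (φ P) (φ Q) = a ∨ d (φ P) (φ Q) = b := by
    intro t P Q h
    obtain ⟨i, hi⟩ := hφ P Q
    rw [hi, h i]
    exact hsel _
  let h : (ι → Bool) → Bool := fun t =>
    decide (∃ P Q : ι → B, (∀ c, d (P c) (Q c) = sel a b (t c)) ∧ d (φ P) (φ Q) = b)
  have hkey : ∀ (t : ι → Bool) (P Q : ι → B), (∀ c, d (P c) (Q c) = sel a b (t c)) →
      d (φ P) (φ Q) = sel a b (h t) := by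
    intro t P Q hPQ
    rcases hab' t P Q hPQ with h1 | h1
    · have h2 : h t = false := by
        apply decide_eq_false
        rintro ⟨P', Q', h3, h4⟩
        have h5 := up_canon S hG a b ha hb hab hu φ hφ P Q P' Q'
          (fun c => by rw [hPQ c]; exact hsel _) (fun c => by rw [h3 c, hPQ c])
        rw [h1, h4] at h5
        exact hab h5.symm
      rw [h2, h1]
      rfl
    · have h2 : h t = true := decide_eq_true ⟨P, Q, hPQ, h1⟩
      rw [h2, h1]
      rfl
  refine ⟨h, ?_, ?_, hkey⟩
  · intro t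
    obtain ⟨P, Q, hPQ⟩ := hpl t
    obtain ⟨P', Q', hPQ'⟩ := hpl (fun i => !(t i))
    have h1 := hkey t P Q hPQ
    have h2 := hkey _ P' Q' hPQ'
    have h3 := up_dual S hG a b ha hb hab hu φ hφ P Q P' Q' (by
      intro c
      rw [hPQ c, hPQ' c]
      cases t c
      · exact Or.inl ⟨rfl, rfl⟩
      · exact Or.inr ⟨rfl, rfl⟩)
    rw [h1, h2] at h3
    generalize h t = p at h3
    generalize h (fun i => !(t i)) = q at h3
    cases p <;> cases q
    · rcases h3 with h3 | h3
      · exact absurd h3.2 hab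
      · exact absurd h3.1 hab
    · rfl
    · rfl
    · rcases h3 with h3 | h3
      · exact absurd h3.1.symm hab
      · exact absurd h3.2.symm hab
  · obtain ⟨P, Q, hPQ⟩ := hpl (fun _ => false)
    have h1 := hkey _ P Q hPQ
    obtain ⟨i, hi⟩ := hφ P Q
    rw [hi, hPQ i] at h1
    generalize h (fun _ => false) = p at h1
    cases p
    · rfl
    · exact absurd h1 hab

end Pool.Agent.SIG
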