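import Pool.Agent.SIG.Defs

namespace Pool.Agent.SIG

section ALG

variable {A : Type*} {e : A} {T : A → A → A → Prop} {U : A → A → Prop} {r : A → A → A}
  {m : A → A → A → A}

private def algS12 (r : A → A → A) (t : A × A × A) : A × A × A :=
  (r t.1 t.2.1, r t.2.1 t.1, t.2.2)

private def algS13 (r : A → A → A) (t : A × A × A) : A × A × A :=
  (r t.1 t.2.2, t.2.1, r t.2.2 t.1)

private def algS23 (r : A → A → A) (t : A × A × A) : A × A × A :=
  (t.1, r t.2.1 t.2.2, r t.2.2 t.2.1)

private def algR (r : A → A → A) (t : A × A × A) : A × A × A :=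
  algS12 r (algS23 r (algS13 r (algS12 r t)))

private def algOK (p : A → Prop) (t : A × A × A) : Prop := p t.1 ∧ p t.2.1 ∧ p t.2.2

private def algT (T : A → A → A → Prop) (t u v : A × A × A) : Prop :=
  T t.1 u.1 v.1 ∧ T t.2.1 u.2.1 v.2.1 ∧ T t.2.2 u.2.2 v.2.2

private def algAF (U : A → A → Prop) (t : A × A × A) : Prop := AF U t.1 t.2.1 t.2.2

private lemma alg_self (hr : RSys e T U r) (a : A) : r a a = a := by
  rcases hr.cons a a with h | h <;> exact h

private lemma alg_AP_symm (hr : RSys e T U r) {a b : A} (h : AP U a b) : AP U b a := by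
  rcases h with h | h
  · exact Or.inl h.symm
  · exact Or.inr (hr.symm _ _ h)

private lemma alg_AP_left (hr : RSys e T U r) {a b : A} (h : AP U a b) : r a b = a := by
  rcases h with h | h
  · subst h; exact alg_self hr a
  · exact hr.up _ _ h

private lemma alg_AP_r (hr : RSys e T U r) (a b : A) : AP U (r a b) (r b a) := by
  by_cases h : U a b
  · rw [hr.up _ _ h, hr.up _ _ (hr.symm _ _ h)]
    exact Or.inr h
  · exact Or.inl (hr.sl _ _ h)

private lemma alg_not (hr : RSys e T U r) {a b : A} (h : ¬ AP U a b) : r b a = r a b := by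
  have : ¬ U a b := fun hu => h (Or.inr hu)
  exact (hr.sl _ _ this).symm

private lemma alg_p (hr : RSys e T U r) {p : A → Prop} {a b : A} (ha : p a) (hb : p b) :
    p (r a b) := by
  rcases hr.cons a b with h | h <;> rw [h] <;> assumption

private lemma algAF_fix12 (hr : RSys e T U r) {t : A × A × A} (h : AP U t.1 t.2.1) :
    algS12 r t = t := by
  obtain ⟨a, b, c⟩ := t
  simp only [algS12] at *
  rw [alg_AP_left hr h, alg_AP_left hr (alg_AP_symm hr h)]

private lemma algAF_fix13 (hr : RSys e T U r) {t : A × A × A} (h : AP U t.1 t.2.2) :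
    algS13 r t = t := by
  obtain ⟨a, b, c⟩ := t
  simp only [algS13] at *
  rw [alg_AP_left hr h, alg_AP_left hr (alg_AP_symm hr h)]

private lemma algAF_fix23 (hr : RSys e T U r) {t : A × A × A} (h : AP U t.2.1 t.2.2) :
    algS23 r t = t := by
  obtain ⟨a, b, c⟩ := t
  simp only [algS23] at *
  rw [alg_AP_left hr h, alg_AP_left hr (alg_AP_symm hr h)]

private lemma algR_fix (hr : RSys e T U r) {t : A × A × A} (h : algAF U t) : algR r t = t := by
  obtain ⟨h1, h2, h3⟩ := h
  unfold algR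
  rw [algAF_fix12 hr h1, algAF_fix13 hr h2, algAF_fix23 hr h3, algAF_fix12 hr h1]

private lemma algR_AF (hr : RSys e T U r) (t : A × A × A) : algAF U (algR r t) := by
  have hs : ∀ {a b : A}, AP U a b → AP U b a := fun h => alg_AP_symm hr h
  have hrf : ∀ a : A, AP U a a := fun a => Or.inl rfl
  obtain ⟨a, b, c⟩ := t
  unfold algR
  have hxy : AP U (r a b) (r b a) := alg_AP_r hr a b
  have e12 : algS12 r (a, b, c) = (r a b, r b a, c) := rfl
  rw [e12]
  generalize r a b = x at hxy
  generalize r b a = y at hxy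
  by_cases hxc : AP U x c
  · rw [algAF_fix13 hr (t := (x, y, c)) hxc]
    by_cases hyc : AP U y c
    · rw [algAF_fix23 hr (t := (x, y, c)) hyc, algAF_fix12 hr (t := (x, y, c)) hxy]
      exact ⟨hxy, hxc, hyc⟩
    · have e23 : algS23 r (x, y, c) = (x, r y c, r y c) := by
        simp only [algS23]
        rw [alg_not hr hyc]
      rw [e23]
      have hw : AP U x (r y c) := alg_p hr (p := fun w => AP U x w) hxy hxc
      rw [algAF_fix12 hr (t := (x, r y c, r y c)) hw]
      exact ⟨hw, hw, hrf _⟩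
  · have e13 : algS13 r (x, y, c) = (r x c, y, r x c) := by
      simp only [algS13]
      rw [alg_not hr hxc]
    rw [e13]
    rcases hr.cons x c with h | h
    · rw [h, algAF_fix23 hr (t := (x, y, x)) (hs hxy), algAF_fix12 hr (t := (x, y, x)) hxy]
      exact ⟨hxy, hrf _, hs hxy⟩
    · rw [h]
      by_cases hyc : AP U y c
      · rw [algAF_fix23 hr (t := (c, y, c)) hyc, algAF_fix12 hr (t := (c, y, c)) (hs hyc)]
        exact ⟨hs hyc, hrf _, hyc⟩
      · have e23 : algS23 r (c, y, c) = (c, r y c, r y c) := by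
          simp only [algS23]
          rw [alg_not hr hyc]
        rw [e23]
        rcases hr.cons y c with h2 | h2
        · have h3 : r c y = y := by rw [alg_not hr hyc, h2]
          have e12' : algS12 r (c, y, y) = (y, y, y) := by
            simp only [algS12]
            rw [h3, h2]
          rw [h2, e12']
          exact ⟨hrf _, hrf _, hrf _⟩
        · rw [h2, algAF_fix12 hr (t := (c, c, c)) (hrf _)]
          exact ⟨hrf _, hrf _, hrf _⟩

private lemma algR_OK (hr : RSys e T U r) {p : A → Prop} {t : A × A × A} (h : algOK p t) :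
    algOK p (algR r t) := by
  have h12 : ∀ {t : A × A × A}, algOK p t → algOK p (algS12 r t) := fun h =>
    ⟨alg_p hr h.1 h.2.1, alg_p hr h.2.1 h.1, h.2.2⟩
  have h13 : ∀ {t : A × A × A}, algOK p t → algOK p (algS13 r t) := fun h =>
    ⟨alg_p hr h.1 h.2.2, h.2.1, alg_p hr h.2.2 h.1⟩
  have h23 : ∀ {t : A × A × A}, algOK p t → algOK p (algS23 r t) := fun h =>
    ⟨h.1, alg_p hr h.2.1 h.2.2, alg_p hr h.2.2 h.2.1⟩
  exact h12 (h23 (h13 (h12 h)))

private lemma algR_T (hr : RSys e T U r) {t u v : A × A × A} (h : algT T t u v) :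
    algT T (algR r t) (algR r u) (algR r v) := by
  have h12 : ∀ {t u v : A × A × A}, algT T t u v →
      algT T (algS12 r t) (algS12 r u) (algS12 r v) := fun h =>
    ⟨hr.pres _ _ _ _ _ _ h.1 h.2.1, hr.pres _ _ _ _ _ _ h.2.1 h.1, h.2.2⟩
  have h13 : ∀ {t u v : A × A × A}, algT T t u v →
      algT T (algS13 r t) (algS13 r u) (algS13 r v) := fun h =>
    ⟨hr.pres _ _ _ _ _ _ h.1 h.2.2, h.2.1, hr.pres _ _ _ _ _ _ h.2.2 h.1⟩
  have h23 : ∀ {t u v : A × A × A}, algT T t u v →
      algT T (algS23 r t) (algS23 r u) (algS23 r v) := fun h =>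
    ⟨h.1, hr.pres _ _ _ _ _ _ h.2.1 h.2.2, hr.pres _ _ _ _ _ _ h.2.2 h.2.1⟩
  exact h12 (h23 (h13 (h12 h)))

/-- the ternary operation -/
private def algS (r : A → A → A) (m : A → A → A → A) (a b c : A) : A :=
  m (algR r (a, b, c)).1 (algR r (a, b, c)).2.1 (algR r (a, b, c)).2.2

private lemma algS_p (hr : RSys e T U r) (hm : MSys T U m) {p : A → Prop} {a b c : A}
    (ha : p a) (hb : p b) (hc : p c) : p (algS r m a b c) := by
  have hk : algOK p (algR r (a, b, c)) := algR_OK hr ⟨ha, hb, hc⟩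
  unfold algS
  rcases hm.cons _ _ _ (algR_AF hr (a, b, c)) with h | h | h <;> rw [h]
  · exact hk.1
  · exact hk.2.1
  · exact hk.2.2

private lemma algS_T (hr : RSys e T U r) (hm : MSys T U m) {a b c a' b' c' a'' b'' c'' : A}
    (ha : T a a' a'') (hb : T b b' b'') (hc : T c c' c'') :
    T (algS r m a b c) (algS r m a' b' c') (algS r m a'' b'' c'') := by
  have hk : algT T (algR r (a, b, c)) (algR r (a', b', c')) (algR r (a'', b'', c'')) :=
    algR_T hr ⟨ha, hb, hc⟩
  exact hm.pres _ _ _ _ _ _ _ _ _ (algR_AF hr _) (algR_AF hr _) (algR_AF hr _) hk.1 hk.2.1 hk.2.2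

private lemma algS_maj (hr : RSys e T U r) (hm : MSys T U m) {x y : A} (h : AP U x y) :
    algS r m x x y = x ∧ algS r m x y x = x ∧ algS r m y x x = x := by
  have hs : AP U y x := alg_AP_symm hr h
  have hf : AP U x x := Or.inl rfl
  obtain ⟨h1, h2, h3⟩ := hm.maj x y h
  refine ⟨?_, ?_, ?_⟩
  · unfold algS
    rw [algR_fix hr (t := (x, x, y)) ⟨hf, h, h⟩]
    exact h1
  · unfold algS
    rw [algR_fix hr (t := (x, y, x)) ⟨h, hf, hs⟩]
    exact h2
  · unfold algS
    rw [algR_fix hr (t := (y, x, x)) ⟨hs, hs, hf⟩]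
    exact h3

private lemma algS_fix (hr : RSys e T U r) {t : A × A × A} :
    algS r m (algR r t).1 (algR r t).2.1 (algR r t).2.2 =
      m (algR r t).1 (algR r t).2.1 (algR r t).2.2 := by
  unfold algS
  rw [algR_fix hr (t := ((algR r t).1, (algR r t).2.1, (algR r t).2.2)) (algR_AF hr t)]

/-! six variables: 0 = 12, 1 = 13, 2 = 21, 3 = 23, 4 = 31, 5 = 32 -/

private def algQ12 (r : A → A → A) (q : Fin 6 → A) : Fin 6 → A :=
  ![r (q 0) (q 2), r (q 1) (q 3), r (q 2) (q 0), r (q 3) (q 1), r (q 4) (q 5), r (q 5) (q 4)]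

private def algQ13 (r : A → A → A) (q : Fin 6 → A) : Fin 6 → A :=
  ![r (q 0) (q 5), r (q 1) (q 4), r (q 2) (q 3), r (q 3) (q 2), r (q 4) (q 1), r (q 5) (q 0)]

private def algQ23 (r : A → A → A) (q : Fin 6 → A) : Fin 6 → A :=
  ![r (q 0) (q 1), r (q 1) (q 0), r (q 2) (q 4), r (q 3) (q 5), r (q 4) (q 2), r (q 5) (q 3)]

private def algQ (r : A → A → A) (q : Fin 6 → A) : Fin 6 → A :=
  algQ12 r (algQ23 r (algQ13 r (algQ12 r q)))

private def algE1 (t : A × A × A) : Fin 6 → A := ![t.1, t.1, t.2.1, t.2.1, t.2.2, t.2.2]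

private def algE2 (t : A × A × A) : Fin 6 → A := ![t.2.1, t.2.2, t.1, t.2.2, t.1, t.2.1]

private lemma algQ_E1 (hr : RSys e T U r) (t : A × A × A) :
    algQ r (algE1 t) = algE1 (algR r t) := by
  have hs := alg_self hr
  have h12 : ∀ t : A × A × A, algQ12 r (algE1 t) = algE1 (algS12 r t) := by
    intro t
    funext i
    fin_cases i <;> simp [algQ12, algE1, algS12, hs]
  have h13 : ∀ t : A × A × A, algQ13 r (algE1 t) = algE1 (algS13 r t) := by
    intro t
    funext i
    fin_cases i <;> simp [algQ13, algE1, algS13, hs]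
  have h23 : ∀ t : A × A × A, algQ23 r (algE1 t) = algE1 (algS23 r t) := by
    intro t
    funext i
    fin_cases i <;> simp [algQ23, algE1, algS23, hs]
  unfold algQ algR
  rw [h12, h13, h23, h12]

private lemma algQ_E2 (hr : RSys e T U r) (t : A × A × A) :
    algQ r (algE2 t) = algE2 (algR r t) := by
  have hs := alg_self hr
  have h12 : ∀ t : A × A × A, algQ12 r (algE2 t) = algE2 (algS12 r t) := by
    intro t
    funext i
    fin_cases i <;> simp [algQ12, algE2, algS12, hs]
  have h13 : ∀ t : A × A × A, algQ13 r (algE2 t) = algE2 (algS13 r t) := by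
    intro t
    funext i
    fin_cases i <;> simp [algQ13, algE2, algS13, hs]
  have h23 : ∀ t : A × A × A, algQ23 r (algE2 t) = algE2 (algS23 r t) := by
    intro t
    funext i
    fin_cases i <;> simp [algQ23, algE2, algS23, hs]
  unfold algQ algR
  rw [h12, h13, h23, h12]

private lemma algQ_p (hr : RSys e T U r) {p : A → Prop} {q : Fin 6 → A} (h : ∀ i, p (q i)) :
    ∀ i, p (algQ r q i) := by
  have h12 : ∀ {q : Fin 6 → A}, (∀ i, p (q i)) → ∀ i, p (algQ12 r q i) := by
    intro q h i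
    fin_cases i <;> exact alg_p hr (h _) (h _)
  have h13 : ∀ {q : Fin 6 → A}, (∀ i, p (q i)) → ∀ i, p (algQ13 r q i) := by
    intro q h i
    fin_cases i <;> exact alg_p hr (h _) (h _)
  have h23 : ∀ {q : Fin 6 → A}, (∀ i, p (q i)) → ∀ i, p (algQ23 r q i) := by
    intro q h i
    fin_cases i <;> exact alg_p hr (h _) (h _)
  exact h12 (h23 (h13 (h12 h)))

private lemma algQ_T (hr : RSys e T U r) {x y z : Fin 6 → A} (h : ∀ i, T (x i) (y i) (z i)) :
    ∀ i, T (algQ r x i) (algQ r y i) (algQ r z i) := by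
  have h12 : ∀ {x y z : Fin 6 → A}, (∀ i, T (x i) (y i) (z i)) →
      ∀ i, T (algQ12 r x i) (algQ12 r y i) (algQ12 r z i) := by
    intro x y z h i
    fin_cases i <;> exact hr.pres _ _ _ _ _ _ (h _) (h _)
  have h13 : ∀ {x y z : Fin 6 → A}, (∀ i, T (x i) (y i) (z i)) →
      ∀ i, T (algQ13 r x i) (algQ13 r y i) (algQ13 r z i) := by
    intro x y z h i
    fin_cases i <;> exact hr.pres _ _ _ _ _ _ (h _) (h _)
  have h23 : ∀ {x y z : Fin 6 → A}, (∀ i, T (x i) (y i) (z i)) →
      ∀ i, T (algQ23 r x i) (algQ23 r y i) (algQ23 r z i) := by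
    intro x y z h i
    fin_cases i <;> exact hr.pres _ _ _ _ _ _ (h _) (h _)
  exact h12 (h23 (h13 (h12 h)))

private def algF (r : A → A → A) (m : A → A → A → A) (q : Fin 6 → A) : A :=
  algS r m (algS r m (q 0) (q 2) (q 4)) (algS r m (q 0) (q 2) (q 5)) (algS r m (q 1) (q 3) (q 4))

end ALG

theorem siggers_of {A : Type*} {e : A} {T : A → A → A → Prop} (U : A → A → Prop)
    (r : A → A → A) (m : A → A → A → A) (hr : RSys e T U r) (hm : MSys T U m) : HasSig T := by
  refine ⟨fun x => algF r m (algQ r x), ?_, ?_, ?_⟩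
  · intro x y z h
    have hq := algQ_T hr h
    exact algS_T hr hm (algS_T hr hm (hq _) (hq _) (hq _)) (algS_T hr hm (hq _) (hq _) (hq _))
      (algS_T hr hm (hq _) (hq _) (hq _))
  · intro x
    have hq := algQ_p hr (p := fun a => ∃ i, a = x i) (q := x) (fun i => ⟨i, rfl⟩)
    exact algS_p hr hm (p := fun a => ∃ i, a = x i)
      (algS_p hr hm (p := fun a => ∃ i, a = x i) (hq _) (hq _) (hq _))
      (algS_p hr hm (p := fun a => ∃ i, a = x i) (hq _) (hq _) (hq _))
      (algS_p hr hm (p := fun a => ∃ i, a = x i) (hq _) (hq _) (hq _))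
  · intro x y z
    have e1 : (![x, x, y, y, z, z] : Fin 6 → A) = algE1 (x, y, z) := rfl
    have e2 : (![y, z, x, z, x, y] : Fin 6 → A) = algE2 (x, y, z) := rfl
    show algF r m (algQ r ![x, x, y, y, z, z]) = algF r m (algQ r ![y, z, x, z, x, y])
    rw [e1, e2, algQ_E1 hr, algQ_E2 hr]
    have hAF := algR_AF hr (x, y, z)
    generalize algR r (x, y, z) = t at hAF
    obtain ⟨a, b, c⟩ := t
    obtain ⟨hab, hac, hbc⟩ := hAF
    have hS : AP U (algS r m a b c) (algS r m a b c) := Or.inl rfl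
    have f1 : algF r m (algE1 (a, b, c)) = algS r m a b c := (algS_maj hr hm hS).1
    have f2 : algF r m (algE2 (a, b, c)) = algS r m a b c := by
      show algS r m (algS r m b a a) (algS r m b a b) (algS r m c c a) = algS r m a b c
      rw [(algS_maj hr hm hab).2.2, (algS_maj hr hm (alg_AP_symm hr hab)).2.1,
        (algS_maj hr hm (alg_AP_symm hr hac)).1]
    rw [f1, f2]

end Pool.Agent.SIG
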