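import Pool.Agent.SIG.Defs

namespace Pool.Agent.SIG

private def boolZ (b : Bool) : ZMod 2 := if b = true then 1 else 0

private theorem boolZ_not (b : Bool) : boolZ (!b) = 1 + boolZ b := by cases b <;> decide

private theorem boolZ_cancel (x y z : Bool) (h : xor (xor x y) (!z) = true) :
    boolZ z = boolZ x + boolZ y := by
  revert h; cases x <;> cases y <;> cases z <;> decide

private theorem bool_add {ι : Type*} [DecidableEq ι] (h : (ι → Bool) → Bool)
    (hd : ∀ t, h (fun i => !(t i)) = !(h t))
    (hκ : ∀ κ : ι → Fin 3, xor (xor (h (fun i => decide (κ i = 0)))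
      (h (fun i => decide (κ i = 1)))) (h (fun i => decide (κ i = 2))) = true)
    (X Y : Finset ι) (hXY : Disjoint X Y) :
    boolZ (h (fun i => decide (i ∈ X ∪ Y))) =
      boolZ (h (fun i => decide (i ∈ X))) + boolZ (h (fun i => decide (i ∈ Y))) := by
  have h1 := hκ (fun i => if i ∈ X then 0 else if i ∈ Y then 1 else 2)
  have e0 : (fun i => decide ((if i ∈ X then (0 : Fin 3) else if i ∈ Y then 1 else 2) = 0)) =
      (fun i => decide (i ∈ X)) := by
    funext i
    by_cases hx : i ∈ X
    · simp [hx]
    · by_cases hy : i ∈ Y <;> simp [hx, hy]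
  have e1 : (fun i => decide ((if i ∈ X then (0 : Fin 3) else if i ∈ Y then 1 else 2) = 1)) =
      (fun i => decide (i ∈ Y)) := by
    funext i
    by_cases hx : i ∈ X
    · have : i ∉ Y := Finset.disjoint_left.1 hXY hx
      simp [hx, this]
    · by_cases hy : i ∈ Y <;> simp [hx, hy]
  have e2 : (fun i => decide ((if i ∈ X then (0 : Fin 3) else if i ∈ Y then 1 else 2) = 2)) =
      (fun i => !(decide (i ∈ X ∪ Y))) := by
    funext i
    by_cases hx : i ∈ X
    · simp [hx]
    · by_cases hy : i ∈ Y <;> simp [hx, hy]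
  rw [e0, e1, e2, hd] at h1
  exact boolZ_cancel _ _ _ h1

theorem bool_minor {ι : Type*} [Finite ι] (h : (ι → Bool) → Bool)
    (hd : ∀ t, h (fun i => !(t i)) = !(h t)) (h0 : h (fun _ => false) = false)
    (hv : ∃ (c : ZMod 2) (t : Fin 4 → ι → Bool),
      (∀ i, (∑ k, if t k i = true then (1 : ZMod 2) else 0) = c) ∧
      (∑ k, if h (t k) = true then (1 : ZMod 2) else 0) ≠ c) :
    ∃ κ : ι → Fin 3, xor (xor (h (fun i => decide (κ i = 0))) (h (fun i => decide (κ i = 1))))
      (h (fun i => decide (κ i = 2))) = false := by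
  classical
  by_contra hcon
  push Not at hcon
  have hκ : ∀ κ : ι → Fin 3, xor (xor (h (fun i => decide (κ i = 0)))
      (h (fun i => decide (κ i = 1)))) (h (fun i => decide (κ i = 2))) = true := by
    intro κ
    have := hcon κ
    simpa using this
  have := Fintype.ofFinite ι
  have hsum : ∀ X : Finset ι, boolZ (h (fun i => decide (i ∈ X))) =
      ∑ i ∈ X, boolZ (h (fun j => decide (j ∈ ({i} : Finset ι)))) := by
    intro X
    induction X using Finset.induction_on with
    | empty =>
      simp only [Finset.notMem_empty, decide_false, Finset.sum_empty, h0]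
      decide
    | insert a s ha ih =>
      rw [Finset.sum_insert ha, ← ih, Finset.insert_eq]
      exact bool_add h hd hκ {a} s (Finset.disjoint_singleton_left.2 ha)
  set w : ι → ZMod 2 := fun i => boolZ (h (fun j => decide (j ∈ ({i} : Finset ι)))) with hw
  have hlin : ∀ t : ι → Bool, boolZ (h t) = ∑ i, boolZ (t i) * w i := by
    intro t
    have h1 := hsum (Finset.univ.filter (fun i => t i = true))
    have h2 : (fun i => decide (i ∈ Finset.univ.filter (fun i => t i = true))) = t := by
      funext i; simp
    rw [h2] at h1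
    rw [h1, Finset.sum_filter]
    refine Finset.sum_congr rfl fun i _ => ?_
    by_cases hi : t i = true <;> simp [boolZ, hi, hw]
  obtain ⟨c, t, hc, hne⟩ := hv
  apply hne
  have h1 : (∑ k, if h (t k) = true then (1 : ZMod 2) else 0) = ∑ k, boolZ (h (t k)) := rfl
  have h3 : (∑ i, w i) = 1 := by
    have := hlin (fun _ => true)
    have h4 := hd (fun _ => false)
    simp only [Bool.not_false, h0] at h4
    rw [h4] at this
    simpa [boolZ] using this.symm
  have hc' : ∀ i, (∑ k, boolZ (t k i)) = c := hc
  rw [h1]
  simp_rw [hlin]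
  rw [Finset.sum_comm]
  simp_rw [← Finset.sum_mul, hc']
  rw [← Finset.mul_sum, h3, mul_one]

end Pool.Agent.SIG
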