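import Pool.Agent.SIG.Defs

namespace Pool.Agent.SIG

theorem twosat {Y : Type*} [Finite Y] (imp : Y → Y → Prop) (op : Y → Y)
    (hr : ∀ s, imp s s) (ht : ∀ s t u, imp s t → imp t u → imp s u)
    (hop : ∀ s, op (op s) = s) (hd : ∀ s t, imp s t → imp (op t) (op s)) :
    ∃ χ : Y → Prop, (∀ s, imp s (op s) → imp (op s) s → χ s) ∧
      (∀ s, ¬ (imp s (op s) ∧ imp (op s) s) → (χ (op s) ↔ ¬ χ s)) ∧
      (∀ s t, imp s t → χ s → χ t) := by
  classical
  have := Fintype.ofFinite Y
  -- unavoidable elements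
  let UP : Y → Prop := fun s => imp s (op s) ∧ imp (op s) s
  have hUPop : ∀ s, UP s → UP (op s) := by
    intro s hs
    exact ⟨by rw [hop]; exact hs.2, by rw [hop]; exact hs.1⟩
  have hUPop' : ∀ s, UP (op s) → UP s := by
    intro s hs
    have := hUPop _ hs
    rwa [hop] at this
  -- admissible sets
  let Adm : Set (Finset Y) := {Z | (∀ t ∈ Z, ¬ UP t) ∧ (∀ t ∈ Z, op t ∉ Z) ∧
    (∀ s t, s ∈ Z → imp s t → ¬ UP t → t ∈ Z) ∧ (∀ s t, UP s → imp s t → ¬ UP t → t ∈ Z)}
  have hne : Adm.Nonempty := by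
    refine ⟨Finset.univ.filter (fun t => ¬ UP t ∧ ∃ s, UP s ∧ imp s t), ?_, ?_, ?_, ?_⟩
    · intro t ht'
      exact (Finset.mem_filter.1 ht').2.1
    · intro t ht' hop'
      obtain ⟨hnt, s, hs, hst⟩ := (Finset.mem_filter.1 ht').2
      obtain ⟨hnt', s', hs', hst'⟩ := (Finset.mem_filter.1 hop').2
      -- imp s t, s UP ; imp s' (op t), s' UP
      -- imp (op t) (op s), imp (op s) s, imp s t so imp (op t) t
      -- imp t (op s') , imp (op s') s', imp s' (op t)
      apply hnt
      constructor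
      · have h1 := hd _ _ hst'
        rw [hop] at h1
        exact ht _ _ _ (ht _ _ _ h1 hs'.2) hst'
      · have h1 := hd _ _ hst
        exact ht _ _ _ (ht _ _ _ h1 hs.2) hst
    · intro s t hs hst hnt
      obtain ⟨_, u, hu, hus⟩ := (Finset.mem_filter.1 hs).2
      exact Finset.mem_filter.2 ⟨Finset.mem_univ _, hnt, u, hu, ht _ _ _ hus hst⟩
    · intro s t hs hst hnt
      exact Finset.mem_filter.2 ⟨Finset.mem_univ _, hnt, s, hs, hst⟩
  obtain ⟨Z, hZ⟩ := (Set.toFinite Adm).exists_maximal hne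
  obtain ⟨⟨hZ1, hZ2, hZ3, hZ4⟩, hmax⟩ := hZ
  -- enlarge
  have henl : ∀ s, ¬ UP s → ¬ imp s (op s) → op s ∉ Z → s ∈ Z := by
    intro s hs hns hos
    have hadm : Z ∪ Finset.univ.filter (fun t => ¬ UP t ∧ imp s t) ∈ Adm := by
      refine ⟨?_, ?_, ?_, ?_⟩
      · intro t ht'
        rcases Finset.mem_union.1 ht' with h | h
        · exact hZ1 t h
        · exact (Finset.mem_filter.1 h).2.1
      · intro t ht' hop'
        rcases Finset.mem_union.1 ht' with h | h
        · rcases Finset.mem_union.1 hop' with h' | h'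
          · exact hZ2 t h h'
          · -- t ∈ Z, imp s (op t): imp t (op s), op s not UP, so op s ∈ Z
            have h1 := hd _ _ (Finset.mem_filter.1 h').2.2
            rw [hop] at h1
            exact hos (hZ3 _ _ h h1 (fun hh => hs (hUPop' _ hh)))
        · rcases Finset.mem_union.1 hop' with h' | h'
          · -- imp s t, op t ∈ Z: imp (op t) (op s)
            have h1 := hd _ _ (Finset.mem_filter.1 h).2.2
            exact hos (hZ3 _ _ h' h1 (fun hh => hs (hUPop' _ hh)))
          · -- imp s t, imp s (op t): imp t (op s)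
            have h1 := hd _ _ (Finset.mem_filter.1 h').2.2
            rw [hop] at h1
            exact hns (ht _ _ _ (Finset.mem_filter.1 h).2.2 h1)
      · intro u t hu hut hnt
        rcases Finset.mem_union.1 hu with h | h
        · exact Finset.mem_union_left _ (hZ3 _ _ h hut hnt)
        · exact Finset.mem_union_right _ (Finset.mem_filter.2 ⟨Finset.mem_univ _, hnt,
            ht _ _ _ (Finset.mem_filter.1 h).2.2 hut⟩)
      · intro u t hu hut hnt
        exact Finset.mem_union_left _ (hZ4 _ _ hu hut hnt)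
    have hle := hmax hadm (Finset.subset_union_left)
    exact hle (Finset.mem_union_right _ (Finset.mem_filter.2 ⟨Finset.mem_univ _, hs, hr s⟩))
  have hdich : ∀ s, ¬ UP s → (op s ∈ Z ↔ ¬ s ∈ Z) := by
    intro s hs
    constructor
    · intro h1 h2
      exact hZ2 s h2 h1
    · intro h1
      by_contra h2
      by_cases h3 : imp s (op s)
      · have h4 : ¬ imp (op s) s := fun h => hs ⟨h3, h⟩
        apply h2
        apply henl (op s) (fun hh => hs (hUPop' _ hh))
        · rw [hop]; exact h4
        · rw [hop]; exact h1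
      · exact h1 (henl s hs h3 h2)
  refine ⟨fun s => UP s ∨ s ∈ Z, ?_, ?_, ?_⟩
  · intro s h1 h2
    exact Or.inl ⟨h1, h2⟩
  · intro s hs
    have hs' : ¬ UP (op s) := fun hh => hs (hUPop' _ hh)
    have hs'' : ¬ UP s := hs
    simp only [hs', hs'', false_or]
    exact hdich s hs
  · intro s t hst hs
    by_cases hnt : UP t
    · exact Or.inl hnt
    · rcases hs with h | h
      · exact Or.inr (hZ4 _ _ h hst hnt)
      · exact Or.inr (hZ3 _ _ h hst hnt)

end Pool.Agent.SIG
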