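import Pool.Agent.SIG.BAS

namespace Pool.Agent.SIG

theorem fresh {A B L : Type*} {e : A} {T : A → A → A → Prop}
    {d : B → B → A} {lev : B → L} (S : Sys e T d lev) (hG : Good e T)
    (F : Finset B) (t : B → A) (k : L) (h0 : ∀ x ∈ F, t x ≠ e)
    (ht : ∀ x ∈ F, ∀ y ∈ F, T (t x) (t y) (d x y)) (h1 : ∃ a : A, a ≠ e) (G : Finset B) :
    ∃ z, z ∉ G ∧ lev z = k ∧ ∀ x ∈ F, d z x = t x := by
  classical
  have hself : ∀ x, d x x = e := Sys.dself S
  obtain ⟨a, ha, haF⟩ : ∃ a, a ≠ e ∧ ∀ x ∈ F, T (t x) (t x) a := by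
    by_cases hF : F.Nonempty
    · obtain ⟨a, haX, haT⟩ := hG.king (F.image t) (hF.image t) (by
        intro h
        obtain ⟨x, hx, hxe⟩ := Finset.mem_image.1 h
        exact h0 x hx hxe)
      refine ⟨a, ?_, fun x hx => haT _ (Finset.mem_image_of_mem t hx)⟩
      obtain ⟨x, hx, rfl⟩ := Finset.mem_image.1 haX
      exact h0 x hx
    · obtain ⟨a, ha⟩ := h1
      exact ⟨a, ha, fun x hx => absurd ⟨x, hx⟩ hF⟩
  have hind : ∀ n : ℕ, ∃ Z : Finset B, Z.card = n ∧
      (∀ z ∈ Z, lev z = k ∧ ∀ x ∈ F, d z x = t x) ∧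
      ∀ z ∈ Z, ∀ z' ∈ Z, z ≠ z' → d z z' = a := by
    intro n
    induction n with
    | zero => exact ⟨∅, rfl, by simp, by simp⟩
    | succ n ih =>
      obtain ⟨Z, hZ1, hZ2, hZ3⟩ := ih
      have hZF : ∀ z ∈ Z, z ∉ F := fun z hz hzF =>
        h0 z hzF (((hZ2 z hz).2 z hzF).symm.trans (hself z))
      obtain ⟨w, hw1, hw2⟩ := S.ep (F ∪ Z) (fun y => if y ∈ F then t y else a) k (by
        intro x hx
        by_cases hxF : x ∈ F
        · simp only [if_pos hxF]; exact h0 x hxF
        · simp only [if_neg hxF]; exact ha) (by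
        intro x hx y hy
        rw [Finset.mem_union] at hx hy
        by_cases hxF : x ∈ F <;> by_cases hyF : y ∈ F
        · simp only [if_pos hxF, if_pos hyF]
          exact ht x hxF y hyF
        · simp only [if_pos hxF, if_neg hyF]
          have hyZ := hy.resolve_left hyF
          rw [S.dsymm x y, (hZ2 y hyZ).2 x hxF]
          exact S.T23 _ _ _ (haF x hxF)
        · simp only [if_neg hxF, if_pos hyF]
          have hxZ := hx.resolve_left hxF
          rw [(hZ2 x hxZ).2 y hyF]
          exact Sys.T312 S (haF y hyF)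
        · simp only [if_neg hxF, if_neg hyF]
          have hxZ := hx.resolve_left hxF
          have hyZ := hy.resolve_left hyF
          by_cases hxy : x = y
          · rw [hxy, hself]; exact Sys.aae S a
          · rw [hZ3 x hxZ y hyZ hxy]; exact hG.aaa a)
      have hwF : ∀ x ∈ F, d w x = t x := fun x hx => by
        have := hw2 x (Finset.mem_union_left _ hx)
        simpa only [if_pos hx] using this
      have hwZ : ∀ x ∈ Z, d w x = a := fun x hx => by
        have := hw2 x (Finset.mem_union_right _ hx)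
        simpa only [if_neg (hZF x hx)] using this
      have hwn : w ∉ Z := fun h => ha ((hwZ w h).symm.trans (hself w))
      refine ⟨insert w Z, by rw [Finset.card_insert_of_notMem hwn, hZ1], fun z hz => ?_,
        fun z hz z' hz' hne => ?_⟩
      · rcases Finset.mem_insert.1 hz with rfl | hz
        · exact ⟨hw1, hwF⟩
        · exact hZ2 z hz
      · rcases Finset.mem_insert.1 hz with h5 | h5 <;>
          rcases Finset.mem_insert.1 hz' with h6 | h6
        · exact absurd (h5.trans h6.symm) hne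
        · rw [h5]; exact hwZ z' h6
        · rw [h6, S.dsymm]; exact hwZ z h5
        · exact hZ3 z h5 z' h6 hne
  obtain ⟨Z, hZ1, hZ2, -⟩ := hind (G.card + 1)
  obtain ⟨z, hzZ, hzG⟩ : ∃ z ∈ Z, z ∉ G := by
    by_contra hcon
    push Not at hcon
    have := Finset.card_le_card (show Z ⊆ G from hcon)
    omega
  exact ⟨z, hzG, (hZ2 z hzZ).1, (hZ2 z hzZ).2⟩

end Pool.Agent.SIG
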