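import Pool.Agent.SIG.HOM
import Pool.Agent.SIG.FR

namespace Pool.Agent.SIG

private theorem HF_aux {A B L : Type*} [Countable B] {e : A}
    {T : A → A → A → Prop} {d : B → B → A} {lev : B → L} (S : Sys e T d lev) (hG : Good e T)
    (h1 : ∃ a : A, a ≠ e) (G X : Finset B) :
    ∀ {ι : Type*} [Finite ι] (u v : ι → B),
    (∀ i j, d (u i) (u j) = d (v i) (v j)) → (∀ i, lev (u i) = lev (v i)) →
    ∃ γ : B ≃ B, AutL d lev γ ∧ (∀ i, γ (u i) = v i) ∧
      ∀ x ∈ X, (∀ i, u i ≠ x) → γ x ∉ G := by
  classical
  induction X using Finset.induction_on with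
  | empty =>
    intro ι _ u v h hl
    obtain ⟨γ, hγ, hγ'⟩ := homog S u v h hl
    exact ⟨γ, hγ, hγ', by simp⟩
  | @insert x X hx ih =>
    intro ι _ u v h hl
    by_cases hex : ∃ i, u i = x
    · obtain ⟨γ, hγ, hγ', hγG⟩ := ih u v h hl
      refine ⟨γ, hγ, hγ', fun y hy hyu => ?_⟩
      rcases Finset.mem_insert.1 hy with rfl | hy'
      · obtain ⟨i, hi⟩ := hex
        exact absurd hi (hyu i)
      · exact hγG y hy' hyu
    · push Not at hex
      cases nonempty_fintype ι
      set t : B → A := fun z => if h : ∃ i, v i = z then d x (u h.choose) else e with ht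
      have htv : ∀ i, t (v i) = d x (u i) := by
        intro i
        have h3 : ∃ j, v j = v i := ⟨i, rfl⟩
        have h4 : u h3.choose = u i := by
          refine (S.deq _ _).1 ?_
          rw [h, h3.choose_spec]
          exact (S.deq _ _).2 rfl
        simp only [ht]
        rw [dif_pos h3, h4]
      obtain ⟨z, hzG, hzl, hz⟩ := fresh S hG (Finset.univ.image v) t (lev x) (by
        intro y hy
        obtain ⟨i, -, rfl⟩ := Finset.mem_image.1 hy
        rw [htv]
        exact fun h' => hex i ((S.deq _ _).1 h').symm) (by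
        intro y hy y' hy'
        obtain ⟨i, -, rfl⟩ := Finset.mem_image.1 hy
        obtain ⟨j, -, rfl⟩ := Finset.mem_image.1 hy'
        rw [htv, htv, ← h, S.dsymm x (u i)]
        exact S.tri _ _ _) h1 G
      have hz' : ∀ i, d z (v i) = d x (u i) := fun i => by
        rw [hz _ (Finset.mem_image_of_mem _ (Finset.mem_univ i)), htv]
      obtain ⟨γ, hγ, hγ', hγG⟩ := ih (ι := Option ι) (fun o => o.elim x u) (fun o => o.elim z v)
        (by
          rintro (_ | i) (_ | j)
          · simp only [Option.elim_none]
            rw [(S.deq x x).2 rfl, (S.deq z z).2 rfl]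
          · simp only [Option.elim_none, Option.elim_some]
            exact (hz' j).symm
          · simp only [Option.elim_none, Option.elim_some]
            rw [S.dsymm, S.dsymm (v i)]
            exact (hz' i).symm
          · exact h i j) (by
          rintro (_ | i)
          · exact hzl.symm
          · exact hl i)
      refine ⟨γ, hγ, fun i => hγ' (some i), fun y hy hyu => ?_⟩
      by_cases hyx : y = x
      · rw [hyx]
        have := hγ' none
        simp only [Option.elim_none] at this
        rw [this]
        exact hzG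
      · refine hγG y ((Finset.mem_insert.1 hy).resolve_left hyx) ?_
        rintro (_ | i)
        · exact fun h' => hyx h'.symm
        · exact hyu i

theorem homog_fresh {A B L ι : Type*} [Countable B] [Finite ι] {e : A}
    {T : A → A → A → Prop} {d : B → B → A} {lev : B → L} (S : Sys e T d lev) (hG : Good e T)
    (h1 : ∃ a : A, a ≠ e) (u v : ι → B)
    (h : ∀ i j, d (u i) (u j) = d (v i) (v j)) (hl : ∀ i, lev (u i) = lev (v i))
    (X G : Finset B) :
    ∃ γ : B ≃ B, AutL d lev γ ∧ (∀ i, γ (u i) = v i) ∧
      ∀ x ∈ X, (∀ i, u i ≠ x) → γ x ∉ G :=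
  HF_aux S hG h1 G X u v h hl

end Pool.Agent.SIG
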