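import Pool.Agent.SIG.LAM
import Pool.Agent.SIG.HF

namespace Pool.Agent.SIG

theorem chain {A B : Type*} [Finite A] [Countable B] {e : A} {T : A → A → A → Prop}
    {d : B → B → A} {lev : B → ℕ} {U : A → A → Prop} {M : B → B → B → B}
    {Φ : Set ((Fin 3 → B) → B)} {t : Fin 3 → A} {i j : ℕ}
    (S : Sys e T d lev) (hG : Good e T) (hΦ : Fam d lev U M Φ) (hte : ∀ c, t c ≠ e)
    (hij : i ≠ j) (E E' E'' : Set A) (P Q P' Q' V W V' W' : Fin 3 → B)
    (h1 : PT d lev t i j P Q) (h2 : PT d lev t i j P' Q') (h3 : PT d lev t i j V W)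
    (h4 : PT d lev t i j V' W')
    (hi : ∀ ψ ∈ Φ, d (ψ P) (ψ Q) ∈ E → d (ψ P') (ψ Q') ∈ E')
    (hi' : ∀ ψ ∈ Φ, d (ψ V) (ψ W) ∈ E' → d (ψ V') (ψ W') ∈ E'') :
    ∃ P'' Q'', PT d lev t i j P'' Q'' ∧
      (∀ ψ ∈ Φ, d (ψ P) (ψ Q) ∈ E → d (ψ P'') (ψ Q'') ∈ E'') ∧
      (∀ c, P' c ≠ P c ∨ V' c ≠ V c → P'' c ≠ P c) ∧
      (∀ c, Q' c ≠ Q c ∨ W' c ≠ W c → Q'' c ≠ Q c) := by
  classical
  have key : ∀ c, ∃ γ : B ≃ B, AutL d lev γ ∧ γ (V c) = P' c ∧ γ (W c) = Q' c ∧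
      ∀ x, x = V' c ∨ x = W' c → x ≠ V c → x ≠ W c → γ x ≠ P c ∧ γ x ≠ Q c := by
    intro c
    obtain ⟨a1, a2, a3⟩ := h3 c
    obtain ⟨b1, b2, b3⟩ := h2 c
    obtain ⟨γ, hγ, hγ', hfr⟩ := homog_fresh S hG ⟨t 0, hte 0⟩
      (fun k : Fin 2 => if k = 0 then V c else W c)
      (fun k : Fin 2 => if k = 0 then P' c else Q' c) (by
        intro a b
        fin_cases a <;> fin_cases b <;>
          simp [S.dself, a1, b1, S.dsymm (W c) (V c), S.dsymm (Q' c) (P' c)]) (by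
        intro a
        fin_cases a <;> simp [a2, a3, b2, b3]) {V' c, W' c} {P c, Q c}
    refine ⟨γ, hγ, by simpa using hγ' 0, by simpa using hγ' 1, ?_⟩
    intro x hx hxV hxW
    have := hfr x (by simpa using hx) (by
      intro k
      fin_cases k
      · simpa using hxV.symm
      · simpa using hxW.symm)
    simpa using this
  choose γ hγ hγV hγW hfr using key
  have eV : act γ V = P' := funext hγV
  have eW : act γ W = Q' := funext hγW
  refine ⟨act γ V', act γ W', ?_, ?_, ?_, ?_⟩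
  · intro c
    obtain ⟨a1, a2, a3⟩ := h4 c
    refine ⟨?_, ?_, ?_⟩
    · rw [← a1]
      exact (hγ c).1 _ _
    · rw [← a2]
      exact (hγ c).2 _
    · rw [← a3]
      exact (hγ c).2 _
  · intro ψ hψ hE
    have g1 := hi ψ hψ hE
    have g2 := hi' _ (hΦ.pre ψ hψ γ hγ) (by
      show d (ψ (act γ V)) (ψ (act γ W)) ∈ E'
      rw [eV, eW]
      exact g1)
    exact g2
  · intro c hc
    show γ c (V' c) ≠ P c
    by_cases hV : V' c = V c
    · rw [hV, hγV]
      rcases hc with hc | hc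
      · exact hc
      · exact absurd hV hc
    · refine (hfr c (V' c) (Or.inl rfl) hV ?_).1
      intro hVW
      apply hij
      rw [← (h4 c).2.1, hVW, (h3 c).2.2]
  · intro c hc
    show γ c (W' c) ≠ Q c
    by_cases hW : W' c = W c
    · rw [hW, hγW]
      rcases hc with hc | hc
      · exact hc
      · exact absurd hW hc
    · refine (hfr c (W' c) (Or.inr rfl) ?_ hW).2
      intro hWV
      apply hij
      rw [← (h4 c).2.2, hWV, (h3 c).2.1]

end Pool.Agent.SIG
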