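import Pool.Agent.SIG.REA

namespace Pool.Agent.SIG

theorem compact {A B X : Type*} [Finite A] [Countable X] {e : A} {T : A → A → A → Prop}
    {d : B → B → A} (S : USys e T d) (ψ : Finset X → X → B) :
    ∃ φ : X → B, ∀ G : Finset X, ∃ F, G ⊆ F ∧
      ∀ P ∈ G, ∀ Q ∈ G, d (φ P) (φ Q) = d (ψ F P) (ψ F Q) := by
  classical
  let U : Ultrafilter (Finset X) := Ultrafilter.of Filter.atTop
  have hU : (U : Filter (Finset X)) ≤ Filter.atTop := Ultrafilter.of_le _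
  have hlim : ∀ P Q : X, ∃ a : A, ∀ᶠ F in (U : Filter (Finset X)), d (ψ F P) (ψ F Q) = a := by
    intro P Q
    obtain ⟨a, ha⟩ := Ultrafilter.eq_pure_of_finite (U.map fun F => d (ψ F P) (ψ F Q))
    refine ⟨a, ?_⟩
    have h1 : {a} ∈ U.map fun F => d (ψ F P) (ψ F Q) := by
      rw [ha]
      exact Ultrafilter.mem_pure.2 rfl
    exact Ultrafilter.mem_map.1 h1
  choose δ hδ using hlim
  obtain ⟨φ, hφ, -⟩ := realize S δ (fun _ => ()) (by
      intro x
      obtain ⟨F, hF⟩ := (hδ x x).exists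
      rw [← hF]
      exact (S.deq _ _).2 rfl) (by
      intro x y
      obtain ⟨F, hF1, hF2⟩ := ((hδ x y).and (hδ y x)).exists
      rw [← hF1, ← hF2]
      exact S.dsymm _ _) (by
      intro x y z
      obtain ⟨F, hF1, hF2, hF3⟩ := ((hδ x y).and ((hδ y z).and (hδ x z))).exists
      rw [← hF1, ← hF2, ← hF3]
      exact S.tri _ _ _) (fun _ _ _ => rfl)
  refine ⟨φ, fun G => ?_⟩
  have h1 : ∀ᶠ F in (U : Filter (Finset X)), G ⊆ F := hU (Filter.eventually_ge_atTop G)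
  have h2 : ∀ᶠ F in (U : Filter (Finset X)), ∀ P ∈ G, ∀ Q ∈ G,
      d (ψ F P) (ψ F Q) = δ P Q := by
    rw [Filter.eventually_all_finset]
    intro P _
    rw [Filter.eventually_all_finset]
    intro Q _
    exact hδ P Q
  obtain ⟨F, hF1, hF2⟩ := (h1.and h2).exists
  refine ⟨F, hF1, fun P hP Q hQ => ?_⟩
  rw [hφ, hF2 P hP Q hQ]

theorem Sys.forget {A B L : Type*} [Nonempty L] {e : A} {T : A → A → A → Prop}
    {d : B → B → A} {lev : B → L} (S : Sys e T d lev) : USys e T d := by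
  obtain ⟨k0⟩ := ‹Nonempty L›
  refine ⟨S.T12, S.T23, S.Te, S.dsymm, S.deq, S.tri, ?_, S.prim⟩
  intro F t _ h1 h2
  obtain ⟨z, -, hz⟩ := S.ep F t k0 h1 h2
  exact ⟨z, rfl, hz⟩

end Pool.Agent.SIG
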