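import Pool.Agent.SIG.BAS

namespace Pool.Agent.SIG

theorem conn_coord {ι A B L : Type*} [DecidableEq ι] {e : A} {T : A → A → A → Prop}
    {d : B → B → A} {lev : B → L} (S : Sys e T d lev) (hG : Good e T)
    {R : (ι → B) → (ι → B) → (ι → B) → (ι → B) → Prop} (hR : IRel d lev R)
    (P Q : ι → B) (c : ι) (hc : d (P c) (Q c) ≠ e)
    (h1 : Free1 d lev R P Q c) (h2 : Free2 d lev R P Q c) :
    ∀ U V, SameT d lev P Q U V → ∀ u v, d u v = d (U c) (V c) → lev u = lev (U c) →
      lev v = lev (V c) → R U V (Function.update U c u) (Function.update V c v) := by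
  set x := d (P c) (Q c) with hx
  -- changing the coordinate `c` keeps the type
  have hst : ∀ U V, SameT d lev P Q U V → ∀ u v, d u v = x → lev u = lev (P c) →
      lev v = lev (Q c) → SameT d lev P Q (Function.update U c u) (Function.update V c v) := by
    intro U V hUV u v huv hlu hlv i
    by_cases hi : i = c
    · subst hi
      simp only [Function.update_self]
      exact ⟨by rw [huv], hlu.symm, hlv.symm⟩
    · simp only [Function.update_of_ne hi]
      exact hUV i
  have sst : ∀ U V U' V', SameT d lev P Q U V → SameT d lev P Q U' V' → SameT d lev U V U' V' := by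
    intro U V U' V' h3 h4 i
    exact ⟨(h3 i).1.symm.trans (h4 i).1, (h3 i).2.1.symm.trans (h4 i).2.1,
      (h3 i).2.2.symm.trans (h4 i).2.2⟩
  let Conn : B → B → Prop := fun u u' => ∀ U V, SameT d lev P Q U V → U c = u →
    ∃ v', d u' v' = x ∧ lev v' = lev (Q c) ∧ R U V (Function.update U c u') (Function.update V c v')
  let E : Set A := {y | y ≠ e ∧ ∀ u u', lev u = lev (P c) → lev u' = lev (P c) → d u u' = y →
    Conn u u'}
  have hxE : x ∈ E := by
    refine ⟨hc, ?_⟩
    intro u u' hlu hlu' huu U V hUV hUc
    have hT : T x x (d u u') := by rw [huu]; exact hG.aaa x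
    obtain ⟨v', hlv', hv1, hv2⟩ := exists_third S u u' x x hc hc hT (lev (Q c))
    refine ⟨v', hv2, hlv', ?_⟩
    have hUVc : d (U c) (V c) = x := (hUV c).1.symm
    have s1 : R U V U (Function.update V c v') := by
      apply h2 U V hUV v'
      · rw [hUc, hv1, ← hUc, hUVc]
      · rw [hlv']; exact (hUV c).2.2
    have hS1 : SameT d lev P Q U (Function.update V c v') := by
      have := hst U V hUV u v' hv1 hlu hlv'
      rw [← hUc, Function.update_eq_self] at this
      exact this
    have s2 : R U (Function.update V c v') (Function.update U c u') (Function.update V c v') := by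
      apply h1 U (Function.update V c v') hS1 u'
      · rw [Function.update_self, hv2, hUc, hv1]
      · rw [hlu', ← hlu, hUc]
    have hS2 : SameT d lev P Q (Function.update U c u') (Function.update V c v') :=
      hst U V hUV u' v' hv2 hlu' hlv'
    exact hR.trans _ _ _ _ _ _ (sst _ _ _ _ hUV hS1) (sst _ _ _ _ hS1 hS2) s1 s2
  have hcl : ∀ y1 ∈ E, ∀ y2 ∈ E, ∀ z, z ≠ e → T y1 y2 z → z ∈ E := by
    intro y1 hy1 y2 hy2 z hz hT
    refine ⟨hz, ?_⟩
    intro u u' hlu hlu' huu U V hUV hUc
    obtain ⟨w, hlw, hw1, hw2⟩ := exists_third S u u' y1 y2 hy1.1 hy2.1 (by rw [huu]; exact hT)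
      (lev (P c))
    obtain ⟨v1, hv1, hlv1, r1⟩ := hy1.2 u w hlu hlw hw1 U V hUV hUc
    have hS1 : SameT d lev P Q (Function.update U c w) (Function.update V c v1) :=
      hst U V hUV w v1 hv1 hlw hlv1
    obtain ⟨v2, hv2, hlv2, r2⟩ := hy2.2 w u' hlw hlu' (by rw [S.dsymm]; exact hw2)
      (Function.update U c w) (Function.update V c v1) hS1 (Function.update_self _ _ _)
    rw [Function.update_idem, Function.update_idem] at r2
    have hS2 : SameT d lev P Q (Function.update U c u') (Function.update V c v2) :=
      hst U V hUV u' v2 hv2 hlu' hlv2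
    exact ⟨v2, hv2, hlv2, hR.trans _ _ _ _ _ _ (sst _ _ _ _ hUV hS1) (sst _ _ _ _ hS1 hS2) r1 r2⟩
  have hall := S.prim E (fun h => h.1 rfl) ⟨x, hxE⟩ hcl
  intro U V hUV u v huv hlu hlv
  have hUVc : d (U c) (V c) = x := (hUV c).1.symm
  have hlu' : lev u = lev (P c) := hlu.trans (hUV c).2.1.symm
  have hlv' : lev v = lev (Q c) := hlv.trans (hUV c).2.2.symm
  by_cases hu : u = U c
  · have s1 : R U V U (Function.update V c v) := by
      apply h2 U V hUV v
      · rw [← hu, huv, hu]
      · exact hlv
    rw [hu, Function.update_eq_self]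
    exact s1
  · have hne : d (U c) u ≠ e := by
      intro h3
      exact hu ((S.deq _ _).mp h3).symm
    obtain ⟨v', hv', hlv2, r1⟩ := (hall _ hne).2 (U c) u (hUV c).2.1.symm hlu' rfl U V hUV rfl
    have hS1 : SameT d lev P Q (Function.update U c u) (Function.update V c v') :=
      hst U V hUV u v' hv' hlu' hlv2
    have r2 : R (Function.update U c u) (Function.update V c v') (Function.update U c u)
        (Function.update (Function.update V c v') c v) := by
      apply h2 _ _ hS1 v
      · rw [Function.update_self, Function.update_self, hv', huv, hUVc]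
      · rw [Function.update_self, hlv', hlv2]
    rw [Function.update_idem] at r2
    have hS2 : SameT d lev P Q (Function.update U c u) (Function.update V c v) :=
      hst U V hUV u v (by rw [huv, hUVc]) hlu' hlv'
    exact hR.trans _ _ _ _ _ _ (sst _ _ _ _ hUV hS1) (sst _ _ _ _ hS1 hS2) r1 r2

end Pool.Agent.SIG
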