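import Pool.Agent.SIG.TIM

namespace Pool.Agent.SIG

theorem corr_base {A B : Type*} [Finite A] [Countable B] {e : A} {T : A → A → A → Prop}
    {d : B → B → A} (S : USys e T d) (hU : ∀ a b, UPp d a b → Unif d a b)
    (x x' y y' : B) (hne : d x x' ≠ d y y')
    (h : ∀ a b, UPp d a b → ¬ TI d a b (d x x') (d y y')) :
    ∃ ψ, Pol2 d ψ ∧ (∀ u u' v v', UPp d (d u u') (d v v') →
      d (ψ u v) (ψ u' v') = d u u') ∧ d (ψ x y) (ψ x' y') = d y y' := by
  classical
  cases nonempty_fintype A
  have key : ∀ Z : Finset (A × A), ∃ ψ, Pol2 d ψ ∧ (∀ u u' v v', (d u u', d v v') ∈ Z →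
      UPp d (d u u') (d v v') → d (ψ u v) (ψ u' v') = d u u') ∧
      d (ψ x y) (ψ x' y') = d y y' := by
    intro Z
    induction Z using Finset.induction_on with
    | empty =>
      refine ⟨fun _ b => b, ?_, ?_, rfl⟩
      · intro a a' b b'
        exact Or.inr rfl
      · intro u u' v v' hm
        simp at hm
    | insert p Z hp ih =>
      obtain ⟨ψ, hψ, hZ, hj⟩ := ih
      obtain ⟨a, b⟩ := p
      by_cases hab : UPp d a b
      · obtain ⟨x0, x0', hx0⟩ := exists_label S a
        obtain ⟨y0, y0', hy0⟩ := exists_label S b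
        have hnI : ¬ Imp d x0 x0' y0 y0' x x' y y' := by
          intro hI
          exact h a b hab ⟨x0, x0', y0, y0', x, x', y, y', hx0, hy0, rfl, rfl, hI⟩
        unfold Imp at hnI
        push Not at hnI
        obtain ⟨ψ', hψ', h1, h2⟩ := hnI
        have h3 : d (ψ' x y) (ψ' x' y') = d y y' := by
          rcases hψ' x x' y y' with h4 | h4
          · exact absurd h4 h2
          · exact h4
        have h4 : ∀ u u' v v', d u u' = a → d v v' = b → d (ψ' u v) (ψ' u' v') = d u u' := by
          rcases hU a b hab ψ' hψ' with h5 | h5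
          · intro u u' v v' hu hv
            exact h5 u u' v v' (Or.inl ⟨hu, hv⟩)
          · exfalso
            have h6 := h5 x0 x0' y0 y0' (Or.inl ⟨hx0, hy0⟩)
            rw [h1, hx0, hy0] at h6
            exact hab.1 h6
        have h5 : ∀ i j : Fin 2, d (![ψ' x y, ψ' x' y'] i) (![ψ' x y, ψ' x' y'] j) =
            d (![y, y'] i) (![y, y'] j) := by
          intro i j
          fin_cases i <;> fin_cases j
          · change d (ψ' x y) (ψ' x y) = d y y
            rw [S.dself, S.dself]
          · exact h3
          · change d (ψ' x' y') (ψ' x y) = d y' y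
            rw [S.dsymm, S.dsymm y', h3]
          · change d (ψ' x' y') (ψ' x' y') = d y' y'
            rw [S.dself, S.dself]
        obtain ⟨γ, hγ, hγm⟩ := homog S ![ψ' x y, ψ' x' y'] ![y, y'] h5 (fun _ => rfl)
        have g1 : γ (ψ' x y) = y := hγm 0
        have g2 : γ (ψ' x' y') = y' := hγm 1
        refine ⟨fun u v => ψ u (γ (ψ' u v)), ?_, ?_, ?_⟩
        · intro u u' v v'
          rcases hψ u u' (γ (ψ' u v)) (γ (ψ' u' v')) with h6 | h6
          · exact Or.inl h6
          · rw [h6, hγ.1]
            exact hψ' u u' v v'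
        · intro u u' v v' hm hup
          change d (ψ u (γ (ψ' u v))) (ψ u' (γ (ψ' u' v'))) = d u u'
          have hin : d (γ (ψ' u v)) (γ (ψ' u' v')) = d (ψ' u v) (ψ' u' v') := hγ.1 _ _
          have hcase : d (ψ' u v) (ψ' u' v') = d u u' →
              d (ψ u (γ (ψ' u v))) (ψ u' (γ (ψ' u' v'))) = d u u' := by
            intro h7
            rcases hψ u u' (γ (ψ' u v)) (γ (ψ' u' v')) with h6 | h6
            · exact h6
            · rw [h6, hin, h7]
          rcases Finset.mem_insert.mp hm with h7 | h7
          · rw [Prod.mk.injEq] at h7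
            exact hcase (h4 u u' v v' h7.1 h7.2)
          · rcases hψ' u u' v v' with h8 | h8
            · exact hcase h8
            · have h9 : d (γ (ψ' u v)) (γ (ψ' u' v')) = d v v' := by rw [hin, h8]
              apply hZ u u' (γ (ψ' u v)) (γ (ψ' u' v'))
              · rw [h9]; exact h7
              · rw [h9]; exact hup
        · change d (ψ x (γ (ψ' x y))) (ψ x' (γ (ψ' x' y'))) = d y y'
          rw [g1, g2]
          exact hj
      · refine ⟨ψ, hψ, ?_, hj⟩
        intro u u' v v' hm hup
        rcases Finset.mem_insert.mp hm with h7 | h7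
        · rw [Prod.mk.injEq] at h7
          rw [h7.1, h7.2] at hup
          exact absurd hup hab
        · exact hZ u u' v v' h7 hup
  obtain ⟨ψ, hψ, hZ, hj⟩ := key Finset.univ
  exact ⟨ψ, hψ, fun u u' v v' hup => hZ u u' v v' (Finset.mem_univ _) hup, hj⟩

end Pool.Agent.SIG
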