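import Pool.Agent.SIG.BAS

namespace Pool.Agent.SIG

open Classical in
private theorem rea_step {A B L : Type*} {e : A} {T : A → A → A → Prop} {d : B → B → A}
    {lev : B → L} (S : Sys e T d lev) (δ : ℕ → ℕ → A) (lam : ℕ → L)
    (h0 : ∀ x, δ x x = e) (hs : ∀ x y, δ x y = δ y x)
    (ht : ∀ x y z, T (δ x y) (δ y z) (δ x z)) (hl : ∀ x y, δ x y = e → lam x = lam y)
    (n : ℕ) (b : ℕ → B) (hb : ∀ m < n, lev (b m) = lam m ∧ ∀ m' < m, d (b m) (b m') = δ m m') :
    ∃ z, lev z = lam n ∧ ∀ m < n, d z (b m) = δ n m := by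
  have hall : ∀ m < n, ∀ m' < n, d (b m) (b m') = δ m m' := by
    intro m hm m' hm'
    rcases lt_trichotomy m m' with h | h | h
    · rw [S.dsymm, (hb m' hm').2 m h, hs]
    · subst h
      rw [(S.deq _ _).2 rfl, h0]
    · exact (hb m hm).2 m' h
  by_cases hc : ∃ m < n, δ n m = e
  · obtain ⟨m, hm, hme⟩ := hc
    refine ⟨b m, ?_, ?_⟩
    · rw [(hb m hm).1, hl n m hme]
    · intro m' hm'
      have h1 := ht n m m'
      rw [hme] at h1
      rw [hall m hm m' hm', (S.Te _ _).1 h1]
  · push Not at hc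
    let t : B → A := fun y => if h : ∃ m, m < n ∧ b m = y then δ n h.choose else e
    have ht' : ∀ m < n, t (b m) = δ n m := by
      intro m hm
      have hex : ∃ m', m' < n ∧ b m' = b m := ⟨m, hm, rfl⟩
      have h1 : t (b m) = δ n hex.choose := dif_pos hex
      obtain ⟨h2, h3⟩ := hex.choose_spec
      rw [h1]
      generalize hex.choose = m' at h2 h3
      have h4 : δ m' m = e := by
        rw [← hall m' h2 m hm, (S.deq _ _).2 h3]
      have h5 := ht n m' m
      rw [h4] at h5
      exact (S.Te _ _).1 (S.T12 _ _ _ h5)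
    obtain ⟨z, hz1, hz2⟩ := S.ep ((Finset.range n).image b) t (lam n) (by
      intro x hx
      obtain ⟨m, hm, rfl⟩ := Finset.mem_image.1 hx
      rw [ht' m (Finset.mem_range.1 hm)]
      exact hc m (Finset.mem_range.1 hm)) (by
      intro x hx y hy
      obtain ⟨m, hm, rfl⟩ := Finset.mem_image.1 hx
      obtain ⟨m', hm', rfl⟩ := Finset.mem_image.1 hy
      rw [Finset.mem_range] at hm hm'
      rw [ht' m hm, ht' m' hm', hall m hm m' hm']
      have h1 := ht m n m'
      rwa [hs m n] at h1)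
    refine ⟨z, hz1, fun m hm => ?_⟩
    rw [hz2 (b m) (Finset.mem_image_of_mem b (Finset.mem_range.2 hm)), ht' m hm]

open Classical in
private theorem rea_nat {A B L : Type*} {e : A} {T : A → A → A → Prop} {d : B → B → A}
    {lev : B → L} (S : Sys e T d lev) (δ : ℕ → ℕ → A) (lam : ℕ → L)
    (h0 : ∀ x, δ x x = e) (hs : ∀ x y, δ x y = δ y x)
    (ht : ∀ x y z, T (δ x y) (δ y z) (δ x z)) (hl : ∀ x y, δ x y = e → lam x = lam y) :
    ∃ φ : ℕ → B, (∀ x y, d (φ x) (φ y) = δ x y) ∧ ∀ x, lev (φ x) = lam x := by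
  obtain ⟨b0, -, -⟩ := S.ep ∅ (fun _ => e) (lam 0) (by simp) (by simp)
  let step : (n : ℕ) → ((m : ℕ) → m < n → B) → B := fun n g =>
    if h : ∃ z, lev z = lam n ∧ ∀ m (hm : m < n), d z (g m hm) = δ n m then h.choose else b0
  let b : ℕ → B := WellFounded.fix (C := fun _ => B) Nat.lt_wfRel.wf step
  have hbe : ∀ n, b n = step n (fun m _ => b m) := fun n =>
    WellFounded.fix_eq (C := fun _ => B) Nat.lt_wfRel.wf step n
  have key : ∀ n, lev (b n) = lam n ∧ ∀ m < n, d (b n) (b m) = δ n m := by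
    intro n
    induction n using Nat.strong_induction_on with
    | _ n ih =>
      have h1 := rea_step S δ lam h0 hs ht hl n b ih
      have h2 : b n = h1.choose := by
        rw [hbe n]
        exact dif_pos h1
      rw [h2]
      exact h1.choose_spec
  refine ⟨b, ?_, fun x => (key x).1⟩
  intro x y
  rcases lt_trichotomy x y with h | h | h
  · rw [S.dsymm, (key y).2 x h, hs]
  · subst h
    rw [(S.deq _ _).2 rfl, h0]
  · exact (key x).2 y h

theorem realize {A B L X : Type*} [Countable X] {e : A} {T : A → A → A → Prop} {d : B → B → A}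
    {lev : B → L} (S : Sys e T d lev) (δ : X → X → A) (lam : X → L)
    (h0 : ∀ x, δ x x = e) (hs : ∀ x y, δ x y = δ y x)
    (ht : ∀ x y z, T (δ x y) (δ y z) (δ x z)) (hl : ∀ x y, δ x y = e → lam x = lam y) :
    ∃ φ : X → B, (∀ x y, d (φ x) (φ y) = δ x y) ∧ ∀ x, lev (φ x) = lam x := by
  rcases isEmpty_or_nonempty X with hX | hX
  · exact ⟨fun x => (hX.false x).elim, fun x => (hX.false x).elim, fun x => (hX.false x).elim⟩
  · obtain ⟨en, hen⟩ := exists_surjective_nat X
    obtain ⟨φ, h1, h2⟩ := rea_nat S (fun i j => δ (en i) (en j)) (fun i => lam (en i))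
      (fun _ => h0 _) (fun _ _ => hs _ _) (fun _ _ _ => ht _ _ _) (fun _ _ h => hl _ _ h)
    refine ⟨fun x => φ (Function.surjInv hen x), fun x y => ?_, fun x => ?_⟩
    · rw [h1, Function.surjInv_eq hen, Function.surjInv_eq hen]
    · rw [h2, Function.surjInv_eq hen]

end Pool.Agent.SIG
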