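import Pool.Agent.SIG.PF
import Pool.Agent.SIG.FR

namespace Pool.Agent.SIG

private theorem MV_move {ι A B L : Type*} [Countable B]
    {e : A} {T : A → A → A → Prop} {d : B → B → A} {lev : B → L} (S : Sys e T d lev)
    {R : (ι → B) → (ι → B) → (ι → B) → (ι → B) → Prop} (hR : IRel d lev R)
    {P Q P1 Q1 U V U1 V1 : ι → B} (h : R P Q P1 Q1)
    (H : ∀ c, d (P c) (Q c) = d (U c) (V c) ∧ d (P c) (P1 c) = d (U c) (U1 c) ∧
      d (P c) (Q1 c) = d (U c) (V1 c) ∧ d (Q c) (P1 c) = d (V c) (U1 c) ∧
      d (Q c) (Q1 c) = d (V c) (V1 c) ∧ d (P1 c) (Q1 c) = d (U1 c) (V1 c))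
    (HL : ∀ c, lev (P c) = lev (U c) ∧ lev (Q c) = lev (V c) ∧ lev (P1 c) = lev (U1 c) ∧
      lev (Q1 c) = lev (V1 c)) : R U V U1 V1 := by
  have key : ∀ c, ∃ γ : B ≃ B, AutL d lev γ ∧ γ (P c) = U c ∧ γ (Q c) = V c ∧
      γ (P1 c) = U1 c ∧ γ (Q1 c) = V1 c := by
    intro c
    obtain ⟨h1, h2, h3, h4, h5, h6⟩ := H c
    obtain ⟨l1, l2, l3, l4⟩ := HL c
    have e1 : ∀ x, d x x = e := fun x => (S.deq x x).2 rfl
    obtain ⟨γ, hγ, hi⟩ := homog S (![P c, Q c, P1 c, Q1 c]) (![U c, V c, U1 c, V1 c])
      (by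
        intro i j
        fin_cases i <;> fin_cases j <;>
          simp [e1, h1, h2, h3, h4, h5, h6, S.dsymm (Q c) (P c), S.dsymm (V c) (U c),
            S.dsymm (P1 c) (P c), S.dsymm (U1 c) (U c), S.dsymm (Q1 c) (P c),
            S.dsymm (V1 c) (U c), S.dsymm (P1 c) (Q c), S.dsymm (U1 c) (V c),
            S.dsymm (Q1 c) (Q c), S.dsymm (V1 c) (V c), S.dsymm (Q1 c) (P1 c),
            S.dsymm (V1 c) (U1 c)])
      (by
        intro i
        fin_cases i <;> simp [l1, l2, l3, l4])
    exact ⟨γ, hγ, by simpa using hi 0, by simpa using hi 1, by simpa using hi 2,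
      by simpa using hi 3⟩
  choose γ hγ g1 g2 g3 g4 using key
  have := hR.inv γ hγ _ _ _ _ h
  have a1 : act γ P = U := funext g1
  have a2 : act γ Q = V := funext g2
  have a3 : act γ P1 = U1 := funext g3
  have a4 : act γ Q1 = V1 := funext g4
  rwa [a1, a2, a3, a4] at this

private theorem MV_ext3 {A B L : Type*}
    {e : A} {T : A → A → A → Prop} {d : B → B → A} {lev : B → L} (S : Sys e T d lev)
    (a b c : B) (p q r : A) (hab : a ≠ b) (hac : a ≠ c) (hbc : b ≠ c) (hp : p ≠ e)
    (hq : q ≠ e) (hr : r ≠ e) (h1 : T p q (d a b)) (h2 : T p r (d a c)) (h3 : T q r (d b c))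
    (k : L) : ∃ z, lev z = k ∧ d z a = p ∧ d z b = q ∧ d z c = r := by
  classical
  obtain ⟨z, hz, hd⟩ := S.ep {a, b, c} (fun z => if z = a then p else if z = b then q else r) k
    (by
      intro x hx
      split_ifs <;> assumption)
    (by
      have aa : ∀ x y, T x x (d y y) := fun x y => by
        rw [(S.deq y y).2 rfl]
        exact S.T23 _ _ _ (S.T12 _ _ _ ((S.Te _ _).2 rfl))
      intro x hx y hy
      simp only [Finset.mem_insert, Finset.mem_singleton] at hx hy
      rcases hx with rfl | rfl | rfl <;> rcases hy with rfl | rfl | rfl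
      · simp [aa]
      · simpa [hab, hab.symm] using h1
      · simpa [hac, hac.symm, hbc, hbc.symm] using h2
      · rw [S.dsymm]; simpa [hab, hab.symm] using S.T12 _ _ _ h1
      · simp [aa]
      · simpa [hab, hab.symm, hac, hac.symm, hbc, hbc.symm] using h3
      · rw [S.dsymm]; simpa [hac, hac.symm, hbc, hbc.symm] using S.T12 _ _ _ h2
      · rw [S.dsymm]
        simpa [hab, hab.symm, hac, hac.symm, hbc, hbc.symm] using S.T12 _ _ _ h3
      · simp [aa])
  refine ⟨z, hz, ?_, ?_, ?_⟩
  · simpa using hd a (by simp)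
  · simpa [hab.symm] using hd b (by simp)
  · simpa [hac.symm, hbc.symm] using hd c (by simp)

private theorem MV_sameT_symm {ι A B L : Type*} {d : B → B → A} {lev : B → L}
    {P Q P' Q' : ι → B} (h : SameT d lev P Q P' Q') : SameT d lev P' Q' P Q :=
  fun c => ⟨(h c).1.symm, (h c).2.1.symm, (h c).2.2.symm⟩

private theorem MV_sameT_trans {ι A B L : Type*} {d : B → B → A} {lev : B → L}
    {P Q P' Q' P'' Q'' : ι → B} (h : SameT d lev P Q P' Q') (h' : SameT d lev P' Q' P'' Q'') :
    SameT d lev P Q P'' Q'' :=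
  fun c => ⟨(h c).1.trans (h' c).1, (h c).2.1.trans (h' c).2.1, (h c).2.2.trans (h' c).2.2⟩

private theorem MV_sameT_refl {ι A B L : Type*} {d : B → B → A} {lev : B → L}
    {P Q : ι → B} : SameT d lev P Q P Q :=
  fun _ => ⟨rfl, rfl, rfl⟩

private theorem MV_sameT_update {ι A B L : Type*} [DecidableEq ι] {d : B → B → A} {lev : B → L}
    {P Q : ι → B} (c : ι) (u : B) (h1 : d u (Q c) = d (P c) (Q c)) (h2 : lev u = lev (P c)) :
    SameT d lev P Q (Function.update P c u) Q := by
  intro c'
  by_cases hc : c' = c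
  · subst hc
    simp [h1, h2]
  · simp [Function.update_of_ne hc]

theorem slot_first {ι A B L : Type*} [DecidableEq ι] [Finite ι] [Finite A] [Countable B]
    {e : A} {T : A → A → A → Prop} {d : B → B → A} {lev : B → L} (S : Sys e T d lev)
    (hG : Good e T) {R : (ι → B) → (ι → B) → (ι → B) → (ι → B) → Prop} (hR : IRel d lev R)
    (P Q P' Q' : ι → B) (hs : SameT d lev P Q P' Q') (h : R P Q P' Q') (c : ι)
    (hc : d (P c) (Q c) ≠ e) (h1 : P' c ≠ P c) (h2 : P' c ≠ Q c) : Free1 d lev R P Q c := by
  classical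
  have dself : ∀ x, d x x = e := fun x => (S.deq x x).2 rfl
  have aae : ∀ a, T a a e := fun a => S.T23 _ _ _ (S.T12 _ _ _ ((S.Te _ _).2 rfl))
  have aad : ∀ a x, T a a (d x x) := fun a x => by rw [dself]; exact aae a
  set x := d (P c) (Q c) with hx
  have hx' : d (P' c) (Q' c) = x := (hs c).1.symm
  have h3 : P' c ≠ Q' c := by
    intro hh
    rw [hh, dself] at hx'
    exact hc hx'.symm
  -- the labels of `P' c`
  obtain ⟨y, hyX, hyk⟩ := hG.king {d (P' c) (P c), d (P' c) (Q c), d (P' c) (Q' c)}
    ⟨_, Finset.mem_insert_self _ _⟩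
    (by
      simp only [Finset.mem_insert, Finset.mem_singleton, not_or]
      refine ⟨fun hh => h1 ((S.deq _ _).1 hh.symm), fun hh => h2 ((S.deq _ _).1 hh.symm),
        fun hh => h3 ((S.deq _ _).1 hh.symm)⟩)
  have hye : y ≠ e := by
    simp only [Finset.mem_insert, Finset.mem_singleton] at hyX
    rintro rfl
    rcases hyX with hh | hh | hh
    · exact h1 ((S.deq _ _).1 hh.symm)
    · exact h2 ((S.deq _ _).1 hh.symm)
    · exact h3 ((S.deq _ _).1 hh.symm)
  have k1 : T (d (P' c) (P c)) (d (P' c) (P c)) y := hyk _ (by simp)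
  have k2 : T (d (P' c) (Q c)) (d (P' c) (Q c)) y := hyk _ (by simp)
  have k3 : T (d (P' c) (Q' c)) (d (P' c) (Q' c)) y := hyk _ (by simp)
  have hxxy : T x x y := by rw [hx'] at k3; exact k3
  -- the copy `w`
  obtain ⟨w, hwl, hwd⟩ := S.ep {P c, Q c, Q' c, P' c}
    (fun z => if z = P' c then y else d (P' c) z) (lev (P' c))
    (by
      intro z hz
      split_ifs with hh
      · exact hye
      · exact fun h0 => hh ((S.deq _ _).1 h0).symm)
    (by
      have kk : ∀ z, z ∈ ({P c, Q c, Q' c, P' c} : Finset B) → z ≠ P' c →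
          T (d (P' c) z) (d (P' c) z) y := by
        intro z hz hne
        simp only [Finset.mem_insert, Finset.mem_singleton] at hz
        rcases hz with rfl | rfl | rfl | rfl
        · exact k1
        · exact k2
        · exact k3
        · exact absurd rfl hne
      intro z hz z' hz'
      split_ifs with ha hb hb
      · rw [ha, hb]; exact aad _ _
      · rw [ha]
        exact S.T12 _ _ _ (S.T23 _ _ _ (kk z' hz' hb))
      · rw [hb, S.dsymm z (P' c)]
        exact S.T23 _ _ _ (kk z hz ha)
      · have := S.tri z (P' c) z'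
        rw [S.dsymm z (P' c)] at this
        exact this)
  have w1 : d w (P c) = d (P' c) (P c) := by
    have := hwd (P c) (by simp)
    simpa [h1.symm] using this
  have w2 : d w (Q c) = d (P' c) (Q c) := by
    have := hwd (Q c) (by simp)
    simpa [h2.symm] using this
  have w3 : d w (Q' c) = d (P' c) (Q' c) := by
    have := hwd (Q' c) (by simp)
    simpa [h3.symm] using this
  have w4 : d w (P' c) = y := by
    have := hwd (P' c) (by simp)
    simpa using this
  -- first move
  have r1 : R P Q (Function.update P' c w) Q' := by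
    refine MV_move S hR h ?_ ?_
    · intro c'
      by_cases hcc : c' = c
      · subst hcc
        rw [Function.update_self]
        refine ⟨rfl, ?_, rfl, ?_, rfl, w3.symm⟩
        · rw [S.dsymm (P c') w, w1, S.dsymm]
        · rw [S.dsymm (Q c') w, w2, S.dsymm]
      · simp [Function.update_of_ne hcc]
    · intro c'
      by_cases hcc : c' = c
      · subst hcc
        simp [hwl]
      · simp [Function.update_of_ne hcc]
  have s1 : SameT d lev P' Q' (Function.update P' c w) Q' :=
    MV_sameT_update c w w3 hwl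
  have r2 : R P' Q' P Q := place_symm S hR P Q P' Q' hs h
  have r3 : R P' Q' (Function.update P' c w) Q' :=
    hR.trans _ _ _ _ _ _ (MV_sameT_symm hs) (MV_sameT_trans hs s1) r2 r1
  have r0 : R P Q P Q := hR.trans _ _ _ _ _ _ hs (MV_sameT_symm hs) h r2
  -- the set of labels
  let Mv : A → Prop := fun y => ∀ U V, SameT d lev P Q U V → ∀ u, lev u = lev (U c) →
    d u (V c) = d (U c) (V c) → d (U c) u = y → R U V (Function.update U c u) V
  have hall : ∀ z, z ≠ e → T x x z → z ∈ {y | y ≠ e ∧ T x x y ∧ Mv y} := by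
    apply hG.lp x hc
    · refine ⟨y, hye, hxxy, ?_⟩
      intro U V hUV u hu1 hu2 hu3
      have hs' := MV_sameT_trans (MV_sameT_symm hs) hUV
      refine MV_move S hR r3 ?_ ?_
      · intro c'
        by_cases hcc : c' = c
        · subst hcc
          simp only [Function.update_self]
          refine ⟨(hs' c').1, ?_, (hs' c').1, ?_, ?_, ?_⟩
          · rw [S.dsymm (P' c') w, w4, hu3]
          · rw [S.dsymm (Q' c') w, w3, (hs' c').1, S.dsymm (V c') u, hu2]
          · rw [dself, dself]
          · rw [w3, (hs' c').1, hu2]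
        · simp only [Function.update_of_ne hcc]
          refine ⟨(hs' c').1, ?_, (hs' c').1, ?_, ?_, (hs' c').1⟩
          · rw [dself, dself]
          · rw [S.dsymm (Q' c'), S.dsymm (V c'), (hs' c').1]
          · rw [dself, dself]
      · intro c'
        by_cases hcc : c' = c
        · subst hcc
          simp only [Function.update_self]
          exact ⟨(hs' c').2.1, (hs' c').2.2, by rw [hwl, hu1, (hs' c').2.1], (hs' c').2.2⟩
        · simp only [Function.update_of_ne hcc]
          exact ⟨(hs' c').2.1, (hs' c').2.2, (hs' c').2.1, (hs' c').2.2⟩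
    · intro z hz
      exact ⟨hz.1, hz.2.1⟩
    · intro y1 hy1 y2 hy2 y3 hy3 hxx3 hT
      refine ⟨hy3, hxx3, ?_⟩
      intro U V hUV u hu1 hu2 hu3
      have hUVx : d (U c) (V c) = x := (hUV c).1.symm
      have n1 : U c ≠ u := by
        intro hh
        rw [hh, dself] at hu3
        exact hy3 hu3.symm
      have n2 : U c ≠ V c := by
        intro hh
        rw [hh, dself] at hUVx
        exact hc hUVx.symm
      have n3 : u ≠ V c := by
        intro hh
        rw [hh, dself, hUVx] at hu2
        exact hc hu2.symm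
      obtain ⟨u', hl', hd1, hd2, hd3⟩ := MV_ext3 S (U c) u (V c) y1 y2 x n1 n2 n3
        hy1.1 hy2.1 hc (by rw [hu3]; exact hT)
        (by rw [hUVx]; exact S.T12 _ _ _ (S.T23 _ _ _ hy1.2.1))
        (by rw [hu2, hUVx]; exact S.T12 _ _ _ (S.T23 _ _ _ hy2.2.1)) (lev (U c))
      have t1 : SameT d lev U V (Function.update U c u') V :=
        MV_sameT_update c u' (by rw [hd3, hUVx]) hl'
      have t2 : SameT d lev U V (Function.update U c u) V :=
        MV_sameT_update c u hu2 hu1
      have q1 : R U V (Function.update U c u') V :=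
        hy1.2.2 U V hUV u' hl' (by rw [hd3, hUVx]) (by rw [S.dsymm]; exact hd1)
      have q2 : R (Function.update U c u') V (Function.update (Function.update U c u') c u) V := by
        apply hy2.2.2 _ _ (MV_sameT_trans hUV t1) u
        · simp only [Function.update_self]
          rw [hu1, hl']
        · simp only [Function.update_self]
          rw [hd3, hu2, hUVx]
        · simp only [Function.update_self]
          exact hd2
      rw [Function.update_idem] at q2
      exact hR.trans _ _ _ _ _ _ t1 (MV_sameT_trans (MV_sameT_symm t1) t2) q1 q2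
  intro U V hUV u hu hul
  by_cases hne : u = U c
  · subst hne
    rw [Function.update_eq_self]
    refine MV_move S hR r0 ?_ ?_
    · intro c'
      have := (hUV c').1
      refine ⟨this, ?_, this, ?_, ?_, this⟩
      · rw [dself, dself]
      · rw [S.dsymm (Q c'), S.dsymm (V c'), this]
      · rw [dself, dself]
    · intro c'
      exact ⟨(hUV c').2.1, (hUV c').2.2, (hUV c').2.1, (hUV c').2.2⟩
  · have hUVx : d (U c) (V c) = x := (hUV c).1.symm
    have hlab : d (U c) u ≠ e := fun hh => hne ((S.deq _ _).1 hh).symm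
    have hT : T x x (d (U c) u) := by
      have := S.tri (U c) (V c) u
      rw [S.dsymm (V c) u, hu, hUVx] at this
      exact this
    exact (hall _ hlab hT).2.2 U V hUV u hul hu rfl

theorem slot_second {ι A B L : Type*} [DecidableEq ι] [Finite ι] [Finite A] [Countable B]
    {e : A} {T : A → A → A → Prop} {d : B → B → A} {lev : B → L} (S : Sys e T d lev)
    (hG : Good e T) {R : (ι → B) → (ι → B) → (ι → B) → (ι → B) → Prop} (hR : IRel d lev R)
    (P Q P' Q' : ι → B) (hs : SameT d lev P Q P' Q') (h : R P Q P' Q') (c : ι)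
    (hc : d (P c) (Q c) ≠ e) (h1 : Q' c ≠ P c) (h2 : Q' c ≠ Q c) : Free2 d lev R P Q c := by
  have sw : ∀ {P Q P' Q' : ι → B}, SameT d lev P Q P' Q' → SameT d lev Q P Q' P' := by
    intro P Q P' Q' h c
    refine ⟨?_, (h c).2.2, (h c).2.1⟩
    rw [S.dsymm, (h c).1, S.dsymm]
  have hR' : IRel d lev (fun P Q P' Q' => R Q P Q' P') := by
    refine ⟨?_, ?_⟩
    · intro γ hγ P Q P' Q' h
      exact hR.inv γ hγ _ _ _ _ h
    · intro P Q P' Q' P'' Q'' h1 h2 h3 h4
      exact hR.trans _ _ _ _ _ _ (sw h1) (sw h2) h3 h4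
  have := slot_first S hG hR' Q P Q' P' (sw hs) h c (by rw [S.dsymm]; exact hc) h2 h1
  intro U V hUV v hv hvl
  exact this V U (sw hUV) v (by rw [S.dsymm v, hv, S.dsymm]) hvl

end Pool.Agent.SIG
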