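import Pool.Agent.SIG.CN

namespace Pool.Agent.SIG

theorem path {ι A B L : Type*} [DecidableEq ι] [Finite ι] {e : A} {T : A → A → A → Prop}
    {d : B → B → A} {lev : B → L} (S : Sys e T d lev) (hG : Good e T)
    {R : (ι → B) → (ι → B) → (ι → B) → (ι → B) → Prop} (hR : IRel d lev R)
    (P Q P' Q' : ι → B) (hs : SameT d lev P Q P' Q') (hne : ∀ c, d (P c) (Q c) ≠ e)
    (h1 : ∀ c, P' c ≠ P c → Free1 d lev R P Q c)
    (h2 : ∀ c, Q' c ≠ Q c → Free2 d lev R P Q c) (hrefl : R P Q P Q) : R P Q P' Q' := by
  classical
  cases nonempty_fintype ι
  have key : ∀ s : Finset ι, R P Q (fun c => if c ∈ s then P' c else P c)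
      (fun c => if c ∈ s then Q' c else Q c) := by
    intro s
    induction s using Finset.induction_on with
    | empty => simpa using hrefl
    | insert c s hc ih =>
      set U : ι → B := fun c => if c ∈ s then P' c else P c with hU
      set V : ι → B := fun c => if c ∈ s then Q' c else Q c with hV
      have hUV : SameT d lev P Q U V := by
        intro b
        simp only [hU, hV]
        by_cases hb : b ∈ s
        · simp only [hb, if_true]
          exact hs b
        · simp [hb]
      have hUc : U c = P c := by simp only [hU, hc, if_false]
      have hVc : V c = Q c := by simp only [hV, hc, if_false]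
      have e1 : (fun b => if b ∈ insert c s then P' b else P b) =
          Function.update U c (P' c) := by
        funext b
        by_cases hbc : b = c
        · subst hbc; simp
        · simp [Finset.mem_insert, hbc, hU]
      have e2 : (fun b => if b ∈ insert c s then Q' b else Q b) =
          Function.update V c (Q' c) := by
        funext b
        by_cases hbc : b = c
        · subst hbc; simp
        · simp [Finset.mem_insert, hbc, hV]
      rw [e1, e2]
      have hsame : SameT d lev U V (Function.update U c (P' c)) (Function.update V c (Q' c)) := by
        intro b
        by_cases hbc : b = c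
        · subst hbc
          simp only [Function.update_self, hUc, hVc]
          exact hs b
        · simp [Function.update_of_ne hbc]
      have hstep : R U V (Function.update U c (P' c)) (Function.update V c (Q' c)) ∨
          (Function.update U c (P' c) = U ∧ Function.update V c (Q' c) = V) := by
        obtain ⟨hd, hl1, hl2⟩ := hs c
        by_cases hp : P' c = P c
        · have eU : Function.update U c (P' c) = U := by
            rw [hp, ← hUc, Function.update_eq_self]
          by_cases hq : Q' c = Q c
          · have eV : Function.update V c (Q' c) = V := by
              rw [hq, ← hVc, Function.update_eq_self]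
            exact Or.inr ⟨eU, eV⟩
          · left
            rw [eU]
            refine h2 c hq U V hUV (Q' c) ?_ ?_
            · rw [hUc, hVc, hd, hp]
            · rw [hVc, hl2]
        · by_cases hq : Q' c = Q c
          · have eV : Function.update V c (Q' c) = V := by
              rw [hq, ← hVc, Function.update_eq_self]
            left
            rw [eV]
            refine h1 c hp U V hUV (P' c) ?_ ?_
            · rw [hUc, hVc, hd, hq]
            · rw [hUc, hl1]
          · left
            refine conn_coord S hG hR P Q c (hne c) (h1 c hp) (h2 c hq) U V hUV (P' c) (Q' c)
              ?_ ?_ ?_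
            · rw [hUc, hVc, hd]
            · rw [hUc, hl1]
            · rw [hVc, hl2]
      rcases hstep with hstep | ⟨eU, eV⟩
      · exact hR.trans P Q U V _ _ hUV hsame ih hstep
      · rw [eU, eV]; exact ih
  have := key Finset.univ
  simpa using this

end Pool.Agent.SIG
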