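import Pool.Agent.SIG.TIM
import Pool.Agent.SIG.MV
import Pool.Agent.SIG.PATH
import Pool.Agent.SIG.HF

namespace Pool.Agent.SIG

/-- Implication between places of two coordinates. -/
private def UPU_R {A B : Type*} (d : B → B → A) (P Q P' Q' : Fin 2 → B) : Prop :=
  Imp d (P 0) (Q 0) (P 1) (Q 1) (P' 0) (Q' 0) (P' 1) (Q' 1)

private theorem UPU_refl {A B : Type*} {d : B → B → A} (P Q : Fin 2 → B) : UPU_R d P Q P Q :=
  fun _ _ h => h

private theorem UPU_trans {A B : Type*} {d : B → B → A} {P Q P' Q' P'' Q'' : Fin 2 → B}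
    (h : UPU_R d P Q P' Q') (h' : UPU_R d P' Q' P'' Q'') : UPU_R d P Q P'' Q'' :=
  fun ψ hψ hp => h' ψ hψ (h ψ hψ hp)

private theorem UPU_inv {A B : Type*} {d : B → B → A} (γ : Fin 2 → B ≃ B)
    (hγ : ∀ c, AutD d (γ c)) {P Q P' Q' : Fin 2 → B} (h : UPU_R d P Q P' Q') :
    UPU_R d (act γ P) (act γ Q) (act γ P') (act γ Q') := by
  intro ψ hψ hp
  have hψ' : Pol2 d (fun x y => ψ (γ 0 x) (γ 1 y)) := by
    intro x x' y y'
    rcases hψ (γ 0 x) (γ 0 x') (γ 1 y) (γ 1 y') with h1 | h1
    · left; rw [h1]; exact hγ 0 x x'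
    · right; rw [h1]; exact hγ 1 y y'
  have h2 := h _ hψ' (by
    have : d (act γ P 0) (act γ Q 0) = d (P 0) (Q 0) := hγ 0 _ _
    rw [← this]; exact hp)
  have h3 : d (act γ P' 0) (act γ Q' 0) = d (P' 0) (Q' 0) := hγ 0 _ _
  rw [h3]; exact h2

private theorem UPU_rev1 {A B : Type*} {d : B → B → A} (hd : ∀ x y, d x y = d y x)
    {P Q P' Q' : Fin 2 → B} (h : UPU_R d P Q P' Q') : UPU_R d Q P P' Q' := by
  intro ψ hψ hp
  apply h ψ hψ
  rw [hd (ψ _ _) (ψ _ _), hd (P 0) (Q 0)]
  exact hp

private theorem UPU_rev2 {A B : Type*} {d : B → B → A} (hd : ∀ x y, d x y = d y x)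
    {P Q P' Q' : Fin 2 → B} (h : UPU_R d P Q P' Q') : UPU_R d P Q Q' P' := by
  intro ψ hψ hp
  have h1 := h ψ hψ hp
  rw [hd (ψ _ _) (ψ _ _), hd (Q' 0) (P' 0)]
  exact h1

private theorem UPU_irel {A B : Type*} (d : B → B → A) :
    IRel d (fun _ : B => ()) (UPU_R d) where
  inv := fun γ hγ _ _ _ _ h => UPU_inv γ (fun c => (hγ c).1) h
  trans := fun _ _ _ _ _ _ _ _ h h' => UPU_trans h h'

private theorem UPU_free1 {A B : Type*} [Finite A] [Countable B] {e : A} {T : A → A → A → Prop}
    {d : B → B → A} (S : USys e T d) (hG : Good e T) {P Q K L : Fin 2 → B}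
    (h : UPU_R d P Q K L) (h' : UPU_R d K L P Q) (c : Fin 2) (hc : d (P c) (Q c) ≠ e)
    (h1 : P c ≠ K c) (h2 : P c ≠ L c) : Free1 d (fun _ : B => ()) (UPU_R d) P Q c := by
  classical
  have hPQ : P c ≠ Q c := fun hh => hc ((S.deq _ _).2 hh)
  obtain ⟨γ, hγ, hfix, hnew⟩ := homog_fresh S hG ⟨_, hc⟩ (![Q c, K c, L c]) (![Q c, K c, L c])
    (fun _ _ => rfl) (fun _ => rfl) {P c} {P c, Q c}
  have hw := hnew (P c) (by simp) (by
    intro i
    fin_cases i
    · exact fun hh => hPQ hh.symm
    · exact fun hh => h1 hh.symm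
    · exact fun hh => h2 hh.symm)
  have fQ : γ (Q c) = Q c := hfix 0
  have fK : γ (K c) = K c := hfix 1
  have fL : γ (L c) = L c := hfix 2
  let g : Fin 2 → B ≃ B := fun i => if i = c then γ else Equiv.refl B
  have hg : ∀ i, AutD d (g i) := by
    intro i
    by_cases hi : i = c
    · simp only [g, hi, if_true]; exact hγ.1
    · simp only [g, hi, if_false]; exact fun _ _ => rfl
  have gfix : ∀ X : Fin 2 → B, γ (X c) = X c → act g X = X := by
    intro X hX
    funext i
    by_cases hi : i = c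
    · subst hi; simp only [act, g, if_true]; exact hX
    · simp only [act, g, hi, if_false]; rfl
  have gc : act g P c = γ (P c) := by simp only [act, g, if_true]
  have k1 := UPU_inv g hg h'
  rw [gfix K fK, gfix L fL] at k1
  have k2 : UPU_R d P Q (act g P) (act g Q) := UPU_trans h k1
  simp only [Finset.mem_insert, Finset.mem_singleton, not_or] at hw
  refine slot_first S hG (UPU_irel d) P Q (act g P) (act g Q) ?_ k2 c hc ?_ ?_
  · intro i
    exact ⟨(hg i _ _).symm, rfl, rfl⟩
  · rw [gc]; exact hw.1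
  · rw [gc]; exact hw.2

private theorem UPU_swap {A B : Type*} {d : B → B → A} (hd : ∀ x y, d x y = d y x)
    {P Q : Fin 2 → B} {c : Fin 2} (h : Free1 d (fun _ : B => ()) (UPU_R d) Q P c) :
    Free1 d (fun _ : B => ()) (UPU_R d) P Q c := by
  intro U V hs
  apply h U V
  intro i
  exact ⟨by rw [hd (Q i) (P i)]; exact (hs i).1, rfl, rfl⟩

private theorem UPU_free2 {A B : Type*} {d : B → B → A} (hd : ∀ x y, d x y = d y x)
    {P Q : Fin 2 → B} {c : Fin 2} (h : Free1 d (fun _ : B => ()) (UPU_R d) P Q c) :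
    Free2 d (fun _ : B => ()) (UPU_R d) P Q c := by
  intro U V hs v hv _
  have h1 := h V U (by
    intro i
    exact ⟨by rw [hd (V i) (U i)]; exact (hs i).1, rfl, rfl⟩) v (by
      rw [hd v (U c), hd (V c) (U c)]; exact hv) rfl
  exact UPU_rev1 hd (UPU_rev2 hd h1)

private theorem UPU_all {A B : Type*} [Finite A] [Countable B] {e : A} {T : A → A → A → Prop}
    {d : B → B → A} (S : USys e T d) (hG : Good e T) {P Q K L : Fin 2 → B}
    (h : UPU_R d P Q K L) (h' : UPU_R d K L P Q) (hne : ∀ c, d (P c) (Q c) ≠ e)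
    (hd : ∀ c, d (P c) (Q c) ≠ d (K c) (L c)) (P' Q' : Fin 2 → B)
    (hs : ∀ c, d (P c) (Q c) = d (P' c) (Q' c)) : UPU_R d P Q P' Q' := by
  have hsym := S.dsymm
  have f1 : ∀ c, Free1 d (fun _ : B => ()) (UPU_R d) P Q c := by
    intro c
    by_cases h1 : P c = K c ∨ P c = L c
    · by_cases h2 : Q c = K c ∨ Q c = L c
      · exfalso
        have hPQ : P c ≠ Q c := fun hh => hne c ((S.deq _ _).2 hh)
        rcases h1 with h1 | h1 <;> rcases h2 with h2 | h2
        · exact hPQ (h1.trans h2.symm)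
        · exact hd c (by rw [h1, h2])
        · exact hd c (by rw [h1, h2]; exact hsym _ _)
        · exact hPQ (h1.trans h2.symm)
      · rw [not_or] at h2
        apply UPU_swap hsym
        exact UPU_free1 S hG (UPU_rev1 hsym h) (UPU_rev2 hsym h') c
          (by rw [hsym]; exact hne c) h2.1 h2.2
    · rw [not_or] at h1
      exact UPU_free1 S hG h h' c (hne c) h1.1 h1.2
  exact path S hG (UPU_irel d) P Q P' Q' (fun c => ⟨hs c, rfl, rfl⟩) hne (fun c _ => f1 c)
    (fun c _ => UPU_free2 hsym (f1 c)) (UPU_refl P Q)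

private theorem UPU_eq {A B : Type*} {e : A} {T : A → A → A → Prop} {d : B → B → A}
    (S : USys e T d) (f : B → B → B) (hf : InjF d f) (c : A) (h : TI d c e e c) : c = e := by
  obtain ⟨x, x', y, y', u, u', v, v', h1, h2, h3, h4, hI⟩ := h
  have e1 : y = y' := (S.deq _ _).1 h2
  have e2 : u = u' := (S.deq _ _).1 h3
  subst e1; subst e2
  have k := hI f hf.1 (hf.2.2 x x' y)
  rw [hf.2.1 u v v', h4, h3] at k
  exact k

theorem up_uniform {A B : Type*} [Finite A] [Countable B] {e : A} {T : A → A → A → Prop}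
    {d : B → B → A} (S : USys e T d) (hG : Good e T) (f : B → B → B) (hf : InjF d f)
    (a b : A) (h : UPp d a b) : a ≠ e ∧ b ≠ e ∧ Unif d a b := by
  classical
  obtain ⟨hab, hj, hk⟩ := h
  have ha : a ≠ e := by
    intro hh
    subst hh
    exact hab (UPU_eq S f hf b hk).symm
  have hb : b ≠ e := by
    intro hh
    subst hh
    exact hab (UPU_eq S f hf a hj)
  refine ⟨ha, hb, ?_⟩
  have hsym := S.dsymm
  obtain ⟨x, x', y, y', u, u', v, v', h1, h2, h3, h4, hI⟩ := hj
  obtain ⟨p, p', q, q', r, r', s, s', g1, g2, g3, g4, hI'⟩ := hk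
  -- the two places
  let P : Fin 2 → B := ![x, y]
  let Q : Fin 2 → B := ![x', y']
  let K : Fin 2 → B := ![u, v]
  let M : Fin 2 → B := ![u', v']
  have hPK : UPU_R d P Q K M := hI
  obtain ⟨γ, hγ, hγ'⟩ := homog S (![p, p']) (![u, u']) (by
    intro i j
    fin_cases i <;> fin_cases j
    · exact ((S.deq _ _).2 rfl).trans ((S.deq _ _).2 rfl).symm
    · exact g1.trans h3.symm
    · exact (hsym _ _).trans ((g1.trans h3.symm).trans (hsym _ _))
    · exact ((S.deq _ _).2 rfl).trans ((S.deq _ _).2 rfl).symm) (fun _ => rfl)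
  obtain ⟨δ, hδ, hδ'⟩ := homog S (![q, q']) (![v, v']) (by
    intro i j
    fin_cases i <;> fin_cases j
    · exact ((S.deq _ _).2 rfl).trans ((S.deq _ _).2 rfl).symm
    · exact g2.trans h4.symm
    · exact (hsym _ _).trans ((g2.trans h4.symm).trans (hsym _ _))
    · exact ((S.deq _ _).2 rfl).trans ((S.deq _ _).2 rfl).symm) (fun _ => rfl)
  have k0 : UPU_R d (![p, q]) (![p', q']) (![r, s]) (![r', s']) := hI'
  have k1 := UPU_inv (![γ, δ]) (by
    intro c
    fin_cases c
    · exact hγ.1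
    · exact hδ.1) k0
  have a1 : act (![γ, δ]) (![p, q]) = K := by
    funext c
    fin_cases c
    · exact hγ' 0
    · exact hδ' 0
  have a2 : act (![γ, δ]) (![p', q']) = M := by
    funext c
    fin_cases c
    · exact hγ' 1
    · exact hδ' 1
  rw [a1, a2] at k1
  have k2 := UPU_trans hPK k1
  have hs : SameT d (fun _ : B => ()) P Q (act (![γ, δ]) (![r, s])) (act (![γ, δ]) (![r', s'])) := by
    intro c
    refine ⟨?_, rfl, rfl⟩
    fin_cases c
    · exact h1.trans (g3.symm.trans (hγ.1 r r').symm)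
    · exact h2.trans (g4.symm.trans (hδ.1 s s').symm)
  have k3 := place_symm S (UPU_irel d) P Q _ _ hs k2
  have hKP : UPU_R d K M P Q := UPU_trans k1 k3
  have nP : ∀ c, d (P c) (Q c) ≠ e := by
    intro c
    fin_cases c
    · exact fun hh => ha (h1.symm.trans hh)
    · exact fun hh => hb (h2.symm.trans hh)
  have nK : ∀ c, d (K c) (M c) ≠ e := by
    intro c
    fin_cases c
    · exact fun hh => hb (h3.symm.trans hh)
    · exact fun hh => ha (h4.symm.trans hh)
  have hne : ∀ c, d (P c) (Q c) ≠ d (K c) (M c) := by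
    intro c
    fin_cases c
    · exact fun hh => hab (h1.symm.trans (hh.trans h3))
    · exact fun hh => hab (h4.symm.trans (hh.symm.trans h2))
  have allP := UPU_all S hG hPK hKP nP hne
  have allK := UPU_all S hG hKP hPK nK (fun c => (hne c).symm)
  -- from the place j to all places
  have fromP : ∀ z z' w w', (d z z' = a ∧ d w w' = b) ∨ (d z z' = b ∧ d w w' = a) →
      UPU_R d P Q (![z, w]) (![z', w']) := by
    intro z z' w w' hz
    rcases hz with ⟨hz, hw⟩ | ⟨hz, hw⟩
    · apply allP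
      intro c
      fin_cases c
      · exact h1.trans hz.symm
      · exact h2.trans hw.symm
    · apply UPU_trans hPK
      apply allK
      intro c
      fin_cases c
      · exact h3.trans hz.symm
      · exact h4.trans hw.symm
  have toP : ∀ z z' w w', (d z z' = a ∧ d w w' = b) ∨ (d z z' = b ∧ d w w' = a) →
      UPU_R d (![z, w]) (![z', w']) P Q := by
    intro z z' w w' hz
    rcases hz with ⟨hz, hw⟩ | ⟨hz, hw⟩
    · refine place_symm S (UPU_irel d) P Q (![z, w]) (![z', w']) ?_
        (fromP z z' w w' (Or.inl ⟨hz, hw⟩))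
      intro c
      refine ⟨?_, rfl, rfl⟩
      fin_cases c
      · exact h1.trans hz.symm
      · exact h2.trans hw.symm
    · have t : UPU_R d (![z, w]) (![z', w']) K M := by
        refine place_symm S (UPU_irel d) K M (![z, w]) (![z', w']) ?_ ?_
        · intro c
          refine ⟨?_, rfl, rfl⟩
          fin_cases c
          · exact h3.trans hz.symm
          · exact h4.trans hw.symm
        · apply allK
          intro c
          fin_cases c
          · exact h3.trans hz.symm
          · exact h4.trans hw.symm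
      exact UPU_trans t hKP
  intro ψ hψ
  by_cases hx : ∃ z z' w w', ((d z z' = a ∧ d w w' = b) ∨ (d z z' = b ∧ d w w' = a)) ∧
      d (ψ z w) (ψ z' w') = d z z'
  · left
    obtain ⟨z, z', w, w', hz, hzz⟩ := hx
    intro t t' m m' ht
    exact UPU_trans (toP z z' w w' hz) (fromP t t' m m' ht) ψ hψ hzz
  · right
    intro t t' m m' ht
    rcases hψ t t' m m' with h5 | h5
    · exact absurd ⟨t, t', m, m', ht, h5⟩ hx
    · exact h5

end Pool.Agent.SIG
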