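import Pool.Agent.SIG.CORI
import Pool.Agent.SIG.CHI
import Pool.Agent.SIG.UPU
import Pool.Agent.SIG.REA

namespace Pool.Agent.SIG

theorem exists_r {A B : Type*} [Finite A] [Countable B] {e : A} {T : A → A → A → Prop}
    {d : B → B → A} (S : USys e T d) (hG : Good e T) (f : B → B → B) (hf : InjF d f) :
    ∃ r : A → A → A, RSys e T (UPp d) r ∧ ∀ a b, UPp d a b → Unif d a b := by
  classical
  have hU := up_uniform S hG f hf
  have hUn : ∀ a b, UPp d a b → Unif d a b := fun a b h => (hU a b h).2.2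
  -- the two-satisfiability assignment
  obtain ⟨χ0, h1, h2, h3⟩ := twosat (Y := {p : A × A // p.1 ≠ p.2})
    (fun s t => TI d s.1.1 s.1.2 t.1.1 t.1.2)
    (fun s => ⟨(s.1.2, s.1.1), fun h => s.2 h.symm⟩)
    (fun s => TI_refl S _ _)
    (fun s t u hst htu => TI_trans S _ _ _ _ _ _ hst htu)
    (fun s => rfl)
    (fun s t hst => TI_dual _ _ _ _ s.2 t.2 hst)
  let χ : A → A → Prop := fun a b => ∃ h : a ≠ b, χ0 ⟨(a, b), h⟩
  have hX1 : ∀ a b, UPp d a b → χ a b := fun a b h => ⟨h.1, h1 ⟨(a, b), h.1⟩ h.2.1 h.2.2⟩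
  have hX2 : ∀ a b, a ≠ b → ¬ UPp d a b → (χ b a ↔ ¬ χ a b) := by
    intro a b hab hn
    have := h2 ⟨(a, b), hab⟩ (fun h => hn ⟨hab, h.1, h.2⟩)
    constructor
    · rintro ⟨_, hb⟩ ⟨_, ha⟩
      exact this.1 hb ha
    · intro hn'
      exact ⟨hab.symm, this.2 fun h => hn' ⟨hab, h⟩⟩
  have hX3 : ∀ a b a' b', a ≠ b → a' ≠ b' → TI d a b a' b' → χ a b → χ a' b' := by
    rintro a b a' b' hab hab' hT ⟨_, hx⟩
    exact ⟨hab', h3 ⟨(a, b), hab⟩ ⟨(a', b'), hab'⟩ hT hx⟩
  let r : A → A → A := fun a b => if a = b then a else if χ a b then a else b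
  have hr0 : ∀ a, r a a = a := fun a => by simp [r]
  have hr1 : ∀ a b, χ a b → r a b = a := by
    intro a b h
    simp only [r]
    split_ifs <;> rfl
  have hr2 : ∀ a b, ¬ χ a b → r a b = b := by
    intro a b h
    simp only [r]
    split_ifs with hab
    · exact hab
    · rfl
  refine ⟨r, ⟨?_, ?_, ?_, ?_, ?_, ?_⟩, hUn⟩
  · rintro a b ⟨hab, ht, ht'⟩
    exact ⟨hab.symm, ht', ht⟩
  · intro a b h
    exact ⟨h.1, (hU a b h).1, (hU a b h).2.1⟩
  · intro a b
    simp only [r]
    split_ifs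
    · exact Or.inl rfl
    · exact Or.inl rfl
    · exact Or.inr rfl
  · intro a b h
    exact hr1 a b (hX1 a b h)
  · intro a b hn
    by_cases hab : a = b
    · rw [hab]
    · have hx := hX2 a b hab hn
      by_cases hc : χ a b
      · rw [hr1 a b hc, hr2 b a (fun h => (hx.1 h) hc)]
      · rw [hr2 a b hc, hr1 b a (hx.2 hc)]
  · intro a b c a' b' c' hT hT'
    obtain ⟨x, y, z, hxy, hyz, hxz⟩ := exists_tri S a b c hT
    obtain ⟨x', y', z', hxy', hyz', hxz'⟩ := exists_tri S a' b' c' hT'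
    let J : Finset (B × B × B × B) :=
      ({(x, y, x', y'), (y, z, y', z'), (x, z, x', z')} : Finset (B × B × B × B)).filter
        (fun j => d j.1 j.2.1 ≠ d j.2.2.1 j.2.2.2 ∧
          ¬ UPp d (d j.1 j.2.1) (d j.2.2.1 j.2.2.2))
    obtain ⟨ψ, hψ, hψU, hψJ⟩ := correction S hUn χ hX1 hX2 hX3 J
      (fun j hj => (Finset.mem_filter.1 hj).2)
    have key : ∀ u v u' v' : B,
        (u, v, u', v') ∈ ({(x, y, x', y'), (y, z, y', z'), (x, z, x', z')} :
          Finset (B × B × B × B)) → d (ψ u u') (ψ v v') = r (d u v) (d u' v') := by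
      intro u v u' v' hmem
      by_cases he : d u v = d u' v'
      · rw [← he, hr0]
        rcases hψ u v u' v' with h | h
        · exact h
        · rw [h, he]
      · by_cases hup : UPp d (d u v) (d u' v')
        · rw [hψU u v u' v' hup, hr1 _ _ (hX1 _ _ hup)]
        · have hj : (u, v, u', v') ∈ J := Finset.mem_filter.2 ⟨hmem, he, hup⟩
          obtain ⟨hj1, hj2⟩ := hψJ _ hj
          by_cases hc : χ (d u v) (d u' v')
          · rw [hr1 _ _ hc]
            exact hj1 hc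
          · rw [hr2 _ _ hc]
            exact hj2 hc
    have k1 := key x y x' y' (by simp)
    have k2 := key y z y' z' (by simp)
    have k3 := key x z x' z' (by simp)
    have ht := S.tri (ψ x x') (ψ y y') (ψ z z')
    rw [k1, k2, k3, hxy, hxy', hyz, hyz', hxz, hxz'] at ht
    exact ht

end Pool.Agent.SIG
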