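import Pool.Agent.SIG.REA

namespace Pool.Agent.SIG

theorem good_of_inj {A B : Type*} [Finite A] {e : A} {T : A → A → A → Prop}
    {d : B → B → A} (S : USys e T d) (f : B → B → B) (hf : InjF d f) : Good e T := by
  classical
  obtain ⟨hpol, hfy, hfx⟩ := hf
  have hself : ∀ x, d x x = e := Sys.dself S
  have hrule : ∀ x x' y y', T (d x x') (d y y') (d (f x y) (f x' y')) := by
    intro x x' y y'
    have h1 := S.tri (f x y) (f x' y) (f x' y')
    rwa [hfx, hfy] at h1
  have haaa : ∀ a, T a a a := by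
    intro a
    by_cases ha : a = e
    · rw [ha]; exact (S.Te _ _).2 rfl
    · obtain ⟨x, x', hx⟩ := exists_label S a
      have h1 := hrule x x' x x'
      rcases hpol x x' x x' with h | h <;> rwa [h, hx] at h1
  -- the value of `f`
  have hval : ∀ a b, ¬ T b b a → ∀ x x' y y', (d x x' = a ∧ d y y' = b) ∨
      (d x x' = b ∧ d y y' = a) → d (f x y) (f x' y') = a := by
    intro a b hab x x' y y' h
    have h1 := hrule x x' y y'
    have h2 := hpol x x' y y'
    rcases h with ⟨hx, hy⟩ | ⟨hx, hy⟩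
    · rw [hx, hy] at h1 h2
      rcases h2 with h2 | h2
      · exact h2
      · rw [h2] at h1
        exact absurd (Sys.T231 S h1) hab
    · rw [hx, hy] at h1 h2
      rcases h2 with h2 | h2
      · rw [h2] at h1
        exact absurd (S.T23 _ _ _ h1) hab
      · exact h2
  have hsub : ∀ a b, ¬ T b b a → ∀ y, T b b y → T a a y := by
    intro a b hab y hy
    obtain ⟨x, x', hx⟩ := exists_label S a
    obtain ⟨y1, y2, y3, h1, h2, h3⟩ := exists_tri S b y b (S.T23 _ _ _ hy)
    have k1 := hval a b hab x x' y1 y2 (Or.inl ⟨hx, h1⟩)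
    have k2 := hval a b hab x x' y1 y3 (Or.inl ⟨hx, h3⟩)
    have k3 : d (f x' y2) (f x' y3) = y := by rw [hfy, h2]
    have := S.tri (f x y1) (f x' y2) (f x' y3)
    rw [k1, k2, k3] at this
    exact S.T23 _ _ _ this
  refine ⟨haaa, fun X hX heX => ?_, fun x hx E hE hEY hcl => ?_⟩
  · obtain ⟨a, haX, hmin⟩ := Finset.exists_min_image X
      (fun a => Set.ncard {y | y ≠ e ∧ T a a y}) hX
    refine ⟨a, haX, fun b hbX => ?_⟩
    by_contra hab
    have hae : a ≠ e := fun h => heX (h ▸ haX)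
    have hlt : Set.ncard {y | y ≠ e ∧ T b b y} < Set.ncard {y | y ≠ e ∧ T a a y} := by
      refine Set.ncard_lt_ncard ⟨fun y hy => ⟨hy.1, hsub a b hab y hy.2⟩, fun hss => ?_⟩
        (Set.toFinite _)
      exact hab (hss (show a ∈ {y | y ≠ e ∧ T a a y} from ⟨hae, haaa a⟩)).2
    exact absurd (hmin b hbX) (not_le.2 hlt)
  · intro w hw hTw
    by_cases hxE : x ∈ E
    · exact hcl x hxE x hxE w hw hTw hTw
    · exfalso
      have hnc : ¬ ∀ y ∈ E, ∀ z ∈ E, ∀ w, w ≠ e → T y z w → w ∈ E := by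
        intro hc
        exact hxE (S.prim E (fun he => (hEY e he).1 rfl) hE hc x hx)
      push Not at hnc
      obtain ⟨y, hy, z, hz, v, hv, hT, hvE⟩ := hnc
      have h1 : ¬ T x x v := fun h => hvE (hcl y hy z hz v hv h hT)
      have h2 : ∀ y ∈ E, ¬ T y y x := fun y hy h => hxE (hcl y hy y hy x hx (haaa x) h)
      obtain ⟨p1, p2, p3, hp1, hp2, hp3⟩ := exists_tri S y z v hT
      obtain ⟨q1, q2, q3, hq1, hq2, hq3⟩ := exists_tri S x x x (haaa x)
      have k1 := hval x y (h2 y hy) p1 p2 q1 q2 (Or.inr ⟨hp1, hq1⟩)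
      have k2 := hval x z (h2 z hz) p2 p3 q2 q3 (Or.inr ⟨hp2, hq2⟩)
      have k3 := hval v x h1 p1 p3 q1 q3 (Or.inl ⟨hp3, hq3⟩)
      have := S.tri (f p1 q1) (f p2 q2) (f p3 q3)
      rw [k1, k2, k3] at this
      exact h1 this

end Pool.Agent.SIG
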