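import Pool.Agent.SIG.FR

namespace Pool.Agent.SIG

/-- an injective choice from a sequence of infinite sets -/
private theorem LV_seq {B : Type*} (R : ℕ → Set B) (hR : ∀ n, (R n).Infinite) :
    ∃ z : ℕ → B, Function.Injective z ∧ ∀ n, z n ∈ R n := by
  classical
  have hpick : ∀ (n : ℕ) (G : Finset B), ∃ x, x ∈ R n ∧ x ∉ G := fun n G =>
    (hR n).exists_notMem_finset G
  choose pick h1 h2 using hpick
  let g : ℕ → Finset B := fun n => Nat.rec ∅ (fun k G => insert (pick k G) G) n
  have hg : ∀ n, g (n + 1) = insert (pick n (g n)) (g n) := fun n => rfl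
  have hmono : ∀ m n, m ≤ n → g m ⊆ g n := by
    intro m n hmn
    induction n, hmn using Nat.le_induction with
    | base => exact Finset.Subset.refl _
    | succ n _ ih =>
      rw [hg]
      exact ih.trans (Finset.subset_insert _ _)
  have hlt : ∀ m n, m < n → pick m (g m) ≠ pick n (g n) := by
    intro m n hmn heq
    have h3 : pick m (g m) ∈ g (m + 1) := by
      rw [hg]
      exact Finset.mem_insert_self _ _
    have h4 := hmono (m + 1) n hmn h3
    rw [heq] at h4
    exact h2 n (g n) h4
  refine ⟨fun n => pick n (g n), ?_, fun n => h1 n (g n)⟩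
  intro m n hmn
  rcases lt_trichotomy m n with h | h | h
  · exact absurd hmn (hlt m n h)
  · exact h
  · exact absurd hmn.symm (hlt n m h)

theorem exists_levels {A B : Type*} [Finite A] [Countable B] {e : A} {T : A → A → A → Prop}
    {d : B → B → A} (S : USys e T d) (hG : Good e T) (h1 : ∃ a : A, a ≠ e) :
    ∃ lev : B → ℕ, Sys e T d lev := by
  classical
  let ι := {Γ : Finset (B × A) // (∀ p ∈ Γ, p.2 ≠ e) ∧
    ∀ p ∈ Γ, ∀ q ∈ Γ, T p.2 q.2 (d p.1 q.1)} × ℕ
  have : Countable A := Finite.to_countable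
  have hcι : Countable ι := inferInstance
  have hne : Nonempty ι := ⟨⟨⟨∅, by simp, by simp⟩, 0⟩⟩
  obtain ⟨s, hs⟩ := exists_surjective_nat ι
  let R : ι → Set B := fun i => {z | ∀ p ∈ i.1.1, d z p.1 = p.2}
  have hR : ∀ i, (R i).Infinite := by
    intro i
    obtain ⟨⟨Γ, hΓ1, hΓ2⟩, k⟩ := i
    have hfun : ∀ p ∈ Γ, ∀ q ∈ Γ, p.1 = q.1 → p.2 = q.2 := by
      intro p hp q hq hpq
      have h3 := hΓ2 p hp q hq
      rw [hpq, (S.deq _ _).2 rfl] at h3
      exact (S.aae_iff _ _).1 h3
    let t : B → A := fun x => if h : ∃ a, (x, a) ∈ Γ then h.choose else e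
    have ht : ∀ p ∈ Γ, t p.1 = p.2 := by
      intro p hp
      have h3 : ∃ a, (p.1, a) ∈ Γ := ⟨p.2, hp⟩
      have h4 : t p.1 = h3.choose := dif_pos h3
      rw [h4]
      exact hfun (p.1, h3.choose) h3.choose_spec p hp rfl
    intro hfin
    obtain ⟨z, hz, -, hz2⟩ := fresh S hG (Γ.image Prod.fst) t () (by
      intro x hx
      obtain ⟨p, hp, rfl⟩ := Finset.mem_image.1 hx
      rw [ht p hp]
      exact hΓ1 p hp) (by
      intro x hx y hy
      obtain ⟨p, hp, rfl⟩ := Finset.mem_image.1 hx
      obtain ⟨q, hq, rfl⟩ := Finset.mem_image.1 hy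
      rw [ht p hp, ht q hq]
      exact hΓ2 p hp q hq) h1 hfin.toFinset
    apply hz
    rw [Set.Finite.mem_toFinset]
    intro p hp
    rw [hz2 p.1 (Finset.mem_image_of_mem _ hp), ht p hp]
  obtain ⟨z', hz'inj, hz'⟩ := LV_seq (fun n => R (s n)) (fun n => hR (s n))
  let z : ι → B := fun i => z' (Function.surjInv hs i)
  have hzinj : Function.Injective z := fun i j hij =>
    Function.injective_surjInv hs (hz'inj hij)
  have hz : ∀ i, z i ∈ R i := by
    intro i
    have h3 := hz' (Function.surjInv hs i)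
    rw [Function.surjInv_eq hs i] at h3
    exact h3
  let lev : B → ℕ := fun b => if h : ∃ i, z i = b then h.choose.2 else 0
  have hlev : ∀ i, lev (z i) = i.2 := by
    intro i
    have h3 : ∃ j, z j = z i := ⟨i, rfl⟩
    have h4 : lev (z i) = h3.choose.2 := dif_pos h3
    rw [h4, hzinj h3.choose_spec]
  refine ⟨lev, ?_⟩
  exact
    { T12 := S.T12
      T23 := S.T23
      Te := S.Te
      dsymm := S.dsymm
      deq := S.deq
      tri := S.tri
      prim := S.prim
      ep := by
        intro F t k h0 ht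
        let i : ι := ⟨⟨F.image (fun x => (x, t x)), by
          intro p hp
          obtain ⟨x, hx, rfl⟩ := Finset.mem_image.1 hp
          exact h0 x hx, by
          intro p hp q hq
          obtain ⟨x, hx, rfl⟩ := Finset.mem_image.1 hp
          obtain ⟨y, hy, rfl⟩ := Finset.mem_image.1 hq
          exact ht x hx y hy⟩, k⟩
        refine ⟨z i, hlev i, fun x hx => ?_⟩
        exact hz i (x, t x) (Finset.mem_image_of_mem _ hx) }

end Pool.Agent.SIG
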