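import Pool.Agent.SIG.ACTS
import Pool.Agent.SIG.BOOL

set_option linter.unusedSimpArgs false

namespace Pool.Agent.SIG

private def MajAct3 {A B : Type*} (d : B → B → A) (a b : A) (N : B → B → B → B)
    (g : Bool → Bool → Bool → Bool) : Prop :=
  ∀ p q r x x' y y' z z', d x x' = sel a b p → d y y' = sel a b q → d z z' = sel a b r →
    d (N x y z) (N x' y' z') = sel a b (g p q r)

private theorem maj_sel_inj {A : Type*} {a b : A} (hab : a ≠ b) {p q : Bool}
    (h : sel a b p = sel a b q) : p = q := by
  cases p <;> cases q
  · rfl
  · exact absurd h hab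
  · exact absurd h.symm hab
  · rfl

private theorem maj_of_act {A B : Type*} {d : B → B → A} {a b : A} (hab : a ≠ b)
    {N : B → B → B → B} {g : Bool → Bool → Bool → Bool} (h : MajAct3 d a b N g)
    (h1 : ∀ p r, g p p r = p) (h2 : ∀ p q, g p q p = p) (h3 : ∀ p q, g p q q = q) :
    MajOn d a b N := by
  have hex : ∀ l : A, (l = a ∨ l = b) → ∃ p, l = sel a b p := by
    intro l hl
    rcases hl with hl | hl
    · exact ⟨false, hl⟩
    · exact ⟨true, hl⟩
  intro x x' y y' z z' hx hy hz
  obtain ⟨p, hp⟩ := hex _ hx
  obtain ⟨q, hq⟩ := hex _ hy
  obtain ⟨r, hr⟩ := hex _ hz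
  rw [h p q r x x' y y' z z' hp hq hr, hp, hq, hr]
  refine ⟨fun e => ?_, fun e => ?_, fun e => ?_⟩
  · rw [← maj_sel_inj hab e, h1]
  · rw [← maj_sel_inj hab e, h2]
  · rw [← maj_sel_inj hab e, h3]

private theorem maj_finish {A B : Type*} {d : B → B → A} {a b : A} (hab : a ≠ b)
    {N : B → B → B → B} (hN : Pol3 d N) {g : Bool → Bool → Bool → Bool} (h : MajAct3 d a b N g)
    (hd : ∀ p q r, g (!p) (!q) (!r) = !(g p q r)) (h0 : g false false false = false)
    (hpar : xor (xor (g true false false) (g false true false)) (g false false true) = false) :
    ∃ N', Pol3 d N' ∧ MajOn d a b N' := by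
  have h111 : g true true true = true := by
    have := hd false false false
    simpa [h0] using this
  have h011 : g false true true = !(g true false false) := hd true false false
  have h101 : g true false true = !(g false true false) := hd false true false
  have h110 : g true true false = !(g false false true) := hd false false true
  -- composition
  have hcomp : ∀ (M : B → B → B → B) (k : Bool → Bool → Bool → Bool), Pol3 d M →
      MajAct3 d a b M k →
      k false false false = false → k true true true = true →
      k true false false = true → k false true false = false → k false false true = true →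
      k false true true = false → k true false true = true → k true true false = false →
      ∃ N', Pol3 d N' ∧ MajOn d a b N' := by
    intro M k hM hk k000 k111 k100 k010 k001 k011 k101 k110
    refine ⟨fun x y z => M x (M x y z) z, ?_, ?_⟩
    · intro x x' y y' z z'
      rcases hM x x' (M x y z) (M x' y' z') z z' with e | e | e
      · exact Or.inl e
      · rcases hM x x' y y' z z' with e' | e' | e'
        · exact Or.inl (e.trans e')
        · exact Or.inr (Or.inl (e.trans e'))
        · exact Or.inr (Or.inr (e.trans e'))
      · exact Or.inr (Or.inr e)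
    · refine maj_of_act (g := fun p q r => k p (k p q r) r) hab ?_ ?_ ?_ ?_
      · intro p q r x x' y y' z z' hx hy hz
        exact hk _ _ _ _ _ _ _ _ _ hx (hk _ _ _ _ _ _ _ _ _ hx hy hz) hz
      · intro p r
        cases p <;> cases r <;> simp [k000, k111, k100, k010, k001, k011, k101, k110]
      · intro p q
        cases p <;> cases q <;> simp [k000, k111, k100, k010, k001, k011, k101, k110]
      · intro p q
        cases p <;> cases q <;> simp [k000, k111, k100, k010, k001, k011, k101, k110]
  cases e1 : g true false false <;> cases e2 : g false true false <;>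
    cases e3 : g false false true <;> rw [e1, e2, e3] at hpar
  · -- majority
    rw [e1] at h011
    rw [e2] at h101
    rw [e3] at h110
    refine ⟨N, hN, maj_of_act hab h ?_ ?_ ?_⟩
    · intro p r
      cases p <;> cases r <;> simp [h0, h111, e1, e2, e3, h011, h101, h110]
    · intro p q
      cases p <;> cases q <;> simp [h0, h111, e1, e2, e3, h011, h101, h110]
    · intro p q
      cases p <;> cases q <;> simp [h0, h111, e1, e2, e3, h011, h101, h110]
  · exact absurd hpar (by decide)
  · exact absurd hpar (by decide)
  · -- 011
    rw [e1] at h011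
    rw [e2] at h101
    rw [e3] at h110
    refine hcomp (fun x y z => N y x z) (fun p q r => g q p r) ?_ ?_ h0 h111 e2 e1 e3
      (by simpa using h101) (by simpa using h011) (by simpa using h110)
    · intro x x' y y' z z'
      rcases hN y y' x x' z z' with e | e | e
      · exact Or.inr (Or.inl e)
      · exact Or.inl e
      · exact Or.inr (Or.inr e)
    · intro p q r x x' y y' z z' hx hy hz
      exact h _ _ _ _ _ _ _ _ _ hy hx hz
  · exact absurd hpar (by decide)
  · -- 101
    rw [e1] at h011
    rw [e2] at h101
    rw [e3] at h110
    exact hcomp N g hN h h0 h111 e1 e2 e3 (by simpa using h011) (by simpa using h101)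
      (by simpa using h110)
  · -- 110
    rw [e1] at h011
    rw [e2] at h101
    rw [e3] at h110
    refine hcomp (fun x y z => N x z y) (fun p q r => g p r q) ?_ ?_ h0 h111 e1 e3 e2
      (by simpa using h011) (by simpa using h110) (by simpa using h101)
    · intro x x' y y' z z'
      rcases hN x x' z z' y y' with e | e | e
      · exact Or.inl e
      · exact Or.inr (Or.inr e)
      · exact Or.inr (Or.inl e)
    · intro p q r x x' y y' z z' hx hy hz
      exact h _ _ _ _ _ _ _ _ _ hx hz hy
  · exact absurd hpar (by decide)

theorem exists_maj_pair {ι A B : Type*} [Finite ι] [Finite A] [DecidableEq A] [Countable B]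
    {e : A} {T : A → A → A → Prop} {d : B → B → A} (S : USys e T d) (hG : Good e T)
    (a b : A) (ha : a ≠ e) (hb : b ≠ e) (hab : a ≠ b) (hu : Unif d a b)
    (φ : (ι → B) → B) (hφ : Pol d φ) (hv : Viol d a b φ) :
    ∃ N, Pol3 d N ∧ MajOn d a b N := by
  obtain ⟨h, hd, h0, hh⟩ := exists_bool S hG a b ha hb hab hu φ hφ
  obtain ⟨c, x, y, hxy, hn⟩ := hv
  obtain ⟨κ, hκ⟩ : ∃ κ : ι → Fin 3,
      xor (xor (h (fun i => decide (κ i = 0))) (h (fun i => decide (κ i = 1))))
        (h (fun i => decide (κ i = 2))) = false := by
    refine bool_minor h hd h0 ⟨c, fun k i => decide (d (x k i) (y k i) = b), ?_, ?_⟩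
    · intro i
      rw [← (hxy i).2]
      refine Finset.sum_congr rfl fun k _ => ?_
      simp only [decide_eq_true_eq]
    · intro hs
      apply hn
      have hlab : ∀ k, d (φ (x k)) (φ (y k)) =
          sel a b (h (fun i => decide (d (x k i) (y k i) = b))) := by
        intro k
        apply hh
        intro i
        rcases (hxy i).1 k with e1 | e1
        · have e2 : decide (d (x k i) (y k i) = b) = false := by
            rw [decide_eq_false_iff_not, e1]
            exact hab
          rw [e2]
          exact e1
        · have e2 : decide (d (x k i) (y k i) = b) = true := by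
            rw [decide_eq_true_iff, e1]
          rw [e2]
          exact e1
      refine ⟨fun k => ?_, ?_⟩
      · show d (φ (x k)) (φ (y k)) = a ∨ d (φ (x k)) (φ (y k)) = b
        rw [hlab k]
        cases h (fun i => decide (d (x k i) (y k i) = b))
        · exact Or.inl rfl
        · exact Or.inr rfl
      · rw [← hs]
        refine Finset.sum_congr rfl fun k _ => ?_
        show (if d (φ (x k)) (φ (y k)) = b then (1 : ZMod 2) else 0) = _
        rw [hlab k]
        cases h (fun i => decide (d (x k i) (y k i) = b))
        · rw [if_neg (show sel a b false ≠ b from hab), if_neg (by decide)]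
        · rw [if_pos (show sel a b true = b from rfl), if_pos rfl]
  have hgen : ∀ p q r : Bool, ∀ x x' y y' z z' : B, d x x' = sel a b p → d y y' = sel a b q →
      d z z' = sel a b r → ∀ i, d (![x, y, z] (κ i)) (![x', y', z'] (κ i)) =
        sel a b (![p, q, r] (κ i)) := by
    intro p q r x x' y y' z z' hx hy hz i
    generalize κ i = j
    fin_cases j
    · exact hx
    · exact hy
    · exact hz
  have hbb : ∀ j : Fin 3, (![true, false, false] j = decide (j = 0)) ∧
      (![false, true, false] j = decide (j = 1)) ∧ (![false, false, true] j = decide (j = 2)) := by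
    decide
  refine maj_finish (N := fun x y z => φ (fun i => ![x, y, z] (κ i)))
    (g := fun p q r => h (fun i => ![p, q, r] (κ i))) hab ?_ ?_ ?_ ?_ ?_
  · intro x x' y y' z z'
    obtain ⟨i, hi⟩ := hφ (fun i => ![x, y, z] (κ i)) (fun i => ![x', y', z'] (κ i))
    show d (φ _) (φ _) = _ ∨ d (φ _) (φ _) = _ ∨ d (φ _) (φ _) = _
    rw [hi]
    generalize κ i = j
    fin_cases j
    · exact Or.inl rfl
    · exact Or.inr (Or.inl rfl)
    · exact Or.inr (Or.inr rfl)
  · intro p q r x x' y y' z z' hx hy hz
    exact hh _ _ _ (hgen p q r x x' y y' z z' hx hy hz)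
  · intro p q r
    show h (fun i => ![!p, !q, !r] (κ i)) = !(h (fun i => ![p, q, r] (κ i)))
    rw [← hd]
    congr 1
    funext i
    generalize κ i = j
    fin_cases j <;> rfl
  · show h (fun i => ![false, false, false] (κ i)) = false
    have e1 : (fun i => ![false, false, false] (κ i)) = fun _ => false := by
      funext i
      generalize κ i = j
      fin_cases j <;> rfl
    rw [e1]
    exact h0
  · show xor (xor (h (fun i => ![true, false, false] (κ i)))
      (h (fun i => ![false, true, false] (κ i)))) (h (fun i => ![false, false, true] (κ i))) = false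
    have e1 : (fun i => ![true, false, false] (κ i)) = fun i => decide (κ i = 0) := by
      funext i
      exact (hbb (κ i)).1
    have e2 : (fun i => ![false, true, false] (κ i)) = fun i => decide (κ i = 1) := by
      funext i
      exact (hbb (κ i)).2.1
    have e3 : (fun i => ![false, false, true] (κ i)) = fun i => decide (κ i = 2) := by
      funext i
      exact (hbb (κ i)).2.2
    rw [e1, e2, e3]
    exact hκ

end Pool.Agent.SIG
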