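import Pool.Agent.SIG.MAJS

namespace Pool.Agent.SIG

theorem exists_maj {A B : Type*} [Finite A] [Countable B]
    {e : A} {T : A → A → A → Prop} {d : B → B → A} (S : USys e T d) (hG : Good e T)
    (U : A → A → Prop) (hU : ∀ a b, U a b → a ≠ e ∧ b ≠ e ∧ a ≠ b ∧ Unif d a b)
    (hN : ∀ a b, U a b → ∃ N, Pol3 d N ∧ MajOn d a b N) :
    ∃ M, Pol3 d M ∧ ∀ a b, U a b → MajOn d a b M := by
  have key : ∀ Z : Set (A × A), Z ⊆ {p | U p.1 p.2} →
      ∃ M, Pol3 d M ∧ ∀ p ∈ Z, MajOn d p.1 p.2 M := by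
    intro Z hZ
    induction Z, Set.toFinite Z using Set.Finite.induction_on with
    | empty =>
      exact ⟨fun x _ _ => x, fun x x' y y' z z' => Or.inl rfl, fun p hp => absurd hp (by simp)⟩
    | @insert p Z _ _ ih =>
      obtain ⟨M, hM, hMZ⟩ := ih ((Set.subset_insert p Z).trans hZ)
      have hp : U p.1 p.2 := hZ (Set.mem_insert p Z)
      obtain ⟨N, hN1, hN2⟩ := hN p.1 p.2 hp
      obtain ⟨M', h1, h2, h3⟩ := maj_step S hG U hU Z
        (fun q hq => hZ (Set.mem_insert_of_mem p hq)) p.1 p.2 hp M N hM hN1 hMZ hN2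
      refine ⟨M', h1, fun q hq => ?_⟩
      rcases Set.mem_insert_iff.1 hq with rfl | hq
      · exact h3
      · exact h2 q hq
  obtain ⟨M, hM, h⟩ := key {p | U p.1 p.2} (Set.Subset.refl _)
  exact ⟨M, hM, fun a b hab => h (a, b) hab⟩

end Pool.Agent.SIG
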