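import Pool.Agent.SIG.Defs

namespace Pool.Agent.SIG

theorem RAM_lim {C : Type*} [Finite C] (F : Ultrafilter ℕ) (f : ℕ → C) :
    ∃ c, ∀ᶠ n in (F : Filter ℕ), f n = c := by
  obtain ⟨c, hc⟩ := Ultrafilter.eq_pure_of_finite (F.map f)
  refine ⟨c, ?_⟩
  have h : {x : C | x = c} ∈ F.map f := by
    rw [hc]
    exact Ultrafilter.mem_pure.2 rfl
  exact h

theorem ramsey_triple {C : Type*} [Finite C] (χ : ℕ → ℕ → C) :
    ∃ a b c, a < b ∧ b < c ∧ χ a b = χ b c ∧ χ a b = χ a c := by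
  let F : Ultrafilter ℕ := Filter.hyperfilter ℕ
  have hF : ∀ a : ℕ, ∀ᶠ n in (F : Filter ℕ), a < n := by
    intro a
    have h : (F : Filter ℕ) ≤ Filter.atTop := Nat.hyperfilter_le_atTop
    exact h (Filter.eventually_gt_atTop a)
  choose κa hκa using fun a => RAM_lim F (χ a)
  obtain ⟨κ, hκ⟩ := RAM_lim F κa
  obtain ⟨a, ha⟩ := hκ.exists
  obtain ⟨b, hb1, hb2, hb3⟩ := (hκ.and ((hκa a).and (hF a))).exists
  obtain ⟨c, hc1, hc2, hc3⟩ := ((hκa a).and ((hκa b).and (hF b))).exists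
  refine ⟨a, b, c, hb3, hc3, ?_, ?_⟩
  · rw [hb2, hc2, ha, hb1]
  · rw [hb2, hc1]

theorem ramsey_bounded (C : Type*) [Finite C] :
    ∃ N : ℕ, ∀ χ : ℕ → ℕ → C,
      ∃ a b c, a < b ∧ b < c ∧ c < N ∧ χ a b = χ b c ∧ χ a b = χ a c := by
  by_contra hcon
  push Not at hcon
  choose χ hχ using hcon
  let F : Ultrafilter ℕ := Filter.hyperfilter ℕ
  have hF : ∀ a : ℕ, ∀ᶠ n in (F : Filter ℕ), a < n := by
    intro a
    have h : (F : Filter ℕ) ≤ Filter.atTop := Nat.hyperfilter_le_atTop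
    exact h (Filter.eventually_gt_atTop a)
  choose χ' hχ' using fun a b => RAM_lim F (fun N => χ N a b)
  obtain ⟨a, b, c, hab, hbc, h1, h2⟩ := ramsey_triple χ'
  obtain ⟨N, hN1, hN2, hN3, hN4⟩ :=
    ((hχ' a b).and ((hχ' b c).and ((hχ' a c).and (hF c)))).exists
  exact hχ N a b c hab hbc hN4 (by rw [hN1, hN2, h1]) (by rw [hN1, hN3, h2])

end Pool.Agent.SIG
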