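import Pool.Agent.SIG.RED
import Pool.Agent.SIG.RAM

namespace Pool.Agent.SIG

private theorem mst_vec {B : Type*} (P : Fin 3 → B) : (![P 0, P 1, P 2] : Fin 3 → B) = P := by
  funext k
  fin_cases k <;> rfl

private theorem mst_act {B : Type*} (γ : Fin 3 → B ≃ B) (x y z : B) :
    act γ ![x, y, z] = ![γ 0 x, γ 1 y, γ 2 z] := by
  funext k
  fin_cases k <;> rfl

/-- the starting family -/
private theorem mst_fam {A B : Type*} {d : B → B → A} {lev : B → ℕ}
    (U : A → A → Prop) (M : B → B → B → B) (hM : Pol3 d M)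
    (hMU : ∀ a b, U a b → MajOn d a b M) :
    Fam d lev U M {ψ | Pol d ψ ∧ ∀ a b, U a b → MajOn d a b (fun x y z => ψ ![x, y, z])} := by
  classical
  refine ⟨⟨fun P => M (P 0) (P 1) (P 2), ?_, ?_⟩, fun ψ h => h.1, fun ψ h => h.2, ?_, ?_, ?_⟩
  · intro P Q
    rcases hM (P 0) (Q 0) (P 1) (Q 1) (P 2) (Q 2) with h | h | h
    · exact ⟨0, h⟩
    · exact ⟨1, h⟩
    · exact ⟨2, h⟩
  · intro a b hab
    exact hMU a b hab
  · intro ψ hψ γ hγ
    refine ⟨?_, ?_⟩
    · intro P Q
      obtain ⟨k, hk⟩ := hψ.1 (act γ P) (act γ Q)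
      exact ⟨k, hk.trans ((hγ k).1 _ _)⟩
    · intro a b hab x x' y y' z z' hx hy hz
      simp only [mst_act]
      have h0 := (hγ 0).1 x x'
      have h1 := (hγ 1).1 y y'
      have h2 := (hγ 2).1 z z'
      have := hψ.2 a b hab (γ 0 x) (γ 0 x') (γ 1 y) (γ 1 y') (γ 2 z) (γ 2 z')
      rw [h0, h1, h2] at this
      exact this hx hy hz
  · intro ψ hψ β hβ
    refine ⟨?_, ?_⟩
    · intro P Q
      rcases hM (β 0 (ψ 0 P)) (β 0 (ψ 0 Q)) (β 1 (ψ 1 P)) (β 1 (ψ 1 Q)) (β 2 (ψ 2 P))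
        (β 2 (ψ 2 Q)) with h | h | h
      · obtain ⟨k, hk⟩ := (hψ 0).1 P Q
        exact ⟨k, h.trans ((hβ 0 _ _).trans hk)⟩
      · obtain ⟨k, hk⟩ := (hψ 1).1 P Q
        exact ⟨k, h.trans ((hβ 1 _ _).trans hk)⟩
      · obtain ⟨k, hk⟩ := (hψ 2).1 P Q
        exact ⟨k, h.trans ((hβ 2 _ _).trans hk)⟩
    · intro a b hab x x' y y' z z' hx hy hz
      have hk : ∀ k, _ := fun k => (hψ k).2 a b hab x x' y y' z z' hx hy hz
      have hM' := hM (β 0 (ψ 0 ![x, y, z])) (β 0 (ψ 0 ![x', y', z']))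
        (β 1 (ψ 1 ![x, y, z])) (β 1 (ψ 1 ![x', y', z']))
        (β 2 (ψ 2 ![x, y, z])) (β 2 (ψ 2 ![x', y', z']))
      rw [hβ 0, hβ 1, hβ 2] at hM'
      refine ⟨?_, ?_, ?_⟩
      · intro h
        rcases hM' with g | g | g
        · exact g.trans ((hk 0).1 h)
        · exact g.trans ((hk 1).1 h)
        · exact g.trans ((hk 2).1 h)
      · intro h
        rcases hM' with g | g | g
        · exact g.trans ((hk 0).2.1 h)
        · exact g.trans ((hk 1).2.1 h)
        · exact g.trans ((hk 2).2.1 h)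
      · intro h
        rcases hM' with g | g | g
        · exact g.trans ((hk 0).2.2 h)
        · exact g.trans ((hk 1).2.2 h)
        · exact g.trans ((hk 2).2.2 h)
  · intro φ h
    refine ⟨?_, ?_⟩
    · intro P Q
      obtain ⟨ψ, hψ, h'⟩ := h {P, Q}
      rw [h' P (by simp) Q (by simp)]
      exact hψ.1 P Q
    · intro a b hab x x' y y' z z' hx hy hz
      obtain ⟨ψ, hψ, h'⟩ := h {![x, y, z], ![x', y', z']}
      show (_ → d (φ ![x, y, z]) (φ ![x', y', z']) = _) ∧
        (_ → d (φ ![x, y, z]) (φ ![x', y', z']) = _) ∧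
        (_ → d (φ ![x, y, z]) (φ ![x', y', z']) = _)
      rw [h' _ (by simp) _ (by simp)]
      exact hψ.2 a b hab x x' y y' z z' hx hy hz

open Classical in
/-- the operation on labels -/
private noncomputable def mstm {A : Type*} (χ : (Fin 3 → A) → A) (x y z : A) : A :=
  if x = y then x else if x = z then x else if y = z then y else χ ![x, y, z]

private theorem mst_pw {A : Type*} {U : A → A → Prop} (hUs : ∀ a b, U a b → U b a) {x y z : A}
    (h : AF U x y z) (h1 : x ≠ y) (h2 : x ≠ z) (h3 : y ≠ z) :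
    ∀ c c' : Fin 3, c ≠ c' → U ((![x, y, z] : Fin 3 → A) c) ((![x, y, z] : Fin 3 → A) c') := by
  have g1 : U x y := h.1.resolve_left h1
  have g2 : U x z := h.2.1.resolve_left h2
  have g3 : U y z := h.2.2.resolve_left h3
  intro c c' hcc
  fin_cases c <;> fin_cases c' <;>
    first
    | exact absurd rfl hcc
    | exact g1
    | exact g2
    | exact g3
    | exact hUs _ _ g1
    | exact hUs _ _ g2
    | exact hUs _ _ g3

private theorem mst_label {A B : Type*} {d : B → B → A} {lev : B → ℕ} {U : A → A → Prop}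
    (hUs : ∀ a b, U a b → U b a)
    {M : B → B → B → B} {Φ : Set ((Fin 3 → B) → B)} (hΦ : Fam d lev U M Φ) (i j : ℕ)
    (hsub : ∀ t : Fin 3 → A, (∀ c c', c ≠ c' → U (t c) (t c')) →
      (Lam d lev Φ t i j).Subsingleton)
    (χ : (Fin 3 → A) → A)
    (hχ : ∀ t : Fin 3 → A, (∀ c c', c ≠ c' → U (t c) (t c')) → χ t ∈ Lam d lev Φ t i j)
    (x y z : A) (h : AF U x y z) (ψ : (Fin 3 → B) → B) (hψ : ψ ∈ Φ) (P Q : Fin 3 → B)
    (hPQ : PT d lev ![x, y, z] i j P Q) :
    d (ψ P) (ψ Q) = mstm χ x y z := by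
  classical
  have l0 : d (P 0) (Q 0) = x := (hPQ 0).1
  have l1 : d (P 1) (Q 1) = y := (hPQ 1).1
  have l2 : d (P 2) (Q 2) = z := (hPQ 2).1
  have hpol : ∀ w, x = w → y = w → z = w → d (ψ P) (ψ Q) = w := by
    intro w h1 h2 h3
    obtain ⟨k, hk⟩ := hΦ.pol ψ hψ P Q
    rw [hk]
    fin_cases k
    · exact l0.trans h1
    · exact l1.trans h2
    · exact l2.trans h3
  have hmaj : ∀ a b, U a b → (x = a ∨ x = b) → (y = a ∨ y = b) → (z = a ∨ z = b) →
      (x = y → d (ψ P) (ψ Q) = x) ∧ (x = z → d (ψ P) (ψ Q) = x) ∧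
      (y = z → d (ψ P) (ψ Q) = y) := by
    intro a b hab h0 h1 h2
    have := hΦ.maj ψ hψ a b hab (P 0) (Q 0) (P 1) (Q 1) (P 2) (Q 2)
    rw [l0, l1, l2] at this
    simp only [mst_vec] at this
    exact this h0 h1 h2
  unfold mstm
  split_ifs with h1 h2 h3
  · subst h1
    rcases h.2.1 with h4 | h4
    · exact hpol x rfl rfl h4.symm
    · exact (hmaj x z h4 (Or.inl rfl) (Or.inl rfl) (Or.inr rfl)).1 rfl
  · subst h2
    rcases h.1 with h4 | h4
    · exact hpol x rfl h4.symm rfl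
    · exact (hmaj x y h4 (Or.inl rfl) (Or.inr rfl) (Or.inl rfl)).2.1 rfl
  · subst h3
    rcases h.1 with h4 | h4
    · exact hpol y h4 rfl rfl
    · exact (hmaj x y h4 (Or.inl rfl) (Or.inr rfl) (Or.inr rfl)).2.2 rfl
  · have hp := mst_pw hUs h h1 h2 h3
    exact hsub _ hp ⟨ψ, hψ, P, Q, hPQ, rfl⟩ (hχ _ hp)

private theorem mst_ne {A : Type*} {e : A} {U : A → A → Prop}
    (hU : ∀ a b, U a b → a ≠ b ∧ a ≠ e ∧ b ≠ e) {x y z : A} (h : AF U x y z) (hx : x ≠ e) :
    y ≠ e ∧ z ≠ e := by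
  constructor
  · rcases h.1 with h1 | h1
    · exact h1 ▸ hx
    · exact (hU _ _ h1).2.2
  · rcases h.2.1 with h1 | h1
    · exact h1 ▸ hx
    · exact (hU _ _ h1).2.2

private theorem mst_eq {A : Type*} {e : A} {U : A → A → Prop}
    (hU : ∀ a b, U a b → a ≠ b ∧ a ≠ e ∧ b ≠ e) {x y z : A} (h : AF U x y z) (hx : x = e) :
    y = e ∧ z = e := by
  subst hx
  constructor
  · rcases h.1 with h1 | h1
    · exact h1.symm
    · exact absurd rfl (hU _ _ h1).2.1
  · rcases h.2.1 with h1 | h1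
    · exact h1.symm
    · exact absurd rfl (hU _ _ h1).2.1

theorem exists_mstar {A B : Type*} [Finite A] [Countable B] {e : A} {T : A → A → A → Prop}
    {d : B → B → A} {lev : B → ℕ} (S : Sys e T d lev) (hG : Good e T)
    (U : A → A → Prop) (hUs : ∀ a b, U a b → U b a)
    (hU : ∀ a b, U a b → a ≠ b ∧ a ≠ e ∧ b ≠ e) (M : B → B → B → B) (hM : Pol3 d M)
    (hMU : ∀ a b, U a b → MajOn d a b M) : ∃ m, MSys T U m := by
  classical
  obtain ⟨N, hN⟩ := ramsey_bounded ((Fin 3 → A) → A)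
  obtain ⟨Φ, -, hΦ, hsub⟩ := reduce_all S hG (mst_fam (lev := lev) U M hM hMU) hMU
    (fun a b h => (hU a b h).2.1) N
  have hne : ∀ (t : Fin 3 → A) (i j : ℕ), (∀ c c', c ≠ c' → U (t c) (t c')) →
      (Lam d lev Φ t i j).Nonempty := by
    intro t i j ht
    refine lam_ne S hΦ ?_
    intro c
    have : c ≠ c + 1 := by
      fin_cases c <;> decide
    exact (hU _ _ (ht c (c + 1) this)).2.1
  let χ : ℕ → ℕ → (Fin 3 → A) → A := fun i j t =>
    if h : (Lam d lev Φ t i j).Nonempty then h.some else e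
  have hχ : ∀ (i j : ℕ) (t : Fin 3 → A), (∀ c c', c ≠ c' → U (t c) (t c')) →
      χ i j t ∈ Lam d lev Φ t i j := by
    intro i j t ht
    have h := hne t i j ht
    show (if h : (Lam d lev Φ t i j).Nonempty then h.some else e) ∈ _
    rw [dif_pos h]
    exact h.some_mem
  obtain ⟨a, b, c, hab, hbc, hcN, h1, h2⟩ := hN χ
  have hlab : ∀ i j, i < j → j < N → χ i j = χ a b → ∀ (x y z : A), AF U x y z →
      ∀ ψ ∈ Φ, ∀ P Q, PT d lev ![x, y, z] i j P Q → d (ψ P) (ψ Q) = mstm (χ a b) x y z := by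
    intro i j hij hj hc x y z h ψ hψ P Q hPQ
    refine mst_label hUs hΦ i j (fun t ht => hsub t ht i j hij hj) (χ a b) ?_ x y z h ψ hψ P Q
      hPQ
    intro t ht
    rw [← hc]
    exact hχ i j t ht
  refine ⟨mstm (χ a b), ?_, ?_, ?_⟩
  · intro x y z h
    unfold mstm
    split_ifs with g1 g2 g3
    · left; rfl
    · left; rfl
    · right; left; rfl
    · obtain ⟨k, hk⟩ := lam_sub hΦ _ (hχ a b _ (mst_pw hUs h g1 g2 g3))
      rw [hk]
      fin_cases k
      · left; rfl
      · right; left; rfl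
      · right; right; rfl
  · intro x y _
    refine ⟨?_, ?_, ?_⟩
    · unfold mstm
      rw [if_pos rfl]
    · unfold mstm
      by_cases g : x = y
      · rw [if_pos g]
      · rw [if_neg g, if_pos rfl]
    · unfold mstm
      by_cases g : y = x
      · rw [if_pos g]
        exact g
      · rw [if_neg g, if_neg g, if_pos rfl]
  · intro x y z x' y' z' x'' y'' z'' h h' h'' hx hy hz
    have hT13 : ∀ {p q r : A}, T p q r → T r q p := fun h => S.T13 h
    by_cases e1 : x = e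
    · obtain ⟨e2, e3⟩ := mst_eq hU h e1
      rw [e1, S.Te] at hx
      rw [e2, S.Te] at hy
      rw [e3, S.Te] at hz
      have : mstm (χ a b) x y z = e := by
        unfold mstm
        rw [if_pos (e1.trans e2.symm), e1]
      rw [this, hx, hy, hz, S.Te]
    by_cases e1' : x' = e
    · obtain ⟨e2, e3⟩ := mst_eq hU h' e1'
      rw [e1'] at hx
      rw [e2] at hy
      rw [e3] at hz
      have hx := (S.Te _ _).1 (S.T12 _ _ _ hx)
      have hy := (S.Te _ _).1 (S.T12 _ _ _ hy)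
      have hz := (S.Te _ _).1 (S.T12 _ _ _ hz)
      have : mstm (χ a b) x' y' z' = e := by
        unfold mstm
        rw [if_pos (e1'.trans e2.symm), e1']
      rw [this, hx, hy, hz]
      exact S.T12 _ _ _ ((S.Te _ _).2 rfl)
    by_cases e1'' : x'' = e
    · obtain ⟨e2, e3⟩ := mst_eq hU h'' e1''
      rw [e1''] at hx
      rw [e2] at hy
      rw [e3] at hz
      have hx := (S.aae_iff _ _).1 hx
      have hy := (S.aae_iff _ _).1 hy
      have hz := (S.aae_iff _ _).1 hz
      have : mstm (χ a b) x'' y'' z'' = e := by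
        unfold mstm
        rw [if_pos (e1''.trans e2.symm), e1'']
      rw [this, hx, hy, hz]
      exact S.aae _
    have hne0 : ∀ k, (![x, y, z] : Fin 3 → A) k ≠ e := by
      intro k
      fin_cases k
      · exact e1
      · exact (mst_ne hU h e1).1
      · exact (mst_ne hU h e1).2
    have hne1 : ∀ k, (![x', y', z'] : Fin 3 → A) k ≠ e := by
      intro k
      fin_cases k
      · exact e1'
      · exact (mst_ne hU h' e1').1
      · exact (mst_ne hU h' e1').2
    have hne2 : ∀ k, (![x'', y'', z''] : Fin 3 → A) k ≠ e := by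
      intro k
      fin_cases k
      · exact e1''
      · exact (mst_ne hU h'' e1'').1
      · exact (mst_ne hU h'' e1'').2
    have hTk : ∀ k, T ((![x, y, z] : Fin 3 → A) k) ((![x', y', z'] : Fin 3 → A) k)
        ((![x'', y'', z''] : Fin 3 → A) k) := by
      intro k
      fin_cases k
      · exact hx
      · exact hy
      · exact hz
    obtain ⟨p, hp, -⟩ := S.ep ∅ (fun _ => e) a (by simp) (by simp)
    have kQ : ∀ k, ∃ q, lev q = b ∧ d p q = (![x, y, z] : Fin 3 → A) k :=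
      fun k => exists_label_at S p _ (hne0 k) b
    choose Q hQl hQ using kQ
    have kR : ∀ k, ∃ r, lev r = c ∧ d p r = (![x'', y'', z''] : Fin 3 → A) k ∧
        d (Q k) r = (![x', y', z'] : Fin 3 → A) k := by
      intro k
      refine exists_third S p (Q k) _ _ (hne2 k) (hne1 k) ?_ c
      rw [hQ k]
      exact S.T13 (hTk k)
    choose R hRl hR1 hR2 using kR
    obtain ⟨ψ, hψ⟩ := hΦ.ne
    have m1 := hlab a b hab (hbc.trans hcN) rfl x y z h ψ hψ (fun _ => p) Q
      (fun k => ⟨hQ k, hp, hQl k⟩)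
    have m2 := hlab b c hbc hcN h1.symm x' y' z' h' ψ hψ Q R
      (fun k => ⟨hR2 k, hQl k, hRl k⟩)
    have m3 := hlab a c (hab.trans hbc) hcN h2.symm x'' y'' z'' h'' ψ hψ (fun _ => p) R
      (fun k => ⟨hR1 k, hp, hRl k⟩)
    rw [← m1, ← m2, ← m3]
    exact S.tri _ _ _

end Pool.Agent.SIG
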