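import Pool.Agent.SIG.UNI

namespace Pool.Agent.SIG

private theorem RZ_const {ι A B : Type*} [Finite ι] {e : A} {T : A → A → A → Prop}
    {d : B → B → A} (S : USys e T d) (h : ∀ b c : A, b ≠ e → c ≠ e → T b b c) [Countable B] :
    ∃ f : B → B → B, InjF d f := by
  classical
  have hself : ∀ x, d x x = e := Sys.dself S
  set δ : B × B → B × B → A := fun p q => if p.1 = q.1 then d p.2 q.2 else d p.1 q.1 with hδ
  have hT : ∀ b a, a ≠ e → T b a a := by
    intro b a ha
    by_cases hb : b = e
    · rw [hb]; exact (S.Te _ _).2 rfl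
    · exact Sys.T312 S (h a b ha hb)
  obtain ⟨φ, hφ, -⟩ := realize S δ (fun _ => ()) (fun x => by simp [hδ, hself]) (by
      intro x y
      simp only [hδ]
      by_cases hxy : x.1 = y.1
      · rw [if_pos hxy, if_pos hxy.symm, S.dsymm]
      · rw [if_neg hxy, if_neg (Ne.symm hxy), S.dsymm]) (by
      intro x y z
      simp only [hδ]
      by_cases hxy : x.1 = y.1
      · by_cases hyz : y.1 = z.1
        · rw [if_pos hxy, if_pos hyz, if_pos (hxy.trans hyz)]
          exact S.tri _ _ _
        · rw [if_pos hxy, if_neg hyz, if_neg (by rw [hxy]; exact hyz), hxy]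
          exact hT _ _ fun h' => hyz ((S.deq _ _).1 h')
      · by_cases hyz : y.1 = z.1
        · rw [if_neg hxy, if_pos hyz, if_neg (by rw [← hyz]; exact hxy), ← hyz]
          exact S.T12 _ _ _ (hT _ _ fun h' => hxy ((S.deq _ _).1 h'))
        · by_cases hxz : x.1 = z.1
          · rw [if_neg hxy, if_neg hyz, if_pos hxz, ← hxz, S.dsymm y.1 x.1]
            exact Sys.T231 S (hT _ _ fun h' => hxy ((S.deq _ _).1 h'))
          · rw [if_neg hxy, if_neg hyz, if_neg hxz]
            exact S.tri _ _ _) (fun _ _ _ => rfl)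
  refine ⟨fun x y => φ (x, y), fun x x' y y' => ?_, fun x y y' => ?_, fun x x' y => ?_⟩
  · rw [hφ]
    simp only [hδ]
    by_cases hx : x = x'
    · right; rw [if_pos hx]
    · left; rw [if_neg hx]
  · rw [hφ]; simp [hδ]
  · rw [hφ]
    simp only [hδ]
    by_cases hx : x = x'
    · rw [if_pos hx, hx, hself, hself]
    · rw [if_neg hx]

theorem rule0 {ι A B : Type*} [Finite ι] [Countable B] {e : A} {T : A → A → A → Prop}
    {d : B → B → A} (S : USys e T d) (h2 : ∃ a b : A, a ≠ e ∧ b ≠ e ∧ a ≠ b)
    (φ : (ι → B) → B) (hφ : Pol d φ) (hn : ∀ i, ∃ P Q, d (φ P) (φ Q) ≠ d (P i) (Q i)) :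
    ∃ f : B → B → B, InjF d f := by
  classical
  by_cases hF : ∃ b c : A, b ≠ e ∧ c ≠ e ∧ ¬ T b b c
  swap
  · push Not at hF
    exact RZ_const (ι := ι) S hF
  cases nonempty_fintype ι
  have hself : ∀ x, d x x = e := Sys.dself S
  have hdich := fun i => coord_dichotomy S h2 hF φ hφ i
  -- changing dummy coordinates
  have hdummy : ∀ (s : Finset ι), (∀ i ∈ s, ∀ P : ι → B, ∀ x y,
      φ (Function.update P i x) = φ (Function.update P i y)) →
      ∀ P Q : ι → B, (∀ i, i ∉ s → P i = Q i) → φ P = φ Q := by
    intro s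
    induction s using Finset.induction_on with
    | empty =>
      intro _ P Q hPQ
      rw [show P = Q from funext fun i => hPQ i (Finset.notMem_empty i)]
    | @insert j s hj ih =>
      intro hs P Q hPQ
      have h1 : φ (Function.update P j (P j)) = φ (Function.update P j (Q j)) :=
        hs j (Finset.mem_insert_self _ _) P _ _
      rw [Function.update_eq_self] at h1
      rw [h1]
      refine ih (fun i hi => hs i (Finset.mem_insert_of_mem hi)) _ _ fun i hi => ?_
      by_cases hij : i = j
      · subst hij; rw [Function.update_self]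
      · rw [Function.update_of_ne hij]
        exact hPQ i fun h' => (Finset.mem_insert.1 h').elim hij hi
  obtain ⟨b, c, hb, hc, hbc⟩ := hF
  -- an isometric coordinate
  obtain ⟨i, hi⟩ : ∃ i, ∀ P : ι → B, ∀ x y,
      d (φ (Function.update P i x)) (φ (Function.update P i y)) = d x y := by
    by_contra hcon
    push Not at hcon
    obtain ⟨x, y, hxy⟩ := exists_label S b
    have h1 : φ (fun _ => x) = φ (fun _ => y) := by
      refine hdummy Finset.univ (fun i _ => ?_) _ _ fun i hi => absurd (Finset.mem_univ i) hi
      refine (hdich i).resolve_left fun h => ?_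
      obtain ⟨P, x, y, h'⟩ := hcon i
      exact h' (h P x y)
    obtain ⟨k, hk⟩ := hφ (fun _ => x) (fun _ => y)
    rw [h1, hself, hxy] at hk
    exact hb hk.symm
  obtain ⟨j, hji, hj⟩ : ∃ j, j ≠ i ∧ ∀ P : ι → B, ∀ x y,
      d (φ (Function.update P j x)) (φ (Function.update P j y)) = d x y := by
    by_contra hcon
    push Not at hcon
    obtain ⟨P, Q, hPQ⟩ := hn i
    apply hPQ
    have h1 : φ Q = φ (Function.update P i (Q i)) := by
      refine hdummy (Finset.univ.erase i) (fun k hk => ?_) _ _ fun k hk => ?_
      · refine (hdich k).resolve_left fun h => ?_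
        obtain ⟨P, x, y, h'⟩ := hcon k (Finset.ne_of_mem_erase hk)
        exact h' (h P x y)
      · have hki : k = i := by
          by_contra hne
          exact hk (Finset.mem_erase.2 ⟨hne, Finset.mem_univ k⟩)
        subst hki
        rw [Function.update_self]
    have h2' := hi P (P i) (Q i)
    rw [Function.update_eq_self] at h2'
    rw [h1, h2']
  obtain ⟨P₀⟩ : Nonempty (ι → B) := by
    obtain ⟨x, -, -⟩ := exists_label S b
    exact ⟨fun _ => x⟩
  set f : B → B → B := fun x y => φ (Function.update (Function.update P₀ i x) j y) with hf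
  have hfy : ∀ x y y', d (f x y) (f x y') = d y y' := fun x y y' => hj _ _ _
  have hfx : ∀ x x' y, d (f x y) (f x' y) = d x x' := by
    intro x x' y
    simp only [hf]
    rw [Function.update_comm hji.symm, Function.update_comm hji.symm]
    exact hi _ _ _
  have hpol : ∀ x x' y y', d (f x y) (f x' y') = d x x' ∨ d (f x y) (f x' y') = d y y' ∨
      d (f x y) (f x' y') = e := by
    intro x x' y y'
    obtain ⟨k, hk⟩ := hφ (Function.update (Function.update P₀ i x) j y)
      (Function.update (Function.update P₀ i x') j y')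
    change d (f x y) (f x' y') = _ at hk
    rw [hk]
    by_cases hkj : k = j
    · subst hkj
      right; left
      rw [Function.update_self, Function.update_self]
    · rw [Function.update_of_ne hkj, Function.update_of_ne hkj]
      by_cases hki : k = i
      · subst hki
        left
        rw [Function.update_self, Function.update_self]
      · right; right
        rw [Function.update_of_ne hki, Function.update_of_ne hki, hself]
  refine ⟨f, fun x x' y y' => ?_, hfy, hfx⟩
  rcases hpol x x' y y' with h | h | h
  · exact Or.inl h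
  · exact Or.inr h
  by_cases hx : x = x'
  · left; rw [h, hx, hself]
  by_cases hy : y = y'
  · right; rw [h, hy, hself]
  exfalso
  have heq : f x y = f x' y' := (S.deq _ _).1 h
  have hlab : d y y' = d x x' := by
    have h1 := hfx x x' y
    rw [heq, hfy] at h1
    rw [← h1, S.dsymm]
  have hxe : d x x' ≠ e := fun h' => hx ((S.deq _ _).1 h')
  obtain ⟨g, hge, hga⟩ : ∃ g, g ≠ e ∧ g ≠ d x x' := by
    obtain ⟨a, a', ha, ha', haa⟩ := h2
    by_cases hac : a = d x x'
    · exact ⟨a', ha', fun h => haa (hac.trans h.symm)⟩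
    · exact ⟨a, ha, hac⟩
  obtain ⟨k, hke, hkg, hT⟩ := lemma_G S (d x x') g hxe hge hga.symm
  obtain ⟨z, -, hz1, hz2⟩ := exists_third S x x' g k hge hke (Sys.T231 S hT) ()
  have h3 := hpol z x' y y'
  rw [← heq, hfx, S.dsymm z x, hz1, S.dsymm z x', hz2, hlab] at h3
  rcases h3 with h3 | h3 | h3
  · exact hkg h3.symm
  · exact hga h3
  · exact hge h3

end Pool.Agent.SIG
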