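import Pool.Agent.SIG.Defs

namespace Pool.Agent.SIG

theorem siggers_small {A : Type*} {e : A} {T : A → A → A → Prop}
    (T12 : ∀ a b c, T a b c → T b a c) (T23 : ∀ a b c, T a b c → T a c b)
    (hTe : ∀ a b, T e a b ↔ a = b) (h : ∀ a b, a ≠ e → b ≠ e → a = b) : HasSig T := by
  classical
  have hT1 : ∀ a, T e a a := fun a => (hTe a a).2 rfl
  have hT2 : ∀ a, T a e a := fun a => T12 _ _ _ (hT1 a)
  have hT3 : ∀ a, T a a e := fun a => T23 _ _ _ (hT2 a)
  have hT2' : ∀ a b, T a e b → a = b := fun a b hh => (hTe a b).1 (T12 _ _ _ hh)
  have hT3' : ∀ a b, T a b e → a = b := fun a b hh =>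
    hT2' a b (T23 _ _ _ hh)
  by_cases hD : ∀ a : A, a = e
  · refine ⟨fun x => x 0, fun x y z hh => hh 0, fun x => ⟨0, rfl⟩, fun x y z => ?_⟩
    rw [hD x, hD y, hD z]
  · push Not at hD
    obtain ⟨a, ha⟩ := hD
    have hea : ∀ b, b = e ∨ b = a := by
      intro b
      by_cases hb : b = e
      · exact Or.inl hb
      · exact Or.inr (h b a hb ha)
    by_cases haaa : T a a a
    · refine ⟨fun x => if ∀ i, x i = e then e else a, ?_, ?_, ?_⟩
      · intro x y z hh
        dsimp only
        by_cases hx : ∀ i, x i = e
        · have hyz : y = z := by
            funext i
            have := hh i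
            rw [hx i] at this
            exact (hTe _ _).1 this
          rw [if_pos hx, hyz]
          exact hT1 _
        · by_cases hy : ∀ i, y i = e
          · have hxz : x = z := by
              funext i
              have := hh i
              rw [hy i] at this
              exact hT2' _ _ this
            rw [if_pos hy, hxz]
            exact hT2 _
          · by_cases hz : ∀ i, z i = e
            · have hxy : x = y := by
                funext i
                have := hh i
                rw [hz i] at this
                exact hT3' _ _ this
              rw [if_pos hz, hxy]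
              exact hT3 _
            · rw [if_neg hx, if_neg hy, if_neg hz]
              exact haaa
      · intro x
        dsimp only
        by_cases hx : ∀ i, x i = e
        · rw [if_pos hx]
          exact ⟨0, (hx 0).symm⟩
        · rw [if_neg hx]
          push Not at hx
          obtain ⟨i, hi⟩ := hx
          exact ⟨i, ((hea (x i)).resolve_left hi).symm⟩
      · intro x y z
        have h1 : (∀ i, (![x, x, y, y, z, z] : Fin 6 → A) i = e) ↔ (x = e ∧ y = e ∧ z = e) := by
          constructor
          · intro hh
            exact ⟨hh 0, hh 2, hh 4⟩
          · rintro ⟨rfl, rfl, rfl⟩ i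
            fin_cases i <;> rfl
        have h2 : (∀ i, (![y, z, x, z, x, y] : Fin 6 → A) i = e) ↔ (x = e ∧ y = e ∧ z = e) := by
          constructor
          · intro hh
            exact ⟨hh 2, hh 0, hh 1⟩
          · rintro ⟨rfl, rfl, rfl⟩ i
            fin_cases i <;> rfl
        simp only [h1, h2]
    · -- parity
      have hTp : ∀ x y z, T x y z → xor (xor (decide (x = a)) (decide (y = a)))
          (decide (z = a)) = false := by
        intro x y z hh
        rcases hea x with hx | hx
        · rw [hx] at hh
          rw [(hTe y z).1 hh, hx]
          simp [ha.symm]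
        · rcases hea y with hy | hy
          · rw [hy] at hh
            rw [← hT2' _ _ hh, hy]
            simp [ha.symm]
          · rcases hea z with hz | hz
            · rw [hx, hy, hz]
              simp [ha.symm]
            · rw [hx, hy, hz] at hh
              exact absurd hh haaa
      have hTq : ∀ p q r : Bool, xor (xor p q) r = false →
          T (if p = true then a else e) (if q = true then a else e)
            (if r = true then a else e) := by
        intro p q r hh
        cases p <;> cases q <;> cases r <;> simp at hh ⊢
        · exact hT1 e
        · exact hT1 a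
        · exact hT2 a
        · exact hT3 a
      refine ⟨fun x => if (xor (xor (decide (x 0 = a)) (decide (x 1 = a)))
        (decide (x 3 = a))) = true then a else e, ?_, ?_, ?_⟩
      · intro x y z hh
        apply hTq
        have h0 := hTp _ _ _ (hh 0)
        have h1 := hTp _ _ _ (hh 1)
        have h3 := hTp _ _ _ (hh 3)
        revert h0 h1 h3
        generalize decide (x 0 = a) = x0
        generalize decide (x 1 = a) = x1
        generalize decide (x 3 = a) = x3
        generalize decide (y 0 = a) = y0
        generalize decide (y 1 = a) = y1
        generalize decide (y 3 = a) = y3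
        generalize decide (z 0 = a) = z0
        generalize decide (z 1 = a) = z1
        generalize decide (z 3 = a) = z3
        revert x0 x1 x3 y0 y1 y3 z0 z1 z3
        decide
      · intro x
        dsimp only
        rcases hea (x 0) with h0 | h0
        · rcases hea (x 1) with h1 | h1
          · refine ⟨3, ?_⟩
            rcases hea (x 3) with h3 | h3 <;> simp [h0, h1, h3, ha.symm]
          · rcases hea (x 3) with h3 | h3
            · exact ⟨1, by simp [h0, h1, h3, ha.symm]⟩
            · exact ⟨0, by simp [h0, h1, h3, ha.symm]⟩
        · rcases hea (x 1) with h1 | h1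
          · rcases hea (x 3) with h3 | h3
            · exact ⟨0, by simp [h0, h1, h3, ha.symm]⟩
            · exact ⟨1, by simp [h0, h1, h3, ha.symm]⟩
          · rcases hea (x 3) with h3 | h3
            · exact ⟨3, by simp [h0, h1, h3, ha.symm]⟩
            · exact ⟨0, by simp [h0, h1, h3]⟩
      · intro x y z
        have e0 : (![x, x, y, y, z, z] : Fin 6 → A) 0 = x := rfl
        have e1 : (![x, x, y, y, z, z] : Fin 6 → A) 1 = x := rfl
        have e3 : (![x, x, y, y, z, z] : Fin 6 → A) 3 = y := rfl
        have f0 : (![y, z, x, z, x, y] : Fin 6 → A) 0 = y := rfl
        have f1 : (![y, z, x, z, x, y] : Fin 6 → A) 1 = z := rfl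
        have f3 : (![y, z, x, z, x, y] : Fin 6 → A) 3 = z := rfl
        simp only [e0, e1, e3, f0, f1, f3]
        generalize decide (x = a) = p
        generalize decide (y = a) = q
        generalize decide (z = a) = r
        cases p <;> cases q <;> cases r <;> rfl

end Pool.Agent.SIG
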