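import Pool.Agent.SIG.LIN
import Pool.Agent.SIG.RZ
import Pool.Agent.SIG.FC
import Pool.Agent.SIG.EXR
import Pool.Agent.SIG.MAJ
import Pool.Agent.SIG.MAJC
import Pool.Agent.SIG.LV
import Pool.Agent.SIG.MST
import Pool.Agent.SIG.ALG
import Pool.Agent.SIG.SMALL

namespace Pool.Agent.SIG

theorem core {A B : Type*} [Finite A] [Countable B] {e : A} {T : A → A → A → Prop}
    {d : B → B → A} (S : USys e T d) (k l : ℕ) (hkl : k ≤ l) (hs : Solves d k l) :
    HasSig T := by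
  classical
  by_cases h2 : ∃ a b : A, a ≠ e ∧ b ≠ e ∧ a ≠ b
  · obtain ⟨a0, b0, ha0, hb0, hab0⟩ := h2
    have hviol : ∀ (m : ℕ) (φ : (Fin m → B) → B) (a b : A), Pol d φ → Viol d a b φ →
        ∀ i, ∃ P Q, d (φ P) (φ Q) ≠ d (P i) (Q i) := by
      intro m φ a b hφ hv i
      by_contra hcon
      push Not at hcon
      obtain ⟨c, x, y, h1, h2⟩ := hv
      apply h2
      have := h1 i
      unfold RC at this ⊢
      simpa only [hcon] using this
    obtain ⟨m, φ, hφ, hv⟩ := lin S k l hkl hs a0 b0 ha0 hb0 hab0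
    obtain ⟨f, hf⟩ := rule0 S ⟨a0, b0, ha0, hb0, hab0⟩ φ hφ (hviol m φ a0 b0 hφ hv)
    have hG := good_of_inj S f hf
    obtain ⟨r, hr, hrU⟩ := exists_r S hG f hf
    have hN : ∀ a b, UPp d a b → ∃ N, Pol3 d N ∧ MajOn d a b N := by
      intro a b hab
      obtain ⟨h1, h2, h3⟩ := hr.ne a b hab
      obtain ⟨m', φ', hφ', hv'⟩ := lin S k l hkl hs a b h2 h3 h1
      exact exists_maj_pair S hG a b h2 h3 h1 (hrU a b hab) φ' hφ' hv'
    obtain ⟨M, hM, hMU⟩ := exists_maj S hG (UPp d)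
      (fun a b hab => ⟨(hr.ne a b hab).2.1, (hr.ne a b hab).2.2, (hr.ne a b hab).1,
        hrU a b hab⟩) hN
    obtain ⟨lev, SL⟩ := exists_levels S hG ⟨a0, ha0⟩
    obtain ⟨mm, hmm⟩ := exists_mstar SL hG (UPp d) hr.symm hr.ne M hM hMU
    exact siggers_of (UPp d) r mm hr hmm
  · push Not at h2
    exact siggers_small S.T12 S.T23 S.Te h2

end Pool.Agent.SIG
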