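import Pool.Agent.SIG.CORB

namespace Pool.Agent.SIG

private def CORI_C {A B : Type*} (d : B → B → A) (χ : A → A → Prop) (ψ : B → B → B)
    (j : B × B × B × B) : Prop :=
  (χ (d j.1 j.2.1) (d j.2.2.1 j.2.2.2) → d (ψ j.1 j.2.2.1) (ψ j.2.1 j.2.2.2) = d j.1 j.2.1) ∧
    (¬ χ (d j.1 j.2.1) (d j.2.2.1 j.2.2.2) →
      d (ψ j.1 j.2.2.1) (ψ j.2.1 j.2.2.2) = d j.2.2.1 j.2.2.2)

private theorem CORI_symm {A B : Type*} {d : B → B → A} {a b : A} (h : UPp d a b) : UPp d b a :=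
  ⟨h.1.symm, h.2.2, h.2.1⟩

private theorem CORI_wrong {A B : Type*} {d : B → B → A} {χ : A → A → Prop}
    (hX2 : ∀ a b, a ≠ b → ¬ UPp d a b → (χ b a ↔ ¬ χ a b))
    {ψ ψ' : B → B → B} (hψ : Pol2 d ψ) {j : B × B × B × B}
    (hj : d j.1 j.2.1 ≠ d j.2.2.1 j.2.2.2 ∧ ¬ UPp d (d j.1 j.2.1) (d j.2.2.1 j.2.2.2))
    (h : ¬ CORI_C d χ ψ j) (h' : CORI_C d χ ψ' j) :
    d (ψ j.1 j.2.2.1) (ψ j.2.1 j.2.2.2) ≠ d (ψ' j.1 j.2.2.1) (ψ' j.2.1 j.2.2.2) ∧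
    χ (d (ψ' j.1 j.2.2.1) (ψ' j.2.1 j.2.2.2)) (d (ψ j.1 j.2.2.1) (ψ j.2.1 j.2.2.2)) ∧
    ¬ UPp d (d (ψ' j.1 j.2.2.1) (ψ' j.2.1 j.2.2.2)) (d (ψ j.1 j.2.2.1) (ψ j.2.1 j.2.2.2)) := by
  obtain ⟨hne, hup⟩ := hj
  have hp := hψ j.1 j.2.1 j.2.2.1 j.2.2.2
  by_cases hχ : χ (d j.1 j.2.1) (d j.2.2.1 j.2.2.2)
  · have e1 := h'.1 hχ
    have e2 : d (ψ j.1 j.2.2.1) (ψ j.2.1 j.2.2.2) = d j.2.2.1 j.2.2.2 := by
      rcases hp with hp | hp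
      · exact absurd ⟨fun _ => hp, fun hn => absurd hχ hn⟩ h
      · exact hp
    rw [e1, e2]
    exact ⟨hne.symm, hχ, hup⟩
  · have e1 := h'.2 hχ
    have e2 : d (ψ j.1 j.2.2.1) (ψ j.2.1 j.2.2.2) = d j.1 j.2.1 := by
      rcases hp with hp | hp
      · exact hp
      · exact absurd ⟨fun hn => absurd hn hχ, fun _ => hp⟩ h
    rw [e1, e2]
    exact ⟨hne, (hX2 _ _ hne hup).2 hχ, fun hu => hup (CORI_symm hu)⟩

private theorem CORI_same {A B : Type*} {d : B → B → A} {ψ : B → B → B} (hψ : Pol2 d ψ)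
    {x x' y y' : B} {a : A} (h1 : d x x' = a) (h2 : d y y' = a) : d (ψ x y) (ψ x' y') = a := by
  rcases hψ x x' y y' with h | h
  · rw [h, h1]
  · rw [h, h2]

theorem correction {A B : Type*} [Finite A] [Countable B] {e : A} {T : A → A → A → Prop}
    {d : B → B → A} (S : USys e T d) (hU : ∀ a b, UPp d a b → Unif d a b)
    (χ : A → A → Prop) (hX1 : ∀ a b, UPp d a b → χ a b)
    (hX2 : ∀ a b, a ≠ b → ¬ UPp d a b → (χ b a ↔ ¬ χ a b))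
    (hX3 : ∀ a b a' b', a ≠ b → a' ≠ b' → TI d a b a' b' → χ a b → χ a' b')
    (J : Finset (B × B × B × B))
    (hJ : ∀ j ∈ J, d j.1 j.2.1 ≠ d j.2.2.1 j.2.2.2 ∧ ¬ UPp d (d j.1 j.2.1) (d j.2.2.1 j.2.2.2)) :
    ∃ ψ, Pol2 d ψ ∧ (∀ u u' v v', UPp d (d u u') (d v v') →
      d (ψ u v) (ψ u' v') = d u u') ∧
      ∀ j ∈ J, (χ (d j.1 j.2.1) (d j.2.2.1 j.2.2.2) →
          d (ψ j.1 j.2.2.1) (ψ j.2.1 j.2.2.2) = d j.1 j.2.1) ∧
        (¬ χ (d j.1 j.2.1) (d j.2.2.1 j.2.2.2) →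
          d (ψ j.1 j.2.2.1) (ψ j.2.1 j.2.2.2) = d j.2.2.1 j.2.2.2) := by
  classical
  induction hn : J.card using Nat.strong_induction_on generalizing J with
  | _ n ih =>
  rcases J.eq_empty_or_nonempty with rfl | ⟨j1, hj1⟩
  · refine ⟨fun x _ => x, fun x x' y y' => Or.inl rfl, fun u u' v v' _ => rfl, ?_⟩
    intro j hj
    exact absurd hj (Finset.notMem_empty j)
  by_cases hone : ∀ j ∈ J, j = j1
  · -- a single place
    by_cases hχ : χ (d j1.1 j1.2.1) (d j1.2.2.1 j1.2.2.2)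
    · refine ⟨fun x _ => x, fun x x' y y' => Or.inl rfl, fun u u' v v' _ => rfl, ?_⟩
      intro j hj
      rw [hone j hj]
      exact ⟨fun _ => rfl, fun hn => absurd hχ hn⟩
    · obtain ⟨ψ, h1, h2, h3⟩ := corr_base S hU j1.1 j1.2.1 j1.2.2.1 j1.2.2.2 (hJ j1 hj1).1
        (fun a b hab ht => hχ (hX3 a b _ _ hab.1 (hJ j1 hj1).1 ht (hX1 a b hab)))
      refine ⟨ψ, h1, h2, ?_⟩
      intro j hj
      rw [hone j hj]
      exact ⟨fun hn => absurd hn hχ, fun _ => h3⟩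
  · push Not at hone
    obtain ⟨j2, hj2, hne⟩ := hone
    obtain ⟨ψ1, a1, b1, c1⟩ := ih (J.erase j1).card (by
      rw [← hn]; exact Finset.card_erase_lt_of_mem hj1) (J.erase j1)
      (fun j hj => hJ j (Finset.mem_of_mem_erase hj)) rfl
    obtain ⟨ψ2, a2, b2, c2⟩ := ih (J.erase j2).card (by
      rw [← hn]; exact Finset.card_erase_lt_of_mem hj2) (J.erase j2)
      (fun j hj => hJ j (Finset.mem_of_mem_erase hj)) rfl
    by_cases g1 : CORI_C d χ ψ1 j1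
    · refine ⟨ψ1, a1, b1, ?_⟩
      intro j hj
      by_cases hjj : j = j1
      · rw [hjj]; exact g1
      · exact c1 j (Finset.mem_erase.2 ⟨hjj, hj⟩)
    by_cases g2 : CORI_C d χ ψ2 j2
    · refine ⟨ψ2, a2, b2, ?_⟩
      intro j hj
      by_cases hjj : j = j2
      · rw [hjj]; exact g2
      · exact c2 j (Finset.mem_erase.2 ⟨hjj, hj⟩)
    have g1' : CORI_C d χ ψ2 j1 := c2 j1 (Finset.mem_erase.2 ⟨hne.symm, hj1⟩)
    have g2' : CORI_C d χ ψ1 j2 := c1 j2 (Finset.mem_erase.2 ⟨hne, hj2⟩)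
    obtain ⟨n1, m1, o1⟩ := CORI_wrong hX2 a1 (hJ j1 hj1) g1 g1'
    obtain ⟨n2, m2, o2⟩ := CORI_wrong hX2 a2 (hJ j2 hj2) g2 g2'
    have hnot : ¬ Imp d (ψ1 j2.1 j2.2.2.1) (ψ1 j2.2.1 j2.2.2.2) (ψ2 j2.1 j2.2.2.1)
        (ψ2 j2.2.1 j2.2.2.2) (ψ1 j1.1 j1.2.2.1) (ψ1 j1.2.1 j1.2.2.2) (ψ2 j1.1 j1.2.2.1)
        (ψ2 j1.2.1 j1.2.2.2) := by
      intro himp
      have ht : TI d (d (ψ1 j2.1 j2.2.2.1) (ψ1 j2.2.1 j2.2.2.2))
          (d (ψ2 j2.1 j2.2.2.1) (ψ2 j2.2.1 j2.2.2.2))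
          (d (ψ1 j1.1 j1.2.2.1) (ψ1 j1.2.1 j1.2.2.2))
          (d (ψ2 j1.1 j1.2.2.1) (ψ2 j1.2.1 j1.2.2.2)) :=
        ⟨_, _, _, _, _, _, _, _, rfl, rfl, rfl, rfl, himp⟩
      have hc := hX3 _ _ _ _ n2.symm n1 ht m2
      exact (hX2 _ _ n1 (fun hu => o1 (CORI_symm hu))).1 m1 hc
    unfold Imp at hnot
    push Not at hnot
    obtain ⟨ψ, hψ, e2, e1⟩ := hnot
    have e1' := (hψ (ψ1 j1.1 j1.2.2.1) (ψ1 j1.2.1 j1.2.2.2) (ψ2 j1.1 j1.2.2.1)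
      (ψ2 j1.2.1 j1.2.2.2)).resolve_left e1
    refine ⟨fun x y => ψ (ψ1 x y) (ψ2 x y), ?_, ?_, ?_⟩
    · intro x x' y y'
      rcases hψ (ψ1 x y) (ψ1 x' y') (ψ2 x y) (ψ2 x' y') with h | h
      · rw [h]; exact a1 x x' y y'
      · rw [h]; exact a2 x x' y y'
    · intro u u' v v' huv
      exact CORI_same hψ (b1 u u' v v' huv) (b2 u u' v v' huv)
    · intro j hj
      by_cases hjj1 : j = j1
      · subst hjj1
        unfold CORI_C at g1'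
        beta_reduce
        rw [e1']
        exact g1'
      by_cases hjj2 : j = j2
      · subst hjj2
        unfold CORI_C at g2'
        beta_reduce
        rw [e2]
        exact g2'
      have f1 := c1 j (Finset.mem_erase.2 ⟨hjj1, hj⟩)
      have f2 := c2 j (Finset.mem_erase.2 ⟨hjj2, hj⟩)
      constructor
      · intro hχ
        exact CORI_same hψ (f1.1 hχ) (f2.1 hχ)
      · intro hχ
        exact CORI_same hψ (f1.2 hχ) (f2.2 hχ)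

end Pool.Agent.SIG
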