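import Pool.Agent.SIG.LAM
import Pool.Agent.SIG.CMP

namespace Pool.Agent.SIG

/-- image of a label set under the implications from the place `(P, Q)` to `(P', Q')` -/
def NI {A B : Type*} (d : B → B → A) (Φ : Set ((Fin 3 → B) → B)) (P Q P' Q' : Fin 3 → B)
    (E : Set A) : Set A := {l | ∃ ψ ∈ Φ, d (ψ P) (ψ Q) ∈ E ∧ d (ψ P') (ψ Q') = l}

private theorem nim_homog2 {A B : Type*} [Countable B] {e : A} {T : A → A → A → Prop}
    {d : B → B → A} (S : USys e T d) (x y x' y' : B) (h : d x y = d x' y') :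
    ∃ γ : B ≃ B, AutD d γ ∧ γ x = x' ∧ γ y = y' := by
  obtain ⟨γ, hγ, hγ'⟩ := homog S (fun k : Fin 2 => if k = 0 then x else y)
    (fun k : Fin 2 => if k = 0 then x' else y') (by
      intro a b
      fin_cases a <;> fin_cases b <;>
        simp [S.dself, h, S.dsymm y x, S.dsymm y' x']) (by
      intro a
      rfl)
  exact ⟨γ, hγ.1, by simpa using hγ' 0, by simpa using hγ' 1⟩

theorem mcl_image {A B : Type*} [Finite A] [Countable B] {e : A} {T : A → A → A → Prop}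
    {d : B → B → A} {lev : B → ℕ} {U : A → A → Prop} {M : B → B → B → B}
    {Φ : Set ((Fin 3 → B) → B)} {t : Fin 3 → A} {i j : ℕ}
    (S : Sys e T d lev) (hΦ : Fam d lev U M Φ) (P Q P' Q' : Fin 3 → B)
    (h : PT d lev t i j P Q) (h' : PT d lev t i j P' Q') (E : Set A)
    (hE : MCl d M (Lam d lev Φ t i j) E) :
    MCl d M (Lam d lev Φ t i j) (NI d Φ P Q P' Q' E) := by
  refine ⟨?_, ?_, ?_⟩
  · rintro l ⟨ψ, hψ, -, hl⟩
    exact ⟨ψ, hψ, P', Q', h', hl⟩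
  · obtain ⟨l0, hl0⟩ := hE.ne
    obtain ⟨ψ, hψ, hl⟩ := lam_fix S hΦ l0 (hE.sub hl0) P Q h
    exact ⟨_, ψ, hψ, by rw [hl]; exact hl0, rfl⟩
  · intro P1 Q1 hPQ ⟨c, c', hcc, hc, hc'⟩
    have key : ∀ k, ∃ ψ ∈ Φ, d (ψ P') (ψ Q') = d (P1 k) (Q1 k) ∧
        (k = c ∨ k = c' → d (ψ P) (ψ Q) ∈ E) := by
      intro k
      by_cases hk : k = c ∨ k = c'
      · have : d (P1 k) (Q1 k) ∈ NI d Φ P Q P' Q' E := by
          rcases hk with rfl | rfl
          · exact hc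
          · exact hc'
        obtain ⟨ψ, hψ, h1, h2⟩ := this
        exact ⟨ψ, hψ, h2, fun _ => h1⟩
      · obtain ⟨ψ, hψ, h1⟩ := lam_fix S hΦ _ (hPQ k) P' Q' h'
        exact ⟨ψ, hψ, h1, fun hk' => absurd hk' hk⟩
    choose ψ hψ hψ1 hψ2 using key
    have key2 : ∀ k, ∃ β : B ≃ B, AutD d β ∧ β (ψ k P') = P1 k ∧ β (ψ k Q') = Q1 k :=
      fun k => nim_homog2 S.forget _ _ _ _ (hψ1 k)
    choose β hβ hβP hβQ using key2
    refine ⟨_, hΦ.comp ψ hψ β hβ, ?_, ?_⟩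
    · refine hE.cl (fun k => β k (ψ k P)) (fun k => β k (ψ k Q)) ?_ ⟨c, c', hcc, ?_, ?_⟩
      · intro k
        show d (β k (ψ k P)) (β k (ψ k Q)) ∈ _
        rw [hβ k]
        exact ⟨ψ k, hψ k, P, Q, h, rfl⟩
      · show d (β c (ψ c P)) (β c (ψ c Q)) ∈ _
        rw [hβ c]
        exact hψ2 c (Or.inl rfl)
      · show d (β c' (ψ c' P)) (β c' (ψ c' Q)) ∈ _
        rw [hβ c']
        exact hψ2 c' (Or.inr rfl)
    · show d (M (β 0 (ψ 0 P')) (β 1 (ψ 1 P')) (β 2 (ψ 2 P')))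
        (M (β 0 (ψ 0 Q')) (β 1 (ψ 1 Q')) (β 2 (ψ 2 Q'))) = _
      rw [hβP, hβP, hβP, hβQ, hβQ, hβQ]

end Pool.Agent.SIG
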