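import Pool.Agent.SIG.CHN
import Pool.Agent.SIG.NIM
import Pool.Agent.SIG.MV
import Pool.Agent.SIG.PATH

namespace Pool.Agent.SIG

private theorem cyc_sameT {A B : Type*} {d : B → B → A} {lev : B → ℕ} {t : Fin 3 → A}
    {i j : ℕ} {P Q P' Q' : Fin 3 → B} (h : PT d lev t i j P Q) (h' : PT d lev t i j P' Q') :
    SameT d lev P Q P' Q' := fun c =>
  ⟨(h c).1.trans (h' c).1.symm, (h c).2.1.trans (h' c).2.1.symm,
    (h c).2.2.trans (h' c).2.2.symm⟩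

private theorem cyc_irel {A B : Type*} {d : B → B → A} {lev : B → ℕ} {U : A → A → Prop}
    {M : B → B → B → B} {Φ : Set ((Fin 3 → B) → B)} (hΦ : Fam d lev U M Φ) (E : Set A) :
    IRel d lev (fun X Y X' Y' : Fin 3 → B =>
      ∀ ψ ∈ Φ, d (ψ X) (ψ Y) ∈ E → d (ψ X') (ψ Y') ∈ E) where
  inv := fun γ hγ _ _ _ _ h ψ hψ hE => h (fun P => ψ (act γ P)) (hΦ.pre ψ hψ γ hγ) hE
  trans := fun _ _ _ _ _ _ _ _ h h' ψ hψ hE => h' ψ hψ (h ψ hψ hE)

theorem exists_good {A B : Type*} [Finite A] [Countable B] {e : A} {T : A → A → A → Prop}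
    {d : B → B → A} {lev : B → ℕ} {U : A → A → Prop} {M : B → B → B → B}
    {Φ : Set ((Fin 3 → B) → B)} {t : Fin 3 → A} {i j : ℕ}
    (S : Sys e T d lev) (hG : Good e T) (hΦ : Fam d lev U M Φ)
    (hMU : ∀ a b, U a b → MajOn d a b M)
    (ht : ∀ c c', c ≠ c' → U (t c) (t c')) (hte : ∀ c, t c ≠ e) (hij : i ≠ j)
    (h2 : (Lam d lev Φ t i j).Nontrivial) :
    ∃ E, MCl d M (Lam d lev Φ t i j) E ∧ E ≠ Lam d lev Φ t i j ∧ GoodSet d lev Φ t i j E := by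
  classical
  by_contra hcon
  push Not at hcon
  -- the closed proper sets
  let X : Type _ := {E : Set A // MCl d M (Lam d lev Φ t i j) E ∧ E ≠ Lam d lev Φ t i j}
  have hbad : ∀ E : X, ∃ P Q P' Q' : Fin 3 → B, PT d lev t i j P Q ∧ PT d lev t i j P' Q' ∧
      ∀ ψ ∈ Φ, d (ψ P) (ψ Q) ∈ E.1 → d (ψ P') (ψ Q') ∉ E.1 := by
    intro E
    have h := hcon E.1 E.2.1 E.2.2
    unfold GoodSet at h
    push Not at h
    obtain ⟨P, Q, P', Q', hP, hP', h⟩ := h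
    exact ⟨P, Q, P', Q', hP, hP', h⟩
  choose p q p' q' hpq hpq' hno using hbad
  have hfix : ∀ (E : X) (P Q : Fin 3 → B), PT d lev t i j P Q →
      ∃ ψ ∈ Φ, d (ψ P) (ψ Q) ∈ E.1 := by
    intro E P Q hP
    obtain ⟨l, hl⟩ := E.2.1.ne
    obtain ⟨ψ, hψ, h⟩ := lam_fix S hΦ l (E.2.1.sub hl) P Q hP
    exact ⟨ψ, hψ, h ▸ hl⟩
  let f : X → X := fun E => ⟨NI d Φ (p E) (q E) (p' E) (q' E) E.1,
    mcl_image S hΦ (p E) (q E) (p' E) (q' E) (hpq E) (hpq' E) E.1 E.2.1, by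
      intro heq
      obtain ⟨l, hl⟩ := E.2.1.ne
      have hl' := E.2.1.sub hl
      rw [← heq] at hl'
      obtain ⟨ψ, hψ, h1, h2⟩ := hl'
      exact hno E ψ hψ h1 (h2 ▸ hl)⟩
  -- the starting set
  obtain ⟨l, hl, l', hl', hll⟩ := h2
  let x0 : X := ⟨{l}, mcl_singleton S hΦ hMU ht l hl, by
    intro heq
    rw [← heq] at hl'
    exact hll (Set.mem_singleton_iff.1 hl').symm⟩
  -- chains
  have hchain : ∀ (k : ℕ) (E : X), ∃ P Q : Fin 3 → B, PT d lev t i j P Q ∧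
      (∀ ψ ∈ Φ, d (ψ (p E)) (ψ (q E)) ∈ E.1 → d (ψ P) (ψ Q) ∈ (f^[k + 1] E).1) ∧
      (∀ c, p' E c ≠ p E c → P c ≠ p E c) ∧ (∀ c, q' E c ≠ q E c → Q c ≠ q E c) := by
    intro k E
    induction k with
    | zero =>
      exact ⟨p' E, q' E, hpq' E, fun ψ hψ h => ⟨ψ, hψ, h, rfl⟩, fun _ h => h, fun _ h => h⟩
    | succ k ih =>
      obtain ⟨P, Q, hP, hi, hc1, hc2⟩ := ih
      set E' : X := f^[k + 1] E with hE'
      obtain ⟨P'', Q'', h1, h2, h3, h4⟩ := chain S hG hΦ hte hij E.1 E'.1 (f E').1 (p E) (q E)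
        P Q (p E') (q E') (p' E') (q' E') (hpq E) hP (hpq E') (hpq' E') hi
        (fun ψ hψ h => ⟨ψ, hψ, h, rfl⟩)
      refine ⟨P'', Q'', h1, ?_, fun c hc => h3 c (Or.inl (hc1 c hc)),
        fun c hc => h4 c (Or.inl (hc2 c hc))⟩
      rw [Function.iterate_succ_apply' f (k + 1)]
      exact h2
  -- a cycle
  obtain ⟨n, m, hnm, hcyc⟩ : ∃ n m : ℕ, n < m ∧ f^[n] x0 = f^[m] x0 := by
    obtain ⟨n, m, hne, h⟩ := Finite.exists_ne_map_eq_of_infinite (fun n : ℕ => f^[n] x0)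
    rcases lt_or_gt_of_ne hne with h' | h'
    · exact ⟨n, m, h', h⟩
    · exact ⟨m, n, h', h.symm⟩
  set E : X := f^[n] x0 with hE
  have hfE : f^[(m - n - 1) + 1] E = E := by
    have hk : m - n - 1 + 1 + n = m := by omega
    rw [hE, ← Function.iterate_add_apply, hk]
    exact hcyc.symm
  obtain ⟨P, Q, hP, hi, hc1, hc2⟩ := hchain (m - n - 1) E
  rw [hfE] at hi
  have hR := cyc_irel hΦ E.1
  have hs := cyc_sameT (hpq E) hP
  have hne : ∀ c, d (p E c) (q E c) ≠ e := fun c => by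
    rw [(hpq E c).1]
    exact hte c
  have hpath := path S hG hR (p E) (q E) (p' E) (q' E) (cyc_sameT (hpq E) (hpq' E)) hne
    (fun c hc => slot_first S hG hR (p E) (q E) P Q hs hi c (hne c) (hc1 c hc) (by
      intro h
      have h5 := (hP c).2.1
      rw [h, (hpq E c).2.2] at h5
      exact hij h5.symm))
    (fun c hc => slot_second S hG hR (p E) (q E) P Q hs hi c (hne c) (by
      intro h
      have h5 := (hP c).2.2
      rw [h, (hpq E c).2.1] at h5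
      exact hij h5) (hc2 c hc))
    (fun ψ _ h => h)
  obtain ⟨ψ, hψ, h⟩ := hfix E (p E) (q E) (hpq E)
  exact hno E ψ hψ h (hpath ψ hψ h)

end Pool.Agent.SIG
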