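import Mathlib

/-!
Definitions for the project SIG (normal representations of finite symmetric relation algebras).
`e` is the identity atom, `T` the set of allowed triples, `d x y` the atom of the pair `(x, y)`,
`lev` a colouring of the points.
-/

namespace Pool.Agent.SIG

/-- A labelled point set with the one point extension property, with colours `lev`. -/
structure Sys {A B L : Type*} (e : A) (T : A → A → A → Prop) (d : B → B → A) (lev : B → L) :
    Prop where
  T12 : ∀ a b c, T a b c → T b a c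
  T23 : ∀ a b c, T a b c → T a c b
  Te : ∀ a b, T e a b ↔ a = b
  dsymm : ∀ x y, d x y = d y x
  deq : ∀ x y, d x y = e ↔ x = y
  tri : ∀ x y z, T (d x y) (d y z) (d x z)
  ep : ∀ (F : Finset B) (t : B → A) (k : L), (∀ x ∈ F, t x ≠ e) →
    (∀ x ∈ F, ∀ y ∈ F, T (t x) (t y) (d x y)) → ∃ z, lev z = k ∧ ∀ x ∈ F, d z x = t x
  prim : ∀ E : Set A, e ∉ E → E.Nonempty →
    (∀ x ∈ E, ∀ y ∈ E, ∀ z, z ≠ e → T x y z → z ∈ E) → ∀ z, z ≠ e → z ∈ E

/-- The system without colours. -/
abbrev USys {A B : Type*} (e : A) (T : A → A → A → Prop) (d : B → B → A) : Prop :=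
  Sys e T d (fun _ : B => ())

/-- Edge conservative maps (polymorphisms), in any arity. -/
def Pol {ι A B : Type*} (d : B → B → A) (φ : (ι → B) → B) : Prop :=
  ∀ P Q, ∃ i, d (φ P) (φ Q) = d (P i) (Q i)

/-- Binary polymorphisms. -/
def Pol2 {A B : Type*} (d : B → B → A) (ψ : B → B → B) : Prop :=
  ∀ x x' y y', d (ψ x y) (ψ x' y') = d x x' ∨ d (ψ x y) (ψ x' y') = d y y'

/-- Ternary polymorphisms. -/
def Pol3 {A B : Type*} (d : B → B → A) (M : B → B → B → B) : Prop :=
  ∀ x x' y y' z z', d (M x y z) (M x' y' z') = d x x' ∨ d (M x y z) (M x' y' z') = d y y' ∨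
    d (M x y z) (M x' y' z') = d z z'

/-- Binary polymorphisms that are isometric in each variable. -/
def InjF {A B : Type*} (d : B → B → A) (f : B → B → B) : Prop :=
  Pol2 d f ∧ (∀ x y y', d (f x y) (f x y') = d y y') ∧ (∀ x x' y, d (f x y) (f x' y) = d x x')

/-- The consequences for the allowed triples. -/
structure Good {A : Type*} (e : A) (T : A → A → A → Prop) : Prop where
  aaa : ∀ a, T a a a
  king : ∀ X : Finset A, X.Nonempty → e ∉ X → ∃ a ∈ X, ∀ b ∈ X, T b b a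
  lp : ∀ x, x ≠ e → ∀ E : Set A, E.Nonempty → (∀ y ∈ E, y ≠ e ∧ T x x y) →
    (∀ y ∈ E, ∀ z ∈ E, ∀ w, w ≠ e → T x x w → T y z w → w ∈ E) →
    ∀ w, w ≠ e → T x x w → w ∈ E

/-- Automorphisms. -/
def AutD {A B : Type*} (d : B → B → A) (γ : B ≃ B) : Prop := ∀ x y, d (γ x) (γ y) = d x y

/-- Automorphisms that preserve the colours. -/
def AutL {A B L : Type*} (d : B → B → A) (lev : B → L) (γ : B ≃ B) : Prop :=
  AutD d γ ∧ ∀ x, lev (γ x) = lev x

/-- Coordinatewise action. -/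
def act {ι B : Type*} (γ : ι → B ≃ B) (P : ι → B) : ι → B := fun c => γ c (P c)

/-- Two places `(P, Q)` and `(P', Q')` of the same coloured type. -/
def SameT {ι A B L : Type*} (d : B → B → A) (lev : B → L) (P Q P' Q' : ι → B) : Prop :=
  ∀ c, d (P c) (Q c) = d (P' c) (Q' c) ∧ lev (P c) = lev (P' c) ∧ lev (Q c) = lev (Q' c)

/-- Invariant relations between places, transitive on each type. -/
structure IRel {ι A B L : Type*} (d : B → B → A) (lev : B → L)
    (R : (ι → B) → (ι → B) → (ι → B) → (ι → B) → Prop) : Prop where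
  inv : ∀ γ : ι → B ≃ B, (∀ c, AutL d lev (γ c)) → ∀ P Q P' Q', R P Q P' Q' →
    R (act γ P) (act γ Q) (act γ P') (act γ Q')
  trans : ∀ P Q P' Q' P'' Q'', SameT d lev P Q P' Q' → SameT d lev P' Q' P'' Q'' →
    R P Q P' Q' → R P' Q' P'' Q'' → R P Q P'' Q''

/-- All changes of the first vertex in coordinate `c` are in `R`. -/
def Free1 {ι A B L : Type*} [DecidableEq ι] (d : B → B → A) (lev : B → L)
    (R : (ι → B) → (ι → B) → (ι → B) → (ι → B) → Prop) (P Q : ι → B) (c : ι) : Prop :=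
  ∀ U V, SameT d lev P Q U V → ∀ u, d u (V c) = d (U c) (V c) → lev u = lev (U c) →
    R U V (Function.update U c u) V

/-- All changes of the second vertex in coordinate `c` are in `R`. -/
def Free2 {ι A B L : Type*} [DecidableEq ι] (d : B → B → A) (lev : B → L)
    (R : (ι → B) → (ι → B) → (ι → B) → (ι → B) → Prop) (P Q : ι → B) (c : ι) : Prop :=
  ∀ U V, SameT d lev P Q U V → ∀ v, d (U c) v = d (U c) (V c) → lev v = lev (V c) →
    R U V U (Function.update V c v)

/-- Every binary polymorphism that picks the first label at the place `((x, y), (x', y'))`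
picks the first label at the place `((u, v), (u', v'))`. -/
def Imp {A B : Type*} (d : B → B → A) (x x' y y' u u' v v' : B) : Prop :=
  ∀ ψ, Pol2 d ψ → d (ψ x y) (ψ x' y') = d x x' → d (ψ u v) (ψ u' v') = d u u'

/-- Implication between types of places. -/
def TI {A B : Type*} (d : B → B → A) (a b a' b' : A) : Prop :=
  ∃ x x' y y' u u' v v', d x x' = a ∧ d y y' = b ∧ d u u' = a' ∧ d v v' = b' ∧
    Imp d x x' y y' u u' v v'

/-- Unavoidable projection pairs. -/
def UPp {A B : Type*} (d : B → B → A) (a b : A) : Prop := a ≠ b ∧ TI d a b b a ∧ TI d b a a b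

/-- Every binary polymorphism acts on the pair `a, b` as one of the two projections. -/
def Unif {A B : Type*} (d : B → B → A) (a b : A) : Prop :=
  ∀ ψ, Pol2 d ψ →
    (∀ x x' y y', (d x x' = a ∧ d y y' = b) ∨ (d x x' = b ∧ d y y' = a) →
      d (ψ x y) (ψ x' y') = d x x') ∨
    (∀ x x' y y', (d x x' = a ∧ d y y' = b) ∨ (d x x' = b ∧ d y y' = a) →
      d (ψ x y) (ψ x' y') = d y y')

/-- Majority behaviour on the pair `a, b`. -/
def MajOn {A B : Type*} (d : B → B → A) (a b : A) (M : B → B → B → B) : Prop :=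
  ∀ x x' y y' z z', (d x x' = a ∨ d x x' = b) → (d y y' = a ∨ d y y' = b) →
    (d z z' = a ∨ d z z' = b) →
    (d x x' = d y y' → d (M x y z) (M x' y' z') = d x x') ∧
    (d x x' = d z z' → d (M x y z) (M x' y' z') = d x x') ∧
    (d y y' = d z z' → d (M x y z) (M x' y' z') = d y y')

/-- Four pairs with labels in `{a, b}`, the number of labels `b` is `c` modulo 2. -/
def RC {A B : Type*} [DecidableEq A] (d : B → B → A) (a b : A) (c : ZMod 2) (x y : Fin 4 → B) :
    Prop :=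
  (∀ k, d (x k) (y k) = a ∨ d (x k) (y k) = b) ∧
    (∑ k, if d (x k) (y k) = b then (1 : ZMod 2) else 0) = c

/-- The polymorphism `φ` violates the relation `RC`. -/
def Viol {ι A B : Type*} [DecidableEq A] (d : B → B → A) (a b : A) (φ : (ι → B) → B) : Prop :=
  ∃ (c : ZMod 2) (x y : Fin 4 → ι → B), (∀ i, RC d a b c (fun k => x k i) (fun k => y k i)) ∧
    ¬ RC d a b c (fun k => φ (x k)) (fun k => φ (y k))

/-- Solutions on the set `S` of the instance `N`. -/
def PHom {A B V : Type*} (d : B → B → A) (N : V → V → Set A) (S : Finset V) (h : V → B) : Prop :=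
  ∀ x ∈ S, ∀ y ∈ S, d (h x) (h y) ∈ N x y

/-- Nonempty `(k, l)`-consistent families of local solutions. -/
structure Strat {A B V : Type*} (d : B → B → A) (k l : ℕ) (N : V → V → Set A)
    (H : Finset V → (V → B) → Prop) : Prop where
  ne : ∃ h, H ∅ h
  card : ∀ S h, H S h → S.card ≤ l
  hom : ∀ S h, H S h → PHom d N S h
  restr : ∀ S S' h, H S h → S' ⊆ S → H S' h
  ext : ∀ S W h, H S h → S.card ≤ k → S ⊆ W → W.card ≤ l →
    ∃ h', (∀ x ∈ S, h' x = h x) ∧ H W h'

/-- Every instance with a nonempty `(k, l)`-consistent family has a solution. -/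
def Solves {A B : Type*} (d : B → B → A) (k l : ℕ) : Prop :=
  ∀ (n : ℕ) (N : Fin n → Fin n → Set A) (H : Finset (Fin n) → (Fin n → B) → Prop),
    Strat d k l N H → ∃ g : Fin n → B, ∀ x y, d (g x) (g y) ∈ N x y

/-- A finite instance defining `RC`. -/
structure Gadget {A B F : Type*} [DecidableEq A] (d : B → B → A) (a b : A) (c : ZMod 2)
    (N : F → F → Set A) (β : Fin 4 → Bool → F) : Prop where
  g1 : ∀ g : F → B, (∀ x y, d (g x) (g y) ∈ N x y) →
    RC d a b c (fun k => g (β k false)) (fun k => g (β k true))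
  g2 : ∀ x y : Fin 4 → B, RC d a b c x y → ∃ g : F → B, (∀ p q, d (g p) (g q) ∈ N p q) ∧
    ∀ k, g (β k false) = x k ∧ g (β k true) = y k

/-- Siggers behaviour. -/
def HasSig {A : Type*} (T : A → A → A → Prop) : Prop :=
  ∃ s : (Fin 6 → A) → A,
    (∀ x y z : Fin 6 → A, (∀ i, T (x i) (y i) (z i)) → T (s x) (s y) (s z)) ∧
    (∀ x, ∃ i, s x = x i) ∧
    ∀ x y z, s ![x, x, y, y, z, z] = s ![y, z, x, z, x, y]

/-- Equal or unavoidable. -/
def AP {A : Type*} (U : A → A → Prop) (a b : A) : Prop := a = b ∨ U a b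

/-- Arrow free triples. -/
def AF {A : Type*} (U : A → A → Prop) (a b c : A) : Prop := AP U a b ∧ AP U a c ∧ AP U b c

/-- The canonical binary operation. -/
structure RSys {A : Type*} (e : A) (T : A → A → A → Prop) (U : A → A → Prop) (r : A → A → A) :
    Prop where
  symm : ∀ a b, U a b → U b a
  ne : ∀ a b, U a b → a ≠ b ∧ a ≠ e ∧ b ≠ e
  cons : ∀ a b, r a b = a ∨ r a b = b
  up : ∀ a b, U a b → r a b = a
  sl : ∀ a b, ¬ U a b → r a b = r b a
  pres : ∀ a b c a' b' c', T a b c → T a' b' c' → T (r a a') (r b b') (r c c')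

/-- The canonical operation on arrow free triples. -/
structure MSys {A : Type*} (T : A → A → A → Prop) (U : A → A → Prop) (m : A → A → A → A) :
    Prop where
  cons : ∀ a b c, AF U a b c → m a b c = a ∨ m a b c = b ∨ m a b c = c
  maj : ∀ a b, AP U a b → m a a b = a ∧ m a b a = a ∧ m b a a = a
  pres : ∀ a b c a' b' c' a'' b'' c'', AF U a b c → AF U a' b' c' → AF U a'' b'' c'' →
    T a a' a'' → T b b' b'' → T c c' c'' → T (m a b c) (m a' b' c') (m a'' b'' c'')

/-- Families of ternary polymorphisms used for the canonisation. -/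
structure Fam {A B : Type*} (d : B → B → A) (lev : B → ℕ) (U : A → A → Prop)
    (M : B → B → B → B) (Φ : Set ((Fin 3 → B) → B)) : Prop where
  ne : Φ.Nonempty
  pol : ∀ ψ ∈ Φ, Pol d ψ
  maj : ∀ ψ ∈ Φ, ∀ a b, U a b → MajOn d a b (fun x y z => ψ ![x, y, z])
  pre : ∀ ψ ∈ Φ, ∀ γ : Fin 3 → B ≃ B, (∀ c, AutL d lev (γ c)) → (fun P => ψ (act γ P)) ∈ Φ
  comp : ∀ ψ : Fin 3 → (Fin 3 → B) → B, (∀ i, ψ i ∈ Φ) → ∀ β : Fin 3 → B ≃ B,
    (∀ i, AutD d (β i)) →
    (fun P => M (β 0 (ψ 0 P)) (β 1 (ψ 1 P)) (β 2 (ψ 2 P))) ∈ Φ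
  closed : ∀ φ : (Fin 3 → B) → B, (∀ G : Finset (Fin 3 → B), ∃ ψ ∈ Φ, ∀ P ∈ G, ∀ Q ∈ G,
    d (φ P) (φ Q) = d (ψ P) (ψ Q)) → φ ∈ Φ

/-- Places of type `t`, first vertices of colour `i`, second vertices of colour `j`. -/
def PT {A B : Type*} (d : B → B → A) (lev : B → ℕ) (t : Fin 3 → A) (i j : ℕ)
    (P Q : Fin 3 → B) : Prop :=
  ∀ c, d (P c) (Q c) = t c ∧ lev (P c) = i ∧ lev (Q c) = j

/-- The labels achieved at places of a type. -/
def Lam {A B : Type*} (d : B → B → A) (lev : B → ℕ) (Φ : Set ((Fin 3 → B) → B))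
    (t : Fin 3 → A) (i j : ℕ) : Set A :=
  {l | ∃ ψ ∈ Φ, ∃ P Q, PT d lev t i j P Q ∧ d (ψ P) (ψ Q) = l}

/-- Closed label sets with respect to `M`. -/
structure MCl {A B : Type*} (d : B → B → A) (M : B → B → B → B) (Λ : Set A) (E : Set A) :
    Prop where
  sub : E ⊆ Λ
  ne : E.Nonempty
  cl : ∀ P Q : Fin 3 → B, (∀ c, d (P c) (Q c) ∈ Λ) →
    (∃ c c', c ≠ c' ∧ d (P c) (Q c) ∈ E ∧ d (P c') (Q c') ∈ E) →
    d (M (P 0) (P 1) (P 2)) (M (Q 0) (Q 1) (Q 2)) ∈ E

/-- Any two places of the type can have both labels in `E`. -/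
def GoodSet {A B : Type*} (d : B → B → A) (lev : B → ℕ) (Φ : Set ((Fin 3 → B) → B))
    (t : Fin 3 → A) (i j : ℕ) (E : Set A) : Prop :=
  ∀ P Q P' Q', PT d lev t i j P Q → PT d lev t i j P' Q' →
    ∃ ψ ∈ Φ, d (ψ P) (ψ Q) ∈ E ∧ d (ψ P') (ψ Q') ∈ E

end Pool.Agent.SIG
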