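import Pool.Agent.SIG.BAS

namespace Pool.Agent.SIG

private theorem HOM_across {A B L : Type*} {e : A} {T : A → A → A → Prop}
    {d : B → B → A} {lev : B → L} (S : Sys e T d lev) (f : Finset (B × B))
    (hf : ∀ p ∈ f, ∀ q ∈ f, d p.1 q.1 = d p.2 q.2 ∧ lev p.1 = lev p.2) (x : B) :
    ∃ y, lev x = lev y ∧ ∀ p ∈ f, d p.1 x = d p.2 y := by
  classical
  by_cases hx : ∃ y, (x, y) ∈ f
  · obtain ⟨y, hy⟩ := hx
    exact ⟨y, (hf _ hy _ hy).2, fun p hp => (hf _ hp _ hy).1⟩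
  · set t : B → A := fun z => if h : ∃ p ∈ f, p.2 = z then d x h.choose.1 else e with ht
    have htp : ∀ p ∈ f, t p.2 = d x p.1 := by
      intro p hp
      have h : ∃ q ∈ f, q.2 = p.2 := ⟨p, hp, rfl⟩
      have h1 := h.choose_spec
      have h2 : d h.choose.1 p.1 = e := by
        rw [(hf _ h1.1 _ hp).1, h1.2]
        exact (S.deq _ _).2 rfl
      simp only [ht]
      rw [dif_pos h, (S.deq _ _).1 h2]
    obtain ⟨y, hy1, hy2⟩ := S.ep (f.image Prod.snd) t (lev x) (by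
      intro z hz
      obtain ⟨p, hp, rfl⟩ := Finset.mem_image.1 hz
      rw [htp p hp]
      intro h
      have h3 := (S.deq _ _).1 h
      exact hx ⟨p.2, by rw [h3]; exact hp⟩) (by
      intro z hz w hw
      obtain ⟨p, hp, rfl⟩ := Finset.mem_image.1 hz
      obtain ⟨q, hq, rfl⟩ := Finset.mem_image.1 hw
      rw [htp p hp, htp q hq, ← (hf p hp q hq).1, S.dsymm x p.1]
      exact S.tri _ _ _)
    refine ⟨y, hy1.symm, fun p hp => ?_⟩
    rw [S.dsymm p.2 y, hy2 _ (Finset.mem_image_of_mem _ hp), htp p hp, S.dsymm]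

theorem homog {A B L ι : Type*} [Countable B] [Finite ι] {e : A} {T : A → A → A → Prop}
    {d : B → B → A} {lev : B → L} (S : Sys e T d lev) (u v : ι → B)
    (h : ∀ i j, d (u i) (u j) = d (v i) (v j)) (hl : ∀ i, lev (u i) = lev (v i)) :
    ∃ γ : B ≃ B, AutL d lev γ ∧ ∀ i, γ (u i) = v i := by
  classical
  cases nonempty_fintype ι
  cases nonempty_encodable B
  let PI : Type _ := {f : Finset (B × B) //
    ∀ p ∈ f, ∀ q ∈ f, d p.1 q.1 = d p.2 q.2 ∧ lev p.1 = lev p.2}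
  let DL : B → Order.Cofinal PI := fun x =>
    { carrier := {f | ∃ y, (x, y) ∈ f.1}
      isCofinal := by
        intro f
        obtain ⟨y, hy1, hy2⟩ := HOM_across S f.1 f.2 x
        refine ⟨⟨insert (x, y) f.1, fun p hp q hq => ?_⟩, ⟨y, Finset.mem_insert_self _ _⟩,
          Finset.subset_insert _ _⟩
        rw [Finset.mem_insert] at hp hq
        rcases hp with (rfl | pf) <;> rcases hq with (rfl | qf)
        · exact ⟨((S.deq _ _).2 rfl).trans ((S.deq _ _).2 rfl).symm, hy1⟩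
        · refine ⟨?_, hy1⟩
          rw [S.dsymm, hy2 q qf, S.dsymm]
        · exact ⟨hy2 p pf, (f.2 p pf p pf).2⟩
        · exact f.2 _ pf _ qf }
  let DR : B → Order.Cofinal PI := fun y =>
    { carrier := {f | ∃ x, (x, y) ∈ f.1}
      isCofinal := by
        intro f
        obtain ⟨x, hx1, hx2⟩ := HOM_across S (f.1.image Prod.swap) (by
          intro p hp q hq
          obtain ⟨p', hp', rfl⟩ := Finset.mem_image.1 hp
          obtain ⟨q', hq', rfl⟩ := Finset.mem_image.1 hq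
          have h1 := f.2 p' hp' q' hq'
          exact ⟨h1.1.symm, h1.2.symm⟩) y
        have hx3 : ∀ p ∈ f.1, d p.1 x = d p.2 y := fun p hp =>
          (hx2 p.swap (Finset.mem_image_of_mem _ hp)).symm
        refine ⟨⟨insert (x, y) f.1, fun p hp q hq => ?_⟩, ⟨x, Finset.mem_insert_self _ _⟩,
          Finset.subset_insert _ _⟩
        rw [Finset.mem_insert] at hp hq
        rcases hp with (rfl | pf) <;> rcases hq with (rfl | qf)
        · exact ⟨((S.deq _ _).2 rfl).trans ((S.deq _ _).2 rfl).symm, hx1.symm⟩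
        · refine ⟨?_, hx1.symm⟩
          rw [S.dsymm, hx3 q qf, S.dsymm]
        · exact ⟨hx3 p pf, (f.2 p pf p pf).2⟩
        · exact f.2 _ pf _ qf }
  let f₀ : PI := ⟨Finset.univ.image fun i => (u i, v i), by
    intro p hp q hq
    obtain ⟨i, -, rfl⟩ := Finset.mem_image.1 hp
    obtain ⟨j, -, rfl⟩ := Finset.mem_image.1 hq
    exact ⟨h i j, hl i⟩⟩
  let D : B ⊕ B → Order.Cofinal PI := fun p => Sum.recOn p DL DR
  let I : Order.Ideal PI := Order.idealOfCofinals f₀ D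
  have hL : ∀ x, ∃ y, ∃ f ∈ I, (x, y) ∈ f.1 := by
    intro x
    obtain ⟨f, ⟨y, hy⟩, hf⟩ := Order.cofinal_meets_idealOfCofinals f₀ D (Sum.inl x)
    exact ⟨y, f, hf, hy⟩
  have hR : ∀ y, ∃ x, ∃ f ∈ I, (x, y) ∈ f.1 := by
    intro y
    obtain ⟨f, ⟨x, hx⟩, hf⟩ := Order.cofinal_meets_idealOfCofinals f₀ D (Sum.inr y)
    exact ⟨x, f, hf, hx⟩
  have hI : ∀ p q : B × B, (∃ f ∈ I, p ∈ f.1) → (∃ f ∈ I, q ∈ f.1) →
      d p.1 q.1 = d p.2 q.2 ∧ lev p.1 = lev p.2 := by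
    rintro p q ⟨f, hf, hp⟩ ⟨g, hg, hq⟩
    obtain ⟨m, -, fm, gm⟩ := I.directed _ hf _ hg
    exact m.2 p (fm hp) q (gm hq)
  choose F hF using hL
  choose G hG using hR
  refine ⟨⟨F, G, fun x => ?_, fun y => ?_⟩, ⟨fun x y => ?_, fun x => ?_⟩, fun i => ?_⟩
  · have h1 := (hI (G (F x), F x) (x, F x) (hG _) (hF _)).1
    exact (S.deq _ _).1 (h1.trans ((S.deq _ _).2 rfl))
  · have h1 := (hI (G y, y) (G y, F (G y)) (hG _) (hF _)).1
    exact ((S.deq _ _).1 (h1.symm.trans ((S.deq _ _).2 rfl))).symm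
  · exact (hI (x, F x) (y, F y) (hF _) (hF _)).1.symm
  · exact (hI (x, F x) (x, F x) (hF _) (hF _)).2.symm
  · have h0 : (u i, v i) ∈ f₀.1 := Finset.mem_image_of_mem _ (Finset.mem_univ i)
    have h1 := (hI (u i, F (u i)) (u i, v i) (hF _)
      ⟨f₀, Order.mem_idealOfCofinals f₀ D, h0⟩).1
    exact (S.deq _ _).1 (h1.symm.trans ((S.deq _ _).2 rfl))

end Pool.Agent.SIG
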