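import Pool.Agent.SIG.CMP
import Pool.Agent.SIG.HOM

namespace Pool.Agent.SIG

private theorem GAD_RC_congr {A B B' : Type*} [DecidableEq A] {d : B → B → A} {d' : B' → B' → A}
    {a b : A} {c : ZMod 2} {x y : Fin 4 → B} {x' y' : Fin 4 → B'}
    (h : ∀ k, d (x k) (y k) = d' (x' k) (y' k)) (hr : RC d a b c x y) : RC d' a b c x' y' := by
  refine ⟨fun k => by rw [← h k]; exact hr.1 k, ?_⟩
  have h2 := hr.2
  simp only [h] at h2
  exact h2

theorem exists_gadget {A B : Type*} [Finite A] [DecidableEq A] [Countable B] {e : A}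
    {T : A → A → A → Prop} {d : B → B → A} (S : USys e T d) (a b : A) (ha : a ≠ e)
    (hb : b ≠ e) (hp : ∀ (m : ℕ) (φ : (Fin m → B) → B), Pol d φ → ¬ Viol d a b φ) (c : ZMod 2) :
    ∃ (n : ℕ) (N : Fin n → Fin n → Set A) (β : Fin 4 → Bool → Fin n), Gadget d a b c N β := by
  classical
  -- the realised matrices
  let ι := {s : (Fin 4 × Bool) → (Fin 4 × Bool) → A // ∃ w : Fin 4 × Bool → B,
    RC d a b c (fun k => w (k, false)) (fun k => w (k, true)) ∧ ∀ p q, d (w p) (w q) = s p q}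
  haveI : Finite ι := inferInstanceAs (Finite {s : (Fin 4 × Bool) → (Fin 4 × Bool) → A //
    ∃ w : Fin 4 × Bool → B,
    RC d a b c (fun k => w (k, false)) (fun k => w (k, true)) ∧ ∀ p q, d (w p) (w q) = s p q})
  obtain ⟨m, ⟨eq⟩⟩ := Finite.exists_equiv_fin ι
  have hrep : ∀ i : Fin m, ∃ w : Fin 4 × Bool → B,
      RC d a b c (fun k => w (k, false)) (fun k => w (k, true)) ∧
      ∀ p q, d (w p) (w q) = (eq.symm i).1 p q := fun i => (eq.symm i).2
  choose w hw1 hw2 using hrep
  let bd : Fin 4 → Bool → Fin m → B := fun k t i => w i (k, t)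
  let Bd : Finset (Fin m → B) := Finset.univ.image (fun p : Fin 4 × Bool => bd p.1 p.2)
  have hBd : ∀ k t, bd k t ∈ Bd := fun k t =>
    Finset.mem_image.2 ⟨(k, t), Finset.mem_univ _, rfl⟩
  by_cases hgood : ∃ F : Finset (Fin m → B), Bd ⊆ F ∧ ∀ g : (Fin m → B) → B,
      (∀ P ∈ F, ∀ Q ∈ F, ∃ i, d (g P) (g Q) = d (P i) (Q i)) →
      RC d a b c (fun k => g (bd k false)) (fun k => g (bd k true))
  · obtain ⟨F, hF, hg⟩ := hgood
    let eF : {P // P ∈ F} ≃ Fin F.card := F.equivFin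
    refine ⟨F.card, fun x y => {l | ∃ i, l = d ((eF.symm x).1 i) ((eF.symm y).1 i)},
      fun k t => eF ⟨bd k t, hF (hBd k t)⟩, ?_, ?_⟩
    · intro g hgN
      let g' : (Fin m → B) → B := fun P =>
        if h : P ∈ F then g (eF ⟨P, h⟩) else g (eF ⟨bd 0 false, hF (hBd 0 false)⟩)
      have hg' : ∀ P (h : P ∈ F), g' P = g (eF ⟨P, h⟩) := fun P h => dif_pos h
      have h1 := hg g' (by
        intro P hP Q hQ
        have h2 := hgN (eF ⟨P, hP⟩) (eF ⟨Q, hQ⟩)
        simp only [Set.mem_setOf_eq, Equiv.symm_apply_apply] at h2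
        rw [hg' P hP, hg' Q hQ]
        exact h2)
      simpa only [hg' _ (hF (hBd _ _))] using h1
    · intro x y hxy
      let w' : Fin 4 × Bool → B := fun p => if p.2 then y p.1 else x p.1
      have hw' : RC d a b c (fun k => w' (k, false)) (fun k => w' (k, true)) := by
        simpa [w'] using hxy
      let s : ι := ⟨fun p q => d (w' p) (w' q), w', hw', fun _ _ => rfl⟩
      have hs : ∀ p q, d (w (eq s) p) (w (eq s) q) = d (w' p) (w' q) := by
        intro p q
        rw [hw2, Equiv.symm_apply_apply]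
      obtain ⟨γ, hγ, hγw⟩ := homog S (w (eq s)) w' hs (fun _ => rfl)
      refine ⟨fun P => γ ((eF.symm P).1 (eq s)), ?_, ?_⟩
      · intro p q
        exact ⟨eq s, hγ.1 _ _⟩
      · intro k
        simp only [Equiv.symm_apply_apply]
        exact ⟨hγw (k, false), hγw (k, true)⟩
  · exfalso
    have hall : ∀ F : Finset (Fin m → B), ∃ g : (Fin m → B) → B,
        (∀ P ∈ F, ∀ Q ∈ F, ∃ i, d (g P) (g Q) = d (P i) (Q i)) ∧
        ¬ RC d a b c (fun k => g (bd k false)) (fun k => g (bd k true)) := by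
      intro F
      by_contra hcon
      push Not at hcon
      exact hgood ⟨Bd ∪ F, Finset.subset_union_left, fun g hg => hcon g fun P hP Q hQ =>
        hg P (Finset.mem_union_right _ hP) Q (Finset.mem_union_right _ hQ)⟩
    choose ψ hψ1 hψ2 using hall
    obtain ⟨φ, hφ⟩ := compact S ψ
    refine hp m φ ?_ ⟨c, fun k => bd k false, fun k => bd k true, fun i => hw1 i, ?_⟩
    · intro P Q
      obtain ⟨F, hF, hF2⟩ := hφ {P, Q}
      rw [hF2 P (by simp) Q (by simp)]
      exact hψ1 F P (hF (by simp)) Q (hF (by simp))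
    · intro hr
      obtain ⟨F, hF, hF2⟩ := hφ Bd
      exact hψ2 F (GAD_RC_congr (fun k => hF2 _ (hBd k false) _ (hBd k true)) hr)

end Pool.Agent.SIG
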