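import Pool.Agent.SIG.LAM
import Pool.Agent.SIG.CMP

namespace Pool.Agent.SIG

private theorem gdr_finite {A B : Type*} {d : B → B → A} {lev : B → ℕ} {U : A → A → Prop}
    {M : B → B → B → B} {Φ : Set ((Fin 3 → B) → B)} {t : Fin 3 → A} {i j : ℕ}
    (hΦ : Fam d lev U M Φ) (E : Set A)
    (hE : MCl d M (Lam d lev Φ t i j) E) (hg : GoodSet d lev Φ t i j E) (n : ℕ) :
    ∀ J : Finset ((Fin 3 → B) × (Fin 3 → B)), J.card = n →
      (∀ p ∈ J, PT d lev t i j p.1 p.2) → ∃ ψ ∈ Φ, ∀ p ∈ J, d (ψ p.1) (ψ p.2) ∈ E := by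
  classical
  induction n using Nat.strong_induction_on with
  | _ n ih =>
    intro J hJ hpl
    by_cases h0 : n = 0
    · subst h0
      obtain ⟨ψ, hψ⟩ := hΦ.ne
      refine ⟨ψ, hψ, ?_⟩
      intro p hp
      rw [Finset.card_eq_zero.1 hJ] at hp
      simp at hp
    by_cases h1 : n = 1
    · subst h1
      obtain ⟨p, rfl⟩ := Finset.card_eq_one.1 hJ
      obtain ⟨ψ, hψ, h2, -⟩ := hg p.1 p.2 p.1 p.2 (hpl p (by simp)) (hpl p (by simp))
      refine ⟨ψ, hψ, ?_⟩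
      intro q hq
      rw [Finset.mem_singleton] at hq
      subst hq
      exact h2
    by_cases h2 : n = 2
    · subst h2
      obtain ⟨p, q, -, rfl⟩ := Finset.card_eq_two.1 hJ
      obtain ⟨ψ, hψ, h2, h3⟩ := hg p.1 p.2 q.1 q.2 (hpl p (by simp)) (hpl q (by simp))
      refine ⟨ψ, hψ, ?_⟩
      intro r hr
      rw [Finset.mem_insert, Finset.mem_singleton] at hr
      rcases hr with rfl | rfl
      · exact h2
      · exact h3
    have h3 : 2 < J.card := by omega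
    obtain ⟨a, b, c, ha, hb, hc, hab, hac, hbc⟩ := Finset.two_lt_card_iff.1 h3
    have key : ∀ q ∈ J, ∃ ψ ∈ Φ, ∀ p ∈ J.erase q, d (ψ p.1) (ψ p.2) ∈ E := by
      intro q hq
      refine ih (n - 1) (by omega) (J.erase q) ?_ ?_
      · rw [Finset.card_erase_of_mem hq, hJ]
      · intro p hp
        exact hpl p (Finset.mem_of_mem_erase hp)
    obtain ⟨ψa, hψa, ha'⟩ := key a ha
    obtain ⟨ψb, hψb, hb'⟩ := key b hb
    obtain ⟨ψc, hψc, hc'⟩ := key c hc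
    have hmem : ∀ k : Fin 3, (![ψa, ψb, ψc] : Fin 3 → (Fin 3 → B) → B) k ∈ Φ := by
      intro k
      fin_cases k
      · exact hψa
      · exact hψb
      · exact hψc
    refine ⟨_, hΦ.comp ![ψa, ψb, ψc] hmem (fun _ => Equiv.refl B) (fun _ _ _ => rfl), ?_⟩
    intro p hp
    refine hE.cl (fun k => (![ψa, ψb, ψc] : Fin 3 → (Fin 3 → B) → B) k p.1)
      (fun k => (![ψa, ψb, ψc] : Fin 3 → (Fin 3 → B) → B) k p.2) ?_ ?_
    · intro k
      exact ⟨_, hmem k, p.1, p.2, hpl p hp, rfl⟩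
    · have ga : p ≠ a → d (ψa p.1) (ψa p.2) ∈ E := fun h => ha' p (Finset.mem_erase.2 ⟨h, hp⟩)
      have gb : p ≠ b → d (ψb p.1) (ψb p.2) ∈ E := fun h => hb' p (Finset.mem_erase.2 ⟨h, hp⟩)
      have gc : p ≠ c → d (ψc p.1) (ψc p.2) ∈ E := fun h => hc' p (Finset.mem_erase.2 ⟨h, hp⟩)
      by_cases e1 : p = a
      · exact ⟨1, 2, by decide, gb (by rw [e1]; exact hab), gc (by rw [e1]; exact hac)⟩
      · by_cases e2 : p = b
        · exact ⟨0, 2, by decide, ga e1, gc (by rw [e2]; exact hbc)⟩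
        · exact ⟨0, 1, by decide, ga e1, gb e2⟩

theorem good_reduce {A B : Type*} [Finite A] [Countable B] {e : A} {T : A → A → A → Prop}
    {d : B → B → A} {lev : B → ℕ} {U : A → A → Prop} {M : B → B → B → B}
    {Φ : Set ((Fin 3 → B) → B)} {t : Fin 3 → A} {i j : ℕ}
    (S : Sys e T d lev) (hΦ : Fam d lev U M Φ) (E : Set A)
    (hE : MCl d M (Lam d lev Φ t i j) E) (hg : GoodSet d lev Φ t i j E) :
    ∃ Φ' ⊆ Φ, Fam d lev U M Φ' ∧ Lam d lev Φ' t i j ⊆ E := by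
  classical
  have hfin : ∀ F : Finset (Fin 3 → B), ∃ ψ ∈ Φ, ∀ P ∈ F, ∀ Q ∈ F, PT d lev t i j P Q →
      d (ψ P) (ψ Q) ∈ E := by
    intro F
    obtain ⟨ψ, hψ, h⟩ := gdr_finite hΦ E hE hg _
      ((F ×ˢ F).filter (fun p => PT d lev t i j p.1 p.2)) rfl (by
        intro p hp
        exact (Finset.mem_filter.1 hp).2)
    refine ⟨ψ, hψ, ?_⟩
    intro P hP Q hQ hPQ
    exact h (P, Q) (Finset.mem_filter.2 ⟨Finset.mk_mem_product hP hQ, hPQ⟩)
  choose ψ hψ hψE using hfin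
  obtain ⟨φ, hφ⟩ := compact S.forget ψ
  have hφΦ : φ ∈ Φ := by
    apply hΦ.closed
    intro G
    obtain ⟨F, hGF, h⟩ := hφ G
    exact ⟨ψ F, hψ F, h⟩
  have hφE : ∀ P Q, PT d lev t i j P Q → d (φ P) (φ Q) ∈ E := by
    intro P Q hPQ
    obtain ⟨F, hGF, h⟩ := hφ {P, Q}
    rw [h P (by simp) Q (by simp)]
    exact hψE F P (hGF (by simp)) Q (hGF (by simp)) hPQ
  refine ⟨{ψ ∈ Φ | ∀ P Q, PT d lev t i j P Q → d (ψ P) (ψ Q) ∈ E}, fun ψ h => h.1, ?_, ?_⟩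
  · refine ⟨⟨φ, hφΦ, hφE⟩, fun ψ h => hΦ.pol ψ h.1, fun ψ h => hΦ.maj ψ h.1, ?_, ?_, ?_⟩
    · intro ψ h γ hγ
      refine ⟨hΦ.pre ψ h.1 γ hγ, ?_⟩
      intro P Q hPQ
      refine h.2 (act γ P) (act γ Q) ?_
      intro c
      obtain ⟨h1, h2, h3⟩ := hPQ c
      refine ⟨?_, ?_, ?_⟩
      · rw [← h1]
        exact (hγ c).1 _ _
      · rw [← h2]
        exact (hγ c).2 _
      · rw [← h3]
        exact (hγ c).2 _
    · intro ψ h β hβ
      refine ⟨hΦ.comp ψ (fun k => (h k).1) β hβ, ?_⟩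
      intro P Q hPQ
      have hk : ∀ k, d (β k (ψ k P)) (β k (ψ k Q)) ∈ E := by
        intro k
        rw [hβ k]
        exact (h k).2 P Q hPQ
      exact hE.cl (fun k => β k (ψ k P)) (fun k => β k (ψ k Q)) (fun k => hE.sub (hk k))
        ⟨0, 1, by decide, hk 0, hk 1⟩
    · intro φ' h
      refine ⟨hΦ.closed φ' ?_, ?_⟩
      · intro G
        obtain ⟨ψ, hψ, h'⟩ := h G
        exact ⟨ψ, hψ.1, h'⟩
      · intro P Q hPQ
        obtain ⟨ψ, hψ, h'⟩ := h {P, Q}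
        rw [h' P (by simp) Q (by simp)]
        exact hψ.2 P Q hPQ
  · rintro l ⟨ψ, hψ, P, Q, hPQ, rfl⟩
    exact hψ.2 P Q hPQ

end Pool.Agent.SIG
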