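import Pool.Agent.SIG.HOM

namespace Pool.Agent.SIG

variable {A B : Type*} [Finite A] [Countable B] {e : A} {T : A → A → A → Prop}
  {d : B → B → A} {lev : B → ℕ} {U : A → A → Prop} {M : B → B → B → B}
  {Φ : Set ((Fin 3 → B) → B)} {t : Fin 3 → A} {i j : ℕ}

theorem lam_fix (S : Sys e T d lev) (hΦ : Fam d lev U M Φ) (l : A)
    (hl : l ∈ Lam d lev Φ t i j) (P Q : Fin 3 → B) (hP : PT d lev t i j P Q) :
    ∃ ψ ∈ Φ, d (ψ P) (ψ Q) = l := by
  obtain ⟨ψ0, h0, P0, Q0, hPQ, hl0⟩ := hl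
  have key : ∀ c, ∃ γ : B ≃ B, AutL d lev γ ∧ γ (P c) = P0 c ∧ γ (Q c) = Q0 c := by
    intro c
    obtain ⟨h1, h2, h3⟩ := hP c
    obtain ⟨g1, g2, g3⟩ := hPQ c
    obtain ⟨γ, hγ, hγ'⟩ := homog S (fun k : Fin 2 => if k = 0 then P c else Q c)
      (fun k : Fin 2 => if k = 0 then P0 c else Q0 c) (by
        intro a b
        fin_cases a <;> fin_cases b <;>
          simp [S.dself, h1, g1, S.dsymm (Q c) (P c), S.dsymm (Q0 c) (P0 c)]) (by
        intro a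
        fin_cases a <;> simp [h2, h3, g2, g3])
    exact ⟨γ, hγ, by simpa using hγ' 0, by simpa using hγ' 1⟩
  choose γ hγ hγP hγQ using key
  refine ⟨_, hΦ.pre ψ0 h0 γ hγ, ?_⟩
  have e1 : act γ P = P0 := funext hγP
  have e2 : act γ Q = Q0 := funext hγQ
  show d (ψ0 (act γ P)) (ψ0 (act γ Q)) = l
  rw [e1, e2, hl0]

theorem lam_sub (hΦ : Fam d lev U M Φ) (l : A)
    (hl : l ∈ Lam d lev Φ t i j) : ∃ c, l = t c := by
  obtain ⟨ψ0, h0, P0, Q0, hPQ, hl0⟩ := hl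
  obtain ⟨c, hc⟩ := hΦ.pol ψ0 h0 P0 Q0
  exact ⟨c, by rw [← hl0, hc, (hPQ c).1]⟩

omit [Finite A] [Countable B] in
theorem pt_exists (S : Sys e T d lev) (t : Fin 3 → A) (ht : ∀ c, t c ≠ e) (i j : ℕ) :
    ∃ P Q : Fin 3 → B, PT d lev t i j P Q := by
  obtain ⟨x, hx, -⟩ := S.ep ∅ (fun _ => e) i (by simp) (by simp)
  have key : ∀ c, ∃ y, lev y = j ∧ d x y = t c := fun c => exists_label_at S x (t c) (ht c) j
  choose y hy hy' using key
  exact ⟨fun _ => x, y, fun c => ⟨hy' c, hx, hy c⟩⟩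

theorem lam_ne (S : Sys e T d lev) (hΦ : Fam d lev U M Φ) (ht : ∀ c, t c ≠ e) :
    (Lam d lev Φ t i j).Nonempty := by
  obtain ⟨ψ, hψ⟩ := hΦ.ne
  obtain ⟨P, Q, hPQ⟩ := pt_exists S t ht i j
  exact ⟨_, ψ, hψ, P, Q, hPQ, rfl⟩

theorem mcl_singleton (S : Sys e T d lev) (hΦ : Fam d lev U M Φ)
    (hMU : ∀ a b, U a b → MajOn d a b M)
    (ht : ∀ c c', c ≠ c' → U (t c) (t c')) (l : A) (hl : l ∈ Lam d lev Φ t i j) :
    MCl d M (Lam d lev Φ t i j) {l} := by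
  refine ⟨by simpa using hl, ⟨l, rfl⟩, ?_⟩
  intro P Q hPQ ⟨c, c', hcc, hc, hc'⟩
  rw [Set.mem_singleton_iff] at hc hc' ⊢
  obtain ⟨c0, hc0⟩ := lam_sub hΦ l hl
  have key : ∃ b, MajOn d l b M ∧ ∀ k, d (P k) (Q k) = l ∨ d (P k) (Q k) = b := by
    by_cases hall : ∀ k, d (P k) (Q k) = l
    · obtain ⟨c2, hc2⟩ : ∃ c2 : Fin 3, c0 ≠ c2 := by
        fin_cases c0
        · exact ⟨1, by decide⟩
        · exact ⟨0, by decide⟩
        · exact ⟨0, by decide⟩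
      refine ⟨t c2, ?_, fun k => Or.inl (hall k)⟩
      rw [hc0]
      exact hMU _ _ (ht c0 c2 hc2)
    · push Not at hall
      obtain ⟨k, hk⟩ := hall
      obtain ⟨c1, hc1⟩ := lam_sub hΦ _ (hPQ k)
      refine ⟨t c1, ?_, ?_⟩
      · rw [hc0]
        apply hMU _ _ (ht c0 c1 ?_)
        rintro rfl
        exact hk (hc1.trans hc0.symm)
      · intro k'
        by_cases hkk : k' = k
        · right
          rw [hkk, hc1]
        · left
          have h3 : k' = c ∨ k' = c' := by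
            have hck : c ≠ k := by rintro rfl; exact hk hc
            have hck' : c' ≠ k := by rintro rfl; exact hk hc'
            omega
          rcases h3 with rfl | rfl
          · exact hc
          · exact hc'
  obtain ⟨b, hb, hlab⟩ := key
  obtain ⟨m1, m2, m3⟩ := hb (P 0) (Q 0) (P 1) (Q 1) (P 2) (Q 2) (hlab 0) (hlab 1) (hlab 2)
  have h3 : (d (P 0) (Q 0) = l ∧ d (P 1) (Q 1) = l) ∨ (d (P 0) (Q 0) = l ∧ d (P 2) (Q 2) = l) ∨
      (d (P 1) (Q 1) = l ∧ d (P 2) (Q 2) = l) := by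
    fin_cases c <;> fin_cases c' <;> simp at hcc hc hc' <;> simp [hc, hc']
  rcases h3 with ⟨h, h'⟩ | ⟨h, h'⟩ | ⟨h, h'⟩
  · rw [m1 (h.trans h'.symm), h]
  · rw [m2 (h.trans h'.symm), h]
  · rw [m3 (h.trans h'.symm), h]

end Pool.Agent.SIG
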