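import Pool.Agent.SIG.REA

namespace Pool.Agent.SIG

theorem lemma_G {A B : Type*} {e : A} {T : A → A → A → Prop} {d : B → B → A}
    (S : USys e T d) (g b : A) (hg : g ≠ e) (hb : b ≠ e) (hgb : g ≠ b) :
    ∃ c, c ≠ e ∧ c ≠ b ∧ T g b c := by
  by_contra hcon
  push Not at hcon
  -- all labels `c` with `T g b c` are equal to `b`
  have hgE : ∀ c, T g b c → c = b := by
    intro c hc
    by_contra hcb
    by_cases hce : c = e
    · rw [hce] at hc
      exact hgb ((S.aae_iff g b).1 hc)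
    · exact hcon c hce hcb hc
  have key := S.prim {x | x ≠ e ∧ x ≠ b ∧ ∀ c, T x b c → c = b} (fun h => h.1 rfl)
    ⟨g, hg, hgb, hgE⟩ (by
      rintro x ⟨hx1, hx2, hx3⟩ y ⟨hy1, hy2, hy3⟩ h hh hT
      refine ⟨hh, ?_, ?_⟩
      · intro hhb
        rw [hhb] at hT
        exact hy2 (hx3 y (S.T23 _ _ _ hT))
      · intro c hc
        obtain ⟨p, q, w, hpq, hqw, hpw⟩ := exists_tri S h b c hc
        obtain ⟨z, -, hz1, hz2⟩ := exists_third S p q x y hx1 hy1 (by rw [hpq]; exact hT) ()
        have h1 : T (d z q) (d q w) (d z w) := S.tri z q w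
        rw [S.dsymm z q, hz2, hqw] at h1
        have h2 : d z w = b := hy3 _ h1
        have h3 : T (d p z) (d z w) (d p w) := S.tri p z w
        rw [hz1, h2, hpw] at h3
        exact hx3 _ h3) b hb
  exact key.2.1 rfl

end Pool.Agent.SIG
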