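import Pool.Agent.SIG.Defs

namespace Pool.Agent.SIG

theorem solves_fintype {A B : Type*} {d : B → B → A} {k l : ℕ} (hs : Solves d k l) {V : Type*}
    [Finite V] (N : V → V → Set A) (H : Finset V → (V → B) → Prop) (hH : Strat d k l N H) :
    ∃ g : V → B, ∀ x y, d (g x) (g y) ∈ N x y := by
  classical
  obtain ⟨n, ⟨e⟩⟩ := Finite.exists_equiv_fin V
  have hst : Strat d k l (fun i j : Fin n => N (e.symm i) (e.symm j))
      (fun S h => H (S.map e.symm.toEmbedding) (fun v => h (e v))) := by
    refine ⟨?_, ?_, ?_, ?_, ?_⟩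
    · obtain ⟨h, hh⟩ := hH.ne
      refine ⟨fun i => h (e.symm i), ?_⟩
      simpa using hh
    · intro S h hS
      have := hH.card _ _ hS
      simpa using this
    · intro S h hS x hx y hy
      have := hH.hom _ _ hS (e.symm x) (Finset.mem_map_of_mem _ hx) (e.symm y)
        (Finset.mem_map_of_mem _ hy)
      simpa using this
    · intro S S' h hS hSS
      exact hH.restr _ _ _ hS (Finset.map_subset_map.2 hSS)
    · intro S W h hS hc hSW hW
      obtain ⟨h', h1, h2⟩ := hH.ext _ (W.map e.symm.toEmbedding) _ hS (by simpa using hc)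
        (Finset.map_subset_map.2 hSW) (by simpa using hW)
      refine ⟨fun i => h' (e.symm i), ?_, ?_⟩
      · intro x hx
        have := h1 (e.symm x) (Finset.mem_map_of_mem _ hx)
        simpa using this
      · simpa using h2
  obtain ⟨g, hg⟩ := hs n _ _ hst
  refine ⟨fun v => g (e v), ?_⟩
  intro x y
  simpa using hg (e x) (e y)

end Pool.Agent.SIG
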