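import Pool.Agent.SIG.TOR
import Pool.Agent.SIG.SOL
import Pool.Agent.SIG.BAS

namespace Pool.Agent.SIG

section tse

/-- the parity of the vertex -/
def tseCC {n : ℕ} (v : ZMod n × ZMod n) : ZMod 2 := if v = 0 then 1 else 0

/-- indicator of the label `b` -/
def tseInd {A B : Type*} [DecidableEq A] (d : B → B → A) (b : A) (q : Bool → B) : ZMod 2 :=
  if d (q false) (q true) = b then 1 else 0

/-- the four pairs around a vertex -/
def tseBP {B : Type*} {n : ℕ} (π : ZMod n × ZMod n → (Bool → B) × (Bool → B))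
    (v : ZMod n × ZMod n) (k : Fin 4) : Bool → B :=
  ![(π v).1, (π (v.1, v.2 - 1)).1, (π v).2, (π (v.1 - 1, v.2)).2] k

/-- the label of the pair is `a` or `b` -/
def tseLab {A B : Type*} (d : B → B → A) (a b : A) (q : Bool → B) : Prop :=
  d (q false) (q true) = a ∨ d (q false) (q true) = b

/-- valid edge pairs with the fault `w` -/
structure TseVal {A B : Type*} [DecidableEq A] {n : ℕ} (d : B → B → A) (a b : A)
    (π : ZMod n × ZMod n → (Bool → B) × (Bool → B)) (w : ZMod n × ZMod n) : Prop where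
  lab1 : ∀ v, tseLab d a b (π v).1
  lab2 : ∀ v, tseLab d a b (π v).2
  par : ∀ v, par (fun v => (tseInd d b (π v).1, tseInd d b (π v).2)) v =
    tseCC v + if v = w then 1 else 0

/-- solution of the gadget at `v` -/
def TseLoc {A B F : Type*} {n : ℕ} (d : B → B → A) (NG : ZMod n × ZMod n → F → F → Set A)
    (β : ZMod n × ZMod n → Fin 4 → Bool → F) (π : ZMod n × ZMod n → (Bool → B) × (Bool → B))
    (v : ZMod n × ZMod n) (g : F → B) : Prop :=
  (∀ p q, d (g p) (g q) ∈ NG v p q) ∧ ∀ k s, g (β v k s) = tseBP π v k s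

/-- states with the fault `w` -/
def TseState {A B F : Type*} [DecidableEq A] {n : ℕ} (d : B → B → A) (a b : A)
    (NG : ZMod n × ZMod n → F → F → Set A) (β : ZMod n × ZMod n → Fin 4 → Bool → F)
    (S : Finset ((ZMod n × ZMod n) × F)) (h : (ZMod n × ZMod n) × F → B)
    (w : ZMod n × ZMod n) : Prop :=
  ∃ (π : ZMod n × ZMod n → (Bool → B) × (Bool → B)) (g : ZMod n × ZMod n → F → B),
    TseVal d a b π w ∧ (∀ v, v ≠ w → TseLoc d NG β π v (g v)) ∧ ∀ X ∈ S, h X = g X.1 X.2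

variable {A B F : Type*} [DecidableEq A] {n : ℕ} {d : B → B → A} {a b : A}
  {NG : ZMod n × ZMod n → F → F → Set A} {β : ZMod n × ZMod n → Fin 4 → Bool → F}

theorem tse_loc (hG : ∀ v, Gadget d a b (tseCC v) (NG v) (β v))
    {π : ZMod n × ZMod n → (Bool → B) × (Bool → B)} {w : ZMod n × ZMod n}
    (hv : TseVal d a b π w) (v : ZMod n × ZMod n) (hvw : v ≠ w) :
    ∃ g : F → B, TseLoc d NG β π v g := by
  have hRC : RC d a b (tseCC v) (fun k => tseBP π v k false) (fun k => tseBP π v k true) := by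
    constructor
    · intro k
      fin_cases k
      · exact hv.lab1 v
      · exact hv.lab1 _
      · exact hv.lab2 v
      · exact hv.lab2 _
    · have h := hv.par v
      rw [if_neg hvw, add_zero] at h
      rw [← h, Fin.sum_univ_four]
      rfl
  obtain ⟨g, h1, h2⟩ := (hG v).g2 _ _ hRC
  refine ⟨g, h1, ?_⟩
  intro k s
  cases s
  · exact (h2 k).1
  · exact (h2 k).2

theorem tse_flip (hla : ∃ x y, d x y = a) (hlb : ∃ x y, d x y = b) (hab : a ≠ b)
    (q : Bool → B) : ∃ q' : Bool → B, tseLab d a b q' ∧ tseInd d b q' = tseInd d b q + 1 := by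
  have h2 : (1 : ZMod 2) + 1 = 0 := by decide
  by_cases h : d (q false) (q true) = b
  · obtain ⟨x, y, hxy⟩ := hla
    refine ⟨fun s => if s then y else x, Or.inl hxy, ?_⟩
    unfold tseInd
    have h3 : d x y ≠ b := by rw [hxy]; exact hab
    simp [h, h3, h2]
  · obtain ⟨x, y, hxy⟩ := hlb
    refine ⟨fun s => if s then y else x, Or.inr hxy, ?_⟩
    unfold tseInd
    simp [h, hxy]

theorem tse_par_h (x : ZMod n × ZMod n → ZMod 2 × ZMod 2) (u v : ZMod n × ZMod n) :
    par (Function.update x u ((x u).1 + 1, (x u).2)) v =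
      par x v + (if v = u then 1 else 0) + (if v = (u.1, u.2 + 1) then 1 else 0) := by
  have h1 : ∀ v, (Function.update x u ((x u).1 + 1, (x u).2) v).1 =
      (x v).1 + if v = u then 1 else 0 := by
    intro v
    by_cases h : v = u
    · subst h; simp
    · simp [h]
  have h2 : ∀ v, (Function.update x u ((x u).1 + 1, (x u).2) v).2 = (x v).2 := by
    intro v
    by_cases h : v = u
    · subst h; simp
    · simp [h]
  have h3 : ((v.1, v.2 - 1) = u) ↔ (v = (u.1, u.2 + 1)) := by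
    constructor
    · intro h; rw [← h]; simp
    · intro h; rw [h]; simp
  unfold par
  rw [h1, h1, h2, h2]
  simp only [h3]
  ring

theorem tse_par_v (x : ZMod n × ZMod n → ZMod 2 × ZMod 2) (u v : ZMod n × ZMod n) :
    par (Function.update x u ((x u).1, (x u).2 + 1)) v =
      par x v + (if v = u then 1 else 0) + (if v = (u.1 + 1, u.2) then 1 else 0) := by
  have h1 : ∀ v, (Function.update x u ((x u).1, (x u).2 + 1) v).2 =
      (x v).2 + if v = u then 1 else 0 := by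
    intro v
    by_cases h : v = u
    · subst h; simp
    · simp [h]
  have h2 : ∀ v, (Function.update x u ((x u).1, (x u).2 + 1) v).1 = (x v).1 := by
    intro v
    by_cases h : v = u
    · subst h; simp
    · simp [h]
  have h3 : ((v.1 - 1, v.2) = u) ↔ (v = (u.1 + 1, u.2)) := by
    constructor
    · intro h; rw [← h]; simp
    · intro h; rw [h]; simp
  unfold par
  rw [h1, h1, h2, h2]
  simp only [h3]
  ring

private theorem tse_char2 (c p q : ZMod 2) : c + p + p + q = c + q ∧ c + p + q + p = c + q := by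
  revert c p q
  decide

/-- change of one pair -/
theorem tse_change (hG : ∀ v, Gadget d a b (tseCC v) (NG v) (β v))
    {S : Finset ((ZMod n × ZMod n) × F)} {h : (ZMod n × ZMod n) × F → B}
    {w w1 : ZMod n × ZMod n} (hw : ∀ X ∈ S, X.1 ≠ w) (hw1 : ∀ X ∈ S, X.1 ≠ w1)
    {π π' : ZMod n × ZMod n → (Bool → B) × (Bool → B)} {g : ZMod n × ZMod n → F → B}
    (hloc : ∀ v, v ≠ w → TseLoc d NG β π v (g v)) (hS : ∀ X ∈ S, h X = g X.1 X.2)
    (hv' : TseVal d a b π' w1)
    (hbp : ∀ v, v ≠ w → v ≠ w1 → ∀ k, tseBP π' v k = tseBP π v k) :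
    TseState d a b NG β S h w1 := by
  classical
  have key : ∀ v, ∃ gv : F → B, ((∃ X ∈ S, X.1 = v) → gv = g v) ∧
      (v ≠ w1 → TseLoc d NG β π' v gv) := by
    intro v
    by_cases hT : ∃ X ∈ S, X.1 = v
    · obtain ⟨X, hX, rfl⟩ := hT
      refine ⟨g X.1, fun _ => rfl, fun h1 => ?_⟩
      obtain ⟨h2, h3⟩ := hloc X.1 (hw X hX)
      refine ⟨h2, fun k s => ?_⟩
      rw [hbp _ (hw X hX) h1]
      exact h3 k s
    · by_cases h1 : v = w1
      · exact ⟨g v, fun _ => rfl, fun h2 => absurd h1 h2⟩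
      · obtain ⟨gv, hgv⟩ := tse_loc hG hv' v h1
        exact ⟨gv, fun h2 => absurd h2 hT, fun _ => hgv⟩
  choose g' hg1 hg2 using key
  refine ⟨π', g', hv', fun v hvw => hg2 v hvw, ?_⟩
  intro X hX
  rw [hg1 X.1 ⟨X, hX, rfl⟩]
  exact hS X hX

theorem tse_stepH (hG : ∀ v, Gadget d a b (tseCC v) (NG v) (β v))
    (hla : ∃ x y, d x y = a) (hlb : ∃ x y, d x y = b) (hab : a ≠ b)
    {S : Finset ((ZMod n × ZMod n) × F)} {h : (ZMod n × ZMod n) × F → B}
    {w w1 : ZMod n × ZMod n} (hw : ∀ X ∈ S, X.1 ≠ w) (hw1 : ∀ X ∈ S, X.1 ≠ w1)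
    (u : ZMod n × ZMod n)
    (hu : (w = u ∧ w1 = (u.1, u.2 + 1)) ∨ (w1 = u ∧ w = (u.1, u.2 + 1)))
    (hst : TseState d a b NG β S h w) : TseState d a b NG β S h w1 := by
  classical
  obtain ⟨π, g, hv, hloc, hS⟩ := hst
  obtain ⟨q, hq1, hq2⟩ := tse_flip hla hlb hab (π u).1
  set π' := Function.update π u (q, (π u).2) with hπ'
  have hu2 : ∀ v, (π' v).2 = (π v).2 := by
    intro v
    rw [hπ']
    by_cases hvu : v = u
    · subst hvu; simp
    · simp [hvu]
  have hu1 : ∀ v, v ≠ u → (π' v).1 = (π v).1 := by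
    intro v hvu
    rw [hπ']
    simp [hvu]
  have huu : (π' u).1 = q := by rw [hπ']; simp
  refine tse_change (π' := π') hG hw hw1 hloc hS ⟨?_, ?_, ?_⟩ ?_
  · intro v
    by_cases hvu : v = u
    · rw [hvu, huu]; exact hq1
    · rw [hu1 v hvu]; exact hv.lab1 v
  · intro v
    rw [hu2]
    exact hv.lab2 v
  · intro v
    have hx : (fun v => (tseInd d b (π' v).1, tseInd d b (π' v).2)) =
        Function.update (fun v => (tseInd d b (π v).1, tseInd d b (π v).2)) u
          (tseInd d b (π u).1 + 1, tseInd d b (π u).2) := by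
      funext v
      by_cases hvu : v = u
      · subst hvu
        rw [Function.update_self, huu, hq2, hu2]
      · rw [Function.update_of_ne hvu, hu1 v hvu, hu2]
    rw [hx, tse_par_h (fun v => (tseInd d b (π v).1, tseInd d b (π v).2)) u v, hv.par]
    rcases hu with ⟨h1, h2⟩ | ⟨h1, h2⟩
    · rw [h1, h2]
      exact (tse_char2 _ _ _).1
    · rw [h1, h2]
      exact (tse_char2 _ _ _).2
  · intro v hvw hvw1
    have hvu : v ≠ u := by
      rcases hu with ⟨h1, h2⟩ | ⟨h1, h2⟩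
      · rwa [← h1]
      · rwa [← h1]
    have hvu2 : (v.1, v.2 - 1) ≠ u := by
      intro h3
      have h4 : v = (u.1, u.2 + 1) := by rw [← h3]; simp
      rcases hu with ⟨h1, h2⟩ | ⟨h1, h2⟩
      · exact hvw1 (by rw [h4, h2])
      · exact hvw (by rw [h4, h2])
    intro k
    unfold tseBP
    rw [hu1 v hvu, hu1 _ hvu2, hu2, hu2]

theorem tse_stepV (hG : ∀ v, Gadget d a b (tseCC v) (NG v) (β v))
    (hla : ∃ x y, d x y = a) (hlb : ∃ x y, d x y = b) (hab : a ≠ b)
    {S : Finset ((ZMod n × ZMod n) × F)} {h : (ZMod n × ZMod n) × F → B}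
    {w w1 : ZMod n × ZMod n} (hw : ∀ X ∈ S, X.1 ≠ w) (hw1 : ∀ X ∈ S, X.1 ≠ w1)
    (u : ZMod n × ZMod n)
    (hu : (w = u ∧ w1 = (u.1 + 1, u.2)) ∨ (w1 = u ∧ w = (u.1 + 1, u.2)))
    (hst : TseState d a b NG β S h w) : TseState d a b NG β S h w1 := by
  classical
  obtain ⟨π, g, hv, hloc, hS⟩ := hst
  obtain ⟨q, hq1, hq2⟩ := tse_flip hla hlb hab (π u).2
  set π' := Function.update π u ((π u).1, q) with hπ'
  have hu2 : ∀ v, (π' v).1 = (π v).1 := by
    intro v
    rw [hπ']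
    by_cases hvu : v = u
    · subst hvu; simp
    · simp [hvu]
  have hu1 : ∀ v, v ≠ u → (π' v).2 = (π v).2 := by
    intro v hvu
    rw [hπ']
    simp [hvu]
  have huu : (π' u).2 = q := by rw [hπ']; simp
  refine tse_change (π' := π') hG hw hw1 hloc hS ⟨?_, ?_, ?_⟩ ?_
  · intro v
    rw [hu2]
    exact hv.lab1 v
  · intro v
    by_cases hvu : v = u
    · rw [hvu, huu]; exact hq1
    · rw [hu1 v hvu]; exact hv.lab2 v
  · intro v
    have hx : (fun v => (tseInd d b (π' v).1, tseInd d b (π' v).2)) =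
        Function.update (fun v => (tseInd d b (π v).1, tseInd d b (π v).2)) u
          (tseInd d b (π u).1, tseInd d b (π u).2 + 1) := by
      funext v
      by_cases hvu : v = u
      · subst hvu
        rw [Function.update_self, huu, hq2, hu2]
      · rw [Function.update_of_ne hvu, hu1 v hvu, hu2]
    rw [hx, tse_par_v (fun v => (tseInd d b (π v).1, tseInd d b (π v).2)) u v, hv.par]
    rcases hu with ⟨h1, h2⟩ | ⟨h1, h2⟩
    · rw [h1, h2]
      exact (tse_char2 _ _ _).1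
    · rw [h1, h2]
      exact (tse_char2 _ _ _).2
  · intro v hvw hvw1
    have hvu : v ≠ u := by
      rcases hu with ⟨h1, h2⟩ | ⟨h1, h2⟩
      · rwa [← h1]
      · rwa [← h1]
    have hvu2 : (v.1 - 1, v.2) ≠ u := by
      intro h3
      have h4 : v = (u.1 + 1, u.2) := by rw [← h3]; simp
      rcases hu with ⟨h1, h2⟩ | ⟨h1, h2⟩
      · exact hvw1 (by rw [h4, h2])
      · exact hvw (by rw [h4, h2])
    intro k
    unfold tseBP
    rw [hu1 v hvu, hu1 _ hvu2, hu2, hu2]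

/-- the touched vertices -/
theorem tse_not_mem {S : Finset ((ZMod n × ZMod n) × F)} {w : ZMod n × ZMod n}
    {T : Set (ZMod n × ZMod n)} (hT : ∀ X ∈ S, X.1 ∈ T) (hw : w ∈ CS T) :
    ∀ X ∈ S, X.1 ≠ w := by
  intro X hX h
  rcases hw with h1 | h1
  · exact h1 X.1 (hT X hX) (by rw [h])
  · exact h1 X.1 (hT X hX) (by rw [h])

theorem tse_path (hG : ∀ v, Gadget d a b (tseCC v) (NG v) (β v))
    (hla : ∃ x y, d x y = a) (hlb : ∃ x y, d x y = b) (hab : a ≠ b)
    {S : Finset ((ZMod n × ZMod n) × F)} {h : (ZMod n × ZMod n) × F → B}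
    {T : Set (ZMod n × ZMod n)} (hT : ∀ X ∈ S, X.1 ∈ T)
    {w w' : ZMod n × ZMod n} (hp : Relation.ReflTransGen (TAdj (CS T)) w w')
    (hst : TseState d a b NG β S h w) : TseState d a b NG β S h w' := by
  induction hp with
  | refl => exact hst
  | tail _ h2 ih =>
    obtain ⟨h3, h4, h5⟩ := h2
    have hw := tse_not_mem hT h3
    have hw1 := tse_not_mem hT h4
    rcases h5 with h5 | h5 | h5 | h5
    · exact tse_stepH hG hla hlb hab hw hw1 _ (Or.inl ⟨rfl, h5⟩) ih
    · exact tse_stepV hG hla hlb hab hw hw1 _ (Or.inl ⟨rfl, h5⟩) ih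
    · exact tse_stepH hG hla hlb hab hw hw1 _ (Or.inr ⟨rfl, h5⟩) ih
    · exact tse_stepV hG hla hlb hab hw hw1 _ (Or.inr ⟨rfl, h5⟩) ih

theorem tse_init (hG : ∀ v, Gadget d a b (tseCC v) (NG v) (β v))
    (hla : ∃ x y, d x y = a) (hab : a ≠ b) :
    ∃ h, TseState d a b NG β ∅ h 0 := by
  classical
  obtain ⟨x, y, hxy⟩ := hla
  set q : Bool → B := fun s => if s then y else x with hq
  have hq1 : tseLab d a b q := Or.inl hxy
  have hq2 : tseInd d b q = 0 := by
    unfold tseInd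
    have h3 : d x y ≠ b := by rw [hxy]; exact hab
    simp [hq, h3]
  have hv : TseVal d a b (fun _ : ZMod n × ZMod n => (q, q)) 0 := by
    refine ⟨fun _ => hq1, fun _ => hq1, ?_⟩
    intro v
    have h2 : (1 : ZMod 2) + 1 = 0 := by decide
    unfold par tseCC
    simp only [hq2]
    by_cases hv0 : v = 0
    · simp [hv0, h2]
    · simp [hv0]
  have key : ∀ v : ZMod n × ZMod n, ∃ gv : F → B, v ≠ 0 →
      TseLoc d NG β (fun _ : ZMod n × ZMod n => (q, q)) v gv := by
    intro v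
    by_cases hv0 : v = 0
    · exact ⟨fun _ => x, fun h => absurd hv0 h⟩
    · obtain ⟨gv, hgv⟩ := tse_loc hG hv v hv0
      exact ⟨gv, fun _ => hgv⟩
  choose g hg using key
  exact ⟨fun X => g X.1 X.2, _, g, hv, hg, fun X _ => rfl⟩

/-- the instance -/
def tseN (e : A) (NG : ZMod n × ZMod n → F → F → Set A)
    (β : ZMod n × ZMod n → Fin 4 → Bool → F) (X Y : (ZMod n × ZMod n) × F) : Set A :=
  {α | (X.1 = Y.1 → α ∈ NG X.1 X.2 Y.2) ∧
    (∀ s, X.2 = β X.1 0 s → Y = ((X.1.1, X.1.2 + 1), β (X.1.1, X.1.2 + 1) 1 s) → α = e) ∧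
    (∀ s, X.2 = β X.1 2 s → Y = ((X.1.1 + 1, X.1.2), β (X.1.1 + 1, X.1.2) 3 s) → α = e)}

theorem tse_nosol [NeZero n] (hG : ∀ v, Gadget d a b (tseCC v) (NG v) (β v)) {e : A}
    (deq : ∀ x y, d x y = e ↔ x = y) (g : (ZMod n × ZMod n) × F → B)
    (hg : ∀ X Y, d (g X) (g Y) ∈ tseN e NG β X Y) : False := by
  classical
  set I : ZMod n × ZMod n → Fin 4 → ZMod 2 := fun v k =>
    if d (g (v, β v k false)) (g (v, β v k true)) = b then 1 else 0 with hI
  have h1 : ∀ v, ∑ k, I v k = tseCC v := by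
    intro v
    exact ((hG v).g1 (fun p => g (v, p)) (fun x y => (hg (v, x) (v, y)).1 rfl)).2
  have h2 : ∀ v, I v 0 = I (v.1, v.2 + 1) 1 := by
    intro v
    have h3 : ∀ s, g (v, β v 0 s) = g ((v.1, v.2 + 1), β (v.1, v.2 + 1) 1 s) := fun s =>
      (deq _ _).1 ((hg (v, β v 0 s) ((v.1, v.2 + 1), β (v.1, v.2 + 1) 1 s)).2.1 s rfl rfl)
    simp only [hI, h3]
  have h3 : ∀ v, I v 2 = I (v.1 + 1, v.2) 3 := by
    intro v
    have h4 : ∀ s, g (v, β v 2 s) = g ((v.1 + 1, v.2), β (v.1 + 1, v.2) 3 s) := fun s =>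
      (deq _ _).1 ((hg (v, β v 2 s) ((v.1 + 1, v.2), β (v.1 + 1, v.2) 3 s)).2.2 s rfl rfl)
    simp only [hI, h4]
  have h4 : ∀ v, par (fun v => (I v 0, I v 2)) v = tseCC v := by
    intro v
    rw [← h1 v, Fin.sum_univ_four]
    unfold par
    have h5 : I (v.1, v.2 - 1) 0 = I v 1 := by
      rw [h2]; simp
    have h6 : I (v.1 - 1, v.2) 2 = I v 3 := by
      rw [h3]; simp
    simp only [h5, h6]
  have h5 := par_sum (fun v : ZMod n × ZMod n => (I v 0, I v 2))
  simp only [h4] at h5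
  unfold tseCC at h5
  rw [Finset.sum_ite_eq' Finset.univ (0 : ZMod n × ZMod n) (fun _ => (1 : ZMod 2))] at h5
  simp at h5

theorem tse_strat [NeZero n] (hG : ∀ v, Gadget d a b (tseCC v) (NG v) (β v))
    (hla : ∃ x y, d x y = a) (hlb : ∃ x y, d x y = b) (hab : a ≠ b) {e : A}
    (deq : ∀ x y, d x y = e ↔ x = y) {k l : ℕ} (hkl : k ≤ l) (hln : l < n) :
    Strat d k l (tseN e NG β) (fun S h => S.card ≤ l ∧
      ∃ w ∈ CS (Prod.fst '' (S : Set ((ZMod n × ZMod n) × F))),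
        TseState d a b NG β S h w) := by
  classical
  have hanti : ∀ T T' : Set (ZMod n × ZMod n), T ⊆ T' → CS T' ⊆ CS T := by
    intro T T' hTT w hw
    rcases hw with h | h
    · exact Or.inl fun s hs => h s (hTT hs)
    · exact Or.inr fun s hs => h s (hTT hs)
  refine ⟨?_, ?_, ?_, ?_, ?_⟩
  · obtain ⟨h, hh⟩ := tse_init (NG := NG) (β := β) hG hla hab
    refine ⟨h, by simp, 0, ?_, hh⟩
    left
    intro s hs
    simp at hs
  · intro S h hS
    exact hS.1
  · rintro S h ⟨_, w, hw, π, g, hv, hloc, hS⟩ X hX Y hY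
    have hnm : ∀ X ∈ S, X.1 ≠ w := tse_not_mem (T := Prod.fst '' (S : Set _))
      (fun X hX => ⟨X, hX, rfl⟩) hw
    rw [hS X hX, hS Y hY]
    obtain ⟨hX1, hX2⟩ := hloc X.1 (hnm X hX)
    obtain ⟨hY1, hY2⟩ := hloc Y.1 (hnm Y hY)
    refine ⟨?_, ?_, ?_⟩
    · intro hXY
      rw [← hXY]
      exact hX1 _ _
    · intro s h1 h2
      rw [deq]
      have h3 : Y.1 = (X.1.1, X.1.2 + 1) := by rw [h2]
      have h4 : Y.2 = β Y.1 1 s := by rw [h3, h2]
      rw [h1, h4, hX2, hY2]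
      unfold tseBP
      rw [h3]
      simp
    · intro s h1 h2
      rw [deq]
      have h3 : Y.1 = (X.1.1 + 1, X.1.2) := by rw [h2]
      have h4 : Y.2 = β Y.1 3 s := by rw [h3, h2]
      rw [h1, h4, hX2, hY2]
      unfold tseBP
      rw [h3]
      simp
  · rintro S S' h ⟨hc, w, hw, π, g, hv, hloc, hS⟩ hSS
    refine ⟨(Finset.card_le_card hSS).trans hc, w, hanti _ _ ?_ hw, π, g, hv, hloc,
      fun X hX => hS X (hSS hX)⟩
    exact Set.image_mono (by exact_mod_cast hSS)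
  · rintro S W h ⟨hc, w, hw, hst⟩ hk hSW hWl
    have hcS : (S.image Prod.fst).card < n :=
      (Finset.card_image_le.trans hc).trans_lt hln
    have hcW : (W.image Prod.fst).card < n :=
      (Finset.card_image_le.trans hWl).trans_lt hln
    obtain ⟨w', hw'⟩ := torus_ne (W.image Prod.fst) hcW
    rw [Finset.coe_image] at hw'
    have hw'S : w' ∈ CS (Prod.fst '' (S : Set ((ZMod n × ZMod n) × F))) :=
      hanti _ _ (Set.image_mono (by exact_mod_cast hSW)) hw'
    have hpath := torus_conn (S.image Prod.fst) hcS w w' (by rwa [Finset.coe_image])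
      (by rwa [Finset.coe_image])
    rw [Finset.coe_image] at hpath
    obtain ⟨π, g, hv, hloc, hS⟩ := tse_path hG hla hlb hab
      (T := Prod.fst '' (S : Set ((ZMod n × ZMod n) × F)))
      (fun X hX => ⟨X, hX, rfl⟩) hpath hst
    exact ⟨fun X => g X.1 X.2, fun X hX => (hS X hX).symm, hWl, w', hw', π, g, hv, hloc,
      fun X _ => rfl⟩

theorem tse_inl [Nonempty B] {F₀ F₁ : Type*} {c : ZMod 2}
    {N₀ : F₀ → F₀ → Set A} {β₀ : Fin 4 → Bool → F₀} (h₀ : Gadget d a b c N₀ β₀) :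
    Gadget d a b c (fun p q : F₀ ⊕ F₁ => {α | ∀ p' q', p = Sum.inl p' → q = Sum.inl q' →
      α ∈ N₀ p' q'}) (fun k s => Sum.inl (β₀ k s)) := by
  classical
  refine ⟨?_, ?_⟩
  · intro g hg
    exact h₀.g1 (fun p => g (Sum.inl p)) (fun x y => hg _ _ x y rfl rfl)
  · intro x y hxy
    obtain ⟨g, h1, h2⟩ := h₀.g2 x y hxy
    refine ⟨Sum.elim g (fun _ => Classical.arbitrary B), ?_, ?_⟩
    · intro p q p' q' hp hq
      subst hp hq
      exact h1 _ _
    · intro k
      exact h2 k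

theorem tse_inr [Nonempty B] {F₀ F₁ : Type*} {c : ZMod 2}
    {N₁ : F₁ → F₁ → Set A} {β₁ : Fin 4 → Bool → F₁} (h₁ : Gadget d a b c N₁ β₁) :
    Gadget d a b c (fun p q : F₀ ⊕ F₁ => {α | ∀ p' q', p = Sum.inr p' → q = Sum.inr q' →
      α ∈ N₁ p' q'}) (fun k s => Sum.inr (β₁ k s)) := by
  classical
  refine ⟨?_, ?_⟩
  · intro g hg
    exact h₁.g1 (fun p => g (Sum.inr p)) (fun x y => hg _ _ x y rfl rfl)
  · intro x y hxy
    obtain ⟨g, h1, h2⟩ := h₁.g2 x y hxy
    refine ⟨Sum.elim (fun _ => Classical.arbitrary B) g, ?_, ?_⟩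
    · intro p q p' q' hp hq
      subst hp hq
      exact h1 _ _
    · intro k
      exact h2 k

end tse

theorem no_gadgets {A B : Type*} [Finite A] [DecidableEq A] [Nonempty B] {e : A}
    {d : B → B → A}
    (deq : ∀ x y, d x y = e ↔ x = y) (a b : A) (hab : a ≠ b)
    (hla : ∃ x y, d x y = a) (hlb : ∃ x y, d x y = b) {F₀ F₁ : Type} [Finite F₀] [Finite F₁]
    (N₀ : F₀ → F₀ → Set A) (β₀ : Fin 4 → Bool → F₀) (h₀ : Gadget d a b 0 N₀ β₀)
    (N₁ : F₁ → F₁ → Set A) (β₁ : Fin 4 → Bool → F₁) (h₁ : Gadget d a b 1 N₁ β₁)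
    (k l : ℕ) (hkl : k ≤ l) (hs : Solves d k l) : False := by
  classical
  have hG : ∀ v : ZMod (l + 2) × ZMod (l + 2), ∃ (NG : F₀ ⊕ F₁ → F₀ ⊕ F₁ → Set A)
      (β : Fin 4 → Bool → F₀ ⊕ F₁), Gadget d a b (tseCC v) NG β := by
    intro v
    by_cases hv : v = 0
    · unfold tseCC
      rw [if_pos hv]
      exact ⟨_, _, tse_inr h₁⟩
    · unfold tseCC
      rw [if_neg hv]
      exact ⟨_, _, tse_inl h₀⟩
  choose NG β hG using hG
  have : NeZero (l + 2) := ⟨by omega⟩
  obtain ⟨g, hg⟩ := solves_fintype hs _ _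
    (tse_strat hG hla hlb hab deq hkl (by omega : l < l + 2))
  exact tse_nosol hG deq g hg

end Pool.Agent.SIG
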