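import Pool.Agent.SIG.GAD
import Pool.Agent.SIG.TSE

namespace Pool.Agent.SIG

theorem lin {A B : Type*} [Finite A] [DecidableEq A] [Countable B] {e : A}
    {T : A → A → A → Prop} {d : B → B → A} (S : USys e T d) (k l : ℕ) (hkl : k ≤ l)
    (hs : Solves d k l) (a b : A) (ha : a ≠ e) (hb : b ≠ e) (hab : a ≠ b) :
    ∃ (m : ℕ) (φ : (Fin m → B) → B), Pol d φ ∧ Viol d a b φ := by
  by_contra hcon
  push Not at hcon
  have hg := exists_gadget S a b ha hb hcon
  obtain ⟨n₀, N₀, β₀, h₀⟩ := hg 0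
  obtain ⟨n₁, N₁, β₁, h₁⟩ := hg 1
  have : Nonempty B := ⟨(exists_label S a).choose⟩
  exact no_gadgets S.deq a b hab (exists_label S a) (exists_label S b) N₀ β₀ h₀ N₁ β₁ h₁
    k l hkl hs

end Pool.Agent.SIG
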