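import Pool.Agent.SIG.LG

namespace Pool.Agent.SIG

theorem lemma_M {A B : Type*} {e : A} {T : A → A → A → Prop} {d : B → B → A}
    (S : USys e T d) (h2 : ∃ a b : A, a ≠ e ∧ b ≠ e ∧ a ≠ b) (r : B → B → Prop)
    (hr : Equivalence r) (hm : ∀ x y z, r x y → ¬ r x z → d z x = d z y) :
    (∀ x y, r x y → x = y) ∨ ∀ x y, r x y := by
  classical
  by_contra hcon
  push Not at hcon
  obtain ⟨⟨x₀, y₀, hxy, hne⟩, x₁, y₁, hn1⟩ := hcon
  have hz : ∃ z₀, ¬ r x₀ z₀ := by
    by_contra hall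
    push Not at hall
    exact hn1 (hr.trans (hr.symm (hall x₁)) (hall y₁))
  obtain ⟨z₀, hz₀⟩ := hz
  have hD : ∀ {x y : B}, x ≠ y → d x y ≠ e := fun h h' => h ((S.deq _ _).1 h')
  -- (i)
  have hi : ∀ x y w, r x y → d w x ≠ d w y → r x w := by
    intro x y w hxy' hne'
    by_contra hw
    exact hne' (hm x y w hxy' hw)
  -- (ii)
  have hii : ∀ u, u ≠ e → ∃ x y, r x₀ x ∧ r x₀ y ∧ d x y = u := by
    intro u hu
    by_cases hg : d x₀ y₀ = u
    · exact ⟨x₀, y₀, hr.refl _, hxy, hg⟩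
    · obtain ⟨v, hv, hvu, hT⟩ := lemma_G S (d x₀ y₀) u (hD hne) hu hg
      obtain ⟨w, -, hw1, hw2⟩ := exists_third S x₀ y₀ u v hu hv (Sys.T231 S hT) ()
      refine ⟨x₀, w, hr.refl _, hi x₀ y₀ w hxy ?_, hw1⟩
      rw [S.dsymm w x₀, S.dsymm w y₀, hw1, hw2]
      exact hvu.symm
  set c : A := d z₀ x₀ with hc
  have hcx : ∀ x, r x₀ x → d z₀ x = c := fun x hx => (hm x₀ x z₀ hx hz₀).symm
  have hce : c ≠ e := hD fun h => hz₀ (by rw [h]; exact hr.refl _)
  -- (iii)
  have hiii : ∀ b₁ b₂ b₃, b₃ ≠ c → T c b₁ b₃ → T c b₂ b₃ → b₁ = b₂ := by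
    intro b₁ b₂ b₃ hb3 hT1 hT2
    by_contra hb
    have hb3e : b₃ ≠ e := by
      rintro rfl
      exact hb (((Sys.aae_iff S _ _).1 hT1).symm.trans ((Sys.aae_iff S _ _).1 hT2))
    have hTe : ∀ b, T c b b₃ → b ≠ e := by
      rintro b hT rfl
      exact hb3 ((S.Te _ _).1 (S.T12 _ _ _ hT)).symm
    have hb1e := hTe _ hT1
    have hb2e := hTe _ hT2
    obtain ⟨z, w, hzw⟩ := exists_label S b₃
    obtain ⟨x, -, hx1, hx2⟩ := exists_third S z w c b₁ hce hb1e (by rw [hzw]; exact hT1) ()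
    obtain ⟨y, -, hy1, hy2⟩ := exists_third S z w c b₂ hce hb2e (by rw [hzw]; exact hT2) ()
    have hxy' : x ≠ y := by
      rintro rfl
      exact hb (hx2.symm.trans hy2)
    obtain ⟨x', y', hx', hy', hg⟩ := hii (d x y) (hD hxy')
    have hne' : x' ≠ y' := by
      rintro rfl
      rw [Sys.dself S] at hg
      exact hD hxy' hg.symm
    have hx'z : x' ≠ z₀ := by
      rintro rfl
      exact hz₀ hx'
    have hy'z : y' ≠ z₀ := by
      rintro rfl
      exact hz₀ hy'
    have hTg : T b₁ b₂ (d x' y') := by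
      rw [hg]
      have := S.tri x w y
      rwa [S.dsymm x w, hx2, hy2] at this
    have hT13 : T b₁ b₃ c := Sys.T231 S hT1
    have hT23' : T b₂ b₃ c := Sys.T231 S hT2
    have hdx : d x' z₀ = c := by rw [S.dsymm]; exact hcx x' hx'
    have hdy : d y' z₀ = c := by rw [S.dsymm]; exact hcx y' hy'
    set t : B → A := fun p => if p = x' then b₁ else if p = y' then b₂ else b₃ with ht
    have htx : t x' = b₁ := by simp [ht]
    have hty : t y' = b₂ := by simp [ht, hne'.symm]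
    have htz : t z₀ = b₃ := by simp [ht, hx'z.symm, hy'z.symm]
    obtain ⟨w', -, hw'⟩ := S.ep {x', y', z₀} t () (by
      intro p hp
      simp only [Finset.mem_insert, Finset.mem_singleton] at hp
      rcases hp with rfl | rfl | rfl
      · rw [htx]; exact hb1e
      · rw [hty]; exact hb2e
      · rw [htz]; exact hb3e) (by
      intro p hp q hq
      simp only [Finset.mem_insert, Finset.mem_singleton] at hp hq
      rcases hp with rfl | rfl | rfl <;> rcases hq with rfl | rfl | rfl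
      · rw [Sys.dself S]; exact Sys.aae S _
      · rw [htx, hty]; exact hTg
      · rw [htx, htz, hdx]; exact hT13
      · rw [htx, hty, S.dsymm]; exact S.T12 _ _ _ hTg
      · rw [Sys.dself S]; exact Sys.aae S _
      · rw [hty, htz, hdy]; exact hT23'
      · rw [htx, htz, S.dsymm, hdx]; exact S.T12 _ _ _ hT13
      · rw [hty, htz, S.dsymm, hdy]; exact S.T12 _ _ _ hT23'
      · rw [Sys.dself S]; exact Sys.aae S _)
    have h1 : d w' x' = b₁ := (hw' x' (by simp)).trans htx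
    have h2' : d w' y' = b₂ := (hw' y' (by simp)).trans hty
    have h3 : d w' z₀ = b₃ := (hw' z₀ (by simp)).trans htz
    have h4 : r x' w' := hi x' y' w' (hr.trans (hr.symm hx') hy') (by rw [h1, h2']; exact hb)
    have h5 := hcx w' (hr.trans hx' h4)
    rw [S.dsymm, h3] at h5
    exact hb3 h5
  -- (iv)
  obtain ⟨b, hbe, hbc⟩ : ∃ b, b ≠ e ∧ b ≠ c := by
    obtain ⟨a, b, ha, hb, hab⟩ := h2
    by_cases hac : a = c
    · exact ⟨b, hb, fun h => hab (hac.trans h.symm)⟩
    · exact ⟨a, ha, hac⟩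
  obtain ⟨b', hb'e, hb'b, hT1⟩ := lemma_G S c b hce hbe hbc.symm
  obtain ⟨b'', hb''e, hb''c, hT2⟩ := lemma_G S b c hbe hce hbc
  have hT1' : T c b' b := S.T23 _ _ _ hT1
  have hT2' : T c b'' b := Sys.T231 S hT2
  have hbb : b'' = b' := hiii _ _ _ hbc hT2' hT1'
  have hb'c : b' ≠ c := hbb ▸ hb''c
  obtain ⟨w, z, hwz⟩ := exists_label S b
  have hpath := conn_label S c hce z w
  have hinv : ∀ y, Relation.ReflTransGen (fun u v => d u v = c) z y → d w y = b ∨ d w y = b' := by
    intro y hy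
    induction hy with
    | refl => exact Or.inl hwz
    | @tail p q _ hpq ih =>
      have h1 : T (d w p) c (d w q) := by
        have := S.tri w p q
        rwa [hpq] at this
      rcases ih with h | h
      · rw [h] at h1
        exact Or.inr (hiii _ _ _ hbc (Sys.T231 S h1) hT1')
      · rw [h] at h1
        exact Or.inl (hiii _ _ _ hb'c (Sys.T231 S h1) hT1)
  rcases hinv w hpath with h | h
  · rw [Sys.dself S] at h
    exact hbe h.symm
  · rw [Sys.dself S] at h
    exact hb'e h.symm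

end Pool.Agent.SIG
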