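import Pool.Agent.SIG.ACTS

namespace Pool.Agent.SIG

/-- The Boolean majority. -/
def MAJS_maj (p q s : Bool) : Bool := (p && q) || (p && s) || (q && s)

/-- The self dual idempotent operation with given values at the unit vectors. -/
def MAJS_gg (p q r : Bool) : Bool → Bool → Bool → Bool
  | false, false, false => false
  | true, false, false => p
  | false, true, false => q
  | false, false, true => r
  | false, true, true => !p
  | true, false, true => !q
  | true, true, false => !r
  | true, true, true => true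

/-- Terms in two ternary operations. -/
inductive MAJS_Tm : Type
  | X : MAJS_Tm
  | Y : MAJS_Tm
  | Z : MAJS_Tm
  | M : MAJS_Tm → MAJS_Tm → MAJS_Tm → MAJS_Tm
  | N : MAJS_Tm → MAJS_Tm → MAJS_Tm → MAJS_Tm

/-- Evaluation of terms. -/
def MAJS_ev {D : Type*} (m n : D → D → D → D) (x y z : D) : MAJS_Tm → D
  | MAJS_Tm.X => x
  | MAJS_Tm.Y => y
  | MAJS_Tm.Z => z
  | MAJS_Tm.M s t u => m (MAJS_ev m n x y z s) (MAJS_ev m n x y z t) (MAJS_ev m n x y z u)
  | MAJS_Tm.N s t u => n (MAJS_ev m n x y z s) (MAJS_ev m n x y z t) (MAJS_ev m n x y z u)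

/-- Substitution. -/
def MAJS_sb (x y z : MAJS_Tm) : MAJS_Tm → MAJS_Tm
  | MAJS_Tm.X => x
  | MAJS_Tm.Y => y
  | MAJS_Tm.Z => z
  | MAJS_Tm.M s t u => MAJS_Tm.M (MAJS_sb x y z s) (MAJS_sb x y z t) (MAJS_sb x y z u)
  | MAJS_Tm.N s t u => MAJS_Tm.N (MAJS_sb x y z s) (MAJS_sb x y z t) (MAJS_sb x y z u)

open MAJS_Tm in
/-- The combination term. -/
def MAJS_tm : Bool → Bool → Bool → MAJS_Tm
  | false, false, false => M X Y Z
  | true, false, false => N (M X Y Z) (M Y Z X) (M Z X Y)
  | false, true, false => N (M X Y Z) (M Y Z X) (M Z X Y)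
  | false, false, true => N (M X Y Z) (M Y Z X) (M Z X Y)
  | true, false, true => M X (M X Y Z) Z
  | true, true, false => M X Z (M X Z Y)
  | false, true, true => M (M Y X Z) X Z
  | true, true, true =>
    let P : MAJS_Tm := M X (N X Y Z) Z
    let P2 : MAJS_Tm := MAJS_sb X P Z P
    M P2 (MAJS_sb Y Z X P2) (MAJS_sb Z X Y P2)

theorem MAJS_check : ∀ p q r x y z : Bool,
    MAJS_ev (MAJS_gg p q r) MAJS_maj x y z (MAJS_tm p q r) = MAJS_maj x y z := by
  decide

theorem MAJS_check' : ∀ p q r p' q' r' x y z : Bool,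
    MAJS_ev MAJS_maj (MAJS_gg p' q' r') x y z (MAJS_tm p q r) = MAJS_maj x y z := by
  decide

/-- The operation `M` acts on the pair `a, b` as the Boolean operation `g`. -/
def MAJS_Acts {A B : Type*} (d : B → B → A) (a b : A) (M : B → B → B → B)
    (g : Bool → Bool → Bool → Bool) : Prop :=
  ∀ x x' y y' z z' p q s, d x x' = sel a b p → d y y' = sel a b q → d z z' = sel a b s →
    d (M x y z) (M x' y' z') = sel a b (g p q s)

theorem MAJS_ev_acts {A B : Type*} {d : B → B → A} {a b : A} {M N : B → B → B → B}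
    {g h : Bool → Bool → Bool → Bool} (hM : MAJS_Acts d a b M g) (hN : MAJS_Acts d a b N h)
    (t : MAJS_Tm) : MAJS_Acts d a b (fun x y z => MAJS_ev M N x y z t)
      (fun p q s => MAJS_ev g h p q s t) := by
  intro x x' y y' z z' p q s hx hy hz
  induction t with
  | X => exact hx
  | Y => exact hy
  | Z => exact hz
  | M t u v ht hu hv => exact hM _ _ _ _ _ _ _ _ _ ht hu hv
  | N t u v ht hu hv => exact hN _ _ _ _ _ _ _ _ _ ht hu hv

theorem MAJS_ev_pol {A B : Type*} {d : B → B → A} {M N : B → B → B → B}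
    (hM : Pol3 d M) (hN : Pol3 d N) (t : MAJS_Tm) :
    Pol3 d (fun x y z => MAJS_ev M N x y z t) := by
  intro x x' y y' z z'
  induction t with
  | X => exact Or.inl rfl
  | Y => exact Or.inr (Or.inl rfl)
  | Z => exact Or.inr (Or.inr rfl)
  | M t u v ht hu hv =>
    simp only [MAJS_ev] at ht hu hv ⊢
    rcases hM (MAJS_ev M N x y z t) (MAJS_ev M N x' y' z' t) (MAJS_ev M N x y z u)
      (MAJS_ev M N x' y' z' u) (MAJS_ev M N x y z v) (MAJS_ev M N x' y' z' v) with h | h | h
    · rw [h]; exact ht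
    · rw [h]; exact hu
    · rw [h]; exact hv
  | N t u v ht hu hv =>
    simp only [MAJS_ev] at ht hu hv ⊢
    rcases hN (MAJS_ev M N x y z t) (MAJS_ev M N x' y' z' t) (MAJS_ev M N x y z u)
      (MAJS_ev M N x' y' z' u) (MAJS_ev M N x y z v) (MAJS_ev M N x' y' z' v) with h | h | h
    · rw [h]; exact ht
    · rw [h]; exact hu
    · rw [h]; exact hv

theorem MAJS_sel_inj {A : Type*} {a b : A} (hab : a ≠ b) {p q : Bool}
    (h : sel a b p = sel a b q) : p = q := by
  cases p <;> cases q <;> simp_all [sel]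

theorem MAJS_sel_ex {A : Type*} {a b c : A} (h : c = a ∨ c = b) : ∃ p, c = sel a b p := by
  rcases h with h | h
  · exact ⟨false, h⟩
  · exact ⟨true, h⟩

theorem MAJS_sel_or {A : Type*} (a b : A) (p : Bool) : sel a b p = a ∨ sel a b p = b := by
  cases p
  · exact Or.inl rfl
  · exact Or.inr rfl

theorem MAJS_majOn {A B : Type*} {d : B → B → A} {a b : A} (hab : a ≠ b)
    {M : B → B → B → B} (h : MAJS_Acts d a b M MAJS_maj) : MajOn d a b M := by
  intro x x' y y' z z' hx hy hz
  obtain ⟨p, hp⟩ := MAJS_sel_ex hx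
  obtain ⟨q, hq⟩ := MAJS_sel_ex hy
  obtain ⟨s, hs⟩ := MAJS_sel_ex hz
  have hr := h x x' y y' z z' p q s hp hq hs
  rw [hr, hp, hq, hs]
  refine ⟨fun e1 => ?_, fun e1 => ?_, fun e1 => ?_⟩
  · have := MAJS_sel_inj hab e1
    subst this
    cases p <;> cases s <;> rfl
  · have := MAJS_sel_inj hab e1
    subst this
    cases p <;> cases q <;> rfl
  · have := MAJS_sel_inj hab e1
    subst this
    cases p <;> cases q <;> rfl

theorem MAJS_of_majOn {A B : Type*} {d : B → B → A} {a b : A}
    {M : B → B → B → B} (h : MajOn d a b M) : MAJS_Acts d a b M MAJS_maj := by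
  intro x x' y y' z z' p q s hp hq hs
  obtain ⟨h1, h2, h3⟩ := h x x' y y' z z' (by rw [hp]; exact MAJS_sel_or a b p)
    (by rw [hq]; exact MAJS_sel_or a b q) (by rw [hs]; exact MAJS_sel_or a b s)
  by_cases e1 : p = q
  · subst e1
    rw [h1 (hp.trans hq.symm), hp]
    cases p <;> cases s <;> rfl
  · by_cases e2 : p = s
    · subst e2
      rw [h2 (hp.trans hs.symm), hp]
      cases p <;> cases q <;> rfl
    · have e3 : q = s := by
        cases p <;> cases q <;> cases s <;> simp_all
      subst e3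
      rw [h3 (hq.trans hs.symm), hq]
      cases p <;> cases q <;> rfl

theorem MAJS_gg_of {g : Bool → Bool → Bool → Bool}
    (h1 : ∀ p q s, g (!p) (!q) (!s) = !(g p q s)) (h0 : g false false false = false) :
    g = MAJS_gg (g true false false) (g false true false) (g false false true) := by
  funext p q s
  have a1 := h1 false false false
  have a2 := h1 true false false
  have a3 := h1 false true false
  have a4 := h1 false false true
  simp only [Bool.not_false, Bool.not_true] at a1 a2 a3 a4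
  cases p <;> cases q <;> cases s <;> simp [MAJS_gg, h0, a1, a2, a3, a4]

theorem MAJS_exists {A B : Type*} [Finite A] [Countable B] {e : A}
    {T : A → A → A → Prop} {d : B → B → A} (S : USys e T d) (hG : Good e T)
    (a b : A) (ha : a ≠ e) (hb : b ≠ e) (hab : a ≠ b) (hu : Unif d a b)
    (M : B → B → B → B) (hM : Pol3 d M) :
    ∃ p q r, MAJS_Acts d a b M (MAJS_gg p q r) := by
  obtain ⟨h, h1, h2, h3⟩ := exists_bool S hG a b ha hb hab hu
    (fun P : Fin 3 → B => M (P 0) (P 1) (P 2)) (by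
      intro P Q
      rcases hM (P 0) (Q 0) (P 1) (Q 1) (P 2) (Q 2) with h | h | h
      · exact ⟨0, h⟩
      · exact ⟨1, h⟩
      · exact ⟨2, h⟩)
  have hg := MAJS_gg_of (g := fun p q s => h ![p, q, s]) (by
    intro p q s
    have := h1 ![p, q, s]
    rw [← this]
    congr 1
    funext i
    fin_cases i <;> rfl) (by
    refine Eq.trans (congrArg h ?_) h2
    funext i
    fin_cases i <;> rfl)
  refine ⟨h ![true, false, false], h ![false, true, false], h ![false, false, true], ?_⟩
  rw [← hg]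
  intro x x' y y' z z' p q s hx hy hz
  exact h3 ![p, q, s] ![x, y, z] ![x', y', z'] (by
    intro c
    fin_cases c
    · exact hx
    · exact hy
    · exact hz)

theorem maj_step {A B : Type*} [Finite A] [Countable B]
    {e : A} {T : A → A → A → Prop} {d : B → B → A} (S : USys e T d) (hG : Good e T)
    (U : A → A → Prop) (hU : ∀ a b, U a b → a ≠ e ∧ b ≠ e ∧ a ≠ b ∧ Unif d a b)
    (Z : Set (A × A)) (hZ : ∀ p ∈ Z, U p.1 p.2) (a b : A) (hab : U a b)
    (M N : B → B → B → B) (hM : Pol3 d M) (hN : Pol3 d N)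
    (hMZ : ∀ p ∈ Z, MajOn d p.1 p.2 M) (hNab : MajOn d a b N) :
    ∃ M', Pol3 d M' ∧ (∀ p ∈ Z, MajOn d p.1 p.2 M') ∧ MajOn d a b M' := by
  obtain ⟨h1, h2, h3, h4⟩ := hU a b hab
  obtain ⟨p, q, r, hpqr⟩ := MAJS_exists S hG a b h1 h2 h3 h4 M hM
  refine ⟨fun x y z => MAJS_ev M N x y z (MAJS_tm p q r), MAJS_ev_pol hM hN _, ?_, ?_⟩
  · intro c hc
    obtain ⟨k1, k2, k3, k4⟩ := hU c.1 c.2 (hZ c hc)
    obtain ⟨p', q', r', hN'⟩ := MAJS_exists S hG c.1 c.2 k1 k2 k3 k4 N hN
    apply MAJS_majOn k3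
    have := MAJS_ev_acts (MAJS_of_majOn (hMZ c hc)) hN' (MAJS_tm p q r)
    have e1 : (fun x y z => MAJS_ev MAJS_maj (MAJS_gg p' q' r') x y z (MAJS_tm p q r))
        = MAJS_maj := by
      funext x y z
      exact MAJS_check' p q r p' q' r' x y z
    rw [e1] at this
    exact this
  · apply MAJS_majOn h3
    have := MAJS_ev_acts hpqr (MAJS_of_majOn hNab) (MAJS_tm p q r)
    have e1 : (fun x y z => MAJS_ev (MAJS_gg p q r) MAJS_maj x y z (MAJS_tm p q r))
        = MAJS_maj := by
      funext x y z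
      exact MAJS_check p q r x y z
    rw [e1] at this
    exact this

end Pool.Agent.SIG
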