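import Pool.Agent.SIG.RAM
import Pool.Agent.SIG.REA
import Pool.Agent.SIG.HOM

namespace Pool.Agent.SIG

/-- the truth of an invariant relation depends only on the positions -/
theorem PF_move {ι A B L : Type*} [Countable B] {e : A}
    {T : A → A → A → Prop} {d : B → B → A} {lev : B → L} (S : Sys e T d lev)
    {R : (ι → B) → (ι → B) → (ι → B) → (ι → B) → Prop} (hR : IRel d lev R)
    (w w' : Bool → Bool → ι → B)
    (h : ∀ c g s g' s', d (w g s c) (w g' s' c) = d (w' g s c) (w' g' s' c))
    (hl : ∀ c g s, lev (w g s c) = lev (w' g s c))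
    (hw : R (w false false) (w false true) (w true false) (w true true)) :
    R (w' false false) (w' false true) (w' true false) (w' true true) := by
  have h1 : ∀ c, ∃ γ : B ≃ B, AutL d lev γ ∧ ∀ i : Bool × Bool, γ (w i.1 i.2 c) = w' i.1 i.2 c :=
    fun c => homog S (fun i : Bool × Bool => w i.1 i.2 c) (fun i => w' i.1 i.2 c)
      (fun i j => h c i.1 i.2 j.1 j.2) (fun i => hl c i.1 i.2)
  choose γ hγ hγw using h1
  have h2 := hR.inv γ hγ _ _ _ _ hw
  have h3 : ∀ g s, act γ (w g s) = w' g s := by
    intro g s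
    funext c
    exact hγw c (g, s)
  rwa [h3, h3, h3, h3] at h2

/-- cyclic labelling of three places -/
def PF_lab {A : Type*} (k w : Bool → Bool → A) (x y : Fin 3 × Bool) : A :=
  if x.1 = y.1 then k x.2 y.2 else if y.1 = x.1 + 1 then w x.2 y.2 else w y.2 x.2

theorem PF_cyc {A : Type*} {T : A → A → A → Prop} (T12 : ∀ a b c, T a b c → T b a c)
    (T23 : ∀ a b c, T a b c → T a c b) (k w : Bool → Bool → A) (hk : ∀ s t, k s t = k t s)
    (kkk : ∀ s t u, T (k s t) (k t u) (k s u)) (lin : ∀ s t u, T (w s t) (w t u) (w s u))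
    (in1 : ∀ s t u, T (k s t) (w t u) (w s u)) (in2 : ∀ s t u, T (w s t) (k t u) (w s u))
    (x y z : Fin 3 × Bool) : T (PF_lab k w x y) (PF_lab k w y z) (PF_lab k w x z) := by
  have p1 : ∀ {a b c}, T a b c → T b c a := fun h => T23 _ _ _ (T12 _ _ _ h)
  have p2 : ∀ {a b c}, T a b c → T c a b := fun h => T12 _ _ _ (T23 _ _ _ h)
  have p3 : ∀ {a b c}, T a b c → T c b a := fun h => p1 (T23 _ _ _ h)
  have cyc : ∀ s t u, T (w s t) (w t u) (w u s) := by
    intro s t u
    by_cases h1 : s = t
    · subst h1
      exact p2 (lin s u s)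
    · by_cases h2 : t = u
      · subst h2
        have h := lin t s t
        exact p1 h
      · have h3 : u = s := by
          revert h1 h2
          cases s <;> cases t <;> cases u <;> simp
        subst h3
        exact lin u t u
  obtain ⟨m1, s⟩ := x
  obtain ⟨m2, t⟩ := y
  obtain ⟨m3, u⟩ := z
  have a1 := kkk s t u
  have a2 := in1 s t u
  have a3 := in2 u s t
  have a4 := in2 s t u
  have a5 := in1 t u s
  have a6 := in1 s u t
  have a7 := in2 t s u
  have a8 := cyc s t u
  have a9 := cyc s u t
  have b1 := hk s t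
  have b2 := hk t u
  have b3 := hk s u
  have b4 := in1 u s t
  have b5 := in2 t u s
  fin_cases m1 <;> fin_cases m2 <;> fin_cases m3 <;> simp [PF_lab] <;>
  first
    | exact a1
    | exact a2
    | exact a4
    | exact a8
    | exact p1 a3
    | exact p2 a3
    | exact p3 a3
    | exact T12 _ _ _ a3
    | exact T23 _ _ _ a3
    | exact p1 a5
    | exact p2 a5
    | exact p3 a5
    | exact T12 _ _ _ a5
    | exact T23 _ _ _ a5
    | exact p1 a6
    | exact p2 a6
    | exact p3 a6
    | exact T12 _ _ _ a6
    | exact T23 _ _ _ a6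
    | exact p1 a7
    | exact p2 a7
    | exact p3 a7
    | exact T12 _ _ _ a7
    | exact T23 _ _ _ a7
    | exact p1 a9
    | exact p2 a9
    | exact p3 a9
    | exact T12 _ _ _ a9
    | exact T23 _ _ _ a9

theorem PF_aux {ι A B L : Type*} [Countable B] {e : A}
    {T : A → A → A → Prop} {d : B → B → A} {lev : B → L} (S : Sys e T d lev)
    (J0 J1 J2 : Bool → ι → B)
    (hk1 : ∀ c s t, d (J1 s c) (J1 t c) = d (J0 s c) (J0 t c))
    (hw1 : ∀ c s t, d (J1 s c) (J2 t c) = d (J0 s c) (J1 t c))
    (hw2 : ∀ c s t, d (J0 s c) (J2 t c) = d (J0 s c) (J1 t c))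
    (hl1 : ∀ c s, lev (J1 s c) = lev (J0 s c)) :
    ∃ X : Fin 3 → Bool → ι → B,
      (∀ c (m : Fin 3) s t, d (X m s c) (X m t c) = d (J0 s c) (J0 t c)) ∧
      (∀ c (m : Fin 3) s t, d (X m s c) (X (m + 1) t c) = d (J0 s c) (J1 t c)) ∧
      (∀ c (m : Fin 3) s, lev (X m s c) = lev (J0 s c)) := by
  have key : ∀ c, ∃ φ : Fin 3 × Bool → B,
      (∀ x y, d (φ x) (φ y) = PF_lab (fun s t => d (J0 s c) (J0 t c))
        (fun s t => d (J0 s c) (J1 t c)) x y) ∧
      ∀ x, lev (φ x) = lev (J0 x.2 c) := by
    intro c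
    apply realize S
    · intro x
      simp [PF_lab, S.deq]
    · rintro ⟨m, s⟩ ⟨n, t⟩
      have h1 := S.dsymm (J0 s c) (J0 t c)
      fin_cases m <;> fin_cases n <;> simp [PF_lab, h1]
    · apply PF_cyc S.T12 S.T23
      · intro s t
        exact S.dsymm _ _
      · intro s t u
        exact S.tri _ _ _
      · intro s t u
        have := S.tri (J0 s c) (J1 t c) (J2 u c)
        rwa [hw1, hw2] at this
      · intro s t u
        exact S.tri _ _ _
      · intro s t u
        have := S.tri (J0 s c) (J1 t c) (J1 u c)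
        rwa [hk1] at this
    · rintro ⟨m, s⟩ ⟨n, t⟩ h
      have h1 : d (J0 s c) (J0 t c) = e → lev (J0 s c) = lev (J0 t c) := by
        intro h
        rw [(S.deq _ _).1 h]
      have h2 : ∀ s t, d (J0 s c) (J1 t c) = e → lev (J0 s c) = lev (J0 t c) := by
        intro s t h
        rw [(S.deq _ _).1 h, hl1]
      unfold PF_lab at h
      split_ifs at h
      · exact h1 h
      · exact h2 _ _ h
      · exact (h2 _ _ h).symm
  choose φ hφ hφl using key
  refine ⟨fun m s c => φ c (m, s), ?_, ?_, ?_⟩
  · intro c m s t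
    simp only [hφ, PF_lab, if_true]
  · intro c m s t
    simp only [hφ, PF_lab]
    fin_cases m <;> simp
  · intro c m s
    exact hφl c (m, s)

theorem PF_pow {A B L : Type*} {d : B → B → A} {lev : B → L} (γ : Equiv.Perm B)
    (h : AutL d lev γ) (n : ℕ) : AutL d lev (γ ^ n) := by
  induction n with
  | zero => exact ⟨fun x y => rfl, fun x => rfl⟩
  | succ n ih =>
    refine ⟨fun x y => ?_, fun x => ?_⟩
    · rw [pow_succ, Equiv.Perm.mul_apply, Equiv.Perm.mul_apply, ih.1, h.1]
    · rw [pow_succ, Equiv.Perm.mul_apply, ih.2, h.2]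

theorem place_symm {ι A B L : Type*} [Finite ι] [Finite A] [Countable B] {e : A}
    {T : A → A → A → Prop} {d : B → B → A} {lev : B → L} (S : Sys e T d lev)
    {R : (ι → B) → (ι → B) → (ι → B) → (ι → B) → Prop} (hR : IRel d lev R)
    (P Q P' Q' : ι → B) (hs : SameT d lev P Q P' Q') (h : R P Q P' Q') : R P' Q' P Q := by
  let p : Bool → ι → B := fun s => bif s then Q else P
  let p' : Bool → ι → B := fun s => bif s then Q' else P'
  have hγ0 : ∀ c, ∃ γ : Equiv.Perm B, AutL d lev γ ∧ ∀ s : Bool, γ (p s c) = p' s c := by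
    intro c
    apply homog S (fun s : Bool => p s c) (fun s : Bool => p' s c)
    · intro s t
      have h1 := (hs c).1
      have h2 : d (Q c) (P c) = d (Q' c) (P' c) := by
        rw [S.dsymm (Q c), S.dsymm (Q' c)]; exact h1
      cases s <;> cases t <;> simp [p, p', h1, h2, (S.deq _ _).2 rfl]
    · intro s
      cases s
      · exact (hs c).2.1
      · exact (hs c).2.2
  choose γ hγ hγp using hγ0
  -- the orbit of places
  let J : ℕ → Bool → ι → B := fun n s c => (γ c ^ n) (p s c)
  have hJ0 : ∀ s, J 0 s = p s := fun s => rfl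
  have hJ1 : ∀ s, J 1 s = p' s := by
    intro s
    funext c
    simp only [J, pow_one]
    exact hγp c s
  have hk : ∀ n c s t, d (J n s c) (J n t c) = d (p s c) (p t c) := by
    intro n c s t
    exact (PF_pow (γ c) (hγ c) n).1 _ _
  have hl : ∀ n c s, lev (J n s c) = lev (p s c) := by
    intro n c s
    exact (PF_pow (γ c) (hγ c) n).2 _
  have hST : ∀ n m, SameT d lev (J n false) (J n true) (J m false) (J m true) := by
    intro n m c
    exact ⟨by rw [hk, hk], by rw [hl, hl], by rw [hl, hl]⟩
  have hstep : ∀ n, R (J n false) (J n true) (J (n + 1) false) (J (n + 1) true) := by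
    intro n
    have h1 := hR.inv (fun c => γ c ^ n) (fun c => PF_pow (γ c) (hγ c) n) P Q P' Q' h
    have h2 : ∀ s, act (fun c => γ c ^ n) (p s) = J n s := fun s => rfl
    have h3 : ∀ s, act (fun c => γ c ^ n) (p' s) = J (n + 1) s := by
      intro s
      funext c
      simp only [act, J, pow_succ, Equiv.Perm.mul_apply]
      rw [hγp]
    have e1 := h2 false
    have e2 := h2 true
    have e3 := h3 false
    have e4 := h3 true
    simp only [p, p', cond_true, cond_false] at e1 e2 e3 e4
    rwa [e1, e2, e3, e4] at h1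
  have hlt : ∀ n k, R (J n false) (J n true) (J (n + k + 1) false) (J (n + k + 1) true) := by
    intro n k
    induction k with
    | zero => exact hstep n
    | succ k ih => exact hR.trans _ _ _ _ _ _ (hST _ _) (hST _ _) ih (hstep _)
  obtain ⟨a, b, c0, hab, hbc, hw1, hw2⟩ := ramsey_triple
    (fun a b => (fun c s t => d (J a s c) (J b t c) : ι → Bool → Bool → A))
  obtain ⟨X, hXk, hXw, hXl⟩ := PF_aux S (J a) (J b) (J c0)
    (fun c s t => by rw [hk, hk])
    (fun c s t => (congrFun (congrFun (congrFun hw1 c) s) t).symm)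
    (fun c s t => (congrFun (congrFun (congrFun hw2 c) s) t).symm)
    (fun c s => by rw [hl, hl])
  have hXST : ∀ n m, SameT d lev (X n false) (X n true) (X m false) (X m true) := by
    intro n m c
    exact ⟨by rw [hXk, hXk], by rw [hXl, hXl], by rw [hXl, hXl]⟩
  have hRab : R (J a false) (J a true) (J b false) (J b true) := by
    obtain ⟨k, rfl⟩ := Nat.exists_eq_add_of_lt hab
    exact hlt a k
  have hdir : ∀ m : Fin 3, R (X m false) (X m true) (X (m + 1) false) (X (m + 1) true) := by
    intro m
    apply PF_move S hR (fun g s => bif g then J b s else J a s)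
      (fun g s => bif g then X (m + 1) s else X m s)
    · intro c g s g' s'
      cases g <;> cases g' <;> simp only [cond_true, cond_false]
      · rw [hXk]
      · rw [hXw]
      · rw [S.dsymm, S.dsymm (X (m + 1) s c), hXw]
      · rw [hXk, hk, hk]
    · intro c g s
      cases g <;> simp only [cond_true, cond_false]
      · rw [hXl]
      · rw [hXl, hl, hl]
    · exact hRab
  have h12 := hdir 1
  have h20 := hdir 2
  have e3 : (1 : Fin 3) + 1 = 2 := rfl
  have e4 : (2 : Fin 3) + 1 = 0 := rfl
  rw [e3] at h12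
  rw [e4] at h20
  have h10 := hR.trans _ _ _ _ _ _ (hXST 1 2) (hXST 2 0) h12 h20
  have hba : R (J b false) (J b true) (J a false) (J a true) := by
    apply PF_move S hR (fun g s => bif g then X 0 s else X 1 s)
      (fun g s => bif g then J a s else J b s)
    · intro c g s g' s'
      have e5 := hXw c 0
      have e6 : (0 : Fin 3) + 1 = 1 := rfl
      rw [e6] at e5
      cases g <;> cases g' <;> simp only [cond_true, cond_false]
      · rw [hXk, hk, hk]
      · rw [S.dsymm, S.dsymm (J b s c), e5]
      · rw [e5]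
      · rw [hXk]
    · intro c g s
      cases g <;> simp only [cond_true, cond_false]
      · rw [hXl, hl, hl]
      · rw [hXl]
    · exact h10
  have hback : R (J (a + 1) false) (J (a + 1) true) (J a false) (J a true) := by
    obtain ⟨k, rfl⟩ := Nat.exists_eq_add_of_lt hab
    rcases k with _ | k
    · exact hba
    · have := hlt (a + 1) k
      have e7 : a + 1 + k + 1 = a + (k + 1) + 1 := by ring
      rw [e7] at this
      exact hR.trans _ _ _ _ _ _ (hST _ _) (hST _ _) this hba
  have hfin := hR.inv (fun c => (γ c ^ a).symm)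
    (fun c => (PF_pow (γ c) (hγ c) a).symm) _ _ _ _ hback
  have f1 : ∀ s, act (fun c => (γ c ^ a).symm) (J (a + 1) s) = p' s := by
    intro s
    funext c
    simp only [act, J, pow_succ, Equiv.Perm.mul_apply]
    rw [hγp, Equiv.symm_apply_apply]
  have f2 : ∀ s, act (fun c => (γ c ^ a).symm) (J a s) = p s := by
    intro s
    funext c
    simp only [act, J]
    rw [Equiv.symm_apply_apply]
  rw [f1, f1, f2, f2] at hfin
  exact hfin

end Pool.Agent.SIG
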