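import Pool.Agent.SIG.Defs

/-!
Relation algebras, normal representations, primitivity, the `(k, l)`-consistency procedure and
Siggers behaviours (definitions of the problem).
-/

namespace Pool.Agent.SIG

universe u v

/-- A relation algebra: Tarski's axioms over a Boolean algebra. -/
structure RelAlg (A : Type u) [BooleanAlgebra A] where
  /-- relational composition -/
  comp : A → A → A
  /-- converse -/
  conv : A → A
  /-- the identity element -/
  one' : A
  comp_assoc : ∀ a b c, comp (comp a b) c = comp a (comp b c)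
  sup_comp : ∀ a b c, comp (a ⊔ b) c = comp a c ⊔ comp b c
  comp_one : ∀ a, comp a one' = a
  conv_conv : ∀ a, conv (conv a) = a
  conv_sup : ∀ a b, conv (a ⊔ b) = conv a ⊔ conv b
  conv_comp : ∀ a b, conv (comp a b) = comp (conv b) (conv a)
  tarski : ∀ a b, comp (conv a) (comp a b)ᶜ ≤ bᶜ

/-- The algebra is symmetric. -/
def RelAlg.Symmetric {A : Type u} [BooleanAlgebra A] (R : RelAlg A) : Prop :=
  ∀ a, R.conv a = a

/-- The atoms. -/
abbrev Atoms (A : Type u) [BooleanAlgebra A] : Type u := {a : A // IsAtom a}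

/-- Allowed triples of atoms. -/
def RelAlg.Allowed {A : Type u} [BooleanAlgebra A] (R : RelAlg A) (a b c : Atoms A) : Prop :=
  c.1 ≤ R.comp a.1 b.1

/-- A square representation with base set `B`. -/
structure IsSquareRep {A : Type u} [BooleanAlgebra A] (R : RelAlg A) {B : Type v}
    (ρ : A → B → B → Prop) : Prop where
  inj : Function.Injective ρ
  bot : ∀ x y, ¬ ρ ⊥ x y
  top : ∀ x y, ρ ⊤ x y
  sup : ∀ a b x y, ρ (a ⊔ b) x y ↔ ρ a x y ∨ ρ b x y
  compl : ∀ a x y, ρ aᶜ x y ↔ ¬ ρ a x y
  one' : ∀ x y, ρ R.one' x y ↔ x = y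
  conv : ∀ a x y, ρ (R.conv a) x y ↔ ρ a y x
  comp : ∀ a b x y, ρ (R.comp a b) x y ↔ ∃ z, ρ a x z ∧ ρ b z y

/-- Automorphisms of the representation. -/
def IsAut {A : Type u} {B : Type v} (ρ : A → B → B → Prop) (γ : B ≃ B) : Prop :=
  ∀ a x y, ρ a (γ x) (γ y) ↔ ρ a x y

/-- Every isomorphism between finite substructures extends to an automorphism. -/
def IsHomogeneous {A : Type u} {B : Type v} (ρ : A → B → B → Prop) : Prop :=
  ∀ (S S' : Set B) (f : S ≃ S'), S.Finite →
    (∀ (a : A) (x y : S), ρ a (f x) (f y) ↔ ρ a x y) →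
    ∃ γ : B ≃ B, IsAut ρ γ ∧ ∀ x : S, γ x = f x

/-- Every finite atomic closed network is satisfiable. -/
def IsFullyUniversal {A : Type u} [BooleanAlgebra A] (R : RelAlg A) {B : Type v}
    (ρ : A → B → B → Prop) : Prop :=
  ∀ (n : ℕ) (f : Fin n → Fin n → A), (∀ i j, IsAtom (f i j)) → (∀ i, f i i ≤ R.one') →
    (∀ i j, f i j = R.conv (f j i)) → (∀ i j k, f i k ≤ R.comp (f i j) (f j k)) →
    ∃ s : Fin n → B, ∀ i j, ρ (f i j) (s i) (s j)

/-- Normal representations: square, homogeneous and fully universal. -/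
structure IsNormalRep {A : Type u} [BooleanAlgebra A] (R : RelAlg A) {B : Type v}
    (ρ : A → B → B → Prop) : Prop where
  square : IsSquareRep R ρ
  homog : IsHomogeneous ρ
  univ : IsFullyUniversal R ρ

/-- The automorphism group is primitive. -/
def AutPrimitive {A : Type u} {B : Type v} (ρ : A → B → B → Prop) : Prop :=
  ∀ r : B → B → Prop, Equivalence r →
    (∀ γ : B ≃ B, IsAut ρ γ → ∀ x y, r x y → r (γ x) (γ y)) →
    (∀ x y, r x y → x = y) ∨ ∀ x y, r x y

/-- A finite structure with domain `Fin n` in the signature `A` (an instance) has a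
homomorphism to the representation. -/
def Satisfiable {A : Type u} {B : Type v} (ρ : A → B → B → Prop) {n : ℕ}
    (I : A → Fin n → Fin n → Prop) : Prop :=
  ∃ h : Fin n → B, ∀ a i j, I a i j → ρ a (h i) (h j)

/-- The `(k, l)`-consistency procedure. `Stage ρ k l I m S h` says that the map `h` with domain
`S` has survived `m` rounds. Before the first round we have all homomorphisms from substructures
with at most `l` elements; in a round, a map is deleted if one of its restrictions has been
deleted, or if its domain `S` has at most `k` elements and for some `W ⊇ S` with at most `l`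
elements no extension to `W` has survived. -/
def Stage {A : Type u} {B : Type v} (ρ : A → B → B → Prop) (k l : ℕ) {n : ℕ}
    (I : A → Fin n → Fin n → Prop) : ℕ → (S : Finset (Fin n)) → (S → B) → Prop
  | 0, S, h => S.card ≤ l ∧ ∀ (a : A) (i j : S), I a i j → ρ a (h i) (h j)
  | m + 1, S, h => Stage ρ k l I m S h ∧
      (∀ (S' : Finset (Fin n)) (hS : S' ⊆ S), Stage ρ k l I m S' (fun x => h ⟨x, hS x.2⟩)) ∧
      (S.card ≤ k → ∀ (W : Finset (Fin n)) (hW : S ⊆ W), W.card ≤ l →
        ∃ h' : W → B, (∀ x : S, h' ⟨x, hW x.2⟩ = h x) ∧ Stage ρ k l I m W h')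

/-- The procedure rejects the instance: at some round all maps have been deleted. -/
def Rejects {A : Type u} {B : Type v} (ρ : A → B → B → Prop) (k l : ℕ) {n : ℕ}
    (I : A → Fin n → Fin n → Prop) : Prop :=
  ∃ m, ∀ S h, ¬ Stage ρ k l I m S h

/-- The `(k, l)`-consistency procedure rejects exactly the unsatisfiable instances. -/
def SolvedBy {A : Type u} {B : Type v} (ρ : A → B → B → Prop) (k l : ℕ) : Prop :=
  ∀ (n : ℕ) (I : A → Fin n → Fin n → Prop), Rejects ρ k l I ↔ ¬ Satisfiable ρ I

/-- Siggers behaviour of the algebra. -/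
def RelAlg.HasSiggers {A : Type u} [BooleanAlgebra A] (R : RelAlg A) : Prop :=
  ∃ s : (Fin 6 → Atoms A) → Atoms A,
    (∀ x y z : Fin 6 → Atoms A, (∀ i, R.Allowed (x i) (y i) (z i)) →
      R.Allowed (s x) (s y) (s z)) ∧
    (∀ x, ∃ i, s x = x i) ∧
    ∀ x y z, s ![x, x, y, y, z, z] = s ![y, z, x, z, x, y]

end Pool.Agent.SIG
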