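import Pool.Agent.SIG.GDR
import Pool.Agent.SIG.CYC

namespace Pool.Agent.SIG

private theorem red_lam_mono {A B : Type*} {d : B → B → A} {lev : B → ℕ}
    {Φ Φ' : Set ((Fin 3 → B) → B)} (h : Φ' ⊆ Φ) (t : Fin 3 → A) (i j : ℕ) :
    Lam d lev Φ' t i j ⊆ Lam d lev Φ t i j := by
  rintro l ⟨ψ, hψ, P, Q, hPQ, hl⟩
  exact ⟨ψ, h hψ, P, Q, hPQ, hl⟩

private theorem red_one {A B : Type*} [Finite A] [Countable B] {e : A} {T : A → A → A → Prop}
    {d : B → B → A} {lev : B → ℕ} {U : A → A → Prop} {M : B → B → B → B}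
    (S : Sys e T d lev) (hG : Good e T)
    (hMU : ∀ a b, U a b → MajOn d a b M) (hUe : ∀ a b, U a b → a ≠ e)
    (t : Fin 3 → A) (ht : ∀ c c', c ≠ c' → U (t c) (t c')) (i j : ℕ) (hij : i < j) (n : ℕ) :
    ∀ Φ : Set ((Fin 3 → B) → B), Fam d lev U M Φ → (Lam d lev Φ t i j).ncard = n →
    ∃ Φ' ⊆ Φ, Fam d lev U M Φ' ∧ (Lam d lev Φ' t i j).Subsingleton := by
  have hte : ∀ c, t c ≠ e := by
    intro c
    have : c ≠ c + 1 := by
      fin_cases c <;> decide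
    exact hUe _ _ (ht c (c + 1) this)
  induction n using Nat.strong_induction_on with
  | _ n ih =>
    intro Φ hΦ hn
    rcases Set.subsingleton_or_nontrivial (Lam d lev Φ t i j) with hs | hnt
    · exact ⟨Φ, le_refl _, hΦ, hs⟩
    · obtain ⟨E, hE, hEne, hgood⟩ := exists_good S hG hΦ hMU ht hte hij.ne hnt
      obtain ⟨Φ1, h1, hΦ1, hL⟩ := good_reduce S hΦ E hE hgood
      have hlt : (Lam d lev Φ1 t i j).ncard < n := by
        rw [← hn]
        apply Set.ncard_lt_ncard _ (Set.toFinite _)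
        refine ⟨hL.trans hE.sub, ?_⟩
        intro hcon
        exact hEne (Set.Subset.antisymm hE.sub (hcon.trans hL))
      obtain ⟨Φ2, h2, hΦ2, hs⟩ := ih _ hlt Φ1 hΦ1 rfl
      exact ⟨Φ2, h2.trans h1, hΦ2, hs⟩

theorem reduce_all {A B : Type*} [Finite A] [Countable B] {e : A} {T : A → A → A → Prop}
    {d : B → B → A} {lev : B → ℕ} {U : A → A → Prop} {M : B → B → B → B}
    {Φ : Set ((Fin 3 → B) → B)}
    (S : Sys e T d lev) (hG : Good e T) (hΦ : Fam d lev U M Φ)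
    (hMU : ∀ a b, U a b → MajOn d a b M) (hUe : ∀ a b, U a b → a ≠ e) (N : ℕ) :
    ∃ Φ' ⊆ Φ, Fam d lev U M Φ' ∧ ∀ t : Fin 3 → A, (∀ c c', c ≠ c' → U (t c) (t c')) →
      ∀ i j, i < j → j < N → (Lam d lev Φ' t i j).Subsingleton := by
  classical
  have key : ∀ J : Finset ((Fin 3 → A) × ℕ × ℕ), ∃ Φ' ⊆ Φ, Fam d lev U M Φ' ∧
      ∀ x ∈ J, (∀ c c', c ≠ c' → U (x.1 c) (x.1 c')) → x.2.1 < x.2.2 →
        (Lam d lev Φ' x.1 x.2.1 x.2.2).Subsingleton := by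
    intro J
    induction J using Finset.induction_on with
    | empty => exact ⟨Φ, le_refl _, hΦ, by simp⟩
    | insert x J _ ih =>
      obtain ⟨Φ1, h1, hΦ1, hJ⟩ := ih
      by_cases hx : (∀ c c', c ≠ c' → U (x.1 c) (x.1 c')) ∧ x.2.1 < x.2.2
      · obtain ⟨Φ2, h2, hΦ2, hs⟩ := red_one S hG hMU hUe x.1 hx.1 x.2.1 x.2.2 hx.2 _ Φ1 hΦ1 rfl
        refine ⟨Φ2, h2.trans h1, hΦ2, ?_⟩
        intro y hy ht hlt
        rcases Finset.mem_insert.1 hy with rfl | hy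
        · exact hs
        · exact (hJ y hy ht hlt).anti (red_lam_mono h2 _ _ _)
      · refine ⟨Φ1, h1, hΦ1, ?_⟩
        intro y hy ht hlt
        rcases Finset.mem_insert.1 hy with rfl | hy
        · exact absurd ⟨ht, hlt⟩ hx
        · exact hJ y hy ht hlt
  have : Fintype A := Fintype.ofFinite A
  obtain ⟨Φ', h', hΦ', hJ⟩ := key (Finset.univ ×ˢ (Finset.range N ×ˢ Finset.range N))
  refine ⟨Φ', h', hΦ', ?_⟩
  intro t ht i j hij hj
  refine hJ (t, i, j) ?_ ht hij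
  simp only [Finset.mem_product, Finset.mem_univ, Finset.mem_range, true_and]
  omega

end Pool.Agent.SIG
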