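import Pool.Agent.SIG.HOM

namespace Pool.Agent.SIG

theorem TI_refl {A B : Type*} {e : A} {T : A → A → A → Prop} {d : B → B → A}
    (S : USys e T d) (a b : A) : TI d a b a b := by
  obtain ⟨x, x', hx⟩ := exists_label S a
  obtain ⟨y, y', hy⟩ := exists_label S b
  exact ⟨x, x', y, y', x, x', y, y', hx, hy, hx, hy, fun ψ _ h => h⟩

theorem TI_dual {A B : Type*} {d : B → B → A} (a b a' b' : A) (hab : a ≠ b) (hab' : a' ≠ b')
    (h : TI d a b a' b') : TI d b' a' b a := by
  obtain ⟨x, x', y, y', u, u', v, v', hx, hy, hu, hv, hI⟩ := h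
  refine ⟨v, v', u, u', y, y', x, x', hv, hu, hy, hx, ?_⟩
  intro ψ hψ h1
  have hflip : Pol2 d (fun p q => ψ q p) := by
    intro p p' q q'
    rcases hψ q q' p p' with h2 | h2
    · exact Or.inr h2
    · exact Or.inl h2
  by_contra h3
  have h4 : d (ψ y x) (ψ y' x') = d x x' := by
    rcases hψ y y' x x' with h5 | h5
    · exact absurd h5 h3
    · exact h5
  have h6 : d (ψ v u) (ψ v' u') = d u u' := hI (fun p q => ψ q p) hflip h4
  rw [h1, hv, hu] at h6
  exact hab' h6.symm

/-- positions determine implications -/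
theorem Imp_move {A B : Type*} [Countable B] {e : A} {T : A → A → A → Prop} {d : B → B → A}
    (S : USys e T d) (x x' y y' u u' v v' : B) (p p' q q' r r' s s' : B)
    (h : Imp d x x' y y' u u' v v')
    (h1 : ∀ i j : Fin 4, d (![x, x', u, u'] i) (![x, x', u, u'] j) =
      d (![p, p', r, r'] i) (![p, p', r, r'] j))
    (h2 : ∀ i j : Fin 4, d (![y, y', v, v'] i) (![y, y', v, v'] j) =
      d (![q, q', s, s'] i) (![q, q', s, s'] j)) :
    Imp d p p' q q' r r' s s' := by
  obtain ⟨γ, hγ, hγm⟩ := homog S ![x, x', u, u'] ![p, p', r, r'] h1 (fun _ => rfl)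
  obtain ⟨δ, hδ, hδm⟩ := homog S ![y, y', v, v'] ![q, q', s, s'] h2 (fun _ => rfl)
  have gx : γ x = p := hγm 0
  have gx' : γ x' = p' := hγm 1
  have gu : γ u = r := hγm 2
  have gu' : γ u' = r' := hγm 3
  have dy : δ y = q := hδm 0
  have dy' : δ y' = q' := hδm 1
  have dv : δ v = s := hδm 2
  have dv' : δ v' = s' := hδm 3
  intro ψ hψ hp
  have hψ' : Pol2 d (fun a b => ψ (γ a) (δ b)) := by
    intro a a' b b'
    rcases hψ (γ a) (γ a') (δ b) (δ b') with h3 | h3
    · left
      rw [h3]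
      exact hγ.1 a a'
    · right
      rw [h3]
      exact hδ.1 b b'
  have h3 : d (ψ (γ x) (δ y)) (ψ (γ x') (δ y')) = d x x' := by
    rw [gx, gx', dy, dy', hp, ← gx, ← gx']
    exact hγ.1 x x'
  have h4 := h _ hψ' h3
  simp only [gu, gu', dv, dv'] at h4
  rw [h4, ← gu, ← gu']
  exact (hγ.1 u u').symm

theorem TI_trans {A B : Type*} [Countable B] {e : A} {T : A → A → A → Prop} {d : B → B → A}
    (S : USys e T d) (a b a' b' a'' b'' : A) (h : TI d a b a' b') (h' : TI d a' b' a'' b'') :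
    TI d a b a'' b'' := by
  obtain ⟨x, x', y, y', u, u', v, v', hx, hy, hu, hv, hI⟩ := h
  obtain ⟨p, p', q, q', r, r', s, s', hp, hq, hr, hs, hJ⟩ := h'
  have h1 : ∀ i j : Fin 2, d (![p, p'] i) (![p, p'] j) = d (![u, u'] i) (![u, u'] j) := by
    intro i j
    fin_cases i <;> fin_cases j
    · change d p p = d u u
      rw [S.dself, S.dself]
    · change d p p' = d u u'
      rw [hp, hu]
    · change d p' p = d u' u
      rw [S.dsymm, S.dsymm u', hp, hu]
    · change d p' p' = d u' u'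
      rw [S.dself, S.dself]
  have h2 : ∀ i j : Fin 2, d (![q, q'] i) (![q, q'] j) = d (![v, v'] i) (![v, v'] j) := by
    intro i j
    fin_cases i <;> fin_cases j
    · change d q q = d v v
      rw [S.dself, S.dself]
    · change d q q' = d v v'
      rw [hq, hv]
    · change d q' q = d v' v
      rw [S.dsymm, S.dsymm v', hq, hv]
    · change d q' q' = d v' v'
      rw [S.dself, S.dself]
  obtain ⟨γ, hγ, hγm⟩ := homog S ![p, p'] ![u, u'] h1 (fun _ => rfl)
  obtain ⟨δ, hδ, hδm⟩ := homog S ![q, q'] ![v, v'] h2 (fun _ => rfl)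
  have gp : γ p = u := hγm 0
  have gp' : γ p' = u' := hγm 1
  have dq : δ q = v := hδm 0
  have dq' : δ q' = v' := hδm 1
  refine ⟨x, x', y, y', γ r, γ r', δ s, δ s', hx, hy, ?_, ?_, ?_⟩
  · rw [hγ.1, hr]
  · rw [hδ.1, hs]
  · have hmove : Imp d u u' v v' (γ r) (γ r') (δ s) (δ s') := by
      refine Imp_move S p p' q q' r r' s s' u u' v v' (γ r) (γ r') (δ s) (δ s') hJ ?_ ?_
      · intro i j
        rw [← gp, ← gp']
        have hm : ∀ k : Fin 4, ![γ p, γ p', γ r, γ r'] k = γ (![p, p', r, r'] k) := by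
          intro k
          fin_cases k <;> rfl
        rw [hm i, hm j, hγ.1]
      · intro i j
        rw [← dq, ← dq']
        have hm : ∀ k : Fin 4, ![δ q, δ q', δ s, δ s'] k = δ (![q, q', s, s'] k) := by
          intro k
          fin_cases k <;> rfl
        rw [hm i, hm j, hδ.1]
    intro ψ hψ h3
    exact hmove ψ hψ (hI ψ hψ h3)

end Pool.Agent.SIG
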