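import Pool.Agent.SIG.Defs

namespace Pool.Agent.SIG

/-- vertices of the torus in an untouched row or column -/
def CS {n : ℕ} (S : Set (ZMod n × ZMod n)) : Set (ZMod n × ZMod n) :=
  {w | (∀ s ∈ S, s.1 ≠ w.1) ∨ ∀ s ∈ S, s.2 ≠ w.2}

/-- neighbours on the torus inside a set -/
def TAdj {n : ℕ} (C : Set (ZMod n × ZMod n)) (v w : ZMod n × ZMod n) : Prop :=
  v ∈ C ∧ w ∈ C ∧ (w = (v.1, v.2 + 1) ∨ w = (v.1 + 1, v.2) ∨ v = (w.1, w.2 + 1) ∨
    v = (w.1 + 1, w.2))

private theorem tor_symm {n : ℕ} {C : Set (ZMod n × ZMod n)} {v w : ZMod n × ZMod n}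
    (h : TAdj C v w) : TAdj C w v := by
  obtain ⟨h1, h2, h3⟩ := h
  refine ⟨h2, h1, ?_⟩
  tauto

private theorem tor_rsymm {n : ℕ} {C : Set (ZMod n × ZMod n)} {v w : ZMod n × ZMod n}
    (h : Relation.ReflTransGen (TAdj C) v w) : Relation.ReflTransGen (TAdj C) w v := by
  induction h with
  | refl => exact Relation.ReflTransGen.refl
  | tail _ h2 ih => exact Relation.ReflTransGen.head (tor_symm h2) ih

private theorem tor_row {n : ℕ} [NeZero n] (S : Set (ZMod n × ZMod n)) (i : ZMod n)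
    (hi : ∀ s ∈ S, s.1 ≠ i) (j j' : ZMod n) :
    Relation.ReflTransGen (TAdj (CS S)) (i, j) (i, j') := by
  have h : ∀ k : ℕ, Relation.ReflTransGen (TAdj (CS S)) (i, j) (i, j + k) := by
    intro k
    induction k with
    | zero =>
      rw [Nat.cast_zero, add_zero]
    | succ k ih =>
      refine ih.tail ⟨Or.inl hi, Or.inl hi, Or.inl ?_⟩
      simp [add_assoc]
  have h2 := h (j' - j).val
  rwa [ZMod.natCast_val, ZMod.cast_id', id_eq, add_sub_cancel] at h2

private theorem tor_col {n : ℕ} [NeZero n] (S : Set (ZMod n × ZMod n)) (j : ZMod n)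
    (hj : ∀ s ∈ S, s.2 ≠ j) (i i' : ZMod n) :
    Relation.ReflTransGen (TAdj (CS S)) (i, j) (i', j) := by
  have h : ∀ k : ℕ, Relation.ReflTransGen (TAdj (CS S)) (i, j) (i + k, j) := by
    intro k
    induction k with
    | zero =>
      rw [Nat.cast_zero, add_zero]
    | succ k ih =>
      refine ih.tail ⟨Or.inr hj, Or.inr hj, Or.inr (Or.inl ?_)⟩
      simp [add_assoc]
  have h2 := h (i' - i).val
  rwa [ZMod.natCast_val, ZMod.cast_id', id_eq, add_sub_cancel] at h2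

private theorem tor_untouched {n : ℕ} [NeZero n] (S : Finset (ZMod n × ZMod n))
    (hS : S.card < n) (f : ZMod n × ZMod n → ZMod n) : ∃ i : ZMod n, ∀ s ∈ S, f s ≠ i := by
  classical
  by_contra hcon
  push Not at hcon
  have h1 : (Finset.univ : Finset (ZMod n)) ⊆ S.image f := by
    intro i _
    obtain ⟨s, hs, hi⟩ := hcon i
    exact Finset.mem_image.2 ⟨s, hs, hi⟩
  have h2 := Finset.card_le_card h1
  rw [Finset.card_univ, ZMod.card] at h2
  have h3 := Finset.card_image_le (s := S) (f := f)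
  omega

private theorem tor_base {n : ℕ} [NeZero n] (S : Set (ZMod n × ZMod n))
    (i0 j0 : ZMod n) (hi : ∀ s ∈ S, s.1 ≠ i0) (hj : ∀ s ∈ S, s.2 ≠ j0)
    (v : ZMod n × ZMod n) (hv : v ∈ CS S) :
    Relation.ReflTransGen (TAdj (CS S)) v (i0, j0) := by
  rcases hv with h | h
  · exact (tor_row S v.1 h v.2 j0).trans (tor_col S j0 hj v.1 i0)
  · exact (tor_col S v.2 h v.1 i0).trans (tor_row S i0 hi v.2 j0)

theorem torus_conn {n : ℕ} [NeZero n] (S : Finset (ZMod n × ZMod n)) (hS : S.card < n)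
    (v w : ZMod n × ZMod n) (hv : v ∈ CS (S : Set (ZMod n × ZMod n)))
    (hw : w ∈ CS (S : Set (ZMod n × ZMod n))) :
    Relation.ReflTransGen (TAdj (CS (S : Set (ZMod n × ZMod n)))) v w := by
  obtain ⟨i0, hi⟩ := tor_untouched S hS Prod.fst
  obtain ⟨j0, hj⟩ := tor_untouched S hS Prod.snd
  exact (tor_base _ i0 j0 hi hj v hv).trans (tor_rsymm (tor_base _ i0 j0 hi hj w hw))

theorem torus_ne {n : ℕ} [NeZero n] (S : Finset (ZMod n × ZMod n)) (hS : S.card < n) :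
    ∃ v, v ∈ CS (S : Set (ZMod n × ZMod n)) := by
  obtain ⟨i0, hi⟩ := tor_untouched S hS Prod.fst
  exact ⟨(i0, 0), Or.inl hi⟩

/-- parity around a vertex: horizontal edges `x.1 v` from `v` to `(v.1, v.2 + 1)`, vertical
edges `x.2 v` from `v` to `(v.1 + 1, v.2)` -/
def par {n : ℕ} (x : ZMod n × ZMod n → ZMod 2 × ZMod 2) (v : ZMod n × ZMod n) : ZMod 2 :=
  (x v).1 + (x (v.1, v.2 - 1)).1 + (x v).2 + (x (v.1 - 1, v.2)).2

theorem par_sum {n : ℕ} [NeZero n] (x : ZMod n × ZMod n → ZMod 2 × ZMod 2) :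
    ∑ v, par x v = 0 := by
  have h1 : ∑ v : ZMod n × ZMod n, (x (v.1, v.2 - 1)).1 = ∑ v, (x v).1 :=
    Fintype.sum_equiv ((Equiv.refl (ZMod n)).prodCongr (Equiv.subRight (1 : ZMod n))) _ _
      (fun v => rfl)
  have h2 : ∑ v : ZMod n × ZMod n, (x (v.1 - 1, v.2)).2 = ∑ v, (x v).2 :=
    Fintype.sum_equiv ((Equiv.subRight (1 : ZMod n)).prodCongr (Equiv.refl (ZMod n))) _ _
      (fun v => rfl)
  unfold par
  rw [Finset.sum_add_distrib, Finset.sum_add_distrib, Finset.sum_add_distrib, h1, h2]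
  have h3 : ∀ a : ZMod 2, a + a = 0 := by decide
  rw [h3, zero_add, h3]

end Pool.Agent.SIG
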