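import Pool.Agent.SIG.LM

namespace Pool.Agent.SIG

theorem coord_dichotomy {ι A B : Type*} [DecidableEq ι] {e : A} {T : A → A → A → Prop}
    {d : B → B → A} (S : USys e T d) (h2 : ∃ a b : A, a ≠ e ∧ b ≠ e ∧ a ≠ b)
    (hF : ∃ b c : A, b ≠ e ∧ c ≠ e ∧ ¬ T b b c) [Finite ι]
    (φ : (ι → B) → B) (hφ : Pol d φ) (i : ι) :
    (∀ P : ι → B, ∀ x y, d (φ (Function.update P i x)) (φ (Function.update P i y)) = d x y) ∨
    (∀ P : ι → B, ∀ x y, φ (Function.update P i x) = φ (Function.update P i y)) := by
  classical
  cases nonempty_fintype ι
  have hself : ∀ x, d x x = e := Sys.dself S
  -- labels along the coordinate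
  have hlab : ∀ (P : ι → B) (x y : B),
      d (φ (Function.update P i x)) (φ (Function.update P i y)) = d x y ∨
        d (φ (Function.update P i x)) (φ (Function.update P i y)) = e := by
    intro P x y
    obtain ⟨j, hj⟩ := hφ (Function.update P i x) (Function.update P i y)
    by_cases hji : j = i
    · subst hji
      left
      rw [hj, Function.update_self, Function.update_self]
    · right
      rw [hj, Function.update_of_ne hji, Function.update_of_ne hji, hself]
  have hdich : ∀ P : ι → B,
      (∀ x y, d (φ (Function.update P i x)) (φ (Function.update P i y)) = d x y) ∨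
      (∀ x y, φ (Function.update P i x) = φ (Function.update P i y)) := by
    intro P
    rcases lemma_M S h2 (fun x y => φ (Function.update P i x) = φ (Function.update P i y))
      ⟨fun _ => rfl, fun h => h.symm, fun h h' => h.trans h'⟩ (by
        intro x y z hxy hxz
        have h1 : d (φ (Function.update P i z)) (φ (Function.update P i x)) ≠ e := fun h =>
          hxz ((S.deq _ _).1 h).symm
        have h2' : d (φ (Function.update P i z)) (φ (Function.update P i y)) ≠ e := by
          rw [← hxy]; exact h1
        have h3 := (hlab P z x).resolve_right h1
        have h4 := (hlab P z y).resolve_right h2'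
        rw [← h3, ← h4, hxy]) with h | h
    · left
      intro x y
      by_cases hxy : x = y
      · rw [hxy, hself, hself]
      · exact (hlab P x y).resolve_right fun h' => hxy (h x y ((S.deq _ _).1 h'))
    · exact Or.inr h
  obtain ⟨b, c, hb, hc, hbc⟩ := hF
  have hstep : ∀ (P : ι → B) (j : ι) (v : B), d (P j) v = b →
      (∀ x y, d (φ (Function.update P i x)) (φ (Function.update P i y)) = d x y) →
      ∀ x y, d (φ (Function.update (Function.update P j v) i x))
        (φ (Function.update (Function.update P j v) i y)) = d x y := by
    intro P j v hv hiso
    by_cases hji : j = i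
    · subst hji
      simpa only [Function.update_idem] using hiso
    rcases hdich (Function.update P j v) with h | h
    · exact h
    exfalso
    set p := φ (Function.update (Function.update P j v) i (P j)) with hp
    have hpx : ∀ x, φ (Function.update (Function.update P j v) i x) = p := fun x => h x (P j)
    have hlab' : ∀ x, d (φ (Function.update P i x)) p = b ∨ d (φ (Function.update P i x)) p = e := by
      intro x
      obtain ⟨k, hk⟩ := hφ (Function.update P i x) (Function.update (Function.update P j v) i x)
      rw [hpx] at hk
      by_cases hki : k = i
      · subst hki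
        right
        rw [hk, Function.update_self, Function.update_self, hself]
      · by_cases hkj : k = j
        · subst hkj
          left
          rw [hk, Function.update_of_ne hki, Function.update_of_ne hki, Function.update_self, hv]
        · right
          rw [hk, Function.update_of_ne hki, Function.update_of_ne hki,
            Function.update_of_ne hkj, hself]
    obtain ⟨x₀, hx₀⟩ : ∃ x₀, ∀ x, x ≠ x₀ → φ (Function.update P i x) ≠ p := by
      by_cases hex : ∃ x₀, φ (Function.update P i x₀) = p
      · obtain ⟨x₀, hx₀⟩ := hex
        refine ⟨x₀, fun x hx hxp => hx ?_⟩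
        have := hiso x x₀
        rw [hxp, hx₀, hself] at this
        exact (S.deq _ _).1 this.symm
      · push Not at hex
        exact ⟨P j, fun x _ => hex x⟩
    obtain ⟨g, hge, hgc⟩ : ∃ g, g ≠ e ∧ g ≠ c := by
      obtain ⟨a, a', ha, ha', haa⟩ := h2
      by_cases hac : a = c
      · exact ⟨a', ha', fun h => haa (hac.trans h.symm)⟩
      · exact ⟨a, ha, hac⟩
    obtain ⟨x, -, hx⟩ := exists_label_at S x₀ g hge ()
    obtain ⟨y, -, hy⟩ := exists_label_at S x c hc ()
    have hxx : x ≠ x₀ := by
      rintro rfl
      rw [hself] at hx
      exact hge hx.symm
    have hyx : y ≠ x₀ := by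
      rintro rfl
      rw [S.dsymm, hx] at hy
      exact hgc hy
    have h3 : d (φ (Function.update P i x)) p = b :=
      (hlab' x).resolve_right fun h' => hx₀ x hxx ((S.deq _ _).1 h')
    have h4 : d (φ (Function.update P i y)) p = b :=
      (hlab' y).resolve_right fun h' => hx₀ y hyx ((S.deq _ _).1 h')
    have h5 := S.tri (φ (Function.update P i x)) p (φ (Function.update P i y))
    rw [h3, S.dsymm p, h4, hiso x y, hy] at h5
    exact hbc h5
  have hone : ∀ (P : ι → B) (j : ι) (v : B),
      (∀ x y, d (φ (Function.update P i x)) (φ (Function.update P i y)) = d x y) →
      ∀ x y, d (φ (Function.update (Function.update P j v) i x))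
        (φ (Function.update (Function.update P j v) i y)) = d x y := by
    intro P j v hiso
    have hpath := conn_label S b hb (P j) v
    induction hpath with
    | refl => simpa only [Function.update_eq_self] using hiso
    | @tail u u' _ huu ih =>
      have h1 := hstep (Function.update P j u) j u' (by rw [Function.update_self]; exact huu) ih
      simpa only [Function.update_idem] using h1
  by_cases hex : ∃ P : ι → B,
      ∀ x y, d (φ (Function.update P i x)) (φ (Function.update P i y)) = d x y
  · obtain ⟨P, hP⟩ := hex
    left
    intro Q
    have hall : ∀ s : Finset ι, ∀ x y,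
        d (φ (Function.update (fun k => if k ∈ s then Q k else P k) i x))
          (φ (Function.update (fun k => if k ∈ s then Q k else P k) i y)) = d x y := by
      intro s
      induction s using Finset.induction_on with
      | empty => simpa using hP
      | @insert j s hj ih =>
        have h1 := hone _ j (Q j) ih
        have h2' : Function.update (fun k => if k ∈ s then Q k else P k) j (Q j) =
            fun k => if k ∈ insert j s then Q k else P k := by
          funext k
          by_cases hk : k = j
          · subst hk; simp
          · rw [Function.update_of_ne hk]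
            simp [hk]
        rwa [h2'] at h1
    have := hall Finset.univ
    simpa using this
  · right
    intro P
    exact (hdich P).resolve_left fun h => hex ⟨P, h⟩

end Pool.Agent.SIG
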