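import Pool.Agent.SIG.MV
import Pool.Agent.SIG.PATH
import Pool.Agent.SIG.HF

namespace Pool.Agent.SIG

/-- the automorphisms that carry the standard pairs to the coordinates of a place -/
private theorem upc_auts {ι A B : Type*} [Countable B] {e : A}
    {T : A → A → A → Prop} {d : B → B → A} (S : USys e T d)
    (a b : A) (P Q : ι → B) (ht : ∀ c, d (P c) (Q c) = a ∨ d (P c) (Q c) = b)
    (u v y y' : B) (huv : d u v = a) (hyy : d y y' = b) :
    ∃ γ : ι → B ≃ B, (∀ c, AutL d (fun _ : B => ()) (γ c)) ∧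
      (∀ c, d (P c) (Q c) = a → γ c u = P c ∧ γ c v = Q c) ∧
      (∀ c, ¬ d (P c) (Q c) = a → γ c y = P c ∧ γ c y' = Q c) := by
  classical
  have key : ∀ (x x' z z' : B), d x x' = d z z' → ∃ γ : B ≃ B, AutL d (fun _ : B => ()) γ ∧
      γ x = z ∧ γ x' = z' := by
    intro x x' z z' h
    obtain ⟨γ, h1, h2⟩ := homog S ![x, x'] ![z, z'] (by
      intro i j
      fin_cases i <;> fin_cases j
      · simp [Sys.dself S]
      · simpa using h
      · simpa [S.dsymm x' x, S.dsymm z' z] using h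
      · simp [Sys.dself S]) (fun _ => rfl)
    exact ⟨γ, h1, by simpa using h2 0, by simpa using h2 1⟩
  have h0 : ∀ c, ∃ γ : B ≃ B, AutL d (fun _ : B => ()) γ ∧
      (d (P c) (Q c) = a → γ u = P c ∧ γ v = Q c) ∧
      (¬ d (P c) (Q c) = a → γ y = P c ∧ γ y' = Q c) := by
    intro c
    by_cases hc : d (P c) (Q c) = a
    · obtain ⟨γ, h1, h2, h3⟩ := key u v (P c) (Q c) (huv.trans hc.symm)
      exact ⟨γ, h1, fun _ => ⟨h2, h3⟩, fun h => absurd hc h⟩
    · have hc' : d (P c) (Q c) = b := (ht c).resolve_left hc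
      obtain ⟨γ, h1, h2, h3⟩ := key y y' (P c) (Q c) (hyy.trans hc'.symm)
      exact ⟨γ, h1, fun h => absurd h hc, fun _ => ⟨h2, h3⟩⟩
  choose γ h1 h2 h3 using h0
  exact ⟨γ, h1, h2, h3⟩

/-- the binary minor -/
private theorem upc_pol2 {ι A B : Type*} {d : B → B → A} (φ : (ι → B) → B) (hφ : Pol d φ)
    (γ : ι → B ≃ B) (hγ : ∀ c, AutL d (fun _ : B => ()) (γ c)) (s : ι → Prop)
    [DecidablePred s] :
    Pol2 d (fun p q => φ (fun c => if s c then γ c p else γ c q)) := by
  intro x x' y y'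
  obtain ⟨c, hc⟩ := hφ (fun c => if s c then γ c x else γ c y)
    (fun c => if s c then γ c x' else γ c y')
  by_cases h : s c
  · left
    rw [hc, if_pos h, if_pos h, (hγ c).1]
  · right
    rw [hc, if_neg h, if_neg h, (hγ c).1]

private theorem upc_irel {ι A B : Type*} {d : B → B → A} :
    IRel d (fun _ : B => ()) (fun X Y X' Y' : ι → B =>
      ∀ φ : (ι → B) → B, Pol d φ → d (φ X') (φ Y') = d (φ X) (φ Y)) where
  inv := by
    intro γ hγ P Q P' Q' h φ hφ
    refine h (fun X => φ (act γ X)) ?_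
    intro X Y
    obtain ⟨c, hc⟩ := hφ (act γ X) (act γ Y)
    refine ⟨c, ?_⟩
    rw [hc]
    exact (hγ c).1 _ _
  trans := fun _ _ _ _ _ _ _ _ h h' φ hφ => (h' φ hφ).trans (h φ hφ)

theorem up_canon {ι A B : Type*} [Finite ι] [Finite A] [Countable B] {e : A}
    {T : A → A → A → Prop} {d : B → B → A} (S : USys e T d) (hG : Good e T)
    (a b : A) (ha : a ≠ e) (hb : b ≠ e) (hab : a ≠ b) (hu : Unif d a b)
    (φ : (ι → B) → B) (hφ : Pol d φ) (P Q P' Q' : ι → B)
    (ht : ∀ c, d (P c) (Q c) = a ∨ d (P c) (Q c) = b)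
    (hs : ∀ c, d (P' c) (Q' c) = d (P c) (Q c)) : d (φ P') (φ Q') = d (φ P) (φ Q) := by
  classical
  obtain ⟨u, v, huv⟩ := exists_label S a
  obtain ⟨y, y', hyy⟩ := exists_label S b
  -- second pairs avoiding the first ones
  have hex : ∀ a' : A, a' ≠ e → ∀ u v : B, ∃ w w' : B, d w w' = a' ∧ w ≠ u ∧ w ≠ v ∧
      w' ≠ u ∧ w' ≠ v := by
    intro a' ha' u v
    obtain ⟨w, hw, -, -⟩ := fresh S hG ∅ (fun _ => a') () (by simp) (by simp) ⟨a, ha⟩ {u, v}
    obtain ⟨w', hw', -, h⟩ := fresh S hG {w} (fun _ => a') () (by simpa using ha') (by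
      intro x hx z hz
      rw [Finset.mem_singleton] at hx hz
      subst hx
      subst hz
      rw [Sys.dself S]
      exact Sys.aae S a') ⟨a, ha⟩ {u, v}
    simp only [Finset.mem_insert, Finset.mem_singleton, not_or] at hw hw'
    refine ⟨w, w', ?_, hw.1, hw.2, hw'.1, hw'.2⟩
    rw [S.dsymm]
    exact h w (by simp)
  obtain ⟨u', v', huv', hu1, hu2, hv1, hv2⟩ := hex a ha u v
  obtain ⟨z, z', hzz, hz1, hz2, hz3, hz4⟩ := hex b hb y y'
  obtain ⟨γ, hγ, hγa, hγb⟩ := upc_auts S a b P Q ht u v y y' huv hyy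
  have hR := upc_irel (ι := ι) (d := d)
  -- the moved place
  let P'' : ι → B := fun c => if d (P c) (Q c) = a then γ c u' else γ c z
  let Q'' : ι → B := fun c => if d (P c) (Q c) = a then γ c v' else γ c z'
  have hP0 : ∀ c, (if d (P c) (Q c) = a then γ c u else γ c y) = P c := by
    intro c
    by_cases h : d (P c) (Q c) = a
    · rw [if_pos h, (hγa c h).1]
    · rw [if_neg h, (hγb c h).1]
  have hQ0 : ∀ c, (if d (P c) (Q c) = a then γ c v else γ c y') = Q c := by
    intro c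
    by_cases h : d (P c) (Q c) = a
    · rw [if_pos h, (hγa c h).2]
    · rw [if_neg h, (hγb c h).2]
  have hs'' : SameT d (fun _ : B => ()) P Q P'' Q'' := by
    intro c
    refine ⟨?_, rfl, rfl⟩
    by_cases h : d (P c) (Q c) = a
    · simp only [P'', Q'', if_pos h]
      rw [(hγ c).1, huv', h]
    · simp only [P'', Q'', if_neg h]
      rw [(hγ c).1, hzz, (ht c).resolve_left h]
  have hmove : ∀ φ : (ι → B) → B, Pol d φ → d (φ P'') (φ Q'') = d (φ P) (φ Q) := by
    intro φ hφ
    have h1 := hu _ (upc_pol2 φ hφ γ hγ (fun c => d (P c) (Q c) = a))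
    have e1 : (fun c => if d (P c) (Q c) = a then γ c u else γ c y) = P := funext hP0
    have e2 : (fun c => if d (P c) (Q c) = a then γ c v else γ c y') = Q := funext hQ0
    rcases h1 with h1 | h1
    · have h3 := h1 u v y y' (Or.inl ⟨huv, hyy⟩)
      have h4 := h1 u' v' z z' (Or.inl ⟨huv', hzz⟩)
      simp only [e1, e2] at h3
      exact h4.trans (huv'.trans (huv.symm.trans h3.symm))
    · have h3 := h1 u v y y' (Or.inl ⟨huv, hyy⟩)
      have h4 := h1 u' v' z z' (Or.inl ⟨huv', hzz⟩)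
      simp only [e1, e2] at h3
      exact h4.trans (hzz.trans (hyy.symm.trans h3.symm))
  have hne : ∀ c, d (P c) (Q c) ≠ e := by
    intro c
    rcases ht c with h | h <;> rw [h]
    · exact ha
    · exact hb
  have hPP : ∀ c, P'' c ≠ P c ∧ P'' c ≠ Q c ∧ Q'' c ≠ P c ∧ Q'' c ≠ Q c := by
    intro c
    by_cases h : d (P c) (Q c) = a
    · simp only [P'', Q'', if_pos h]
      rw [← (hγa c h).1, ← (hγa c h).2]
      exact ⟨fun h' => hu1 ((γ c).injective h'), fun h' => hu2 ((γ c).injective h'),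
        fun h' => hv1 ((γ c).injective h'), fun h' => hv2 ((γ c).injective h')⟩
    · simp only [P'', Q'', if_neg h]
      rw [← (hγb c h).1, ← (hγb c h).2]
      exact ⟨fun h' => hz1 ((γ c).injective h'), fun h' => hz2 ((γ c).injective h'),
        fun h' => hz3 ((γ c).injective h'), fun h' => hz4 ((γ c).injective h')⟩
  refine path S hG hR P Q P' Q' (fun c => ⟨(hs c).symm, rfl, rfl⟩) hne
    (fun c _ => slot_first S hG hR P Q P'' Q'' hs'' hmove c (hne c) (hPP c).1 (hPP c).2.1)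
    (fun c _ => slot_second S hG hR P Q P'' Q'' hs'' hmove c (hne c) (hPP c).2.2.1
      (hPP c).2.2.2) (fun _ _ => rfl) φ hφ

theorem up_dual {ι A B : Type*} [Finite ι] [Finite A] [Countable B] {e : A}
    {T : A → A → A → Prop} {d : B → B → A} (S : USys e T d) (hG : Good e T)
    (a b : A) (ha : a ≠ e) (hb : b ≠ e) (hab : a ≠ b) (hu : Unif d a b)
    (φ : (ι → B) → B) (hφ : Pol d φ) (P Q P' Q' : ι → B)
    (ht : ∀ c, (d (P c) (Q c) = a ∧ d (P' c) (Q' c) = b) ∨
      (d (P c) (Q c) = b ∧ d (P' c) (Q' c) = a)) :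
    (d (φ P) (φ Q) = a ∧ d (φ P') (φ Q') = b) ∨ (d (φ P) (φ Q) = b ∧ d (φ P') (φ Q') = a) := by
  classical
  obtain ⟨u, v, huv⟩ := exists_label S a
  obtain ⟨y, y', hyy⟩ := exists_label S b
  obtain ⟨γ, hγ, hγa, hγb⟩ := upc_auts S a b P Q
    (fun c => (ht c).imp (fun h => h.1) (fun h => h.1)) u v y y' huv hyy
  have e1 : (fun c => if d (P c) (Q c) = a then γ c u else γ c y) = P := by
    funext c
    by_cases h : d (P c) (Q c) = a
    · rw [if_pos h, (hγa c h).1]
    · rw [if_neg h, (hγb c h).1]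
  have e2 : (fun c => if d (P c) (Q c) = a then γ c v else γ c y') = Q := by
    funext c
    by_cases h : d (P c) (Q c) = a
    · rw [if_pos h, (hγa c h).2]
    · rw [if_neg h, (hγb c h).2]
  have h2 : d (φ P') (φ Q') = d (φ (fun c => if d (P c) (Q c) = a then γ c y else γ c u))
      (φ (fun c => if d (P c) (Q c) = a then γ c y' else γ c v)) := by
    refine up_canon S hG a b ha hb hab hu φ hφ _ _ P' Q' ?_ ?_
    · intro c
      by_cases h : d (P c) (Q c) = a
      · right
        rw [if_pos h, if_pos h, (hγ c).1, hyy]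
      · left
        rw [if_neg h, if_neg h, (hγ c).1, huv]
    · intro c
      by_cases h : d (P c) (Q c) = a
      · rw [if_pos h, if_pos h, (hγ c).1, hyy]
        rcases ht c with h' | h'
        · exact h'.2
        · exact absurd (h.symm.trans h'.1) hab
      · rw [if_neg h, if_neg h, (hγ c).1, huv]
        rcases ht c with h' | h'
        · exact absurd h'.1 h
        · exact h'.2
  have h1 := hu _ (upc_pol2 φ hφ γ hγ (fun c => d (P c) (Q c) = a))
  rcases h1 with h1 | h1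
  · left
    have h3 := h1 u v y y' (Or.inl ⟨huv, hyy⟩)
    have h4 := h1 y y' u v (Or.inr ⟨hyy, huv⟩)
    simp only [e1, e2] at h3
    exact ⟨h3.trans huv, h2.trans (h4.trans hyy)⟩
  · right
    have h3 := h1 u v y y' (Or.inl ⟨huv, hyy⟩)
    have h4 := h1 y y' u v (Or.inr ⟨hyy, huv⟩)
    simp only [e1, e2] at h3
    exact ⟨h3.trans hyy, h2.trans (h4.trans huv)⟩

end Pool.Agent.SIG
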